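import Pool.Agent.Lib.MP_69a69c_lc.Census

/-!
# Sparse sets complete for NP under threshold reductions of bounded degree
-/

namespace Pool.Agent.SparseNP

open Pool.Agent.PolyTime

/-! ### lists over a finite set -/

/-- all lists of length at most `k` with entries in `L` -/
def listsG {α : Type} : ℕ → List α → List (List α)
  | 0, _ => [[]]
  | k + 1, L => [] :: L.flatMap fun i => (listsG k L).map fun M => i :: M

theorem mem_listsG {α : Type} (L : List α) : ∀ (k : ℕ) (M : List α),
    M.length ≤ k → (∀ i ∈ M, i ∈ L) → M ∈ listsG k L := by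
  intro k
  induction k with
  | zero => intro M h _; cases M <;> simp [listsG] at h ⊢
  | succ k ih =>
    intro M h1 h2
    cases M with
    | nil => simp [listsG]
    | cons i M =>
      simp only [listsG, List.mem_cons, List.mem_flatMap, List.mem_map]
      exact Or.inr ⟨i, h2 i (List.mem_cons_self ..), M, ih M (by simpa using h1)
        (fun j hj => h2 j (List.mem_cons_of_mem _ hj)), rfl⟩

theorem listsG_length {α : Type} (L : List α) : ∀ k : ℕ,
    (listsG k L).length ≤ (L.length + 1) ^ k := by
  intro k
  induction k with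
  | zero => simp [listsG]
  | succ k ih =>
    have h : (listsG (k + 1) L).length = L.length * (listsG k L).length + 1 := by
      simp [listsG, List.length_flatMap]
    rw [h, pow_succ]
    have h1 : 1 ≤ (L.length + 1) ^ k := Nat.one_le_pow _ _ (by omega)
    nlinarith

theorem card_lists {α : Type} [DecidableEq α] (F : Finset α) (k : ℕ) (s : Finset (List α))
    (hs : ∀ M ∈ s, M.length ≤ k ∧ ∀ i ∈ M, i ∈ F) : s.card ≤ (F.card + 1) ^ k := by
  have h1 : s ⊆ (listsG k F.toList).toFinset := by
    intro M hM
    rw [List.mem_toFinset]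
    exact mem_listsG _ k M (hs M hM).1 fun i hi => Finset.mem_toList.2 ((hs M hM).2 i hi)
  refine (Finset.card_le_card h1).trans ((List.toFinset_card_le _).trans ?_)
  have := listsG_length F.toList k
  rwa [Finset.length_toList] at this

/-! ### positions -/

/-- list of positions -/
def idx3 (n : ℕ) : List (ℕ × ℕ × ℕ) := List.range n ×ˢ (List.range n ×ˢ List.range n)

theorem idx3_nodup (n : ℕ) : (idx3 n).Nodup :=
  List.nodup_range.product (List.nodup_range.product List.nodup_range)

theorem idx3_toFinset (n : ℕ) : (idx3 n).toFinset = pos3 n := by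
  ext ⟨a, b, c⟩
  simp [idx3, pos3, List.mem_product]

theorem idx3_length (n : ℕ) : (idx3 n).length = n ^ 3 := by
  simp [idx3, List.length_product]
  ring

theorem half_of_sum (n : ℕ) (z : ℕ × ℕ × ℕ → Bool)
    (h : 0 ≤ ∑ κ ∈ pos3 n, sgn (z κ)) :
    (idx3 n).length ≤ 2 * ((idx3 n).filter fun κ => z κ).length := by
  rw [← idx3_toFinset, List.sum_toFinset _ (idx3_nodup n)] at h
  have key : ∀ I : List (ℕ × ℕ × ℕ), (I.map fun κ => sgn (z κ)).sum =
      2 * ((I.filter fun κ => z κ).length : ℤ) - I.length := by
    intro I
    induction I with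
    | nil => simp
    | cons κ I ih =>
      rw [List.map_cons, List.sum_cons, ih, List.filter_cons]
      by_cases hz : z κ = true
      · simp [hz, sgn]
        ring
      · rw [Bool.not_eq_true] at hz
        simp [hz, sgn]
        ring
  rw [key] at h
  omega

/-! ### primes -/

/-- primality test by the divisors in a list -/
def isPr (R : List ℕ) (n : ℕ) : Bool :=
  decide (2 ≤ n) && R.all fun d => !(decide (2 ≤ d) && (decide (d < n) && decide (n % d = 0)))

theorem isPr_iff (m n : ℕ) (hn : n ≤ m) : isPr (List.range m) n = true ↔ n.Prime := by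
  unfold isPr
  rw [Bool.and_eq_true, decide_eq_true_eq, List.all_eq_true, Nat.prime_def_lt]
  refine and_congr_right fun h2 => ?_
  constructor
  · intro h d hd hdn
    have h3 := h d (List.mem_range.2 (by omega))
    simp only [Bool.not_eq_true', Bool.and_eq_false_iff, decide_eq_false_iff_not] at h3
    rcases h3 with h3 | h3 | h3
    · have h4 : d ≠ 0 := by
        rintro rfl
        rw [zero_dvd_iff] at hdn
        omega
      omega
    · exact absurd hd h3
    · exact absurd (Nat.mod_eq_zero_of_dvd hdn) h3
  · intro h d _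
    simp only [Bool.not_eq_true', Bool.and_eq_false_iff, decide_eq_false_iff_not]
    by_cases hd : d < n
    · by_cases hd2 : 2 ≤ d
      · right; right
        intro hc
        have := h d hd (Nat.dvd_of_mod_eq_zero hc)
        omega
      · exact Or.inl hd2
    · exact Or.inr (Or.inl hd)

/-- a prime between `M` and `2 M`, for a unary list of length `M` -/
def findPr (l : List Unit) : ℕ :=
  ((List.range (l ++ l ++ [()]).length).find? fun n =>
    decide (l.length < n) && isPr (List.range (l ++ l ++ [()]).length) n).getD 0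

theorem findPr_spec (l : List Unit) (hl : l.length ≠ 0) :
    (findPr l).Prime ∧ l.length < findPr l ∧ findPr l ≤ 2 * l.length := by
  obtain ⟨q, hq, h1, h2⟩ := Nat.exists_prime_lt_and_le_two_mul l.length hl
  unfold findPr
  have hlen : (l ++ l ++ [()]).length = 2 * l.length + 1 := by
    simp only [List.length_append, List.length_singleton]
    omega
  rw [hlen]
  cases hf : (List.range (2 * l.length + 1)).find? (fun n =>
      decide (l.length < n) && isPr (List.range (2 * l.length + 1)) n) with
  | none =>
    exfalso
    rw [List.find?_eq_none] at hf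
    have := hf q (List.mem_range.2 (by omega))
    rw [Bool.and_eq_true, decide_eq_true_eq, isPr_iff _ _ (by omega)] at this
    exact this ⟨h1, hq⟩
  | some r =>
    have h3 := List.mem_of_find?_eq_some hf
    have h4 := List.find?_some hf
    rw [List.mem_range] at h3
    rw [Bool.and_eq_true, decide_eq_true_eq, isPr_iff _ _ (by omega)] at h4
    simp only [Option.getD_some]
    exact ⟨h4.2, h4.1, by omega⟩

section
variable {α : Type} [Enc α]

theorem ptime_isPr {R : α → List ℕ} {n : α → ℕ} (hR : PTime R) (hn : PTime n) :
    PTime (fun x => isPr (R x) (n x)) := by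
  unfold isPr
  refine (PTime.le (PTime.const 2) hn).and (PTime.all (g := fun (x : α) (d : ℕ) =>
    !(decide (2 ≤ d) && (decide (d < n x) && decide (n x % d = 0)))) hR ?_)
  have hn' := hn.comp (PTime.fst (α := α) (β := ℕ))
  exact ((PTime.le (PTime.const 2) PTime.snd).and ((PTime.lt PTime.snd hn').and
    (PTime.eq (PTime.mod hn' PTime.snd) (PTime.const 0)))).not

theorem ptime_findPr {f : α → List Unit} (hf : PTime f) : PTime (fun x => findPr (f x)) := by
  unfold findPr
  have h1 : PTime (fun x => f x ++ f x ++ [()]) := (hf.append hf).append (PTime.const [()])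
  have h2 := PTime.rangeLength h1
  refine PTime.getD (PTime.find? (g := fun (x : α) (n : ℕ) =>
    decide ((f x).length < n) && isPr (List.range (f x ++ f x ++ [()]).length) n) h2 ?_)
    (PTime.const 0)
  exact (PTime.lt (hf.comp PTime.fst).length PTime.snd).and
    (ptime_isPr (h2.comp PTime.fst) PTime.snd)

theorem ptime_idx3 {f : α → ℕ} {g : α → List Unit} (hf : PTime f) (hg : PTime g)
    (h : ∀ x, f x ≤ (g x).length) : PTime (fun x => idx3 (f x)) := by
  have hr : PTime (fun x => List.range (f x)) := PTime.rangeLe hf hg h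
  have h2 : PTime (fun x => (List.range (f x)).flatMap fun b =>
      (List.range (f x)).map fun c => (b, c)) :=
    PTime.flatMap (g := fun (x : α) (b : ℕ) => (List.range (f x)).map fun c => (b, c)) hr
      (PTime.map (g := fun (z : α × ℕ) (c : ℕ) => (z.2, c)) (hr.comp PTime.fst)
        ((PTime.snd' PTime.fst).pair PTime.snd))
  exact PTime.flatMap (g := fun (x : α) (a : ℕ) => ((List.range (f x)).flatMap fun b =>
      (List.range (f x)).map fun c => (b, c)).map fun bc => (a, bc)) hr
      (PTime.map (g := fun (z : α × ℕ) (bc : ℕ × ℕ) => (z.2, bc)) (h2.comp PTime.fst)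
        ((PTime.snd' PTime.fst).pair PTime.snd))

end

/-! ### the algorithm -/

section algo

variable (V : List Bool × List Bool → Bool) (pL : Polynomial ℕ) (f : List Bool → LL × LL)

/-- first list of the query -/
def qryP (x : List Bool) (c l p : ℕ) (κ : ℕ × ℕ × ℕ) : LL := (f (wd (x, (c, (l, (p, κ)))))).1

/-- second list of the query -/
def qryQ (x : List Bool) (c l p : ℕ) (κ : ℕ × ℕ × ℕ) : LL := (f (wd (x, (c, (l, (p, κ)))))).2

/-- the test of a candidate -/
def passV (x : List Bool) (c p T : ℕ) (v : List Bool) : Bool :=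
  passes (idx3 p) (qryP f x c v.length p) (qryQ f x c v.length p) T fun κ => codeBit p κ v

/-- one level -/
def level2 (x : List Bool) (c p T K : ℕ) (C : List (List Bool)) : List (List Bool) :=
  ((children C).filter fun v => passV f x c p T v).take K

/-- the search for a given census -/
def search2 (x : List Bool) (c p T K : ℕ) : List (List Bool) :=
  (List.replicate (pL.eval x.length) ()).foldl (fun C _ => level2 f x c p T K C) [[]]

/-- the algorithm; `P1`, `P2`, `P3`, `P4` are polynomials and `k0` is a constant -/
def alg2 (P1 P2 P3 P4 : Polynomial ℕ) (k0 : ℕ) (x : List Bool) : Bool :=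
  (List.range ((List.replicate (P4.eval (x ++ List.replicate k0 false).length) ()).length)).any
    fun c => (search2 pL f x c
      (findPr (List.replicate (P1.eval (x ++ List.replicate k0 false).length) ()))
      (P2.eval (x ++ List.replicate k0 false).length)
      (P3.eval (x ++ List.replicate k0 false).length)).any fun v =>
        decide (v.length = pL.eval x.length) && V (x, v)

end algo

theorem level2_props {f : List Bool → LL × LL} {x : List Bool} {c p T K : ℕ}
    {C : List (List Bool)} {n : ℕ} (hC : ∀ v ∈ C, v.length = n)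
    (hs : C.Pairwise fun v v' => ofBits v < ofBits v') :
    (∀ v ∈ level2 f x c p T K C, v.length = n + 1) ∧
    (level2 f x c p T K C).Pairwise (fun v v' => ofBits v < ofBits v') ∧
    (level2 f x c p T K C).length ≤ K := by
  unfold level2
  refine ⟨fun v hv => ?_, ?_, ?_⟩
  · exact children_length hC v (List.mem_of_mem_filter (List.mem_of_mem_take hv))
  · exact ((children_sorted hs).filter _).take
  · exact List.length_take_le _ _

theorem fold2_props (f : List Bool → LL × LL) (x : List Bool) (c p T K : ℕ) : ∀ n : ℕ,
    (∀ v ∈ (List.replicate n ()).foldl (fun C _ => level2 f x c p T K C) [[]],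
      v.length = n) ∧
    ((List.replicate n ()).foldl (fun C _ => level2 f x c p T K C) [[]]).Pairwise
      (fun v v' => ofBits v < ofBits v') ∧
    ((List.replicate n ()).foldl (fun C _ => level2 f x c p T K C) [[]]).length ≤ K + 1 := by
  intro n
  induction n with
  | zero => simp
  | succ n ih =>
    rw [foldl_replicate (fun C => level2 f x c p T K C)]
    have h := level2_props (f := f) (x := x) (c := c) (p := p) (T := T) (K := K) ih.1 ih.2.1
    exact ⟨h.1, h.2.1, h.2.2.trans (Nat.le_succ _)⟩

/-- one level keeps the right candidate -/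
theorem level2_mem {f : List Bool → LL × LL} {S : Set (List Bool)} {x w : List Bool}
    {c p T K B k m N : ℕ} (hp : p.Prime) (hodd : p % 2 = 1) {C : List (List Bool)} {n : ℕ}
    (hn : n < N) (hC : ∀ v ∈ C, v.length = n)
    (hs : C.Pairwise fun v v' => ofBits v < ofBits v') (hw : w.length = N)
    (hval : ∀ κ ∈ idx3 p, (codeBit p κ (w.drop (N - (n + 1))) = true ↔
      cnt S (qryQ f x c (n + 1) p κ) < cnt S (qryP f x c (n + 1) p κ)))
    (hB : ∀ κ ∈ idx3 p, (qryP f x c (n + 1) p κ).length + (qryQ f x c (n + 1) p κ).length ≤ B)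
    (hk : ∀ κ ∈ idx3 p, ∀ A ∈ qryP f x c (n + 1) p κ ++ qryQ f x c (n + 1) p κ,
      A.length ≤ k ∧ ∀ s ∈ A, s.length ≤ m)
    (hT : (census S m + 1) ^ k ≤ T)
    (hp' : 8 * T ^ 2 * B ^ 2 * (N + 1) ≤ p) (hK : 8 * T ^ 2 * B ^ 2 * (2 * T * B) ≤ K)
    (hmem : w.drop (N - n) ∈ C) :
    w.drop (N - (n + 1)) ∈ level2 f x c p T K C := by
  classical
  haveI : Fact p.Prime := ⟨hp⟩
  have hch := children_length hC
  have hchs := children_sorted hs
  have hi : N - (n + 1) < w.length := by omega
  have hcons : w.drop (N - (n + 1)) = w[N - (n + 1)] :: w.drop (N - n) := by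
    rw [List.drop_eq_getElem_cons hi]
    congr 2
    omega
  have hv : w.drop (N - (n + 1)) ∈ children C := by
    rw [hcons]
    refine List.mem_flatMap.2 ⟨_, hmem, ?_⟩
    cases w[N - (n + 1)] <;> simp
  generalize hv' : w.drop (N - (n + 1)) = v' at *
  have hlen := hch v' hv
  have hpos : 0 < (idx3 p).length := by
    rw [idx3_length]
    exact Nat.pow_pos hp.pos
  have hpass : passV f x c p T v' = true := by
    unfold passV
    rw [hlen]
    refine passes_of_eval (fun A : List (List Bool) => ∀ y ∈ A, y ∈ S) (idx3 p) hpos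
      (qryP f x c (n + 1) p) (qryQ f x c (n + 1) p) _ T ?_ ?_ ?_
    · intro κ hκ
      rw [hval κ hκ]
      unfold cnt cntP
      constructor <;> intro h <;> convert h
    · intro s hs'
      have hfin := census_finite S m
      refine (card_lists hfin.toFinset k s ?_).trans ?_
      · intro A hA
        obtain ⟨h1, h2⟩ := hs' A hA
        unfold posL at h2
        obtain ⟨κ, hκ, h2⟩ := List.mem_flatMap.1 h2
        have h3 := hk κ hκ A (by
          rw [List.mem_append]
          split at h2
          · exact Or.inl h2
          · exact Or.inr h2)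
        exact ⟨h3.1, fun y hy => (Set.Finite.mem_toFinset _).2 ⟨h1 y hy, h3.2 y hy⟩⟩
      · rw [← Set.ncard_eq_toFinset_card _ hfin]
        exact hT
    · refine half_of_sum p _ ?_
      rw [code_sum hodd v']
      positivity
  have hfil : v' ∈ (children C).filter fun v => passV f x c p T v :=
    List.mem_filter.2 ⟨hv, hpass⟩
  unfold level2
  rw [List.take_of_length_le]
  · exact hfil
  · refine le_trans ?_ hK
    have hnd : ((children C).filter fun v => passV f x c p T v).Nodup := by
      refine List.Nodup.filter _ ?_
      exact hchs.imp fun {a b} h hab => by rw [hab] at h; exact lt_irrefl _ h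
    rw [← List.toFinset_card_of_nodup hnd]
    have hmemF : ∀ v ∈ ((children C).filter fun v => passV f x c p T v).toFinset,
        v.length = n + 1 ∧ passV f x c p T v = true := by
      intro v hv
      rw [List.mem_toFinset, List.mem_filter] at hv
      exact ⟨hch v hv.1, hv.2⟩
    refine passes_card (V := List Bool) (idx3 p) (idx3_nodup p) hpos (qryP f x c (n + 1) p)
      (qryQ f x c (n + 1) p) B T ((n + 1) * p ^ 2 + p) hB _ (fun v κ => codeBit p κ v) ?_ ?_ ?_
    · intro v hv v'' hv'' hne
      rw [idx3_toFinset]
      have h1 := code_corr (p := p) hodd v v''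
        (by rw [(hmemF v hv).1, (hmemF v'' hv'').1]) hne
      rw [(hmemF v hv).1] at h1
      push_cast at h1 ⊢
      exact h1
    · rw [idx3_length]
      have h1 : (n + 1) * p ^ 2 + p ≤ (N + 1) * p ^ 2 := by
        have h2 : p ≤ p ^ 2 := Nat.le_self_pow (by norm_num) p
        have h3 : (n + 1 + 1) * p ^ 2 ≤ (N + 1) * p ^ 2 := Nat.mul_le_mul_right _ (by omega)
        have h4 : (n + 1 + 1) * p ^ 2 = (n + 1) * p ^ 2 + p ^ 2 := by ring
        omega
      calc 8 * T ^ 2 * B ^ 2 * ((n + 1) * p ^ 2 + p)
          ≤ 8 * T ^ 2 * B ^ 2 * ((N + 1) * p ^ 2) := Nat.mul_le_mul_left _ h1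
        _ = (8 * T ^ 2 * B ^ 2 * (N + 1)) * p ^ 2 := by ring
        _ ≤ p * p ^ 2 := Nat.mul_le_mul_right _ hp'
        _ = p ^ 3 := by ring
    · intro v hv
      have h1 := (hmemF v hv).2
      unfold passV at h1
      rw [(hmemF v hv).1] at h1
      exact h1

/-- the search finds the maximal certificate -/
theorem search2_mem {f : List Bool → LL × LL} {S : Set (List Bool)} {pL : Polynomial ℕ}
    {x w : List Bool} {c p T K B k m : ℕ} (hp : p.Prime) (hodd : p % 2 = 1)
    (hw : w.length = pL.eval x.length)
    (hval : ∀ n < pL.eval x.length, ∀ κ ∈ idx3 p,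
      (codeBit p κ (w.drop (pL.eval x.length - (n + 1))) = true ↔
      cnt S (qryQ f x c (n + 1) p κ) < cnt S (qryP f x c (n + 1) p κ)))
    (hB : ∀ n < pL.eval x.length, ∀ κ ∈ idx3 p,
      (qryP f x c (n + 1) p κ).length + (qryQ f x c (n + 1) p κ).length ≤ B)
    (hk : ∀ n < pL.eval x.length, ∀ κ ∈ idx3 p,
      ∀ A ∈ qryP f x c (n + 1) p κ ++ qryQ f x c (n + 1) p κ,
      A.length ≤ k ∧ ∀ s ∈ A, s.length ≤ m)
    (hT : (census S m + 1) ^ k ≤ T)
    (hp' : 8 * T ^ 2 * B ^ 2 * (pL.eval x.length + 1) ≤ p)
    (hK : 8 * T ^ 2 * B ^ 2 * (2 * T * B) ≤ K) :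
    w ∈ search2 pL f x c p T K := by
  have key : ∀ n : ℕ, n ≤ pL.eval x.length → w.drop (pL.eval x.length - n) ∈
      (List.replicate n ()).foldl (fun C _ => level2 f x c p T K C) [[]] := by
    intro n
    induction n with
    | zero =>
      intro _
      rw [Nat.sub_zero, ← hw, List.drop_length]
      simp
    | succ n ih =>
      intro hn
      rw [foldl_replicate (fun C => level2 f x c p T K C)]
      have h := fold2_props f x c p T K n
      exact level2_mem hp hodd (by omega) h.1 h.2.1 hw (hval n (by omega)) (hB n (by omega))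
        (hk n (by omega)) hT hp' hK (ih (by omega))
  have h1 := key _ le_rfl
  rw [Nat.sub_self, List.drop_zero] at h1
  exact h1

end Pool.Agent.SparseNP
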