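import Pool.Agent.Lib.MP_69a69c_lc.TDefs

/-!
# Gaussian elimination modulo several primes, on lists
-/

namespace Pool.Agent.SparseNP

/-- remainder, `0` for modulus `0` -/
def md (a p : ℕ) : ℕ := if p = 0 then 0 else a % p

/-- coefficient of a monomial -/
def coef (P : List (ℕ × List ℕ)) (M : List ℕ) : ℕ :=
  ((P.filter fun t => decide (t.2 = M)).map fun t => t.1).sum

/-- vector of coefficients -/
def dense (idx : List (List ℕ)) (p : ℕ) (P : List (ℕ × List ℕ)) : List ℕ :=
  idx.map fun M => md (coef P M) p

/-- elements of a basis: prime, pivot, vector -/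
abbrev BE := ℕ × (ℕ × List ℕ)

/-- one elimination step -/
def red (b : BE) (p : ℕ) (v : List ℕ) : List ℕ :=
  if b.1 = p then
    (v.zip b.2.2).map fun t =>
      md (t.1 * (b.2.2.getD b.2.1 0) + (p - v.getD b.2.1 0) * t.2) p
  else v

/-- elimination by a basis -/
def reduce (B : List BE) (p : ℕ) (v : List ℕ) : List ℕ := B.foldl (fun v b => red b p v) v

/-- first nonzero position -/
def pivot (v : List ℕ) : Option ℕ := (List.range v.length).find? fun j => decide (v.getD j 0 ≠ 0)

/-- insert a polynomial -/
def insertP (idx : List (List ℕ)) (p : ℕ) (B : List BE) (P : List (ℕ × List ℕ)) : List BE :=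
  match pivot (reduce B p (dense idx p P)) with
  | none => B
  | some j => B ++ [(p, (j, reduce B p (dense idx p P)))]

/-- insert a system -/
def insertS (idx : List (List ℕ)) (p : ℕ) (B : List BE) (Z : List (List (ℕ × List ℕ))) :
    List BE := Z.foldl (insertP idx p) B

theorem md_lt {a p : ℕ} (hp : 0 < p) : md a p < p := by
  unfold md; rw [if_neg (by omega)]; exact Nat.mod_lt _ hp

theorem md_modEq (a : ℕ) {p : ℕ} (hp : 0 < p) : ((md a p : ℕ) : ℤ) ≡ a [ZMOD p] := by
  unfold md; rw [if_neg (by omega)]
  push_cast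
  exact Int.mod_modEq _ _

/-! ### values of vectors -/

/-- value of a vector -/
def valv (τ : ℕ → ℤ) (idx : List (List ℕ)) (v : List ℕ) : ℤ := value τ (v.zip idx)

theorem value_cons (τ : ℕ → ℤ) (t : ℕ × List ℕ) (P : List (ℕ × List ℕ)) :
    value τ (t :: P) = (t.1 : ℤ) * (t.2.map τ).prod + value τ P := by
  simp [value]

@[simp] theorem value_nil (τ : ℕ → ℤ) : value τ [] = 0 := rfl

theorem value_append (τ : ℕ → ℤ) (P Q : List (ℕ × List ℕ)) :
    value τ (P ++ Q) = value τ P + value τ Q := by
  simp [value]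

theorem coef_cons (t : ℕ × List ℕ) (P : List (ℕ × List ℕ)) (M : List ℕ) :
    coef (t :: P) M = (if t.2 = M then t.1 else 0) + coef P M := by
  unfold coef
  rw [List.filter_cons]
  by_cases h : t.2 = M <;> simp [h]

theorem valv_map (τ : ℕ → ℤ) (idx : List (List ℕ)) (g : List ℕ → ℕ) :
    valv τ idx (idx.map g) = (idx.map fun M => (g M : ℤ) * (M.map τ).prod).sum := by
  unfold valv
  induction idx with
  | nil => simp
  | cons M idx ih =>
    rw [List.map_cons, List.zip_cons_cons, value_cons, ih, List.map_cons, List.sum_cons]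

theorem sum_coef (τ : ℕ → ℤ) (idx : List (List ℕ)) (hnd : idx.Nodup) :
    ∀ P : List (ℕ × List ℕ), (∀ t ∈ P, t.2 ∈ idx) →
      (idx.map fun M => ((coef P M : ℕ) : ℤ) * (M.map τ).prod).sum = value τ P := by
  intro P
  induction P with
  | nil =>
    intro _
    simp [coef, value]
  | cons t P ih =>
    intro h
    rw [value_cons, ← ih fun t' ht' => h t' (List.mem_cons_of_mem _ ht')]
    have h1 : (fun M => ((coef (t :: P) M : ℕ) : ℤ) * (M.map τ).prod) =
        fun M => (if t.2 = M then (t.1 : ℤ) * (M.map τ).prod else 0) +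
          ((coef P M : ℕ) : ℤ) * (M.map τ).prod := by
      funext M
      rw [coef_cons]
      by_cases hM : t.2 = M <;> simp [hM, add_mul]
    rw [h1, List.sum_map_add]
    congr 1
    have h2 : t.2 ∈ idx := h t (List.mem_cons_self ..)
    rw [← List.sum_toFinset _ hnd]
    rw [Finset.sum_ite_eq]
    simp [h2]

theorem valv_congr (τ : ℕ → ℤ) (idx : List (List ℕ)) (p : ℕ) :
    ∀ (v w : List ℕ), v.length = w.length →
      (∀ i, ((v.getD i 0 : ℕ) : ℤ) ≡ w.getD i 0 [ZMOD p]) →
      valv τ idx v ≡ valv τ idx w [ZMOD p] := by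
  unfold valv
  induction idx with
  | nil => intro v w _ _; simp
  | cons M idx ih =>
    intro v w hl h
    cases v with
    | nil =>
      cases w with
      | nil => rfl
      | cons b w => simp at hl
    | cons a v =>
      cases w with
      | nil => simp at hl
      | cons b w =>
        rw [List.zip_cons_cons, List.zip_cons_cons, value_cons, value_cons]
        refine Int.ModEq.add (Int.ModEq.mul_right _ ?_) (ih v w (by simpa using hl) fun i => ?_)
        · simpa using h 0
        · simpa using h (i + 1)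

theorem getD_map_nat {α : Type} (l : List α) (g : α → ℕ) (i : ℕ) :
    (l.map g).getD i 0 = ((l[i]?).map g).getD 0 := by
  rw [List.getD_eq_getElem?_getD, List.getElem?_map]

theorem dense_length (idx : List (List ℕ)) (p : ℕ) (P : List (ℕ × List ℕ)) :
    (dense idx p P).length = idx.length := by simp [dense]

theorem dense_lt (idx : List (List ℕ)) {p : ℕ} (hp : 0 < p) (P : List (ℕ × List ℕ)) :
    ∀ e ∈ dense idx p P, e < p := by
  intro e he
  unfold dense at he
  obtain ⟨M, _, rfl⟩ := List.mem_map.1 he
  exact md_lt hp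

theorem valv_dense (τ : ℕ → ℤ) (idx : List (List ℕ)) (hnd : idx.Nodup) {p : ℕ} (hp : 0 < p)
    (P : List (ℕ × List ℕ)) (hP : ∀ t ∈ P, t.2 ∈ idx) :
    valv τ idx (dense idx p P) ≡ value τ P [ZMOD p] := by
  rw [← sum_coef τ idx hnd P hP, ← valv_map]
  refine valv_congr τ idx p _ _ (by simp [dense]) fun i => ?_
  unfold dense
  rw [getD_map_nat, getD_map_nat]
  cases idx[i]? with
  | none => rfl
  | some M => exact md_modEq _ hp

/-! ### one step -/

theorem red_length (b : BE) (p : ℕ) (v : List ℕ) (hb : b.2.2.length = v.length) :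
    (red b p v).length = v.length := by
  unfold red
  split
  · simp [hb]
  · rfl

theorem red_lt (b : BE) {p : ℕ} (hp : 0 < p) (v : List ℕ) (hv : ∀ e ∈ v, e < p) :
    ∀ e ∈ red b p v, e < p := by
  unfold red
  split
  · intro e he
    obtain ⟨M, _, rfl⟩ := List.mem_map.1 he
    exact md_lt hp
  · exact hv

theorem getD_lt {v : List ℕ} {p : ℕ} (hp : 0 < p) (hv : ∀ e ∈ v, e < p) (i : ℕ) :
    v.getD i 0 < p := by
  rw [List.getD_eq_getElem?_getD]
  cases h : v[i]? with
  | none => simpa using hp
  | some e => simpa using hv e (List.mem_of_getElem? h)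

/-- entries after a step -/
theorem red_getD (b : BE) (v : List ℕ) (hb : b.2.2.length = v.length) (i : ℕ)
    (hi : i < v.length) :
    (red b b.1 v).getD i 0 =
      md (v.getD i 0 * (b.2.2.getD b.2.1 0) + (b.1 - v.getD b.2.1 0) * b.2.2.getD i 0) b.1 := by
  have hi' : i < b.2.2.length := by omega
  have h : (v.zip b.2.2)[i]? = some (v[i], b.2.2[i]) :=
    List.getElem?_zip_eq_some.2 ⟨List.getElem?_eq_getElem hi, List.getElem?_eq_getElem hi'⟩
  unfold red
  rw [if_pos rfl, getD_map_nat, h]
  simp only [Option.map_some, Option.getD_some]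
  rw [List.getD_eq_getElem _ _ hi, List.getD_eq_getElem (l := b.2.2) (hn := hi')]

/-- a linear combination of vectors, evaluated -/
theorem valv_comb (τ : ℕ → ℤ) (idx : List (List ℕ)) (a c p : ℕ) (hp : 0 < p) :
    ∀ (v w : List ℕ), v.length = w.length →
      valv τ idx ((v.zip w).map fun t => md (t.1 * a + c * t.2) p) ≡
        a * valv τ idx v + c * valv τ idx w [ZMOD p] := by
  unfold valv
  induction idx with
  | nil => intro v w _; simp
  | cons M idx ih =>
    intro v w hl
    cases v with
    | nil =>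
      cases w with
      | nil => simp
      | cons b w => simp at hl
    | cons x v =>
      cases w with
      | nil => simp at hl
      | cons y w =>
        rw [List.zip_cons_cons, List.map_cons, List.zip_cons_cons, List.zip_cons_cons,
          List.zip_cons_cons, value_cons, value_cons, value_cons]
        have h1 := ih v w (by simpa using hl)
        have h2 : ((md (x * a + c * y) p : ℕ) : ℤ) ≡ (x * a + c * y : ℕ) [ZMOD p] := md_modEq _ hp
        have h3 := (h2.mul_right ((M.map τ).prod)).add h1
        refine h3.trans ?_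
        push_cast
        have e : ((x : ℤ) * a + c * y) * (M.map τ).prod +
            (a * value τ (v.zip idx) + c * value τ (w.zip idx)) =
            a * (x * (M.map τ).prod + value τ (v.zip idx)) +
            c * (y * (M.map τ).prod + value τ (w.zip idx)) := by ring
        rw [e]

/-- the element `b` has a valid form -/
structure BE.Ok (n q : ℕ) (b : BE) : Prop where
  prime : b.1.Prime
  le : b.1 ≤ q
  piv : b.2.1 < n
  len : b.2.2.length = n
  lt : ∀ e ∈ b.2.2, e < b.1
  ne : b.2.2.getD b.2.1 0 ≠ 0

/-- the vector `b` vanishes at `τ` -/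
def Van (τ : ℕ → ℤ) (idx : List (List ℕ)) (b : BE) : Prop := (b.1 : ℤ) ∣ valv τ idx b.2.2

theorem red_van (τ : ℕ → ℤ) (idx : List (List ℕ)) {n q : ℕ} {b : BE} (hb : b.Ok n q) (p : ℕ)
    (v : List ℕ) (hv : v.length = n) (hvan : Van τ idx b) :
    (p : ℤ) ∣ valv τ idx (red b p v) ↔ (p : ℤ) ∣ valv τ idx v := by
  unfold red
  split
  · rename_i h
    subst h
    have h1 := valv_comb τ idx (b.2.2.getD b.2.1 0) (b.1 - v.getD b.2.1 0) b.1 hb.prime.pos
      v b.2.2 (by rw [hv, hb.len])
    rw [h1.dvd_iff]
    have h2 : (b.1 : ℤ) ∣ ((b.1 - v.getD b.2.1 0 : ℕ) : ℤ) * valv τ idx b.2.2 :=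
      hvan.mul_left _
    rw [dvd_add_left h2]
    have h3 : Prime (b.1 : ℤ) := Nat.prime_iff_prime_int.1 hb.prime
    rw [h3.dvd_mul]
    constructor
    · rintro (h | h)
      · exfalso
        rw [Int.natCast_dvd_natCast] at h
        have h4 := Nat.le_of_dvd (Nat.pos_of_ne_zero hb.ne) h
        have h5 := getD_lt hb.prime.pos hb.lt b.2.1
        omega
      · exact h
    · exact Or.inr
  · exact Iff.rfl

theorem red_zero_self {n q : ℕ} {b : BE} (hb : b.Ok n q) (v : List ℕ) (hv : v.length = n)
    (hlt : ∀ e ∈ v, e < b.1) : (red b b.1 v).getD b.2.1 0 = 0 := by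
  rw [red_getD b v (by rw [hv, hb.len]) _ (by rw [hv]; exact hb.piv)]
  have h := getD_lt hb.prime.pos hlt b.2.1
  have e : v.getD b.2.1 0 * b.2.2.getD b.2.1 0 + (b.1 - v.getD b.2.1 0) * b.2.2.getD b.2.1 0 =
      b.1 * b.2.2.getD b.2.1 0 := by
    rw [← Nat.add_mul]; congr 1; omega
  rw [e]
  unfold md
  rw [if_neg (by have := hb.prime.pos; omega)]
  exact Nat.mul_mod_right _ _

theorem red_zero_other {n q : ℕ} {b : BE} (hb : b.Ok n q) (p : ℕ) (v : List ℕ)
    (hv : v.length = n) (i : ℕ) (hi : i < n) (h0 : v.getD i 0 = 0)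
    (hw : b.1 = p → b.2.2.getD i 0 = 0) : (red b p v).getD i 0 = 0 := by
  by_cases h : b.1 = p
  · subst h
    rw [red_getD b v (by rw [hv, hb.len]) _ (by rw [hv]; exact hi), h0, hw rfl]
    simp [md]
  · unfold red
    rw [if_neg h]
    exact h0

/-! ### elimination by a basis -/

/-- invariant of a basis -/
structure BasisOk (n q : ℕ) (B : List BE) : Prop where
  ok : ∀ b ∈ B, b.Ok n q
  tri : B.Pairwise fun b b' => b.1 = b'.1 → b'.2.2.getD b.2.1 0 = 0

theorem reduce_length {n q : ℕ} {B : List BE} (hB : ∀ b ∈ B, b.Ok n q) (p : ℕ) :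
    ∀ v : List ℕ, v.length = n → (reduce B p v).length = n := by
  induction B with
  | nil => intro v hv; exact hv
  | cons b B ih =>
    intro v hv
    have hb := hB b (List.mem_cons_self ..)
    exact ih (fun b hb => hB b (List.mem_cons_of_mem _ hb)) (red b p v)
      (by rw [red_length b p v (by rw [hv, hb.len]), hv])

theorem reduce_lt {B : List BE} {p : ℕ} (hp : 0 < p) :
    ∀ v : List ℕ, (∀ e ∈ v, e < p) → ∀ e ∈ reduce B p v, e < p := by
  induction B with
  | nil => intro v hv; exact hv
  | cons b B ih =>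
    intro v hv
    exact ih (red b p v) (red_lt b hp v hv)

theorem reduce_van (τ : ℕ → ℤ) (idx : List (List ℕ)) {n q : ℕ} {B : List BE}
    (hB : ∀ b ∈ B, b.Ok n q) (hvan : ∀ b ∈ B, Van τ idx b) (p : ℕ) :
    ∀ v : List ℕ, v.length = n →
      ((p : ℤ) ∣ valv τ idx (reduce B p v) ↔ (p : ℤ) ∣ valv τ idx v) := by
  induction B with
  | nil => intro v _; exact Iff.rfl
  | cons b B ih =>
    intro v hv
    have hb := hB b (List.mem_cons_self ..)
    have h1 := ih (fun b hb => hB b (List.mem_cons_of_mem _ hb))
      (fun b hb => hvan b (List.mem_cons_of_mem _ hb)) (red b p v)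
      (by rw [red_length b p v (by rw [hv, hb.len]), hv])
    exact h1.trans (red_van τ idx hb p v hv (hvan b (List.mem_cons_self ..)))

theorem reduce_zero_keep {n q : ℕ} {B : List BE} (hB : ∀ b ∈ B, b.Ok n q) (p i : ℕ) (hi : i < n)
    (hw : ∀ b ∈ B, b.1 = p → b.2.2.getD i 0 = 0) :
    ∀ v : List ℕ, v.length = n → v.getD i 0 = 0 → (reduce B p v).getD i 0 = 0 := by
  induction B with
  | nil => intro v _ h; exact h
  | cons b B ih =>
    intro v hv h
    have hb := hB b (List.mem_cons_self ..)
    exact ih (fun b hb => hB b (List.mem_cons_of_mem _ hb))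
      (fun b hb => hw b (List.mem_cons_of_mem _ hb)) (red b p v)
      (by rw [red_length b p v (by rw [hv, hb.len]), hv])
      (red_zero_other hb p v hv i hi h (hw b (List.mem_cons_self ..)))

theorem reduce_zero {n q : ℕ} {B : List BE} (hB : BasisOk n q B) {p : ℕ} (hp : 0 < p) :
    ∀ v : List ℕ, v.length = n → (∀ e ∈ v, e < p) →
      ∀ b ∈ B, b.1 = p → (reduce B p v).getD b.2.1 0 = 0 := by
  induction B with
  | nil => intro v _ _ b hb; simp at hb
  | cons b0 B ih =>
    intro v hv hlt b hb hbp
    have hb0 := hB.ok b0 (List.mem_cons_self ..)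
    have hB' : BasisOk n q B := ⟨fun b hb => hB.ok b (List.mem_cons_of_mem _ hb),
      (List.pairwise_cons.1 hB.tri).2⟩
    have hlen : (red b0 p v).length = n := by
      rw [red_length b0 p v (by rw [hv, hb0.len]), hv]
    rcases List.mem_cons.1 hb with rfl | hb
    · refine reduce_zero_keep hB'.ok p _ hb0.piv ?_ (red b p v) hlen ?_
      · intro b' hb' hb'p
        exact (List.pairwise_cons.1 hB.tri).1 b' hb' (by rw [hbp, hb'p])
      · subst hbp
        exact red_zero_self hb0 v hv hlt
    · exact ih hB' (red b0 p v) hlen (red_lt b0 hp v hlt) b hb hbp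

/-! ### insertion -/

theorem pivot_none {v : List ℕ} (h : pivot v = none) : ∀ i, v.getD i 0 = 0 := by
  intro i
  unfold pivot at h
  rw [List.find?_eq_none] at h
  by_cases hi : i < v.length
  · simpa using h i (List.mem_range.2 hi)
  · rw [List.getD_eq_default _ _ (by omega)]

theorem pivot_some {v : List ℕ} {j : ℕ} (h : pivot v = some j) :
    j < v.length ∧ v.getD j 0 ≠ 0 := by
  unfold pivot at h
  have h1 := List.mem_of_find?_eq_some h
  have h2 := List.find?_some h
  exact ⟨List.mem_range.1 h1, by simpa using h2⟩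

/-- the polynomial uses the monomials of `idx` only -/
def In (idx : List (List ℕ)) (P : List (ℕ × List ℕ)) : Prop := ∀ t ∈ P, t.2 ∈ idx

theorem insertP_ok (idx : List (List ℕ)) {q p : ℕ} (hp : p.Prime) (hq : p ≤ q) {B : List BE}
    (hB : BasisOk idx.length q B) (P : List (ℕ × List ℕ)) :
    BasisOk idx.length q (insertP idx p B P) := by
  unfold insertP
  split
  · exact hB
  · rename_i j hj
    have hlen := reduce_length hB.ok p (dense idx p P) (dense_length idx p P)
    have hlt := reduce_lt (B := B) hp.pos (dense idx p P) (dense_lt idx hp.pos P)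
    obtain ⟨hj1, hj2⟩ := pivot_some hj
    refine ⟨?_, ?_⟩
    · intro b hb
      rcases List.mem_append.1 hb with hb | hb
      · exact hB.ok b hb
      · rw [List.mem_singleton] at hb
        subst hb
        exact ⟨hp, hq, by rw [← hlen]; exact hj1, hlen, hlt, hj2⟩
    · rw [List.pairwise_append]
      refine ⟨hB.tri, List.pairwise_singleton _ _, ?_⟩
      intro b hb b' hb' h
      rw [List.mem_singleton] at hb'
      subst hb'
      exact reduce_zero hB hp.pos _ (dense_length idx p P) (dense_lt idx hp.pos P) b hb h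

theorem insertP_van (τ : ℕ → ℤ) (idx : List (List ℕ)) (hnd : idx.Nodup) {q p : ℕ} (hp : p.Prime)
    {B : List BE} (hB : BasisOk idx.length q B) (P : List (ℕ × List ℕ)) (hP : In idx P)
    (hvan : ∀ b ∈ B, Van τ idx b) (hv : (p : ℤ) ∣ value τ P) :
    ∀ b ∈ insertP idx p B P, Van τ idx b := by
  unfold insertP
  split
  · exact hvan
  · intro b hb
    rcases List.mem_append.1 hb with hb | hb
    · exact hvan b hb
    · rw [List.mem_singleton] at hb
      subst hb
      change (p : ℤ) ∣ _
      rw [reduce_van τ idx hB.ok hvan p _ (dense_length idx p P),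
        (valv_dense τ idx hnd hp.pos P hP).dvd_iff]
      exact hv

theorem valv_zero (τ : ℕ → ℤ) (idx : List (List ℕ)) : ∀ v : List ℕ, (∀ i, v.getD i 0 = 0) →
    valv τ idx v = 0 := by
  unfold valv
  induction idx with
  | nil => intro v _; simp
  | cons M idx ih =>
    intro v hv
    cases v with
    | nil => simp
    | cons x v =>
      rw [List.zip_cons_cons, value_cons, ih v fun i => by simpa using hv (i + 1)]
      have := hv 0
      simp only [List.getD_cons_zero] at this
      simp [this]

theorem insertP_length (idx : List (List ℕ)) (p : ℕ) (B : List BE) (P : List (ℕ × List ℕ)) :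
    B.length ≤ (insertP idx p B P).length := by
  unfold insertP
  split
  · exact le_refl _
  · simp

theorem insertP_same (τ : ℕ → ℤ) (idx : List (List ℕ)) (hnd : idx.Nodup) {q p : ℕ}
    (hp : p.Prime) {B : List BE} (hB : BasisOk idx.length q B) (P : List (ℕ × List ℕ))
    (hP : In idx P) (hvan : ∀ b ∈ B, Van τ idx b)
    (hl : (insertP idx p B P).length = B.length) :
    insertP idx p B P = B ∧ (p : ℤ) ∣ value τ P := by
  unfold insertP at hl ⊢
  split
  · rename_i h
    refine ⟨rfl, ?_⟩
    rw [← (valv_dense τ idx hnd hp.pos P hP).dvd_iff,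
      ← reduce_van τ idx hB.ok hvan p _ (dense_length idx p P), valv_zero τ idx _ (pivot_none h)]
    exact dvd_zero _
  · rename_i j h
    exfalso
    rw [h] at hl
    simp at hl

/-- The number of elements of a basis is bounded. -/
theorem BasisOk.length_le {n q : ℕ} {B : List BE} (hB : BasisOk n q B) :
    B.length ≤ (q + 1) * n := by
  have hnd : (B.map fun b => (b.1, b.2.1)).Nodup := by
    rw [List.Nodup, List.pairwise_map]
    have h2 := hB.tri
    have h3 : B.Pairwise fun b b' => b.Ok n q ∧ b'.Ok n q :=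
      List.pairwise_of_forall_mem_list fun b hb b' hb' => ⟨hB.ok b hb, hB.ok b' hb'⟩
    refine (h2.and h3).imp ?_
    rintro b b' ⟨h, _, h'⟩ heq
    simp only [Prod.mk.injEq] at heq
    have := h heq.1
    rw [heq.2] at this
    exact h'.ne this
  have h1 : (B.map fun b => (b.1, b.2.1)).toFinset ⊆
      (Finset.range (q + 1)) ×ˢ (Finset.range n) := by
    intro x hx
    rw [List.mem_toFinset] at hx
    obtain ⟨b, hb, rfl⟩ := List.mem_map.1 hx
    have := hB.ok b hb
    rw [Finset.mem_product, Finset.mem_range, Finset.mem_range]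
    exact ⟨by have := this.le; simp only; omega, this.piv⟩
  have h2 := Finset.card_le_card h1
  rw [List.toFinset_card_of_nodup hnd, Finset.card_product, Finset.card_range,
    Finset.card_range, List.length_map] at h2
  exact h2

/-! ### systems -/

theorem insertS_cons (idx : List (List ℕ)) (p : ℕ) (B : List BE) (P : List (ℕ × List ℕ))
    (Z : List (List (ℕ × List ℕ))) :
    insertS idx p B (P :: Z) = insertS idx p (insertP idx p B P) Z := rfl

theorem insertS_ok (idx : List (List ℕ)) {q p : ℕ} (hp : p.Prime) (hq : p ≤ q)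
    (Z : List (List (ℕ × List ℕ))) : ∀ {B : List BE}, BasisOk idx.length q B →
      BasisOk idx.length q (insertS idx p B Z) := by
  induction Z with
  | nil => intro B hB; exact hB
  | cons P Z ih =>
    intro B hB
    rw [insertS_cons]
    exact ih (insertP_ok idx hp hq hB P)

theorem insertS_length (idx : List (List ℕ)) (p : ℕ) (Z : List (List (ℕ × List ℕ))) :
    ∀ B : List BE, B.length ≤ (insertS idx p B Z).length := by
  induction Z with
  | nil => intro B; exact le_refl _
  | cons P Z ih =>
    intro B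
    rw [insertS_cons]
    exact (insertP_length idx p B P).trans (ih _)

theorem insertS_van (τ : ℕ → ℤ) (idx : List (List ℕ)) (hnd : idx.Nodup) {q p : ℕ} (hp : p.Prime)
    (hq : p ≤ q) (Z : List (List (ℕ × List ℕ))) (hZ : ∀ P ∈ Z, In idx P) (hh : Holds τ p Z) :
    ∀ {B : List BE}, BasisOk idx.length q B → (∀ b ∈ B, Van τ idx b) →
      ∀ b ∈ insertS idx p B Z, Van τ idx b := by
  induction Z with
  | nil => intro B _ h; exact h
  | cons P Z ih =>
    intro B hB hvan
    rw [insertS_cons]
    exact ih (fun P hP => hZ P (List.mem_cons_of_mem _ hP))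
      (fun P hP => hh P (List.mem_cons_of_mem _ hP)) (insertP_ok idx hp hq hB P)
      (insertP_van τ idx hnd hp hB P (hZ P (List.mem_cons_self ..)) hvan
        (hh P (List.mem_cons_self ..)))

theorem insertS_same (τ : ℕ → ℤ) (idx : List (List ℕ)) (hnd : idx.Nodup) {q p : ℕ}
    (hp : p.Prime) (hq : p ≤ q) (Z : List (List (ℕ × List ℕ))) (hZ : ∀ P ∈ Z, In idx P) :
    ∀ {B : List BE}, BasisOk idx.length q B → (∀ b ∈ B, Van τ idx b) →
      (insertS idx p B Z).length = B.length → insertS idx p B Z = B ∧ Holds τ p Z := by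
  induction Z with
  | nil => intro B _ _ _; exact ⟨rfl, fun P hP => by simp at hP⟩
  | cons P Z ih =>
    intro B hB hvan hl
    rw [insertS_cons] at hl ⊢
    have h1 := insertP_length idx p B P
    have h2 := insertS_length idx p Z (insertP idx p B P)
    have h3 := insertP_same τ idx hnd hp hB P (hZ P (List.mem_cons_self ..)) hvan (by omega)
    rw [h3.1] at hl ⊢
    have h4 := ih (fun P hP => hZ P (List.mem_cons_of_mem _ hP)) hB hvan hl
    refine ⟨h4.1, ?_⟩
    intro Q hQ
    rcases List.mem_cons.1 hQ with rfl | hQ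
    · exact h3.2
    · exact h4.2 Q hQ

end Pool.Agent.SparseNP
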