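import Pool.Agent.Lib.MP_69a69c_lc.Lang

/-!
# The value of the auxiliary language for the right census
-/

namespace Pool.Agent.SparseNP

open Pool.Agent.PolyTime

/-- number of elements of `S` of length at most `m` -/
noncomputable def census (S : Set (List Bool)) (m : ℕ) : ℕ := (S ∩ {x | x.length ≤ m}).ncard

theorem census_finite (S : Set (List Bool)) (m : ℕ) : (S ∩ {x | x.length ≤ m}).Finite :=
  (List.finite_length_le Bool m).subset Set.inter_subset_right

section
variable {cl : List Bool → List Unit} {VS : List Bool × List Bool → Bool}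
  {pS : Polynomial ℕ} {S : Set (List Bool)}

theorem good_unique
    (hS : ∀ x, x ∈ S ↔ ∃ u : List Bool, u.length = pS.eval x.length ∧ VS (x, u) = true)
    {x : List Bool} {l : List (List Bool × List Bool)}
    (hl : GoodL cl VS pS x (census S (cl x).length) l) (s : List Bool)
    (hs : s.length ≤ (cl x).length) : s ∈ l.map (fun e => e.1) ↔ s ∈ S := by
  classical
  have hsub : ((l.map fun e => e.1).toFinset : Set (List Bool)) ⊆
      S ∩ {x | x.length ≤ (cl x).length} ∨ True := Or.inr trivial
  have hsub' : ∀ s ∈ l.map (fun e => e.1), s ∈ S ∩ {y | y.length ≤ (cl x).length} := by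
    intro s hs
    obtain ⟨e, he, rfl⟩ := List.mem_map.1 hs
    have h3 := hl.2.2 e he
    exact ⟨(hS e.1).2 ⟨e.2, h3.2.1, h3.2.2⟩, h3.1⟩
  constructor
  · intro h
    exact (hsub' s h).1
  · intro h
    have hcard : (S ∩ {y | y.length ≤ (cl x).length}).ncard ≤
        ((l.map fun e => e.1).toFinset : Set (List Bool)).ncard := by
      rw [Set.ncard_coe_finset, List.toFinset_card_of_nodup hl.2.1, List.length_map, hl.1]
      exact le_of_eq rfl
    have heq := Set.eq_of_subset_of_ncard_le (s := ((l.map fun e => e.1).toFinset :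
      Set (List Bool))) (t := S ∩ {y | y.length ≤ (cl x).length}) (by
        intro s hs
        exact hsub' s (by simpa using hs)) hcard (census_finite S _)
    have h1 : s ∈ ((l.map fun e => e.1).toFinset : Set (List Bool)) := by
      rw [heq]
      exact ⟨h, hs⟩
    simpa using h1

theorem good_exists
    (hS : ∀ x, x ∈ S ↔ ∃ u : List Bool, u.length = pS.eval x.length ∧ VS (x, u) = true)
    (x : List Bool) : ∃ l, GoodL cl VS pS x (census S (cl x).length) l := by
  classical
  have hfin := census_finite S (cl x).length
  have hch : ∀ s : List Bool, ∃ u : List Bool, s ∈ S → u.length = pS.eval s.length ∧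
      VS (s, u) = true := by
    intro s
    by_cases h : s ∈ S
    · obtain ⟨u, hu⟩ := (hS s).1 h
      exact ⟨u, fun _ => hu⟩
    · exact ⟨[], fun hc => absurd hc h⟩
  choose u hu using hch
  refine ⟨hfin.toFinset.toList.map fun s => (s, u s), ?_, ?_, ?_⟩
  · rw [List.length_map, Finset.length_toList, ← Set.ncard_eq_toFinset_card _ hfin]
    rfl
  · rw [List.map_map]
    have : ((fun e : List Bool × List Bool => e.1) ∘ fun s => (s, u s)) = id := rfl
    rw [this, List.map_id]
    exact Finset.nodup_toList _
  · intro e he
    obtain ⟨s, hs, rfl⟩ := List.mem_map.1 he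
    rw [Finset.mem_toList, Set.Finite.mem_toFinset] at hs
    exact ⟨hs.2, hu s hs.1⟩

end

theorem sub_eq {S : Set (List Bool)} {Sh : List (List Bool)} {m : ℕ}
    (hSh : ∀ s : List Bool, s.length ≤ m → (s ∈ Sh ↔ s ∈ S)) (P : LL)
    (hP : ∀ A ∈ P, ∀ s ∈ A, s.length ≤ m) : sub Sh P = cnt S P := by
  classical
  unfold sub cnt
  refine congrArg List.length (List.filter_congr fun A hA => ?_)
  rw [Bool.eq_iff_iff, List.all_eq_true]
  simp only [decide_eq_true_eq]
  exact forall₂_congr fun s hs => hSh s (hP A hA s hs)

theorem greedy_spec {V : List Bool × List Bool → Bool} {pL : Polynomial ℕ}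
    {g : List Bool → LL × LL} {S : Set (List Bool)} {Sh : List (List Bool)} {m : ℕ}
    (hg : ∀ y, y ∈ Left V pL ↔ cnt S (g y).2 < cnt S (g y).1) {x w : List Bool}
    (hlen : ∀ v : List Bool, v.length ≤ pL.eval x.length →
      (∀ A ∈ (g (word pL x v)).1, ∀ s ∈ A, s.length ≤ m) ∧
      (∀ A ∈ (g (word pL x v)).2, ∀ s ∈ A, s.length ≤ m))
    (hSh : ∀ s : List Bool, s.length ≤ m → (s ∈ Sh ↔ s ∈ S))
    (hw : w.length = pL.eval x.length) (hVw : V (x, w) = true)
    (hmax : ∀ w', w'.length = pL.eval x.length → V (x, w') = true → ofBits w' ≤ ofBits w) :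
    greedy pL g x Sh = w := by
  have key : ∀ n : ℕ, n ≤ pL.eval x.length →
      (List.replicate n ()).foldl (fun v _ => cmpL Sh (g (word pL x (true :: v))) :: v) [] =
        w.drop (pL.eval x.length - n) := by
    intro n
    induction n with
    | zero =>
      intro _
      rw [Nat.sub_zero, ← hw, List.drop_length]
      rfl
    | succ n ih =>
      intro hn
      rw [foldl_replicate (fun v => cmpL Sh (g (word pL x (true :: v))) :: v), ih (by omega)]
      have hi : pL.eval x.length - (n + 1) < w.length := by omega
      have hcons : w.drop (pL.eval x.length - (n + 1)) =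
          w[pL.eval x.length - (n + 1)] :: w.drop (pL.eval x.length - n) := by
        rw [List.drop_eq_getElem_cons hi]
        congr 2
        omega
      have hvl : (w.drop (pL.eval x.length - n)).length = n := by
        rw [List.length_drop]
        omega
      have h1 : (true :: w.drop (pL.eval x.length - n)).length ≤ pL.eval x.length := by
        rw [List.length_cons, hvl]
        omega
      have h2 := word_mem_left (p := pL) x (true :: w.drop (pL.eval x.length - n)) w h1 hw hVw
        hmax
      rw [hg, List.length_cons, hvl, hcons] at h2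
      have h3 := hlen _ h1
      rw [hcons]
      congr 1
      unfold cmpL
      rw [sub_eq hSh _ h3.2, sub_eq hSh _ h3.1]
      cases hb : w[pL.eval x.length - (n + 1)] with
      | true =>
        rw [hb] at h2
        exact decide_eq_true (h2.2 le_rfl)
      | false =>
        rw [hb] at h2
        refine decide_eq_false fun hc => ?_
        have h4 := h2.1 hc
        rw [ofBits_cons, ofBits_cons] at h4
        simp at h4
  have h := key _ le_rfl
  rw [Nat.sub_self, List.drop_zero] at h
  exact h

/-- the value of the auxiliary language -/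
theorem W_value {V : List Bool × List Bool → Bool} {pL : Polynomial ℕ}
    {g : List Bool → LL × LL} {cl : List Bool → List Unit} {VS : List Bool × List Bool → Bool}
    {pS : Polynomial ℕ} {S : Set (List Bool)}
    (hS : ∀ x, x ∈ S ↔ ∃ u : List Bool, u.length = pS.eval x.length ∧ VS (x, u) = true)
    (hg : ∀ y, y ∈ Left V pL ↔ cnt S (g y).2 < cnt S (g y).1) {x w : List Bool}
    (hlen : ∀ v : List Bool, v.length ≤ pL.eval x.length →
      (∀ A ∈ (g (word pL x v)).1, ∀ s ∈ A, s.length ≤ (cl x).length) ∧
      (∀ A ∈ (g (word pL x v)).2, ∀ s ∈ A, s.length ≤ (cl x).length))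
    (hw : w.length = pL.eval x.length) (hVw : V (x, w) = true)
    (hmax : ∀ w', w'.length = pL.eval x.length → V (x, w') = true → ofBits w' ≤ ofBits w)
    (l p : ℕ) (κ : ℕ × ℕ × ℕ) :
    wd (x, (census S (cl x).length, (l, (p, κ)))) ∈ W pL g cl VS pS ↔
      codeBit p κ (w.drop (pL.eval x.length - l)) = true := by
  unfold W
  rw [Set.mem_setOf_eq, dec_wd]
  simp only
  have hbit : ∀ L, GoodL cl VS pS x (census S (cl x).length) L →
      bitOf pL g (x, (census S (cl x).length, (l, (p, κ)))) (L.map fun e => e.1) =
        codeBit p κ (w.drop (pL.eval x.length - l)) := by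
    intro L hL
    unfold bitOf
    simp only
    rw [greedy_spec hg hlen (good_unique hS hL) hw hVw hmax]
  constructor
  · rintro ⟨L, hL, hb⟩
    rwa [hbit L hL] at hb
  · intro hb
    obtain ⟨L, hL⟩ := good_exists (cl := cl) hS x
    exact ⟨L, hL, by rwa [hbit L hL]⟩

end Pool.Agent.SparseNP
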