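import Pool.Agent.Lib.MP_69a69c_lc.Algebra

/-!
# A binary code with small correlations
-/

namespace Pool.Agent.SparseNP

open Polynomial

/-- evaluation of the polynomial with coefficients `v` at `α`, modulo `p` -/
def evalP (p α : ℕ) (v : List Bool) : ℕ := v.foldl (fun s b => md (b.toNat + α * s) p) 0

/-- a bit of the code word of `v` -/
def codeBit (p : ℕ) (κ : ℕ × ℕ × ℕ) (v : List Bool) : Bool :=
  decide (2 * md (κ.2.1 * evalP p κ.1 v + κ.2.2) p < p)

/-- the same as a sign -/
def sgn (b : Bool) : ℤ := if b = true then 1 else -1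

section
variable {p : ℕ} [hp : Fact p.Prime]

theorem md_cast (a : ℕ) : ((md a p : ℕ) : ZMod p) = a := by
  unfold md
  rw [if_neg hp.out.pos.ne', ZMod.natCast_mod]

/-- the polynomial of `v` -/
noncomputable def polyOf (p : ℕ) (v : List Bool) : (ZMod p)[X] :=
  v.foldl (fun q b => C (b.toNat : ZMod p) + X * q) 0

theorem polyOf_append (v : List Bool) (b : Bool) :
    polyOf p (v ++ [b]) = C (b.toNat : ZMod p) + X * polyOf p v := by
  simp [polyOf, List.foldl_append]

theorem polyOf_eval (α : ℕ) (v : List Bool) :
    (polyOf p v).eval (α : ZMod p) = ((evalP p α v : ℕ) : ZMod p) := by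
  induction v using List.reverseRecOn with
  | nil => simp [polyOf, evalP]
  | append_singleton v b ih =>
    rw [polyOf_append, eval_add, eval_C, eval_mul, eval_X, ih]
    unfold evalP
    rw [List.foldl_append]
    simp only [List.foldl_cons, List.foldl_nil]
    rw [md_cast]
    push_cast
    rfl

theorem polyOf_inj : ∀ (v v' : List Bool), v.length = v'.length →
    polyOf p v = polyOf p v' → v = v' := by
  intro v
  induction v using List.reverseRecOn with
  | nil => intro v' h _; exact (List.length_eq_zero_iff.1 h.symm).symm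
  | append_singleton v b ih =>
    intro v'
    induction v' using List.reverseRecOn with
    | nil => intro h _; simp at h
    | append_singleton v' b' _ =>
      intro hl h
      rw [polyOf_append, polyOf_append] at h
      have h0 := congrArg (fun q => Polynomial.coeff q 0) h
      simp only [coeff_add, coeff_C_zero, mul_coeff_zero, coeff_X_zero, zero_mul,
        add_zero] at h0
      have hb : b = b' := by
        have h1 : (1 : ZMod p) ≠ 0 := one_ne_zero
        cases b <;> cases b' <;> simp at h0 ⊢
      subst hb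
      have h2 := mul_left_cancel₀ X_ne_zero (add_left_cancel h)
      rw [ih v' (by simpa using hl) h2]

theorem polyOf_natDegree (v : List Bool) : (polyOf p v).natDegree ≤ v.length := by
  induction v using List.reverseRecOn with
  | nil => simp [polyOf]
  | append_singleton v b ih =>
    rw [polyOf_append, List.length_append, List.length_singleton]
    refine (natDegree_add_le _ _).trans (max_le (by simp) ?_)
    refine natDegree_mul_le.trans ?_
    have := natDegree_X_le (R := ZMod p)
    omega

theorem agree_card (v v' : List Bool) (hl : v.length = v'.length) (hne : v ≠ v') :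
    ((Finset.range p).filter fun α => evalP p α v = evalP p α v').card ≤ v.length := by
  classical
  have hq : polyOf p v - polyOf p v' ≠ 0 := fun h =>
    hne (polyOf_inj v v' hl (sub_eq_zero.1 h))
  have hdeg : (polyOf p v - polyOf p v').natDegree ≤ v.length := by
    refine (natDegree_sub_le _ _).trans (max_le (polyOf_natDegree v) ?_)
    rw [hl]
    exact polyOf_natDegree v'
  refine le_trans ?_ ((card_roots' _).trans hdeg)
  refine le_trans ?_ (Multiset.toFinset_card_le _)
  refine Finset.card_le_card_of_injOn (fun α : ℕ => (α : ZMod p)) ?_ ?_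
  · intro α hα
    have hα' := (Finset.mem_filter.1 (Finset.mem_coe.1 hα)).2
    rw [Finset.mem_coe, Multiset.mem_toFinset, mem_roots hq, IsRoot.def, eval_sub, polyOf_eval,
      polyOf_eval, hα', sub_self]
  · intro a ha b hb hab
    have ha' := Finset.mem_range.1 (Finset.mem_filter.1 (Finset.mem_coe.1 ha)).1
    have hb' := Finset.mem_range.1 (Finset.mem_filter.1 (Finset.mem_coe.1 hb)).1
    have := (ZMod.natCast_eq_natCast_iff' a b p).1 hab
    rwa [Nat.mod_eq_of_lt ha', Nat.mod_eq_of_lt hb'] at this

/-- the sign function on residues -/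
def G (p : ℕ) (u : ZMod p) : ℤ := if 2 * u.val < p then 1 else -1

theorem sum_range_zmod (F : ZMod p → ℤ) :
    ∑ i ∈ Finset.range p, F (i : ZMod p) = ∑ u : ZMod p, F u := by
  refine Finset.sum_bij (fun i _ => (i : ZMod p)) (fun _ _ => Finset.mem_univ _) ?_ ?_
    (fun _ _ => rfl)
  · intro a ha b hb hab
    have := (ZMod.natCast_eq_natCast_iff' a b p).1 hab
    rwa [Nat.mod_eq_of_lt (Finset.mem_range.1 ha), Nat.mod_eq_of_lt (Finset.mem_range.1 hb)]
      at this
  · intro u _
    exact ⟨u.val, Finset.mem_range.2 (ZMod.val_lt u), ZMod.natCast_zmod_val u⟩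

theorem sum_G (hodd : p % 2 = 1) : ∑ u : ZMod p, G p u = 1 := by
  rw [← sum_range_zmod (G p)]
  have h1 : ∀ i ∈ Finset.range p, G p (i : ZMod p) = if 2 * i < p then 1 else -1 := by
    intro i hi
    unfold G
    rw [ZMod.val_natCast, Nat.mod_eq_of_lt (Finset.mem_range.1 hi)]
  rw [Finset.sum_congr rfl h1, Finset.sum_ite, Finset.sum_const, Finset.sum_const]
  have h2 : (Finset.range p).filter (fun i => 2 * i < p) = Finset.range (p / 2 + 1) := by
    ext i
    simp only [Finset.mem_filter, Finset.mem_range]
    omega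
  have h3 := Finset.card_filter_add_card_filter_not (s := Finset.range p) (fun i => 2 * i < p)
  rw [h2, Finset.card_range, Finset.card_range] at h3
  rw [h2, Finset.card_range]
  have h4 : ((Finset.range p).filter fun i => ¬ 2 * i < p).card = p / 2 := by omega
  rw [h4]
  simp

theorem sgn_codeBit (α β γ : ℕ) (v : List Bool) : sgn (codeBit p (α, β, γ) v) =
    G p ((β : ZMod p) * ((evalP p α v : ℕ) : ZMod p) + (γ : ZMod p)) := by
  unfold sgn codeBit G
  have h : ((β : ZMod p) * ((evalP p α v : ℕ) : ZMod p) + (γ : ZMod p)) =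
      ((β * evalP p α v + γ : ℕ) : ZMod p) := by push_cast; rfl
  rw [h, ZMod.val_natCast]
  unfold md
  rw [if_neg hp.out.pos.ne']
  simp

theorem sum_shift (b : ZMod p) : ∑ u : ZMod p, G p (b + u) = ∑ u : ZMod p, G p u :=
  Equiv.sum_comp (Equiv.addLeft b) (G p)

theorem sum_pair {b b' : ZMod p} (hb : b ≠ b') (hodd : p % 2 = 1) :
    ∑ β : ZMod p, ∑ γ : ZMod p, G p (β * b + γ) * G p (β * b' + γ) = 1 := by
  rw [← Fintype.sum_prod_type' (f := fun β γ : ZMod p => G p (β * b + γ) * G p (β * b' + γ))]
  let e : ZMod p × ZMod p → ZMod p × ZMod p := fun x => (x.1 * b + x.2, x.1 * b' + x.2)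
  have he : Function.Bijective e := by
    refine (Finite.injective_iff_bijective).1 ?_
    rintro ⟨x, y⟩ ⟨x', y'⟩ h
    simp only [e, Prod.mk.injEq] at h
    obtain ⟨h1, h2⟩ := h
    have h3 : (x - x') * (b - b') = 0 := by linear_combination h1 - h2
    rcases mul_eq_zero.1 h3 with h4 | h4
    · have h5 : x = x' := sub_eq_zero.1 h4
      subst h5
      rw [add_left_cancel h1]
    · exact absurd (sub_eq_zero.1 h4) hb
  have h1 := he.sum_comp (fun x : ZMod p × ZMod p => G p x.1 * G p x.2)
  simp only [e] at h1
  rw [h1, Fintype.sum_prod_type]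
  simp only
  rw [← Finset.sum_mul_sum, sum_G hodd, one_mul]

/-- the positions of the code -/
def pos3 (p : ℕ) : Finset (ℕ × ℕ × ℕ) :=
  Finset.range p ×ˢ (Finset.range p ×ˢ Finset.range p)

theorem code_sum (hodd : p % 2 = 1) (v : List Bool) :
    ∑ κ ∈ pos3 p, sgn (codeBit p κ v) = (p : ℤ) ^ 2 := by
  unfold pos3
  rw [Finset.sum_product]
  simp only [Finset.sum_product]
  have h1 : ∀ α β : ℕ, ∑ γ ∈ Finset.range p, sgn (codeBit p (α, β, γ) v) = 1 := by
    intro α β
    simp only [sgn_codeBit]
    rw [sum_range_zmod (fun u => G p ((β : ZMod p) * ((evalP p α v : ℕ) : ZMod p) + u)),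
      sum_shift, sum_G hodd]
  simp only [h1]
  simp [sq]

theorem code_corr (hodd : p % 2 = 1) (v v' : List Bool) (hl : v.length = v'.length)
    (hne : v ≠ v') :
    ∑ κ ∈ pos3 p, sgn (codeBit p κ v) * sgn (codeBit p κ v') ≤
      (v.length : ℤ) * (p : ℤ) ^ 2 + p := by
  classical
  unfold pos3
  rw [Finset.sum_product]
  simp only [Finset.sum_product]
  have hlt : ∀ (α : ℕ) (v : List Bool), evalP p α v < p := by
    intro α v
    unfold evalP
    induction v using List.reverseRecOn with
    | nil => exact hp.out.pos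
    | append_singleton v b _ =>
      rw [List.foldl_append]
      exact md_lt hp.out.pos
  have h1 : ∀ α : ℕ, ∑ β ∈ Finset.range p, ∑ γ ∈ Finset.range p,
      sgn (codeBit p (α, β, γ) v) * sgn (codeBit p (α, β, γ) v') ≤
      (if evalP p α v = evalP p α v' then (p : ℤ) ^ 2 else 0) + 1 := by
    intro α
    by_cases h : evalP p α v = evalP p α v'
    · rw [if_pos h]
      have h2 : ∀ β ∈ Finset.range p, ∑ γ ∈ Finset.range p,
          sgn (codeBit p (α, β, γ) v) * sgn (codeBit p (α, β, γ) v') ≤ p := by
        intro β _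
        have h3 : ∀ γ ∈ Finset.range p,
            sgn (codeBit p (α, β, γ) v) * sgn (codeBit p (α, β, γ) v') ≤ 1 := by
          intro γ _
          unfold sgn
          split <;> split <;> norm_num
        refine (Finset.sum_le_sum h3).trans ?_
        simp
      refine (Finset.sum_le_sum h2).trans ?_
      simp [sq]
    · rw [if_neg h, zero_add]
      simp only [sgn_codeBit]
      have h2 : ∀ β : ℕ, ∑ γ ∈ Finset.range p,
          G p ((β : ZMod p) * ((evalP p α v : ℕ) : ZMod p) + (γ : ZMod p)) *
          G p ((β : ZMod p) * ((evalP p α v' : ℕ) : ZMod p) + (γ : ZMod p)) =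
          ∑ γ : ZMod p, G p ((β : ZMod p) * ((evalP p α v : ℕ) : ZMod p) + γ) *
          G p ((β : ZMod p) * ((evalP p α v' : ℕ) : ZMod p) + γ) := fun β =>
        sum_range_zmod (fun u => G p ((β : ZMod p) * ((evalP p α v : ℕ) : ZMod p) + u) *
          G p ((β : ZMod p) * ((evalP p α v' : ℕ) : ZMod p) + u))
      simp only [h2]
      rw [sum_range_zmod (fun β => ∑ γ : ZMod p, G p (β * ((evalP p α v : ℕ) : ZMod p) + γ) *
          G p (β * ((evalP p α v' : ℕ) : ZMod p) + γ)), sum_pair ?_ hodd]
      intro hc
      have := (ZMod.natCast_eq_natCast_iff' _ _ p).1 hc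
      rw [Nat.mod_eq_of_lt (hlt α v), Nat.mod_eq_of_lt (hlt α v')] at this
      exact h this
  refine (Finset.sum_le_sum fun α _ => h1 α).trans ?_
  rw [Finset.sum_add_distrib, Finset.sum_const, Finset.card_range, ← Finset.sum_filter,
    Finset.sum_const]
  have h2 := agree_card (p := p) v v' hl hne
  simp only [nsmul_eq_mul, mul_one]
  have h3 : (((Finset.range p).filter fun α => evalP p α v = evalP p α v').card : ℤ) ≤
      (v.length : ℤ) := by exact_mod_cast h2
  have h4 : (0 : ℤ) ≤ (p : ℤ) ^ 2 := by positivity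
  nlinarith

end

end Pool.Agent.SparseNP
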