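import Pool.Agent.Lib.MP_69a69c_lc.Code

/-!
# Counting the candidates which pass the correlation test
-/

namespace Pool.Agent.SparseNP

section
variable {ι M V : Type} [DecidableEq M]

/-- monomials counted positively -/
def posL (I : List ι) (P Q : ι → List M) (z : ι → Bool) : List M :=
  I.flatMap fun κ => if z κ = true then P κ else Q κ

/-- the correlation test -/
def passes (I : List ι) (P Q : ι → List M) (T : ℕ) (z : ι → Bool) : Bool :=
  (posL I P Q z).any fun A => decide (I.length + 2 * T * (posL I Q P z).count A ≤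
    2 * T * (posL I P Q z).count A)

/-- difference of the multiplicities -/
def phi (P Q : ι → List M) (A : M) (κ : ι) : ℤ := ((P κ).count A : ℤ) - (Q κ).count A

theorem count_posL (I : List ι) (P Q : ι → List M) (z : ι → Bool) (A : M) :
    (posL I P Q z).count A = (I.map fun κ => if z κ = true then (P κ).count A
      else (Q κ).count A).sum := by
  unfold posL
  induction I with
  | nil => rfl
  | cons κ I ih =>
    rw [List.flatMap_cons, List.count_append, ih, List.map_cons, List.sum_cons]
    congr 1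
    split <;> rfl

theorem posL_diff (I : List ι) (P Q : ι → List M) (z : ι → Bool) (A : M) :
    ((posL I P Q z).count A : ℤ) - (posL I Q P z).count A =
      (I.map fun κ => sgn (z κ) * phi P Q A κ).sum := by
  rw [count_posL, count_posL]
  induction I with
  | nil => rfl
  | cons κ I ih =>
    simp only [List.map_cons, List.sum_cons] at ih ⊢
    rw [← ih]
    push_cast
    unfold sgn phi
    split <;> ring

theorem sum_count_le (s : Finset M) (l : List M) : ∑ A ∈ s, l.count A ≤ l.length := by
  induction l with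
  | nil => simp
  | cons a l ih =>
    simp only [List.count_cons, Finset.sum_add_distrib, List.length_cons]
    have : ∑ A ∈ s, (if (a == A) = true then 1 else 0) ≤ 1 := by
      simp only [beq_iff_eq, Finset.sum_ite_eq]
      split <;> simp
    omega

/-- few candidates for one monomial -/
theorem few_candidates (I : Finset ι) (hI : 0 < I.card) (φ : ι → ℤ) (B T E : ℕ)
    (hφ : ∀ κ ∈ I, |φ κ| ≤ B) (F : Finset V) (s : V → ι → ℤ)
    (hs : ∀ v ∈ F, ∀ κ ∈ I, s v κ * s v κ ≤ 1)
    (hcorr : ∀ v ∈ F, ∀ v' ∈ F, v ≠ v' → ∑ κ ∈ I, s v κ * s v' κ ≤ E)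
    (hE : 8 * T ^ 2 * B ^ 2 * E ≤ I.card)
    (hpass : ∀ v ∈ F, (I.card : ℤ) ≤ 2 * T * ∑ κ ∈ I, s v κ * φ κ) :
    F.card ≤ 8 * T ^ 2 * B ^ 2 := by
  classical
  by_contra hcon
  push Not at hcon
  have hN : 0 < F.card := by omega
  have h1 : (F.card : ℤ) * I.card ≤ 2 * T * ∑ κ ∈ I, φ κ * ∑ v ∈ F, s v κ := by
    have h2 : ∑ v ∈ F, (I.card : ℤ) ≤ ∑ v ∈ F, 2 * T * ∑ κ ∈ I, s v κ * φ κ :=
      Finset.sum_le_sum hpass
    rw [Finset.sum_const, nsmul_eq_mul] at h2
    refine h2.trans (le_of_eq ?_)
    rw [← Finset.mul_sum, Finset.sum_comm]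
    congr 1
    refine Finset.sum_congr rfl fun κ _ => ?_
    rw [Finset.mul_sum]
    exact Finset.sum_congr rfl fun v _ => mul_comm _ _
  have h2 := Finset.sum_mul_sq_le_sq_mul_sq I φ (fun κ => ∑ v ∈ F, s v κ)
  have h3 : ∑ κ ∈ I, φ κ ^ 2 ≤ I.card * (B : ℤ) ^ 2 := by
    refine (Finset.sum_le_sum (g := fun _ => (B : ℤ) ^ 2) fun κ hκ => ?_).trans ?_
    · exact sq_le_sq' (by have := abs_le.1 (hφ κ hκ); linarith [this.1])
        (abs_le.1 (hφ κ hκ)).2
    · rw [Finset.sum_const, nsmul_eq_mul]
  have h4 : ∑ κ ∈ I, (∑ v ∈ F, s v κ) ^ 2 ≤ F.card * I.card + (F.card : ℤ) ^ 2 * E := by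
    have h5 : ∑ κ ∈ I, (∑ v ∈ F, s v κ) ^ 2 = ∑ v ∈ F, ∑ v' ∈ F, ∑ κ ∈ I, s v κ * s v' κ := by
      have : ∀ κ, (∑ v ∈ F, s v κ) ^ 2 = ∑ v ∈ F, ∑ v' ∈ F, s v κ * s v' κ := by
        intro κ
        rw [sq, Finset.sum_mul_sum]
      simp only [this]
      rw [Finset.sum_comm]
      exact Finset.sum_congr rfl fun v _ => Finset.sum_comm
    rw [h5]
    have h6 : ∀ v ∈ F, ∑ v' ∈ F, ∑ κ ∈ I, s v κ * s v' κ ≤ I.card + (F.card : ℤ) * E := by
      intro v hv
      have h7 : ∀ v' ∈ F, ∑ κ ∈ I, s v κ * s v' κ ≤ (if v' = v then (I.card : ℤ) else 0) + E := by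
        intro v' hv'
        by_cases h : v' = v
        · subst h
          rw [if_pos rfl]
          have h8 : ∑ κ ∈ I, s v' κ * s v' κ ≤ ∑ κ ∈ I, (1 : ℤ) :=
            Finset.sum_le_sum fun κ hκ => hs v' hv' κ hκ
          rw [Finset.sum_const, nsmul_eq_mul, mul_one] at h8
          have : (0 : ℤ) ≤ E := by positivity
          linarith
        · rw [if_neg h, zero_add]
          exact hcorr v hv v' hv' (Ne.symm h)
      refine (Finset.sum_le_sum h7).trans ?_
      rw [Finset.sum_add_distrib, Finset.sum_ite_eq', if_pos hv, Finset.sum_const, nsmul_eq_mul]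
    refine (Finset.sum_le_sum h6).trans ?_
    rw [Finset.sum_const, nsmul_eq_mul]
    apply le_of_eq
    ring
  have hIpos : (0 : ℤ) < I.card := by exact_mod_cast hI
  have hNpos : (0 : ℤ) < F.card := by exact_mod_cast hN
  have h5 : ((F.card : ℤ) * I.card) ^ 2 ≤ (2 * T * ∑ κ ∈ I, φ κ * ∑ v ∈ F, s v κ) ^ 2 :=
    pow_le_pow_left₀ (by positivity) h1 2
  have h6 : (2 * T * ∑ κ ∈ I, φ κ * ∑ v ∈ F, s v κ) ^ 2 ≤
      4 * (T : ℤ) ^ 2 * ((I.card * (B : ℤ) ^ 2) * (F.card * I.card + (F.card : ℤ) ^ 2 * E)) := by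
    have e : (2 * T * ∑ κ ∈ I, φ κ * ∑ v ∈ F, s v κ) ^ 2 =
        4 * (T : ℤ) ^ 2 * (∑ κ ∈ I, φ κ * ∑ v ∈ F, s v κ) ^ 2 := by ring
    rw [e]
    refine mul_le_mul_of_nonneg_left (h2.trans ?_) (by positivity)
    refine mul_le_mul h3 h4 (Finset.sum_nonneg fun κ _ => sq_nonneg _) (by positivity)
  have h7 := h5.trans h6
  -- divide
  have hE' : 8 * (T : ℤ) ^ 2 * (B : ℤ) ^ 2 * E ≤ I.card := by exact_mod_cast hE
  have hcon' : 8 * (T : ℤ) ^ 2 * (B : ℤ) ^ 2 < F.card := by exact_mod_cast hcon
  have h8 : 4 * (T : ℤ) ^ 2 * ((I.card * (B : ℤ) ^ 2) * (F.card * I.card +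
      (F.card : ℤ) ^ 2 * E)) = (F.card : ℤ) * (I.card : ℤ) ^ 2 * (4 * (T : ℤ) ^ 2 * (B : ℤ) ^ 2)
      + (F.card : ℤ) ^ 2 * I.card * (4 * (T : ℤ) ^ 2 * (B : ℤ) ^ 2 * E) := by ring
  rw [h8] at h7
  have h9 : (F.card : ℤ) ^ 2 * I.card * (8 * (T : ℤ) ^ 2 * (B : ℤ) ^ 2 * E) ≤
      (F.card : ℤ) ^ 2 * I.card * I.card := mul_le_mul_of_nonneg_left hE' (by positivity)
  have h10 : (F.card : ℤ) * (I.card : ℤ) ^ 2 * (8 * (T : ℤ) ^ 2 * (B : ℤ) ^ 2) <
      (F.card : ℤ) * (I.card : ℤ) ^ 2 * F.card :=
    mul_lt_mul_of_pos_left hcon' (by positivity)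
  nlinarith

theorem passes_card [DecidableEq ι] [DecidableEq V] [Inhabited M] (I : List ι) (hnd : I.Nodup)
    (hI : 0 < I.length) (P Q : ι → List M)
    (B T E : ℕ) (hB : ∀ κ ∈ I, (P κ).length + (Q κ).length ≤ B) (F : Finset V)
    (z : V → ι → Bool)
    (hcorr : ∀ v ∈ F, ∀ v' ∈ F, v ≠ v' →
      ∑ κ ∈ I.toFinset, sgn (z v κ) * sgn (z v' κ) ≤ E)
    (hE : 8 * T ^ 2 * B ^ 2 * E ≤ I.length)
    (hpass : ∀ v ∈ F, passes I P Q T (z v) = true) :
    F.card ≤ 8 * T ^ 2 * B ^ 2 * (2 * T * B) := by
  classical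
  have hex : ∀ v : V, ∃ A : M, v ∈ F → I.length + 2 * T * (posL I Q P (z v)).count A ≤
      2 * T * (posL I P Q (z v)).count A := by
    intro v
    by_cases hv : v ∈ F
    · have h := hpass v hv
      unfold passes at h
      rw [List.any_eq_true] at h
      obtain ⟨A, _, hA⟩ := h
      exact ⟨A, fun _ => by simpa using hA⟩
    · exact ⟨default, fun h => absurd h hv⟩
  choose A hA using hex
  have hcardI : I.toFinset.card = I.length := List.toFinset_card_of_nodup hnd
  have h1 := Finset.card_le_mul_card_image (f := A) F (8 * T ^ 2 * B ^ 2) (by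
    intro a _
    refine few_candidates I.toFinset (by rw [hcardI]; exact hI) (phi P Q a) B T E ?_ _
      (fun v κ => sgn (z v κ)) ?_ ?_ (by rw [hcardI]; exact hE) ?_
    · intro κ hκ
      have h2 := hB κ (List.mem_toFinset.1 hκ)
      have h3 := List.count_le_length (a := a) (l := P κ)
      have h4 := List.count_le_length (a := a) (l := Q κ)
      unfold phi
      rw [abs_le]
      constructor <;> omega
    · intro v _ κ _
      unfold sgn
      split <;> norm_num
    · intro v hv v' hv' hne
      exact hcorr v (Finset.mem_filter.1 hv).1 v' (Finset.mem_filter.1 hv').1 hne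
    · intro v hv
      obtain ⟨hv1, hv2⟩ := Finset.mem_filter.1 hv
      have h2 := hA v hv1
      rw [hv2] at h2
      have h3 := posL_diff I P Q (z v) a
      rw [← List.sum_toFinset _ hnd] at h3
      rw [hcardI, ← h3]
      have h4 : ((I.length + 2 * T * (posL I Q P (z v)).count a : ℕ) : ℤ) ≤
        ((2 * T * (posL I P Q (z v)).count a : ℕ) : ℤ) := by exact_mod_cast h2
      push_cast at h4
      linarith)
  have h2 : (F.image A).card ≤ 2 * T * B := by
    have h3 : ∀ a ∈ F.image A, I.length ≤
        2 * T * (I.map fun κ => (P κ).count a + (Q κ).count a).sum := by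
      intro a ha
      obtain ⟨v, hv, rfl⟩ := Finset.mem_image.1 ha
      have h4 := hA v hv
      rw [count_posL I P Q] at h4
      have h5 : (I.map fun κ => if z v κ = true then (P κ).count (A v)
          else (Q κ).count (A v)).sum ≤ (I.map fun κ => (P κ).count (A v) +
          (Q κ).count (A v)).sum := by
        refine List.sum_le_sum fun κ _ => ?_
        split <;> omega
      have h6 := Nat.mul_le_mul_left (2 * T) h5
      omega
    have h4 := Finset.sum_le_sum h3
    rw [Finset.sum_const, smul_eq_mul, ← Finset.mul_sum] at h4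
    have h5 : ∑ a ∈ F.image A, (I.map fun κ => (P κ).count a + (Q κ).count a).sum ≤
        I.length * B := by
      have h6 : ∀ (J : List ι), (∀ κ ∈ J, (P κ).length + (Q κ).length ≤ B) →
          ∑ a ∈ F.image A, (J.map fun κ => (P κ).count a + (Q κ).count a).sum ≤
          J.length * B := by
        intro J
        induction J with
        | nil => intro _; simp
        | cons κ J ih =>
          intro hJ
          simp only [List.map_cons, List.sum_cons, Finset.sum_add_distrib, List.length_cons,
            Nat.add_one_mul]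
          have h7 := ih fun κ hκ => hJ κ (List.mem_cons_of_mem _ hκ)
          have h8 := hJ κ (List.mem_cons_self ..)
          have h9 := sum_count_le (F.image A) (P κ)
          have h10 := sum_count_le (F.image A) (Q κ)
          omega
      exact h6 I hB
    have h6 : (F.image A).card * I.length ≤ (2 * T * B) * I.length := by
      refine h4.trans ((Nat.mul_le_mul_left _ h5).trans (le_of_eq ?_))
      ring
    exact Nat.le_of_mul_le_mul_right h6 hI
  exact h1.trans (Nat.mul_le_mul_left _ h2)

/-- number of elements of a list with a property -/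
noncomputable def cntP (S : M → Prop) [DecidablePred S] (l : List M) : ℕ :=
  (l.filter fun A => decide (S A)).length

theorem cntP_eq_sum (S : M → Prop) [DecidablePred S] (l : List M) (s : Finset M)
    (hs : ∀ A ∈ s, S A) (h : ∀ A ∈ l, S A → A ∈ s) : cntP S l = ∑ A ∈ s, l.count A := by
  unfold cntP
  induction l with
  | nil => simp
  | cons a l ih =>
    have ih' := ih fun A hA => h A (List.mem_cons_of_mem _ hA)
    simp only [List.count_cons, Finset.sum_add_distrib]
    rw [← ih', List.filter_cons]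
    by_cases ha : S a
    · have hmem := h a (List.mem_cons_self ..) ha
      simp [ha, hmem]
    · have hnmem : a ∉ s := fun hc => ha (hs a hc)
      simp [ha, hnmem]

theorem sum_count_le_cntP (S : M → Prop) [DecidablePred S] (l : List M) (s : Finset M)
    (hs : ∀ A ∈ s, S A) : ∑ A ∈ s, l.count A ≤ cntP S l := by
  unfold cntP
  induction l with
  | nil => simp
  | cons a l ih =>
    simp only [List.count_cons, Finset.sum_add_distrib]
    rw [List.filter_cons]
    by_cases ha : S a
    · have : ∑ A ∈ s, (if (a == A) = true then 1 else 0) ≤ 1 := by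
        simp only [beq_iff_eq, Finset.sum_ite_eq]
        split <;> simp
      simp only [ha, decide_true, if_true, List.length_cons]
      omega
    · have hnmem : a ∉ s := fun hc => ha (hs a hc)
      simp [ha, hnmem]
      exact ih

theorem cntP_flatMap (S : M → Prop) [DecidablePred S] {ι : Type} (I : List ι)
    (h : ι → List M) : cntP S (I.flatMap h) = (I.map fun κ => cntP S (h κ)).sum := by
  unfold cntP
  induction I with
  | nil => rfl
  | cons κ I ih =>
    rw [List.flatMap_cons, List.filter_append, List.length_append, ih]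
    rfl

/-- the discriminator lemma -/
theorem passes_of_eval [DecidableEq ι] (S : M → Prop) [DecidablePred S] (I : List ι)
    (hI : 0 < I.length) (P Q : ι → List M) (z : ι → Bool) (T : ℕ)
    (hz : ∀ κ ∈ I, (z κ = true ↔ cntP S (Q κ) < cntP S (P κ)))
    (hT : ∀ s : Finset M, (∀ A ∈ s, S A ∧ A ∈ posL I P Q z) → s.card ≤ T)
    (hhalf : I.length ≤ 2 * (I.filter fun κ => z κ).length) :
    passes I P Q T z = true := by
  classical
  by_contra hcon
  unfold passes at hcon
  rw [List.any_eq_true] at hcon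
  push Not at hcon
  let s : Finset M := (posL I P Q z).toFinset.filter fun A => S A
  have hs : ∀ A ∈ s, S A ∧ A ∈ posL I P Q z := by
    intro A hA
    obtain ⟨h1, h2⟩ := Finset.mem_filter.1 hA
    exact ⟨h2, List.mem_toFinset.1 h1⟩
  have hcard := hT s hs
  have h1 : cntP S (posL I P Q z) = ∑ A ∈ s, (posL I P Q z).count A :=
    cntP_eq_sum S _ s (fun A hA => (hs A hA).1) fun A hA hSA =>
      Finset.mem_filter.2 ⟨List.mem_toFinset.2 hA, hSA⟩
  have h2 := sum_count_le_cntP S (posL I Q P z) s fun A hA => (hs A hA).1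
  have h3 : cntP S (posL I Q P z) + (I.filter fun κ => z κ).length ≤
      cntP S (posL I P Q z) := by
    unfold posL
    rw [cntP_flatMap, cntP_flatMap]
    have key : ∀ J : List ι, (∀ κ ∈ J, (z κ = true ↔ cntP S (Q κ) < cntP S (P κ))) →
        (J.map fun κ => cntP S (if z κ = true then Q κ else P κ)).sum +
          (J.filter fun κ => z κ).length ≤
        (J.map fun κ => cntP S (if z κ = true then P κ else Q κ)).sum := by
      intro J
      induction J with
      | nil => intro _; simp
      | cons κ J ih =>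
        intro hJ
        have h4 := ih fun κ hκ => hJ κ (List.mem_cons_of_mem _ hκ)
        have h5 := hJ κ (List.mem_cons_self ..)
        simp only [List.map_cons, List.sum_cons, List.filter_cons]
        by_cases hzκ : z κ = true
        · have h6 := h5.1 hzκ
          simp only [hzκ, if_true, List.length_cons]
          omega
        · have h6 : ¬ cntP S (Q κ) < cntP S (P κ) := fun h => hzκ (h5.2 h)
          simp only [hzκ]
          simp only [Bool.false_eq_true, if_false] at h4 ⊢
          omega
    exact key I hz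
  have h4 : ∀ A ∈ s, 2 * T * (posL I P Q z).count A <
      I.length + 2 * T * (posL I Q P z).count A := by
    intro A hA
    have := hcon A (hs A hA).2
    rw [Ne, decide_eq_true_eq, not_le] at this
    exact this
  rcases s.eq_empty_or_nonempty with hse | hse
  · rw [hse, Finset.sum_empty] at h1
    omega
  · have h5 := Finset.sum_lt_sum_of_nonempty hse h4
    rw [← Finset.mul_sum, Finset.sum_add_distrib, ← Finset.mul_sum, Finset.sum_const,
      smul_eq_mul, ← h1] at h5
    have h6 : 2 * T * (cntP S (posL I Q P z) + (I.filter fun κ => z κ).length) ≤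
        2 * T * cntP S (posL I P Q z) := Nat.mul_le_mul_left _ h3
    have h7 : 2 * T * ∑ A ∈ s, (posL I Q P z).count A ≤ 2 * T * cntP S (posL I Q P z) :=
      Nat.mul_le_mul_left _ h2
    have h8 : s.card * I.length ≤ T * (2 * (I.filter fun κ => z κ).length) :=
      Nat.mul_le_mul hcard hhalf
    rw [Nat.mul_add] at h6
    have h9 : T * (2 * (I.filter fun κ => z κ).length) =
      2 * T * (I.filter fun κ => z κ).length := by ring
    omega

end

end Pool.Agent.SparseNP
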