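import Mathlib
import Pool.Agent.Lib.PolyTime.Defs

/-!
# P, NP, sparse languages, and reductions by Boolean combinations of systems of conditions
-/

namespace Pool.Agent.SparseNP

open Pool.Agent.PolyTime

/-- The class P: the language `L` is decided by a polynomial-time Turing machine. -/
def InP (L : Set (List Bool)) : Prop :=
  ∃ A : List Bool → Bool,
    IsPolyTime (enc : List Bool → D) (enc : Bool → D) A ∧ ∀ x, x ∈ L ↔ A x = true

/-- The class NP: `x` belongs to the language `L` iff the polynomial-time verifier `V` accepts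
`(x, u)` for some certificate `u` of length `p(|x|)`. -/
def InNP (L : Set (List Bool)) : Prop :=
  ∃ (p : Polynomial ℕ) (V : List Bool × List Bool → Bool),
    IsPolyTime (enc : List Bool × List Bool → D) (enc : Bool → D) V ∧
    ∀ x, x ∈ L ↔ ∃ u : List Bool, u.length = p.eval x.length ∧ V (x, u) = true

/-- The language `S` is sparse: it has at most polynomially many elements of length at most `n`. -/
def Sparse (S : Set (List Bool)) : Prop :=
  ∃ s : Polynomial ℕ, ∀ n : ℕ, (S ∩ {x | x.length ≤ n}).ncard ≤ s.eval n

/-- A polynomial in variables `X_0, X_1, ...` with natural coefficients is given by the list of its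
terms `(c, [i_1, ..., i_d])`, standing for `c * X_{i_1} * ... * X_{i_d}`; this is its value when
`X_i = τ i`. -/
def value (τ : ℕ → ℤ) (P : List (ℕ × List ℕ)) : ℤ :=
  (P.map fun t => (t.1 : ℤ) * (t.2.map τ).prod).sum

/-- A condition: a polynomial `P` and a list `Y` of strings. -/
abbrev Cond := List (ℕ × List ℕ) × List (List Bool)

/-- The condition `(P, Y)` holds: `P` vanishes modulo `p` at `τ`, or some string of `Y` belongs
to `S`. -/
def CondHolds (S : Set (List Bool)) (τ : ℕ → ℤ) (p : ℕ) (c : Cond) : Prop :=
  (p : ℤ) ∣ value τ c.1 ∨ ∃ y ∈ c.2, y ∈ S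

/-- All conditions of the list `Z` hold. -/
def SysHolds (S : Set (List Bool)) (τ : ℕ → ℤ) (p : ℕ) (Z : List Cond) : Prop :=
  ∀ c ∈ Z, CondHolds S τ p c

open Classical in
/-- The truth values of the systems in the list `Zs`. -/
noncomputable def truths (S : Set (List Bool)) (τ : ℕ → ℤ) (p : ℕ) (Zs : List (List Cond)) :
    List Bool :=
  Zs.map fun Z => decide (SysHolds S τ p Z)

/-- `L` is reducible to `(S, τ)` by bounded Boolean combinations of systems of conditions: a
polynomial-time function maps `x` to a prime `p ≤ q(|x|)` and `D` systems, each system being a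
finite list (of any length) of conditions `(P, Y)`, where `P` has degree at most `k` and uses
variables `X_i` with `i ≤ q(|x|)` only and `Y` has at most `k` elements; and `x ∈ L` iff the fixed
Boolean function `β` is true at the `D` truth values of these systems. The numbers `D`, `k`, the
polynomial `q` and the function `β` depend on `L` only. -/
def ReducibleTo (S : Set (List Bool)) (τ : ℕ → ℤ) (L : Set (List Bool)) : Prop :=
  ∃ (D k : ℕ) (q : Polynomial ℕ) (β : List Bool → Bool)
    (f : List Bool → ℕ × List (List Cond)),
    IsPolyTime (enc : List Bool → Pool.Agent.PolyTime.D)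
      (enc : ℕ × List (List Cond) → Pool.Agent.PolyTime.D) f ∧
    ∀ x, (f x).1.Prime ∧ (f x).1 ≤ q.eval x.length ∧ (f x).2.length = D ∧
      (∀ Z ∈ (f x).2, ∀ c ∈ Z, c.2.length ≤ k ∧
        ∀ t ∈ c.1, t.2.length ≤ k ∧ ∀ i ∈ t.2, i ≤ q.eval x.length) ∧
      (x ∈ L ↔ β (truths S τ (f x).1 (f x).2) = true)

end Pool.Agent.SparseNP
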