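import Pool.Agent.Lib.MP_69a69c_lc.Defs

/-!
# Threshold reductions of bounded degree
-/

namespace Pool.Agent.SparseNP

open Pool.Agent.PolyTime

open Classical in
/-- The number of entries `A` of the list `P` (each `A` is a list of strings) such that all strings
of `A` belong to `S`. -/
noncomputable def cnt (S : Set (List Bool)) (P : List (List (List Bool))) : ℕ :=
  (P.filter fun A => decide (∀ y ∈ A, y ∈ S)).length

/-- `L` is reducible to `S` by a threshold reduction of bounded degree: for some `k`, a
polynomial-time function maps `x` to two lists `P`, `Q` of lists of at most `k` strings, and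
`x ∈ L` iff more entries of `P` than of `Q` are contained in `S`. -/
def ThresholdReducible (S L : Set (List Bool)) : Prop :=
  ∃ (k : ℕ) (f : List Bool → List (List (List Bool)) × List (List (List Bool))),
    IsPolyTime (enc : List Bool → D)
      (enc : List (List (List Bool)) × List (List (List Bool)) → D) f ∧
    ∀ x, (∀ A ∈ (f x).1, A.length ≤ k) ∧ (∀ A ∈ (f x).2, A.length ≤ k) ∧
      (x ∈ L ↔ cnt S (f x).2 < cnt S (f x).1)

end Pool.Agent.SparseNP
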