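import Pool.Agent.Lib.MP_69a69c_lc.Defs

/-!
# Polynomial threshold reductions with arbitrary weights to tally sets
-/

namespace Pool.Agent.SparseNP

open Pool.Agent.PolyTime

/-- The tally language of the set `T` of numbers: it consists of the strings `1^i`, `i ∈ T`. -/
def tally (T : Set ℕ) : Set (List Bool) := {x | ∃ i ∈ T, x = List.replicate i true}

open Classical in
/-- The indicator function of `T`. -/
noncomputable def ind (T : Set ℕ) (i : ℕ) : ℤ := if i ∈ T then 1 else 0

/-- `L` is reducible to `T` by a polynomial threshold reduction of bounded degree with arbitrary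
weights: for some `k` and some polynomial `q`, a polynomial-time function maps `x` to two
polynomials `P`, `Q` of degree at most `k` in the variables `X_i`, `i ≤ q(|x|)`, given by lists of
terms with natural coefficients in binary, and `x ∈ L` iff `P > Q` when `X_i` is `1` for `i ∈ T` and
`0` otherwise. -/
def WeightedReducible (T : Set ℕ) (L : Set (List Bool)) : Prop :=
  ∃ (k : ℕ) (q : Polynomial ℕ) (f : List Bool → List (ℕ × List ℕ) × List (ℕ × List ℕ)),
    IsPolyTime (enc : List Bool → D)
      (enc : List (ℕ × List ℕ) × List (ℕ × List ℕ) → D) f ∧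
    ∀ x, (∀ t ∈ (f x).1 ++ (f x).2, t.2.length ≤ k ∧ ∀ i ∈ t.2, i ≤ q.eval x.length) ∧
      (x ∈ L ↔ value (ind T) (f x).2 < value (ind T) (f x).1)

end Pool.Agent.SparseNP
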