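import Pool.Agent.Lib.MP_69a69c_lc.Lang4

/-!
# Evaluation of weighted thresholds on explicit sets; the generic search
-/

namespace Pool.Agent.SparseNP

open Pool.Agent.PolyTime

/-- terms of polynomials -/
abbrev PP := List (ℕ × List ℕ)

/-- the value of a polynomial at the set of lengths of the strings in `Sh` -/
def valS (Sh : List (List Bool)) (P : PP) : ℕ :=
  (P.map fun t => if t.2.all (fun i => decide (i ∈ Sh.map fun s => s.length)) = true then t.1
    else 0).sum

/-- comparison -/
def evE (g : List Bool → PP × PP) (Sh : List (List Bool)) (y : List Bool) : Bool :=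
  decide (valS Sh (g y).2 < valS Sh (g y).1)

theorem valS_eq {T : Set ℕ} {Sh : List (List Bool)} {P : PP}
    (h : ∀ t ∈ P, ∀ i ∈ t.2, (i ∈ Sh.map (fun s => s.length) ↔ i ∈ T)) :
    ((valS Sh P : ℕ) : ℤ) = value (ind T) P := by
  classical
  induction P with
  | nil => rfl
  | cons t P ih =>
    have e1 : valS Sh (t :: P) = (if t.2.all (fun i => decide (i ∈ Sh.map fun s => s.length)) =
      true then t.1 else 0) + valS Sh P := rfl
    rw [e1, value_cons]
    push_cast
    rw [ih fun t' ht' => h t' (List.mem_cons_of_mem _ ht')]
    congr 1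
    have h1 := h t (List.mem_cons_self ..)
    have e2 : (t.2.map (ind T)).prod = if ∀ i ∈ t.2, i ∈ T then 1 else 0 := by
      generalize t.2 = M
      induction M with
      | nil => simp
      | cons i M ih =>
        rw [List.map_cons, List.prod_cons, ih]
        unfold ind
        by_cases hi : i ∈ T <;> simp [hi]
    rw [e2]
    have e3 : (t.2.all (fun i => decide (i ∈ Sh.map fun s => s.length)) = true) ↔
        ∀ i ∈ t.2, i ∈ T := by
      rw [List.all_eq_true]
      simp only [decide_eq_true_eq]
      exact forall₂_congr fun i hi => h1 i hi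
    by_cases hc : ∀ i ∈ t.2, i ∈ T
    · rw [if_pos (e3.2 hc), if_pos hc, mul_one]
    · rw [if_neg (fun h => hc (e3.1 h)), if_neg hc, mul_zero]

theorem tally_mem {T : Set ℕ} {Sh : List (List Bool)} {m : ℕ} (h1 : ∀ s ∈ Sh, s ∈ tally T)
    (h2 : ∀ s : List Bool, s.length ≤ m → (s ∈ Sh ↔ s ∈ tally T)) {i : ℕ} (hi : i ≤ m) :
    i ∈ Sh.map (fun s => s.length) ↔ i ∈ T := by
  constructor
  · intro h
    obtain ⟨s, hs, rfl⟩ := List.mem_map.1 h
    obtain ⟨j, hj, rfl⟩ := h1 s hs
    rwa [List.length_replicate]
  · intro h
    refine List.mem_map.2 ⟨List.replicate i true, (h2 _ ?_).2 ⟨i, h, rfl⟩, ?_⟩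
    · rwa [List.length_replicate]
    · exact List.length_replicate

theorem tally_census (T : Set ℕ) (n : ℕ) :
    (tally T ∩ {x | x.length ≤ n}).ncard ≤ (Polynomial.X + 1 : Polynomial ℕ).eval n := by
  classical
  have h1 : tally T ∩ {x | x.length ≤ n} ⊆
      (((Finset.range (n + 1)).image fun i => List.replicate i true : Finset (List Bool)) :
        Set (List Bool)) := by
    rintro x ⟨⟨i, hi, rfl⟩, hx⟩
    rw [Set.mem_setOf_eq, List.length_replicate] at hx
    rw [Finset.mem_coe, Finset.mem_image]
    exact ⟨i, Finset.mem_range.2 (by omega), rfl⟩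
  refine (Set.ncard_le_ncard h1 (Finset.finite_toSet _)).trans ?_
  rw [Set.ncard_coe_finset]
  refine Finset.card_image_le.trans ?_
  simp

theorem ptime_valS {α : Type} [Enc α] {Sh : α → List (List Bool)} {P : α → PP} (hSh : PTime Sh)
    (hP : PTime P) : PTime (fun x => valS (Sh x) (P x)) := by
  unfold valS
  have h1 : PTime (fun x => (Sh x).map fun s => s.length) :=
    PTime.map (g := fun (_ : α) (s : List Bool) => s.length) hSh PTime.snd.length
  refine ptime_sum (PTime.map (g := fun (x : α) (t : ℕ × List ℕ) =>
    if t.2.all (fun i => decide (i ∈ (Sh x).map fun s => s.length)) = true then t.1 else 0) hP ?_)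
  refine PTime.ite ?_ (PTime.fst' PTime.snd) (PTime.const 0)
  exact PTime.all (g := fun (p : α × (ℕ × List ℕ)) (i : ℕ) =>
    decide (i ∈ (Sh p.1).map fun s => s.length)) (PTime.snd' PTime.snd)
    (PTime.mem PTime.snd (h1.comp (PTime.fst' PTime.fst)))

theorem ptime_evE {g : List Bool → PP × PP} (hg : PTime g) :
    PTime (fun z : List (List Bool) × List Bool => evE g z.1 z.2) := by
  unfold evE
  exact PTime.lt (ptime_valS PTime.fst (hg.comp PTime.snd).snd')
    (ptime_valS PTime.fst (hg.comp PTime.snd).fst')

/-! ### the generic search -/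

/-- one level -/
def levelG (pass : List Bool → Bool) (K : ℕ) (C : List (List Bool)) : List (List Bool) :=
  ((children C).filter pass).take K

/-- the search -/
def searchG (n : ℕ) (pass : List Bool → Bool) (K : ℕ) : List (List Bool) :=
  (List.replicate n ()).foldl (fun C _ => levelG pass K C) [[]]

theorem levelG_props {pass : List Bool → Bool} {K : ℕ}
    {C : List (List Bool)} {n : ℕ} (hC : ∀ v ∈ C, v.length = n)
    (hs : C.Pairwise fun v v' => ofBits v < ofBits v') :
    (∀ v ∈ levelG pass K C, v.length = n + 1) ∧
    (levelG pass K C).Pairwise (fun v v' => ofBits v < ofBits v') ∧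
    (levelG pass K C).length ≤ K := by
  unfold levelG
  refine ⟨fun v hv => ?_, ?_, ?_⟩
  · exact children_length hC v (List.mem_of_mem_filter (List.mem_of_mem_take hv))
  · exact ((children_sorted hs).filter _).take
  · exact List.length_take_le _ _

theorem searchG_succ (n : ℕ) (pass : List Bool → Bool) (K : ℕ) :
    searchG (n + 1) pass K = levelG pass K (searchG n pass K) := by
  unfold searchG
  rw [foldl_replicate (fun C => levelG pass K C)]

theorem searchG_props (pass : List Bool → Bool) (K : ℕ) : ∀ n : ℕ,
    (∀ v ∈ searchG n pass K, v.length = n) ∧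
    (searchG n pass K).Pairwise (fun v v' => ofBits v < ofBits v') ∧
    (searchG n pass K).length ≤ K + 1 := by
  intro n
  induction n with
  | zero => simp [searchG]
  | succ n ih =>
    rw [searchG_succ]
    have h := levelG_props (pass := pass) (K := K) ih.1 ih.2.1
    exact ⟨h.1, h.2.1, h.2.2.trans (Nat.le_succ _)⟩

theorem searchG_mem {pass : List Bool → Bool} {K N : ℕ} {w : List Bool} (hw : w.length = N)
    (h1 : ∀ n < N, pass (w.drop (N - (n + 1))) = true)
    (h2 : ∀ n < N, ∀ F : Finset (List Bool), (∀ v ∈ F, v.length = n + 1 ∧ pass v = true) →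
      F.card ≤ K) : w ∈ searchG N pass K := by
  have key : ∀ n : ℕ, n ≤ N → w.drop (N - n) ∈ searchG n pass K := by
    intro n
    induction n with
    | zero =>
      intro _
      rw [Nat.sub_zero, ← hw, List.drop_length]
      simp [searchG]
    | succ n ih =>
      intro hn
      have hmem := ih (by omega)
      obtain ⟨hC, hs, _⟩ := searchG_props pass K n
      rw [searchG_succ]
      generalize searchG n pass K = C at hmem hC hs
      have hch := children_length hC
      have hchs := children_sorted hs
      have hi : N - (n + 1) < w.length := by omega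
      have hcons : w.drop (N - (n + 1)) = w[N - (n + 1)] :: w.drop (N - n) := by
        rw [List.drop_eq_getElem_cons hi]
        congr 2
        omega
      have hv : w.drop (N - (n + 1)) ∈ children C := by
        rw [hcons]
        refine List.mem_flatMap.2 ⟨_, hmem, ?_⟩
        cases w[N - (n + 1)] <;> simp
      have hfil : w.drop (N - (n + 1)) ∈ (children C).filter pass :=
        List.mem_filter.2 ⟨hv, h1 n (by omega)⟩
      unfold levelG
      rw [List.take_of_length_le]
      · exact hfil
      · have hnd : ((children C).filter pass).Nodup := by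
          refine List.Nodup.filter _ ?_
          exact hchs.imp fun {a b} h hab => by rw [hab] at h; exact lt_irrefl _ h
        rw [← List.toFinset_card_of_nodup hnd]
        refine h2 n (by omega) _ fun v hv => ?_
        rw [List.mem_toFinset, List.mem_filter] at hv
        exact ⟨hch v hv.1, hv.2⟩
  have h := key N le_rfl
  rwa [Nat.sub_self, List.drop_zero] at h

end Pool.Agent.SparseNP
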