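import Pool.Agent.Lib.MP_69a69c_lc.Time2

/-!
# P = NP if a sparse set in NP is complete under threshold reductions of bounded degree
-/

namespace Pool.Agent.SparseNP

open Pool.Agent.PolyTime

theorem poly_lt_two_pow (P : Polynomial ℕ) : ∃ k0 : ℕ, ∀ s, k0 ≤ s → P.eval s < 2 ^ s := by
  have h : Filter.Tendsto (fun s : ℕ => ((P.eval s : ℕ) : ℝ) / 2 ^ s) Filter.atTop (nhds 0) := by
    have h1 : (fun s : ℕ => ((P.eval s : ℕ) : ℝ) / 2 ^ s) = fun s : ℕ =>
        ∑ i ∈ Finset.range (P.natDegree + 1), (P.coeff i : ℝ) * ((s : ℝ) ^ i / 2 ^ s) := by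
      funext s
      rw [Polynomial.eval_eq_sum_range]
      push_cast
      rw [Finset.sum_div]
      exact Finset.sum_congr rfl fun i _ => by ring
    rw [h1]
    have h2 : (0 : ℝ) = ∑ i ∈ Finset.range (P.natDegree + 1), (P.coeff i : ℝ) * 0 := by simp
    rw [h2]
    exact tendsto_finsetSum _ fun i _ =>
      (tendsto_pow_const_div_const_pow_of_one_lt i (by norm_num)).const_mul _
  obtain ⟨k0, hk0⟩ := Filter.eventually_atTop.1
    (h.eventually (gt_mem_nhds (show (0 : ℝ) < 1 by norm_num)))
  refine ⟨k0, fun s hs => ?_⟩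
  have := hk0 s hs
  rw [div_lt_one (by positivity)] at this
  exact_mod_cast this

theorem size_LL_aux {P : LL} {A : List (List Bool)} (hA : A ∈ P) :
    ∀ s ∈ A, s.length ≤ size (enc P) := by
  intro s hs
  have h1 := size_le_of_mem hA
  have h2 := size_le_of_mem hs
  have h3 := length_le_size s
  omega

theorem size_query (x : List Bool) (c l p a b e s : ℕ) (hx : x.length ≤ s) (hc : c < 2 ^ s)
    (hl : l < 2 ^ s) (hp : p < 2 ^ s) (ha : a < 2 ^ s) (hb : b < 2 ^ s) (he : e < 2 ^ s) :
    size (enc (wd (x, (c, (l, (p, (a, b, e))))))) ≤ 112 * s + 53 := by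
  have h0 := size_bits_le (wd (x, (c, (l, (p, (a, b, e))))))
  have h1 : (wd (x, (c, (l, (p, (a, b, e)))))).length =
      size (enc (x, (c, (l, (p, (a, b, e)))))) := rfl
  have h2 : size (enc (x, (c, (l, (p, (a, b, e)))))) = size (enc x) + (size (enc c) +
      (size (enc l) + (size (enc p) + (size (enc a) + (size (enc b) + size (enc e) + 1) + 1) + 1)
        + 1) + 1) + 1 := by
    rw [size_pair, size_pair, size_pair, size_pair, size_pair, size_pair]
  have h3 := size_bits_le x
  have h4 := size_nat_le_of_lt hc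
  have h5 := size_nat_le_of_lt hl
  have h6 := size_nat_le_of_lt hp
  have h7 := size_nat_le_of_lt ha
  have h8 := size_nat_le_of_lt hb
  have h9 := size_nat_le_of_lt he
  omega

/-- the maximal certificate -/
theorem exists_max {V : List Bool × List Bool → Bool} {x : List Bool} {N : ℕ}
    (h : ∃ u : List Bool, u.length = N ∧ V (x, u) = true) :
    ∃ w : List Bool, w.length = N ∧ V (x, w) = true ∧
      ∀ w', w'.length = N → V (x, w') = true → ofBits w' ≤ ofBits w := by
  classical
  obtain ⟨u, hu1, hu2⟩ := h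
  let Q : ℕ → Prop := fun n => ∃ w : List Bool, (w.length = N ∧ V (x, w) = true) ∧ ofBits w = n
  have hQ : Q (Nat.findGreatest Q (2 ^ N)) := by
    refine Nat.findGreatest_spec (P := Q) (m := ofBits u) ?_ ⟨u, ⟨hu1, hu2⟩, rfl⟩
    have := ofBits_lt u
    rw [hu1] at this
    exact this.le
  obtain ⟨w, hw, hwn⟩ := hQ
  refine ⟨w, hw.1, hw.2, fun w' hw1 hw2 => ?_⟩
  rw [hwn]
  refine Nat.le_findGreatest ?_ ⟨w', ⟨hw1, hw2⟩, rfl⟩
  have := ofBits_lt w'
  rw [hw1] at this
  exact this.le

/-- Main theorem for sparse sets in NP. -/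
theorem main2 (S : Set (List Bool)) (hsp : Sparse S) (hNP : InNP S)
    (h : ∀ L, InNP L → ThresholdReducible S L) : ∀ L, InNP L → InP L := by
  rintro L ⟨pL, V, hV, hL⟩
  obtain ⟨sp, hsp⟩ := hsp
  obtain ⟨pS, VS, hVS, hS⟩ := hNP
  have hV' : PTime V := isPolyTime_iff.1 hV
  have hVS' : PTime VS := isPolyTime_iff.1 hVS
  obtain ⟨k1, g, hg, hgR⟩ := h (Left V pL) (left_inNP hV' pL)
  have hg' : PTime g := isPolyTime_iff.1 hg
  obtain ⟨G, hG, hGm, hGs⟩ := hg'.size_le
  have hpLB : PBd fun n => pL.eval n := ⟨pL, fun _ => le_rfl⟩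
  have hspB : PBd fun n => sp.eval n := ⟨sp, fun _ => le_rfl⟩
  have hΓ : PBd fun n => G (4 * (2 * n + 1 + pL.eval n) + 1) :=
    PBd.comp hG (((PBd.const 4).mul ((((PBd.const 2).mul PBd.id).add (PBd.const 1)).add
      hpLB)).add (PBd.const 1))
  obtain ⟨cl, hcl, hclb⟩ := PTime.clock (α := List Bool) hΓ
  obtain ⟨C, hC, hCm, hCs⟩ := hcl.size_le
  have hW := W_inNP (pL := pL) hg' hcl hVS' hS hsp
  obtain ⟨k, f, hf, hfR⟩ := h _ hW
  have hf' : PTime f := isPolyTime_iff.1 hf
  obtain ⟨F, hF, hFm, hFs⟩ := hf'.size_le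
  have hFB : PBd fun n => F (112 * n + 53) :=
    PBd.comp hF (((PBd.const 112).mul PBd.id).add (PBd.const 53))
  have hCB : PBd fun n => sp.eval (C (4 * n + 1)) + 1 :=
    (PBd.comp hspB (PBd.comp hC (((PBd.const 4).mul PBd.id).add (PBd.const 1)))).add
      (PBd.const 1)
  obtain ⟨PB, hPB⟩ := hFB
  obtain ⟨P4, hP4⟩ := hCB
  obtain ⟨P2, hP2⟩ : ∃ P : Polynomial ℕ, ∀ n, P.eval n = (sp.eval (PB.eval n) + 1) ^ k :=
    ⟨(sp.comp PB + 1) ^ k, fun n => by
      rw [Polynomial.eval_pow, Polynomial.eval_add, Polynomial.eval_comp, Polynomial.eval_one]⟩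
  obtain ⟨P1, hP1⟩ : ∃ P : Polynomial ℕ, ∀ n, P.eval n =
      8 * P2.eval n ^ 2 * PB.eval n ^ 2 * (pL.eval n + 1) + 2 :=
    ⟨8 * P2 ^ 2 * PB ^ 2 * (pL + 1) + 2, fun n => by simp⟩
  obtain ⟨P3, hP3⟩ : ∃ P : Polynomial ℕ, ∀ n, P.eval n =
      8 * P2.eval n ^ 2 * PB.eval n ^ 2 * (2 * P2.eval n * PB.eval n) :=
    ⟨8 * P2 ^ 2 * PB ^ 2 * (2 * P2 * PB), fun n => by simp⟩
  obtain ⟨k0, hk0⟩ := poly_lt_two_pow (2 * P1 + P4 + pL)
  refine ⟨alg2 V pL f P1 P2 P3 P4 k0, (ptime_alg2 hV' hf' P1 P2 P3 P4 k0).isPolyTime, ?_⟩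
  intro x
  rw [hL x]
  have hslen : (x ++ List.replicate k0 false).length = x.length + k0 := by
    rw [List.length_append, List.length_replicate]
  unfold alg2
  rw [hslen, List.any_eq_true]
  simp only [List.any_eq_true, Bool.and_eq_true, decide_eq_true_eq, List.length_replicate,
    List.mem_range]
  constructor
  · intro hu
    obtain ⟨w, hw, hVw, hmax⟩ := exists_max hu
    obtain ⟨s, hs⟩ : ∃ s, s = x.length + k0 := ⟨_, rfl⟩
    rw [← hs]
    have hxs : x.length ≤ s := by omega
    have hgr := hk0 s (by omega)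
    rw [Polynomial.eval_add, Polynomial.eval_add, Polynomial.eval_mul] at hgr
    have h2eval : (2 : Polynomial ℕ).eval s = 2 := by simp
    rw [h2eval] at hgr
    have hlenw : ∀ v : List Bool, v.length ≤ pL.eval x.length →
        size (enc (g (word pL x v))) ≤ (cl x).length := by
      intro v hv
      have e1 := word_length pL x v hv
      have e2 := size_bits_le (word pL x v)
      have e3 := hGs (word pL x v)
      have e4 := length_le_size x
      have e5 : pL.eval x.length ≤ pL.eval (size (enc x)) := eval_mono pL (by omega)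
      have e6 : G (size (enc (word pL x v))) ≤
          G (4 * (2 * size (enc x) + 1 + pL.eval (size (enc x))) + 1) := hGm (by omega)
      exact e3.trans (e6.trans (hclb x))
    have hlen : ∀ v : List Bool, v.length ≤ pL.eval x.length →
        (∀ A ∈ (g (word pL x v)).1, ∀ s ∈ A, s.length ≤ (cl x).length) ∧
        (∀ A ∈ (g (word pL x v)).2, ∀ s ∈ A, s.length ≤ (cl x).length) := by
      intro v hv
      have e1 := hlenw v hv
      have e2 : size (enc (g (word pL x v))) = size (enc (g (word pL x v)).1) +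
        size (enc (g (word pL x v)).2) + 1 := by rw [← size_pair]
      constructor
      · intro A hA s hs
        have := size_LL_aux hA s hs
        omega
      · intro A hA s hs
        have := size_LL_aux hA s hs
        omega
    obtain ⟨c, hc⟩ : ∃ c, c = census S (cl x).length := ⟨_, rfl⟩
    have hcs : c < P4.eval s := by
      have e1 : c ≤ sp.eval (cl x).length := by rw [hc]; exact hsp _
      have e2 : (cl x).length ≤ C (4 * s + 1) := by
        have e3 := hCs x
        have e4 := length_le_size (cl x)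
        have e5 : C (size (enc x)) ≤ C (4 * s + 1) := hCm (by
          have := size_bits_le x
          omega)
        omega
      have e3 : sp.eval (cl x).length ≤ sp.eval (C (4 * s + 1)) := eval_mono sp e2
      have e4 : sp.eval (C (4 * s + 1)) + 1 ≤ P4.eval s := hP4 s
      omega
    obtain ⟨p, hp⟩ : ∃ p, p = findPr (List.replicate (P1.eval s) ()) := ⟨_, rfl⟩
    have hspec := findPr_spec (List.replicate (P1.eval s) ()) (by
      rw [List.length_replicate, hP1]; omega)
    rw [← hp, List.length_replicate] at hspec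
    obtain ⟨hp1, hp2, hp3⟩ := hspec
    have hodd : p % 2 = 1 := by
      rcases hp1.eq_two_or_odd with h2 | h2
      · have := hP1 s
        omega
      · exact h2
    have hpLs : pL.eval x.length ≤ pL.eval s := eval_mono pL hxs
    rw [← hp]
    refine ⟨c, hcs, w, ?_, hw, hVw⟩
    have hquery : ∀ n < pL.eval x.length, ∀ κ ∈ idx3 p,
        size (enc (f (wd (x, (c, (n + 1, (p, κ))))))) ≤ PB.eval s := by
      intro n hn κ hκ
      obtain ⟨a, b, e⟩ := κ
      have hκ' : a < p ∧ b < p ∧ e < p := by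
        simpa [idx3, List.mem_product] using hκ
      have e1 := hFs (wd (x, (c, (n + 1, (p, (a, b, e))))))
      have e2 := size_query x c (n + 1) p a b e s hxs (by omega) (by omega) (by omega)
        (by omega) (by omega) (by omega)
      exact e1.trans ((hFm e2).trans (hPB s))
    refine search2_mem (S := S) (B := PB.eval s) (k := k) (m := PB.eval s) hp1 hodd hw
      ?_ ?_ ?_ ?_ ?_ ?_
    · intro n hn κ hκ
      rw [hc, ← W_value hS (fun y => (hgR y).2.2) hlen hw hVw hmax (n + 1) p κ]
      exact (hfR _).2.2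
    · intro n hn κ hκ
      have e1 := hquery n hn κ hκ
      have e2 : size (enc (f (wd (x, (c, (n + 1, (p, κ))))))) =
        size (enc (qryP f x c (n + 1) p κ)) + size (enc (qryQ f x c (n + 1) p κ)) + 1 := by
        rw [← size_pair]
        rfl
      have e3 := length_le_size (qryP f x c (n + 1) p κ)
      have e4 := length_le_size (qryQ f x c (n + 1) p κ)
      omega
    · intro n hn κ hκ A hA
      have e1 := hquery n hn κ hκ
      have e2 : size (enc (f (wd (x, (c, (n + 1, (p, κ))))))) =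
        size (enc (qryP f x c (n + 1) p κ)) + size (enc (qryQ f x c (n + 1) p κ)) + 1 := by
        rw [← size_pair]
        rfl
      rcases List.mem_append.1 hA with hA | hA
      · refine ⟨(hfR _).1 A hA, fun y hy => ?_⟩
        have := size_LL_aux hA y hy
        omega
      · refine ⟨(hfR _).2.1 A hA, fun y hy => ?_⟩
        have := size_LL_aux hA y hy
        omega
    · rw [hP2]
      exact Nat.pow_le_pow_left (Nat.add_le_add_right (hsp _) 1) _
    · have e1 := hP1 s
      have e2 : 8 * P2.eval s ^ 2 * PB.eval s ^ 2 * (pL.eval x.length + 1) ≤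
          8 * P2.eval s ^ 2 * PB.eval s ^ 2 * (pL.eval s + 1) :=
        Nat.mul_le_mul_left _ (by omega)
      omega
    · rw [hP3]
  · rintro ⟨c, _, v, _, h1, h2⟩
    exact ⟨v, h1, h2⟩

end Pool.Agent.SparseNP
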