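import Pool.Agent.Lib.MP_69a69c_lc.Time4

/-!
# P = NP if a tally set in NP is complete under polynomial threshold reductions of bounded degree
with arbitrary weights
-/

namespace Pool.Agent.SparseNP

open Pool.Agent.PolyTime

/-- Main theorem for tally sets in NP. -/
theorem main4 (T : Set ℕ) (hT : InNP (tally T))
    (h : ∀ L, InNP L → WeightedReducible T L) : ∀ L, InNP L → InP L := by
  rintro L ⟨pL, V, hV, hL⟩
  obtain ⟨pS, VS, hVS, hS⟩ := hT
  have hsp := tally_census T
  generalize (Polynomial.X + 1 : Polynomial ℕ) = sp at hsp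
  have hV' : PTime V := isPolyTime_iff.1 hV
  have hVS' : PTime VS := isPolyTime_iff.1 hVS
  obtain ⟨k1, q1, g, hg, hgR⟩ := h (Left V pL) (left_inNP hV' pL)
  have hg' : PTime g := isPolyTime_iff.1 hg
  have hpLB : PBd fun n => pL.eval n := ⟨pL, fun _ => le_rfl⟩
  have hspB : PBd fun n => sp.eval n := ⟨sp, fun _ => le_rfl⟩
  have hΓ : PBd fun n => q1.eval (2 * n + 1 + pL.eval n) :=
    PBd.comp ⟨q1, fun _ => le_rfl⟩ ((((PBd.const 2).mul PBd.id).add (PBd.const 1)).add hpLB)
  obtain ⟨cl, hcl, hclb⟩ := PTime.clock (α := List Bool) hΓ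
  obtain ⟨C, hC, hCm, hCs⟩ := hcl.size_le
  have hW := WE_inNP (pL := pL) (ptime_evE hg') hcl hVS' hS hsp
  obtain ⟨k, q, f, hf, hfR⟩ := h _ hW
  have hf' : PTime f := isPolyTime_iff.1 hf
  obtain ⟨F, hF, hFm, hFs⟩ := hf'.size_le
  have hFB : PBd fun n => F (112 * n + 53) :=
    PBd.comp hF (((PBd.const 112).mul PBd.id).add (PBd.const 53))
  have hCB : PBd fun n => sp.eval (C (4 * n + 1)) + 1 :=
    (PBd.comp hspB (PBd.comp hC (((PBd.const 4).mul PBd.id).add (PBd.const 1)))).add
      (PBd.const 1)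
  obtain ⟨PB, hPB⟩ := hFB
  obtain ⟨P4, hP4⟩ := hCB
  obtain ⟨P6, hP6⟩ : ∃ P : Polynomial ℕ, ∀ n, P.eval n = q.eval (112 * n + 53) + 1 :=
    ⟨q.comp (112 * Polynomial.X + 53) + 1, fun n => by simp [Polynomial.eval_comp]⟩
  obtain ⟨Pd, hPd⟩ : ∃ P : Polynomial ℕ, ∀ n, P.eval n = (P6.eval n + 1) ^ k :=
    ⟨(P6 + 1) ^ k, fun n => by simp⟩
  obtain ⟨P1, hP1⟩ : ∃ P : Polynomial ℕ, ∀ n, P.eval n =
      2 * Pd.eval n ^ 2 * (pL.eval n + 1) + 2 :=
    ⟨2 * Pd ^ 2 * (pL + 1) + 2, fun n => by simp⟩
  obtain ⟨P3, hP3⟩ : ∃ P : Polynomial ℕ, ∀ n, P.eval n = 2 * Pd.eval n ^ 2 :=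
    ⟨2 * Pd ^ 2, fun n => by simp⟩
  obtain ⟨P5, hP5⟩ : ∃ P : Polynomial ℕ, ∀ n, P.eval n =
      (2 * P1.eval n) ^ 3 * (4 * (2 * P1.eval n) ^ 3 * ((2 * P1.eval n) ^ 3 + 1)) *
        ((2 * P1.eval n) ^ 3 * (PB.eval n + Pd.eval n) + 1) :=
    ⟨(2 * P1) ^ 3 * (4 * (2 * P1) ^ 3 * ((2 * P1) ^ 3 + 1)) *
        ((2 * P1) ^ 3 * (PB + Pd) + 1), fun n => by simp⟩
  obtain ⟨k0, hk0⟩ := poly_lt_two_pow (2 * P1 + P4 + pL)
  refine ⟨alg4 V pL f k P1 P3 P4 P5 P6 k0, (ptime_alg4 hV' hf' k P1 P3 P4 P5 P6 k0).isPolyTime,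
    ?_⟩
  intro x
  rw [hL x]
  have hslen : (x ++ List.replicate k0 false).length = x.length + k0 := by
    rw [List.length_append, List.length_replicate]
  unfold alg4
  rw [hslen, List.any_eq_true]
  simp only [List.any_eq_true, Bool.and_eq_true, decide_eq_true_eq, List.length_replicate,
    List.mem_range]
  constructor
  · intro hu
    obtain ⟨w, hw, hVw, hmax⟩ := exists_max hu
    obtain ⟨s, hs⟩ : ∃ s, s = x.length + k0 := ⟨_, rfl⟩
    rw [← hs]
    have hxs : x.length ≤ s := by omega
    have hgr := hk0 s (by omega)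
    rw [Polynomial.eval_add, Polynomial.eval_add, Polynomial.eval_mul] at hgr
    have h2eval : (2 : Polynomial ℕ).eval s = 2 := by simp
    rw [h2eval] at hgr
    have hidx : ∀ v : List Bool, v.length ≤ pL.eval x.length →
        ∀ t ∈ (g (word pL x v)).1 ++ (g (word pL x v)).2, ∀ i ∈ t.2, i ≤ (cl x).length := by
      intro v hv t ht i hi
      have e1 := word_length pL x v hv
      have e2 := ((hgR (word pL x v)).1 t ht).2 i hi
      have e4 := length_le_size x
      have e5 : pL.eval x.length ≤ pL.eval (size (enc x)) := eval_mono pL (by omega)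
      have e6 : q1.eval (word pL x v).length ≤
          q1.eval (2 * size (enc x) + 1 + pL.eval (size (enc x))) := eval_mono q1 (by omega)
      exact e2.trans (e6.trans (hclb x))
    have heval : ∀ Sh : List (List Bool), (∀ s ∈ Sh, s ∈ tally T) →
        (∀ s : List Bool, s.length ≤ (cl x).length → (s ∈ Sh ↔ s ∈ tally T)) →
        ∀ v : List Bool, v.length ≤ pL.eval x.length →
        (evE g Sh (word pL x v) = true ↔ word pL x v ∈ Left V pL) := by
      intro Sh h1 h2 v hv
      rw [(hgR _).2]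
      unfold evE
      rw [decide_eq_true_eq]
      have h3 := hidx v hv
      rw [← valS_eq (Sh := Sh) (P := (g (word pL x v)).1) fun t ht i hi =>
          tally_mem h1 h2 (h3 t (List.mem_append_left _ ht) i hi),
        ← valS_eq (Sh := Sh) (P := (g (word pL x v)).2) fun t ht i hi =>
          tally_mem h1 h2 (h3 t (List.mem_append_right _ ht) i hi)]
      exact Nat.cast_lt.symm
    obtain ⟨c, hc⟩ : ∃ c, c = census (tally T) (cl x).length := ⟨_, rfl⟩
    have hcs : c < P4.eval s := by
      have e1 : c ≤ sp.eval (cl x).length := by rw [hc]; exact hsp _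
      have e2 : (cl x).length ≤ C (4 * s + 1) := by
        have e3 := hCs x
        have e4 := length_le_size (cl x)
        have e5 : C (size (enc x)) ≤ C (4 * s + 1) := hCm (by
          have := size_bits_le x
          omega)
        omega
      have e3 : sp.eval (cl x).length ≤ sp.eval (C (4 * s + 1)) := eval_mono sp e2
      have e4 : sp.eval (C (4 * s + 1)) + 1 ≤ P4.eval s := hP4 s
      omega
    obtain ⟨p, hp⟩ : ∃ p, p = findPr (List.replicate (P1.eval s) ()) := ⟨_, rfl⟩
    have hspec := findPr_spec (List.replicate (P1.eval s) ()) (by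
      rw [List.length_replicate, hP1]; omega)
    rw [← hp, List.length_replicate] at hspec
    obtain ⟨hp1, hp2, hp3⟩ := hspec
    have hodd : p % 2 = 1 := by
      rcases hp1.eq_two_or_odd with h2 | h2
      · have := hP1 s
        omega
      · exact h2
    have hpLs : pL.eval x.length ≤ pL.eval s := eval_mono pL hxs
    rw [← hp]
    refine ⟨c, hcs, w, ?_, hw, hVw⟩
    obtain ⟨idx, hidxd⟩ : ∃ idx, idx = monos k (List.range (P6.eval s)) := ⟨_, rfl⟩
    rw [← hidxd]
    have hnd : idx.Nodup := by rw [hidxd]; exact monos_nodup _ List.nodup_range _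
    have h0 : [] ∈ idx := by
      rw [hidxd, mem_monos]
      exact ⟨Nat.zero_le _, fun i hi => absurd hi List.not_mem_nil⟩
    have hdlen : idx.length ≤ Pd.eval s := by
      rw [hidxd, hPd]
      refine (monos_length _ _).trans ?_
      rw [List.length_range]
    have hdpos : 0 < idx.length := List.length_pos_of_mem h0
    have hpbig : 2 * idx.length ^ 2 * (pL.eval x.length + 1) ≤ p := by
      have e1 := hP1 s
      have e2 : 2 * idx.length ^ 2 * (pL.eval x.length + 1) ≤
          2 * Pd.eval s ^ 2 * (pL.eval s + 1) :=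
        Nat.mul_le_mul (Nat.mul_le_mul_left _ (Nat.pow_le_pow_left hdlen 2)) (by omega)
      omega
    have hquery : ∀ n < pL.eval x.length, ∀ κ ∈ idx3 p,
        size (enc (wd (x, (c, (n + 1, (p, κ)))))) ≤ 112 * s + 53 := by
      intro n hn κ hκ
      obtain ⟨a, b, e⟩ := κ
      have hκ' : a < p ∧ b < p ∧ e < p := by
        simpa [idx3, List.mem_product] using hκ
      exact size_query x c (n + 1) p a b e s hxs (by omega) (by omega) (by omega)
        (by omega) (by omega) (by omega)
    refine searchG_mem hw ?_ ?_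
    · intro n hn
      have hvlen : (w.drop (pL.eval x.length - (n + 1))).length = n + 1 := by
        rw [List.length_drop]
        omega
      refine passL_true (T := T) (β := PB.eval s + Pd.eval s) hnd h0 ?_ ?_ ?_ ?_ ?_
      · intro κ hκ t ht
        rw [hvlen] at ht
        have e1 := (hfR _).1 t ht
        have e2 := hquery n hn κ hκ
        have e3 := length_le_size (wd (x, (c, (n + 1, (p, κ)))))
        rw [hidxd, mem_monos]
        refine ⟨e1.1, fun i hi => ?_⟩
        have e4 := e1.2 i hi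
        have e5 : q.eval (wd (x, (c, (n + 1, (p, κ))))).length ≤ q.eval (112 * s + 53) :=
          eval_mono q (by omega)
        rw [List.mem_range, hP6]
        omega
      · intro κ hκ
        rw [hvlen, hc, ← WE_value hS heval hw hVw hmax (n + 1) p κ]
        exact (hfR _).2
      · intro κ hκ
        rw [hvlen]
        have e1 := hFs (wd (x, (c, (n + 1, (p, κ)))))
        have e2 := hquery n hn κ hκ
        exact ((e1.trans (hFm e2)).trans (hPB s)).trans (Nat.le_add_right _ _)
      · omega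
      · rw [List.length_replicate, hP5]
        have e1 : p ^ 3 ≤ (2 * P1.eval s) ^ 3 := Nat.pow_le_pow_left hp3 3
        generalize p ^ 3 = a at e1
        generalize (2 * P1.eval s) ^ 3 = b at e1
        refine Nat.mul_le_mul (Nat.mul_le_mul e1 (Nat.mul_le_mul (Nat.mul_le_mul_left _ e1) ?_))
          ?_
        · omega
        · exact Nat.add_le_add_right (Nat.mul_le_mul_right _ e1) 1
    · intro n hn G hG
      refine (passL_card (N := pL.eval x.length) hp1 hodd hdpos hn hpbig G hG).trans ?_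
      rw [hP3]
      exact Nat.mul_le_mul_left _ (Nat.pow_le_pow_left hdlen 2)
  · rintro ⟨c, _, v, _, h1, h2⟩
    exact ⟨v, h1, h2⟩

end Pool.Agent.SparseNP
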