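import Mathlib

/-!
# Radial isotropic position (Forster)
-/

namespace Pool.Agent.SparseNP

open Matrix Finset

section iso

variable {d : ℕ} {ι : Type} [Fintype ι] [DecidableEq ι]

/-- Euclidean norm -/
noncomputable def nrm (x : Fin d → ℝ) : ℝ := Real.sqrt (x ⬝ᵥ x)

theorem dot_self_nonneg (x : Fin d → ℝ) : 0 ≤ x ⬝ᵥ x :=
  Finset.sum_nonneg fun i _ => mul_self_nonneg (x i)

theorem nrm_sq (x : Fin d → ℝ) : nrm x ^ 2 = x ⬝ᵥ x := Real.sq_sqrt (dot_self_nonneg x)

theorem nrm_nonneg (x : Fin d → ℝ) : 0 ≤ nrm x := Real.sqrt_nonneg _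

theorem nrm_pos {x : Fin d → ℝ} (hx : x ≠ 0) : 0 < nrm x := by
  refine Real.sqrt_pos.2 (lt_of_le_of_ne (dot_self_nonneg x) fun h => hx ?_)
  exact dotProduct_self_eq_zero.1 h.symm

theorem abs_le_nrm (x : Fin d → ℝ) (i : Fin d) : |x i| ≤ nrm x := by
  unfold nrm
  rw [← Real.sqrt_sq_eq_abs]
  refine Real.sqrt_le_sqrt ?_
  rw [sq]
  exact Finset.single_le_sum (f := fun i => x i * x i) (fun i _ => mul_self_nonneg (x i))
    (Finset.mem_univ i)

theorem nrm_smul (c : ℝ) (x : Fin d → ℝ) : nrm (c • x) = |c| * nrm x := by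
  unfold nrm
  rw [smul_dotProduct, dotProduct_smul, smul_eq_mul, smul_eq_mul, ← mul_assoc, ← sq,
    Real.sqrt_mul (sq_nonneg c), Real.sqrt_sq_eq_abs]

theorem det_bound (X : Matrix (Fin d) (Fin d) ℝ) :
    |X.det| ≤ (d.factorial : ℝ) * ∏ i, nrm (X i) := by
  rw [Matrix.det_apply']
  refine (Finset.abs_sum_le_sum_abs _ _).trans ?_
  have h : ∀ σ ∈ (Finset.univ : Finset (Equiv.Perm (Fin d))),
      |((Equiv.Perm.sign σ : ℤ) : ℝ) * ∏ i, X (σ i) i| ≤ ∏ i, nrm (X i) := by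
    intro σ _
    rw [abs_mul, Finset.abs_prod]
    have h1 : |((Equiv.Perm.sign σ : ℤ) : ℝ)| = 1 := by
      rcases Int.units_eq_one_or (Equiv.Perm.sign σ) with h | h <;> rw [h] <;> simp
    rw [h1, one_mul]
    refine (Finset.prod_le_prod (fun i _ => abs_nonneg _) fun i _ =>
      abs_le_nrm (X (σ i)) i).trans ?_
    rw [Equiv.prod_comp σ (fun i => nrm (X i))]
  refine (Finset.sum_le_sum h).trans ?_
  rw [Finset.sum_const, Finset.card_univ, Fintype.card_perm, Fintype.card_fin, nsmul_eq_mul]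

/-- general position -/
def GP (W : ι → Fin d → ℝ) : Prop :=
  ∀ σ : Fin d → ι, Function.Injective σ → (Matrix.of fun i => W (σ i)).det ≠ 0

/-- the functional -/
noncomputable def Fn (W : ι → Fin d → ℝ) (A : Matrix (Fin d) (Fin d) ℝ) : ℝ :=
  ∑ i, Real.log (nrm (A *ᵥ W i)) - (Fintype.card ι / d : ℝ) * Real.log |A.det|

/-- the smallest elements -/
theorem exists_smallest (a : ι → ℝ) : ∀ k : ℕ, k ≤ Fintype.card ι →
    ∃ J : Finset ι, J.card = k ∧ ∀ i ∈ J, ∀ j, j ∉ J → a i ≤ a j := by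
  intro k
  induction k with
  | zero => intro _; exact ⟨∅, by simp⟩
  | succ k ih =>
    intro hk
    obtain ⟨J, hJ, hJ'⟩ := ih (by omega)
    have hne : (Jᶜ).Nonempty := by
      rw [← Finset.card_pos, Finset.card_compl]
      omega
    obtain ⟨m, hm, hmin⟩ := Finset.exists_min_image Jᶜ a hne
    rw [Finset.mem_compl] at hm
    refine ⟨insert m J, by rw [Finset.card_insert_of_notMem hm, hJ], ?_⟩
    intro i hi j hj
    rw [Finset.mem_insert, not_or] at hj
    rcases Finset.mem_insert.1 hi with rfl | hi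
    · exact hmin j (Finset.mem_compl.2 hj.2)
    · exact hJ' i hi j hj.2

theorem det_rows_mul (A : Matrix (Fin d) (Fin d) ℝ) (w : Fin d → Fin d → ℝ) :
    (Matrix.of fun i => A *ᵥ w i).det = (Matrix.of w).det * A.det := by
  have h : (Matrix.of fun i => A *ᵥ w i) = Matrix.of w * Aᵀ := by
    ext i j
    simp only [Matrix.of_apply, Matrix.mul_apply, Matrix.transpose_apply, Matrix.mulVec,
      dotProduct]
    exact Finset.sum_congr rfl fun k _ => mul_comm _ _
  rw [h, Matrix.det_mul, Matrix.det_transpose]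

variable {W : ι → Fin d → ℝ}

theorem GP.ne_zero (hW : GP W) (hd : 0 < d) (hM : d ≤ Fintype.card ι) (i : ι) : W i ≠ 0 := by
  classical
  -- extend `i` to an injective family
  obtain ⟨J, hJ1, hJ2⟩ : ∃ J : Finset ι, {i} ⊆ J ∧ J.card = d := by
    obtain ⟨J, h1, _, h2⟩ := Finset.exists_subsuperset_card_eq (s := {i}) (t := Finset.univ)
      (n := d) (Finset.subset_univ _) (by rw [Finset.card_singleton]; omega)
      (by rw [Finset.card_univ]; omega)
    exact ⟨J, h1, h2⟩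
  let e := (J.equivFinOfCardEq hJ2).symm
  have hinj : Function.Injective (fun k : Fin d => (e k : ι)) :=
    Subtype.coe_injective.comp e.injective
  have hdet := hW _ hinj
  intro h0
  apply hdet
  have hi : i ∈ J := hJ1 (Finset.mem_singleton_self i)
  refine Matrix.det_eq_zero_of_row_eq_zero (e.symm ⟨i, hi⟩) fun j => ?_
  simp only [Matrix.of_apply, Equiv.apply_symm_apply, h0, Pi.zero_apply]

/-- lower bound for determinants of subfamilies -/
theorem GP.exists_lower (hW : GP W) : ∃ c : ℝ, 0 < c ∧ ∀ σ : Fin d → ι, Function.Injective σ →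
    c ≤ |(Matrix.of fun i => W (σ i)).det| := by
  classical
  by_cases hne : (Finset.univ.filter fun σ : Fin d → ι => Function.Injective σ).Nonempty
  · obtain ⟨σ0, h0, hmin⟩ := Finset.exists_min_image _
      (fun σ : Fin d → ι => |(Matrix.of fun i => W (σ i)).det|) hne
    refine ⟨|(Matrix.of fun i => W (σ0 i)).det|,
      abs_pos.2 (hW σ0 (Finset.mem_filter.1 h0).2), fun σ hσ => ?_⟩
    exact hmin σ (Finset.mem_filter.2 ⟨Finset.mem_univ _, hσ⟩)
  · refine ⟨1, one_pos, fun σ hσ => ?_⟩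
    exact absurd ⟨σ, Finset.mem_filter.2 ⟨Finset.mem_univ _, hσ⟩⟩ hne

/-- Hadamard-type inequality for a `d`-element set of indices -/
theorem log_det_le (hd : 0 < d) (hW : GP W) (hM : d ≤ Fintype.card ι) {c : ℝ} (hc : 0 < c)
    (hcW : ∀ σ : Fin d → ι, Function.Injective σ → c ≤ |(Matrix.of fun i => W (σ i)).det|)
    {A : Matrix (Fin d) (Fin d) ℝ} (hA : A.det ≠ 0) {J : Finset ι} (hJ : J.card = d) :
    Real.log |A.det| ≤ ∑ i ∈ J, Real.log (nrm (A *ᵥ W i)) +
      (Real.log d.factorial - Real.log c) := by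
  let e := (J.equivFinOfCardEq hJ).symm
  have hinj : Function.Injective (fun k : Fin d => (e k : ι)) :=
    Subtype.coe_injective.comp e.injective
  have h1 := hcW _ hinj
  have h2 := det_bound (Matrix.of fun i => A *ᵥ W (e i : ι))
  rw [det_rows_mul A fun i => W (e i : ι), abs_mul] at h2
  have hpos : ∀ i, 0 < nrm (A *ᵥ W i) := by
    intro i
    refine nrm_pos fun h => ?_
    exact hW.ne_zero hd hM i (by
      have := Matrix.eq_zero_of_mulVec_eq_zero hA h
      exact this)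
  have h3 : c * |A.det| ≤ (d.factorial : ℝ) * ∏ i : Fin d, nrm (A *ᵥ W (e i : ι)) :=
    (mul_le_mul_of_nonneg_right h1 (abs_nonneg _)).trans h2
  have h4 : ∏ i : Fin d, nrm (A *ᵥ W (e i : ι)) = ∏ i ∈ J, nrm (A *ᵥ W i) := by
    rw [← Finset.prod_coe_sort J fun i => nrm (A *ᵥ W i)]
    exact Equiv.prod_comp e fun i : J => nrm (A *ᵥ W i)
  rw [h4] at h3
  have h5 := Real.log_le_log (by positivity) h3
  rw [Real.log_mul hc.ne' (abs_ne_zero.2 hA), Real.log_mul (by positivity)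
    (Finset.prod_ne_zero_iff.2 fun i _ => (hpos i).ne'), Real.log_prod
    (fun i _ => (hpos i).ne')] at h5
  linarith

/-- the norms of the images are comparable -/
theorem spread (hd : 0 < d) (hW : GP W) (hM : d < Fintype.card ι) {c : ℝ} (hc : 0 < c)
    (hcW : ∀ σ : Fin d → ι, Function.Injective σ → c ≤ |(Matrix.of fun i => W (σ i)).det|)
    {A : Matrix (Fin d) (Fin d) ℝ} (hA : A.det ≠ 0) (i0 j0 : ι) :
    Real.log (nrm (A *ᵥ W j0)) - Real.log (nrm (A *ᵥ W i0)) ≤ d * (Fn W A +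
      (Fintype.card ι / d : ℝ) * (Real.log d.factorial - Real.log c)) := by
  obtain ⟨a, ha⟩ : ∃ a : ι → ℝ, a = fun i => Real.log (nrm (A *ᵥ W i)) := ⟨_, rfl⟩
  obtain ⟨J, hJ, hJ'⟩ := exists_smallest a d hM.le
  have hlog := log_det_le hd hW hM.le hc hcW hA hJ
  have hdR : (0 : ℝ) < d := by exact_mod_cast hd
  have hne : (Jᶜ).Nonempty := by
    rw [← Finset.card_pos, Finset.card_compl]
    omega
  have hneJ : J.Nonempty := by
    rw [← Finset.card_pos]
    omega
  have hFn : Fn W A = ∑ i, a i - (Fintype.card ι / d : ℝ) * Real.log |A.det| := by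
    rw [ha]; rfl
  have hlog' : Real.log |A.det| ≤ ∑ i ∈ J, a i + (Real.log d.factorial - Real.log c) := by
    rw [ha]; exact hlog
  have hgoal : a j0 - a i0 = Real.log (nrm (A *ᵥ W j0)) - Real.log (nrm (A *ᵥ W i0)) := by
    rw [ha]
  rw [← hgoal]
  -- representatives
  obtain ⟨j1, hj1, hj1'⟩ : ∃ j ∈ Jᶜ, a j0 ≤ a j := by
    by_cases h : j0 ∈ J
    · obtain ⟨j, hj⟩ := hne
      exact ⟨j, hj, hJ' j0 h j (Finset.mem_compl.1 hj)⟩
    · exact ⟨j0, Finset.mem_compl.2 h, le_rfl⟩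
  obtain ⟨i1, hi1, hi1'⟩ : ∃ i ∈ J, a i ≤ a i0 := by
    by_cases h : i0 ∈ J
    · exact ⟨i0, h, le_rfl⟩
    · obtain ⟨i, hi⟩ := hneJ
      exact ⟨i, hi, hJ' i hi i0 h⟩
  -- sums
  have hsplit : ∑ i, a i = ∑ i ∈ J, a i + ∑ i ∈ Jᶜ, a i := (Finset.sum_add_sum_compl J a).symm
  have hcardc : ((Jᶜ).card : ℝ) = (Fintype.card ι : ℝ) - d := by
    rw [Finset.card_compl, hJ, Nat.cast_sub hM.le]
  have havg : ∀ j ∈ Jᶜ, ∑ i ∈ J, a i ≤ d * a j := by
    intro j hj
    have := Finset.sum_le_card_nsmul J a (a j) fun i hi => hJ' i hi j (Finset.mem_compl.1 hj)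
    rwa [hJ, nsmul_eq_mul] at this
  have hone : (a j1 - a i1) ≤ d * a j1 - ∑ i ∈ J, a i := by
    have h1 : d * a j1 - ∑ i ∈ J, a i = ∑ i ∈ J, (a j1 - a i) := by
      rw [Finset.sum_sub_distrib, Finset.sum_const, hJ, nsmul_eq_mul]
    rw [h1]
    exact Finset.single_le_sum (f := fun i => a j1 - a i)
      (fun i hi => sub_nonneg.2 (hJ' i hi j1 (Finset.mem_compl.1 hj1))) hi1
  have htot : a j1 - a i1 ≤ ∑ j ∈ Jᶜ, (d * a j - ∑ i ∈ J, a i) :=
    hone.trans (Finset.single_le_sum (f := fun j => d * a j - ∑ i ∈ J, a i)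
      (fun j hj => sub_nonneg.2 (havg j hj)) hj1)
  rw [Finset.sum_sub_distrib, Finset.sum_const, nsmul_eq_mul, hcardc, ← Finset.mul_sum] at htot
  have hmul : (d : ℝ) * (Fn W A + (Fintype.card ι / d : ℝ) *
      (Real.log d.factorial - Real.log c)) = d * ∑ i, a i - Fintype.card ι *
      (Real.log |A.det| - (Real.log d.factorial - Real.log c)) := by
    rw [hFn]
    field_simp
    ring
  rw [hmul, hsplit]
  have hMR : (0 : ℝ) ≤ Fintype.card ι := Nat.cast_nonneg _
  have h2 : (Fintype.card ι : ℝ) * (Real.log |A.det| - (Real.log d.factorial - Real.log c)) ≤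
      Fintype.card ι * ∑ i ∈ J, a i := mul_le_mul_of_nonneg_left (by linarith) hMR
  nlinarith

theorem Fn_smul (hd : 0 < d) (hW : GP W) (hM : d ≤ Fintype.card ι) {A : Matrix (Fin d) (Fin d) ℝ}
    (hA : A.det ≠ 0) {c : ℝ} (hc : 0 < c) : Fn W (c • A) = Fn W A := by
  unfold Fn
  have hdR : (0 : ℝ) < d := by exact_mod_cast hd
  have hpos : ∀ i, 0 < nrm (A *ᵥ W i) := fun i => nrm_pos fun h =>
    hW.ne_zero hd hM i (Matrix.eq_zero_of_mulVec_eq_zero hA h)
  have h1 : ∀ i, Real.log (nrm ((c • A) *ᵥ W i)) = Real.log c + Real.log (nrm (A *ᵥ W i)) := by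
    intro i
    rw [Matrix.smul_mulVec, nrm_smul, abs_of_pos hc, Real.log_mul hc.ne' (hpos i).ne']
  have h2 : Real.log |(c • A).det| = d * Real.log c + Real.log |A.det| := by
    rw [Matrix.det_smul, Fintype.card_fin, abs_mul, abs_of_pos (pow_pos hc d),
      Real.log_mul (pow_pos hc d).ne' (abs_ne_zero.2 hA), Real.log_pow]
  rw [h2, Finset.sum_congr rfl fun i _ => h1 i, Finset.sum_add_distrib, Finset.sum_const,
    Finset.card_univ, nsmul_eq_mul]
  field_simp
  ring

theorem exists_min (hd : 0 < d) (hW : GP W) (hM : d < Fintype.card ι) :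
    ∃ A : Matrix (Fin d) (Fin d) ℝ, A.det ≠ 0 ∧
      ∀ A' : Matrix (Fin d) (Fin d) ℝ, A'.det ≠ 0 → Fn W A ≤ Fn W A' := by
  classical
  have hdR : (0 : ℝ) < d := by exact_mod_cast hd
  have hMR : (0 : ℝ) < Fintype.card ι := by exact_mod_cast (hd.trans hM)
  obtain ⟨c, hc, hcW⟩ := hW.exists_lower
  obtain ⟨σ, hσ⟩ : ∃ σ : Fin d → ι, Function.Injective σ := by
    have e := Fintype.equivFin ι
    exact ⟨fun k => e.symm (Fin.castLE hM.le k), e.symm.injective.comp (Fin.castLE_injective _)⟩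
  obtain ⟨W0, hW0⟩ : ∃ W0 : Matrix (Fin d) (Fin d) ℝ, W0 = (Matrix.of fun i => W (σ i))ᵀ :=
    ⟨_, rfl⟩
  have hW0det : W0.det ≠ 0 := by rw [hW0, Matrix.det_transpose]; exact hW σ hσ
  -- constants
  obtain ⟨F0, hF0⟩ : ∃ F0 : ℝ, F0 = Fn W (1 : Matrix (Fin d) (Fin d) ℝ) := ⟨_, rfl⟩
  obtain ⟨s, hs⟩ : ∃ s : ℝ, s = d * (F0 + (Fintype.card ι / d : ℝ) *
    (Real.log d.factorial - Real.log c)) := ⟨_, rfl⟩
  obtain ⟨C2, hC2⟩ : ∃ C2 : ℝ, C2 = Real.exp (F0 / Fintype.card ι + s) := ⟨_, rfl⟩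
  obtain ⟨B, hB⟩ : ∃ B : ℝ, B = ∑ k, ∑ j, C2 * |(W0⁻¹) k j| := ⟨_, rfl⟩
  have hC2pos : 0 < C2 := by rw [hC2]; exact Real.exp_pos _
  have hbound : ∀ A : Matrix (Fin d) (Fin d) ℝ, |A.det| = 1 → Fn W A ≤ F0 →
      ∀ i j, A i j ∈ Set.Icc (-B) B := by
    intro A hdet hF
    have hA : A.det ≠ 0 := by
      intro h
      rw [h, abs_zero] at hdet
      exact zero_ne_one hdet
    have hFn : Fn W A = ∑ i, Real.log (nrm (A *ᵥ W i)) := by
      unfold Fn
      rw [hdet, Real.log_one, mul_zero, sub_zero]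
    have hnrm : ∀ j, nrm (A *ᵥ W j) ≤ C2 := by
      intro j
      have h1 : ∀ i ∈ (Finset.univ : Finset ι), Real.log (nrm (A *ᵥ W j)) - s ≤
          Real.log (nrm (A *ᵥ W i)) := by
        intro i _
        have h2 := spread hd hW hM hc hcW hA i j
        have h3 : d * (Fn W A + (Fintype.card ι / d : ℝ) *
            (Real.log d.factorial - Real.log c)) ≤ s := by
          rw [hs]
          exact mul_le_mul_of_nonneg_left (by linarith) hdR.le
        linarith
      have h2 := Finset.sum_le_sum h1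
      rw [Finset.sum_const, Finset.card_univ, nsmul_eq_mul, ← hFn] at h2
      have h3 : Real.log (nrm (A *ᵥ W j)) ≤ F0 / Fintype.card ι + s := by
        have h4 : Real.log (nrm (A *ᵥ W j)) - s ≤ F0 / Fintype.card ι := by
          rw [le_div_iff₀ hMR]
          linarith
        linarith
      have hpos : 0 < nrm (A *ᵥ W j) := nrm_pos fun h =>
        hW.ne_zero hd hM.le j (Matrix.eq_zero_of_mulVec_eq_zero hA h)
      rw [hC2]
      exact (Real.log_le_iff_le_exp hpos).1 h3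
    intro i j
    have hAeq : A = (A * W0) * W0⁻¹ := by
      rw [Matrix.mul_assoc, Matrix.mul_nonsing_inv _ (isUnit_iff_ne_zero.2 hW0det),
        Matrix.mul_one]
    have hent : ∀ k, |(A * W0) i k| ≤ C2 := by
      intro k
      have h1 : (A * W0) i k = (A *ᵥ W (σ k)) i := by
        rw [hW0]
        simp only [Matrix.mul_apply, Matrix.transpose_apply, Matrix.of_apply, Matrix.mulVec,
          dotProduct]
      rw [h1]
      exact (abs_le_nrm _ i).trans (hnrm (σ k))
    have habs : |A i j| ≤ B := by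
      rw [hAeq, Matrix.mul_apply, hB]
      refine (Finset.abs_sum_le_sum_abs _ _).trans (Finset.sum_le_sum fun k _ => ?_)
      rw [abs_mul]
      refine (mul_le_mul_of_nonneg_right (hent k) (abs_nonneg _)).trans ?_
      exact Finset.single_le_sum (f := fun j => C2 * |(W0⁻¹) k j|)
        (fun j _ => mul_nonneg hC2pos.le (abs_nonneg _)) (Finset.mem_univ j)
    exact Set.mem_Icc.2 (abs_le.1 habs)
  -- the compact set
  obtain ⟨K, hK⟩ : ∃ K : Set (Matrix (Fin d) (Fin d) ℝ), K =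
      {A | (∀ i j, A i j ∈ Set.Icc (-B) B) ∧ |A.det| = 1} := ⟨_, rfl⟩
  have hcont_det : Continuous fun A : Matrix (Fin d) (Fin d) ℝ => |A.det| :=
    continuous_abs.comp (Continuous.matrix_det continuous_id)
  have hKc : IsCompact K := by
    have h1 : IsCompact {A : Fin d → Fin d → ℝ | ∀ i j, A i j ∈ Set.Icc (-B) B} := by
      have h2 : {A : Fin d → Fin d → ℝ | ∀ i j, A i j ∈ Set.Icc (-B) B} =
          Set.univ.pi fun _ : Fin d => Set.univ.pi fun _ : Fin d => Set.Icc (-B) B := by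
        ext A
        simp only [Set.mem_ofPred_eq, Set.mem_pi, Set.mem_univ, forall_true_left]
      rw [h2]
      exact isCompact_univ_pi fun _ => isCompact_univ_pi fun _ => isCompact_Icc
    have h3 : IsClosed {A : Matrix (Fin d) (Fin d) ℝ | |A.det| = 1} :=
      isClosed_eq hcont_det continuous_const
    rw [hK]
    exact h1.inter_right h3
  have h1K : (1 : Matrix (Fin d) (Fin d) ℝ) ∈ K := by
    rw [hK]
    exact ⟨hbound 1 (by simp) hF0.ge, by simp⟩
  have hcontF : ContinuousOn (Fn W) K := by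
    unfold Fn
    refine ContinuousOn.sub (continuousOn_finsetSum _ fun i _ => ?_)
      (continuousOn_const.mul (ContinuousOn.log hcont_det.continuousOn ?_))
    · refine ContinuousOn.log ?_ ?_
      · refine Continuous.continuousOn ?_
        unfold nrm
        have h1 : Continuous fun A : Matrix (Fin d) (Fin d) ℝ => A *ᵥ W i :=
          Continuous.matrix_mulVec continuous_id continuous_const
        exact Real.continuous_sqrt.comp (Continuous.dotProduct h1 h1)
      · intro A hAK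
        rw [hK] at hAK
        have hA : A.det ≠ 0 := by
          intro h
          have := hAK.2
          rw [h, abs_zero] at this
          exact zero_ne_one this
        exact (nrm_pos fun h =>
          hW.ne_zero hd hM.le i (Matrix.eq_zero_of_mulVec_eq_zero hA h)).ne'
    · intro A hAK
      rw [hK] at hAK
      rw [hAK.2]
      exact one_ne_zero
  obtain ⟨A, hAK, hmin⟩ := hKc.exists_isMinOn ⟨1, h1K⟩ hcontF
  have hAK' := hAK
  rw [hK] at hAK'
  refine ⟨A, ?_, ?_⟩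
  · intro h
    have := hAK'.2
    rw [h, abs_zero] at this
    exact zero_ne_one this
  · intro A' hA'
    -- scale
    obtain ⟨r, hr⟩ : ∃ r : ℝ, r = Real.exp (-(Real.log |A'.det| / d)) := ⟨_, rfl⟩
    have hrpos : 0 < r := by rw [hr]; exact Real.exp_pos _
    rw [← Fn_smul hd hW hM.le hA' hrpos]
    have hdet1 : |(r • A').det| = 1 := by
      rw [Matrix.det_smul, Fintype.card_fin, abs_mul, abs_of_pos (pow_pos hrpos d), hr,
        ← Real.exp_nat_mul]
      have h1 : (d : ℝ) * -(Real.log |A'.det| / d) = - Real.log |A'.det| := by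
        field_simp
      rw [h1, Real.exp_neg, Real.exp_log (abs_pos.2 hA')]
      exact inv_mul_cancel₀ (abs_ne_zero.2 hA')
    by_cases hle : Fn W (r • A') ≤ F0
    · have hmem : r • A' ∈ K := by
        rw [hK]
        exact ⟨hbound _ hdet1 hle, hdet1⟩
      exact hmin hmem
    · push Not at hle
      have h1 : Fn W A ≤ F0 := by
        rw [hF0]
        exact hmin h1K
      linarith

/-- **Radial isotropic position.** -/
theorem isotropic (hd : 0 < d) (hW : GP W) (hM : d < Fintype.card ι) :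
    ∃ A : Matrix (Fin d) (Fin d) ℝ, A.det ≠ 0 ∧ ∀ u : Fin d → ℝ, u ⬝ᵥ u = 1 →
      ∑ i, ((A *ᵥ W i) ⬝ᵥ u) ^ 2 / ((A *ᵥ W i) ⬝ᵥ (A *ᵥ W i)) = Fintype.card ι / d := by
  obtain ⟨A, hA, hmin⟩ := exists_min hd hW hM
  refine ⟨A, hA, fun u hu => ?_⟩
  have hdR : (0 : ℝ) < d := by exact_mod_cast hd
  have hq : ∀ i, 0 < (A *ᵥ W i) ⬝ᵥ (A *ᵥ W i) := by
    intro i
    have h1 : 0 < nrm (A *ᵥ W i) := nrm_pos fun h =>
      hW.ne_zero hd hM.le i (Matrix.eq_zero_of_mulVec_eq_zero hA h)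
    rw [← nrm_sq]
    positivity
  -- the variation
  obtain ⟨Y, hY⟩ : ∃ Y : ℝ → Matrix (Fin d) (Fin d) ℝ, Y = fun s =>
    1 + Matrix.replicateCol Unit (s • u) * Matrix.replicateRow Unit u := ⟨_, rfl⟩
  have hYdet : ∀ s, (Y s).det = 1 + s := by
    intro s
    rw [hY]
    simp only
    rw [Matrix.det_one_add_replicateCol_mul_replicateRow, dotProduct_smul, hu, smul_eq_mul,
      mul_one]
  have hYmul : ∀ (s : ℝ) (x : Fin d → ℝ), Y s *ᵥ x = x + (s * (x ⬝ᵥ u)) • u := by
    intro s x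
    rw [hY]
    simp only
    rw [Matrix.add_mulVec, Matrix.one_mulVec]
    congr 1
    ext i
    simp only [Matrix.mulVec, dotProduct, Matrix.mul_apply, Matrix.replicateCol_apply,
      Matrix.replicateRow_apply, Finset.univ_unique, Finset.sum_singleton, Pi.smul_apply,
      smul_eq_mul]
    rw [Finset.mul_sum, Finset.sum_mul]
    exact Finset.sum_congr rfl fun j _ => by ring
  have hYq : ∀ (s : ℝ) (x : Fin d → ℝ), (Y s *ᵥ x) ⬝ᵥ (Y s *ᵥ x) =
      x ⬝ᵥ x + (2 * s + s ^ 2) * (x ⬝ᵥ u) ^ 2 := by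
    intro s x
    rw [hYmul, add_dotProduct, dotProduct_add, dotProduct_add, smul_dotProduct,
      dotProduct_smul, smul_dotProduct, dotProduct_smul, hu, dotProduct_comm u x]
    simp only [smul_eq_mul]
    ring
  -- the function of `s`
  obtain ⟨φ, hφ⟩ : ∃ φ : ℝ → ℝ, φ = fun s => ∑ i, (1 / 2) * Real.log
    ((A *ᵥ W i) ⬝ᵥ (A *ᵥ W i) + (2 * s + s ^ 2) * ((A *ᵥ W i) ⬝ᵥ u) ^ 2) -
      (Fintype.card ι / d : ℝ) * (Real.log (1 + s) + Real.log |A.det|) := ⟨_, rfl⟩
  have hval : ∀ s : ℝ, -1 < s → Fn W (Y s * A) = φ s := by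
    intro s hs
    rw [hφ]
    unfold Fn
    simp only
    congr 1
    · refine Finset.sum_congr rfl fun i _ => ?_
      unfold nrm
      rw [← Matrix.mulVec_mulVec, Real.log_sqrt (dot_self_nonneg _), hYq]
      ring
    · rw [Matrix.det_mul, hYdet, abs_mul, abs_of_pos (by linarith : (0 : ℝ) < 1 + s),
        Real.log_mul (by linarith) (abs_ne_zero.2 hA)]
  have hY0 : Y 0 * A = A := by
    rw [hY]
    simp only
    have : Matrix.replicateCol Unit ((0 : ℝ) • u) * Matrix.replicateRow Unit u = 0 := by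
      ext i j
      simp [Matrix.mul_apply]
    rw [this, add_zero, Matrix.one_mul]
  have hloc : IsLocalMin φ 0 := by
    have h1 : ∀ᶠ s : ℝ in nhds 0, -1 < s := lt_mem_nhds (by norm_num)
    filter_upwards [h1] with s hs
    rw [← hval s hs, ← hval 0 (by norm_num), hY0]
    refine hmin _ ?_
    rw [Matrix.det_mul, hYdet]
    exact mul_ne_zero (by linarith) hA
  have hderiv : HasDerivAt φ (∑ i, (1 / 2) * ((2 * ((A *ᵥ W i) ⬝ᵥ u) ^ 2) /
      ((A *ᵥ W i) ⬝ᵥ (A *ᵥ W i))) - (Fintype.card ι / d : ℝ) * 1) 0 := by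
    rw [hφ]
    refine HasDerivAt.sub (HasDerivAt.fun_sum fun i _ => ?_) ?_
    · refine HasDerivAt.const_mul _ ?_
      have h1 : HasDerivAt (fun s : ℝ => (A *ᵥ W i) ⬝ᵥ (A *ᵥ W i) +
          (2 * s + s ^ 2) * ((A *ᵥ W i) ⬝ᵥ u) ^ 2) (2 * ((A *ᵥ W i) ⬝ᵥ u) ^ 2) 0 := by
        have h2 : HasDerivAt (fun s : ℝ => 2 * s + s ^ 2) (2 * 1 + 2 * 0) 0 := by
          have h3 : HasDerivAt (fun s : ℝ => 2 * s + s ^ 2)
              (2 * 1 + (2 : ℕ) * (0 : ℝ) ^ (2 - 1) * 1) 0 :=
            ((hasDerivAt_id' (0 : ℝ)).const_mul 2).add ((hasDerivAt_id' (0 : ℝ)).pow 2)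
          exact h3.congr_deriv (by norm_num)
        have h4 := (h2.mul_const (((A *ᵥ W i) ⬝ᵥ u) ^ 2)).const_add
          ((A *ᵥ W i) ⬝ᵥ (A *ᵥ W i))
        simpa using h4
      have h5 := h1.log (by
        simp only [mul_zero, ne_eq, OfNat.ofNat_ne_zero, not_false_eq_true, zero_pow, add_zero,
          zero_mul]
        exact (hq i).ne')
      simpa using h5
    · refine HasDerivAt.const_mul _ ?_
      have h1 : HasDerivAt (fun s : ℝ => 1 + s) 1 0 := (hasDerivAt_id (0 : ℝ)).const_add 1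
      have h2 := (h1.log (by norm_num)).add_const (Real.log |A.det|)
      simpa using h2
  have hzero := hloc.hasDerivAt_eq_zero hderiv
  have hfin : ∑ i, ((A *ᵥ W i) ⬝ᵥ u) ^ 2 / ((A *ᵥ W i) ⬝ᵥ (A *ᵥ W i)) =
      ∑ i, (1 / 2) * ((2 * ((A *ᵥ W i) ⬝ᵥ u) ^ 2) / ((A *ᵥ W i) ⬝ᵥ (A *ᵥ W i))) :=
    Finset.sum_congr rfl fun i _ => by ring
  rw [hfin]
  linarith

end iso

end Pool.Agent.SparseNP
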