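import Pool.Agent.Lib.MP_69a69c_lc.Main

/-!
# From sparse sets to tally advice, by hashing
-/

namespace Pool.Agent.SparseNP

open Pool.Agent.PolyTime

/-! ### Isolating moduli -/

theorem centralBinom_dvd {m n : ℕ} (hm : 0 < m) (h : ∀ r, 1 ≤ r → r ≤ 2 * m → r ∣ n) :
    Nat.centralBinom m ∣ n := by
  rw [Nat.dvd_iff_prime_pow_dvd_dvd]
  intro p k hp hk
  refine h _ (Nat.one_le_pow _ _ hp.pos) ?_
  have hne : Nat.centralBinom m ≠ 0 := Nat.centralBinom_ne_zero m
  have h1 : k ≤ (Nat.centralBinom m).factorization p :=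
    (hp.pow_dvd_iff_le_factorization hne).1 hk
  have h2 : p ^ (Nat.centralBinom m).factorization p ≤ 2 * m := by
    rw [Nat.centralBinom_eq_two_mul_choose]
    exact Nat.pow_factorization_choose_le (by omega)
  exact (Nat.pow_le_pow_right hp.pos h1).trans h2

theorem two_pow_le_centralBinom {m : ℕ} (hm : 0 < m) : 2 ^ m ≤ Nat.centralBinom m := by
  have h1 := Nat.four_pow_le_two_mul_self_mul_centralBinom m hm
  have h2 : 2 * m ≤ 2 ^ m := by
    have : m < 2 ^ m := Nat.lt_two_pow_self
    induction m with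
    | zero => omega
    | succ m ih =>
      cases m with
      | zero => simp
      | succ m =>
        have h3 := ih (by omega) (Nat.four_pow_le_two_mul_self_mul_centralBinom _ (by omega))
          Nat.lt_two_pow_self
        rw [pow_succ]
        omega
  have h3 : (4 : ℕ) ^ m = 2 ^ m * 2 ^ m := by
    rw [← pow_add, ← two_mul, pow_mul]
    norm_num
  rw [h3] at h1
  have h4 : 2 ^ m * 2 ^ m ≤ 2 ^ m * Nat.centralBinom m := h1.trans (Nat.mul_le_mul_right _ h2)
  exact Nat.le_of_mul_le_mul_left h4 (by positivity)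

theorem exists_isolating (A : Finset ℕ) (y l m : ℕ) (hy : y < 2 ^ l) (hA : ∀ a ∈ A, a < 2 ^ l)
    (hyA : y ∉ A) (hm : A.card * l < m) :
    ∃ r, 1 ≤ r ∧ r ≤ 2 * m ∧ ∀ a ∈ A, a % r ≠ y % r := by
  by_contra hcon
  push Not at hcon
  have hdvd : ∀ r, 1 ≤ r → r ≤ 2 * m → r ∣ ∏ a ∈ A, ((a : ℤ) - y).natAbs := by
    intro r h1 h2
    obtain ⟨a, ha, h3⟩ := hcon r h1 h2
    refine dvd_trans ?_ (Finset.dvd_prod_of_mem _ ha)
    rw [← Int.natCast_dvd]
    exact (Nat.modEq_iff_dvd.1 (show y ≡ a [MOD r] from h3.symm))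
  have h1 := centralBinom_dvd (by omega) hdvd
  have hpos : 0 < ∏ a ∈ A, ((a : ℤ) - y).natAbs := by
    refine Finset.prod_pos fun a ha => ?_
    have : a ≠ y := fun h => hyA (h ▸ ha)
    omega
  have h2 := Nat.le_of_dvd hpos h1
  have h3 := two_pow_le_centralBinom (m := m) (by omega)
  have h4 : ∏ a ∈ A, ((a : ℤ) - y).natAbs ≤ (2 ^ l) ^ A.card := by
    refine Finset.prod_le_pow_card _ _ _ fun a ha => ?_
    have := hA a ha
    omega
  rw [← pow_mul] at h4
  have h5 : 2 ^ (l * A.card) < 2 ^ m :=
    Nat.pow_lt_pow_right (by norm_num) (by rw [mul_comm]; exact hm)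
  omega

theorem ofBits_inj : ∀ (u v : List Bool), u.length = v.length → ofBits u = ofBits v → u = v := by
  intro u
  induction u with
  | nil => intro v h _; exact (List.length_eq_zero_iff.1 h.symm).symm
  | cons a u ih =>
    intro v h h'
    cases v with
    | nil => simp at h
    | cons b v =>
      rw [ofBits_cons, ofBits_cons] at h'
      have h1 : a = b := by
        cases a <;> cases b <;> simp at h' ⊢ <;> omega
      subst h1
      rw [ih v (by simpa using h) (by omega)]

/-! ### the tally advice -/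

open Classical in
/-- the new advice: even positions for `τ`, odd positions for the residues of the elements of
`S` -/
noncomputable def tau' (S : Set (List Bool)) (τ : ℕ → ℤ) (j : ℕ) : ℤ :=
  if j % 2 = 0 then τ (j / 2)
  else if ∃ y ∈ S, y.length = (Nat.unpair (j / 2)).1 ∧
    ofBits y % (Nat.unpair (Nat.unpair (j / 2)).2).1 = (Nat.unpair (Nat.unpair (j / 2)).2).2
  then 1 else 0

/-- the position for the residue of `y` modulo `r` -/
def pos (y : List Bool) (r : ℕ) : ℕ := 2 * Nat.pair y.length (Nat.pair r (ofBits y % r)) + 1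

open Classical in
theorem tau'_pos (S : Set (List Bool)) (τ : ℕ → ℤ) (y : List Bool) (r : ℕ) :
    tau' S τ (pos y r) =
      if ∃ y' ∈ S, y'.length = y.length ∧ ofBits y' % r = ofBits y % r then 1 else 0 := by
  unfold tau' pos
  have h1 : (2 * Nat.pair y.length (Nat.pair r (ofBits y % r)) + 1) % 2 ≠ 0 := by omega
  have h2 : (2 * Nat.pair y.length (Nat.pair r (ofBits y % r)) + 1) / 2 =
    Nat.pair y.length (Nat.pair r (ofBits y % r)) := by omega
  rw [if_neg h1, h2, Nat.unpair_pair, Nat.unpair_pair]

theorem tau'_even (S : Set (List Bool)) (τ : ℕ → ℤ) (i : ℕ) : tau' S τ (2 * i) = τ i := by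
  unfold tau'
  rw [if_pos (by omega)]
  congr 1
  omega

theorem hash_spec {S : Set (List Bool)} {s : Polynomial ℕ}
    (hS : ∀ n : ℕ, (S ∩ {x | x.length ≤ n}).ncard ≤ s.eval n) (τ : ℕ → ℤ) (y : List Bool)
    (R : ℕ) (hR : 2 * (s.eval y.length * y.length + 1) ≤ R) :
    y ∈ S ↔ ∀ r, 1 ≤ r → r ≤ R → tau' S τ (pos y r) = 1 := by
  classical
  constructor
  · intro h r _ _
    rw [tau'_pos, if_pos ⟨y, h, rfl, rfl⟩]
  · intro h
    by_contra hy
    have hfin : {x : List Bool | x.length ≤ y.length}.Finite := List.finite_length_le Bool _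
    have hfin' : (S ∩ {x | x.length ≤ y.length}).Finite := hfin.subset Set.inter_subset_right
    let A : Finset ℕ := ((hfin'.toFinset).filter fun x => x.length = y.length).image ofBits
    have hcard : A.card ≤ s.eval y.length := by
      refine Finset.card_image_le.trans ((Finset.card_filter_le _ _).trans ?_)
      rw [← Set.ncard_eq_toFinset_card _ hfin']
      exact hS _
    have hA : ∀ a ∈ A, a < 2 ^ y.length := by
      intro a ha
      obtain ⟨x, hx, rfl⟩ := Finset.mem_image.1 ha
      have := ofBits_lt x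
      rwa [(Finset.mem_filter.1 hx).2] at this
    have hyA : ofBits y ∉ A := by
      intro hc
      obtain ⟨x, hx, hxy⟩ := Finset.mem_image.1 hc
      obtain ⟨hx1, hx2⟩ := Finset.mem_filter.1 hx
      have := ofBits_inj x y hx2 hxy
      subst this
      exact hy ((Set.Finite.mem_toFinset _).1 hx1).1
    obtain ⟨r, hr1, hr2, hr3⟩ := exists_isolating A (ofBits y) y.length
      (s.eval y.length * y.length + 1) (ofBits_lt y) hA hyA
      (Nat.lt_succ_of_le (Nat.mul_le_mul_right _ hcard))
    have h1 := h r hr1 (hr2.trans hR)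
    rw [tau'_pos] at h1
    split at h1
    · rename_i h2
      obtain ⟨y', hy', hl, hmod⟩ := h2
      refine hr3 (ofBits y') ?_ hmod
      refine Finset.mem_image.2 ⟨y', Finset.mem_filter.2 ⟨?_, hl⟩, rfl⟩
      exact (Set.Finite.mem_toFinset _).2 ⟨hy', hl.le⟩
    · exact absurd h1 (by norm_num)

/-! ### transformation of conditions -/

/-- `1 - X_{pos y r}` modulo `p` -/
def lin (p : ℕ) (y : List Bool) (r : ℕ) : List (ℕ × List ℕ) := [(1, []), (p - 1, [pos y r])]

/-- shift to even positions -/
def shift (P : List (ℕ × List ℕ)) : List (ℕ × List ℕ) :=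
  P.map fun t => (t.1, t.2.map fun i => 2 * i)

/-- the equations for a condition -/
def eqs : ℕ → ℕ → List ℕ → List (ℕ × List ℕ) → List (List Bool) → List (List (ℕ × List ℕ))
  | 0, _, _, P, _ => [P]
  | _ + 1, _, _, P, [] => [P]
  | k + 1, p, R, P, y :: Y => R.flatMap fun r => eqs k p R (mulP P (lin p y r)) Y

theorem value_shift (S : Set (List Bool)) (τ : ℕ → ℤ) (P : List (ℕ × List ℕ)) :
    value (tau' S τ) (shift P) = value τ P := by
  unfold shift value
  rw [List.map_map]
  congr 1
  refine List.map_congr_left fun t _ => ?_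
  simp only [Function.comp_apply, List.map_map]
  congr 2
  refine List.map_congr_left fun i _ => ?_
  simp only [Function.comp_apply]
  exact tau'_even S τ i

theorem dvd_lin {S : Set (List Bool)} {τ : ℕ → ℤ} {p : ℕ} (hp : p.Prime) (y : List Bool)
    (r : ℕ) : (p : ℤ) ∣ value (tau' S τ) (lin p y r) ↔ tau' S τ (pos y r) = 1 := by
  classical
  have h1 : value (tau' S τ) (lin p y r) = 1 + ((p : ℤ) - 1) * tau' S τ (pos y r) := by
    unfold lin value
    have : ((p - 1 : ℕ) : ℤ) = (p : ℤ) - 1 := by
      rw [Nat.cast_sub hp.one_le]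
      norm_num
    simp [this]
  rw [h1, tau'_pos]
  split
  · simp
  · simp only [mul_zero, add_zero]
    constructor
    · intro h
      have h3 : (p : ℤ) ∣ ((1 : ℕ) : ℤ) := by simpa using h
      rw [Int.natCast_dvd_natCast, Nat.dvd_one] at h3
      exact absurd h3 hp.one_lt.ne'
    · intro h
      exact absurd h (by norm_num)

theorem eqs_spec {S : Set (List Bool)} {s : Polynomial ℕ}
    (hS : ∀ n : ℕ, (S ∩ {x | x.length ≤ n}).ncard ≤ s.eval n) (τ : ℕ → ℤ) {p : ℕ}
    (hp : p.Prime) (R : ℕ) : ∀ (k : ℕ) (P : List (ℕ × List ℕ)) (Y : List (List Bool)),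
      Y.length ≤ k → (∀ y ∈ Y, 2 * (s.eval y.length * y.length + 1) ≤ R) →
      (Holds (tau' S τ) p (eqs k p ((List.range R).map fun r => r + 1) P Y) ↔
        (p : ℤ) ∣ value (tau' S τ) P ∨ ∃ y ∈ Y, y ∈ S) := by
  have hp' : Prime (p : ℤ) := Nat.prime_iff_prime_int.1 hp
  intro k
  induction k with
  | zero =>
    intro P Y hY _
    obtain rfl : Y = [] := List.length_eq_zero_iff.1 (by omega)
    simp [eqs, Holds]
  | succ k ih =>
    intro P Y hY hR
    cases Y with
    | nil => simp [eqs, Holds]
    | cons y Y =>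
      have h1 : Holds (tau' S τ) p (eqs (k + 1) p ((List.range R).map fun r => r + 1) P (y :: Y))
          ↔ ∀ r, 1 ≤ r → r ≤ R → Holds (tau' S τ) p
            (eqs k p ((List.range R).map fun r => r + 1) (mulP P (lin p y r)) Y) := by
        unfold Holds
        simp only [eqs, List.mem_flatMap, List.mem_map, List.mem_range]
        constructor
        · intro h r hr1 hr2 Q hQ
          exact h Q ⟨r, ⟨r - 1, by omega, by omega⟩, hQ⟩
        · rintro h Q ⟨r, ⟨r', hr', rfl⟩, hQ⟩
          exact h (r' + 1) (by omega) (by omega) Q hQ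
      rw [h1]
      have h2 : ∀ r, Holds (tau' S τ) p
            (eqs k p ((List.range R).map fun r => r + 1) (mulP P (lin p y r)) Y) ↔
          (p : ℤ) ∣ value (tau' S τ) P ∨ tau' S τ (pos y r) = 1 ∨ ∃ y ∈ Y, y ∈ S := by
        intro r
        rw [ih _ Y (by simpa using hY) fun y hy => hR y (List.mem_cons_of_mem _ hy),
          value_mulP, hp'.dvd_mul, dvd_lin hp, or_assoc]
      simp only [h2]
      have h3 := hash_spec hS τ y R (hR y (List.mem_cons_self ..))
      simp only [List.mem_cons, exists_eq_or_imp]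
      rw [h3]
      constructor
      · intro h
        by_cases hP : (p : ℤ) ∣ value (tau' S τ) P
        · exact Or.inl hP
        · by_cases hY' : ∃ y ∈ Y, y ∈ S
          · exact Or.inr (Or.inr hY')
          · refine Or.inr (Or.inl fun r hr1 hr2 => ?_)
            rcases h r hr1 hr2 with h | h | h
            · exact absurd h hP
            · exact h
            · exact absurd h hY'
      · rintro (h | h | h) r hr1 hr2
        · exact Or.inl h
        · exact Or.inr (Or.inl (h r hr1 hr2))
        · exact Or.inr (Or.inr h)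

theorem eqs_bd (m : ℕ) (p : ℕ) (R : ℕ) : ∀ (k d : ℕ) (P : List (ℕ × List ℕ))
    (Y : List (List Bool)), (∀ t ∈ P, t.2.length ≤ d ∧ ∀ i ∈ t.2, i ≤ m) →
    (∀ y ∈ Y, ∀ r, 1 ≤ r → r ≤ R → pos y r ≤ m) →
    Bd (d + k) m (eqs k p ((List.range R).map fun r => r + 1) P Y) := by
  intro k
  induction k with
  | zero =>
    intro d P Y hP _ Q hQ
    rw [eqs, List.mem_singleton] at hQ
    subst hQ
    exact hP
  | succ k ih =>
    intro d P Y hP hY
    cases Y with
    | nil =>
      intro Q hQ
      rw [eqs, List.mem_singleton] at hQ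
      subst hQ
      exact fun t ht => ⟨((hP t ht).1).trans (by omega), (hP t ht).2⟩
    | cons y Y =>
      intro Q hQ
      rw [eqs] at hQ
      simp only [List.mem_flatMap, List.mem_map, List.mem_range] at hQ
      obtain ⟨r, ⟨r', hr', rfl⟩, hQ⟩ := hQ
      have h1 := ih (d + 1) (mulP P (lin p y (r' + 1))) Y ?_
        (fun y hy => hY y (List.mem_cons_of_mem _ hy)) Q hQ
      · intro t ht
        exact ⟨((h1 t ht).1).trans (by omega), (h1 t ht).2⟩
      · intro t ht
        unfold mulP lin at ht
        obtain ⟨a, ha, ht⟩ := List.mem_flatMap.1 ht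
        obtain ⟨b, hb, rfl⟩ := List.mem_map.1 ht
        have h2 := hP a ha
        have h3 := hY y (List.mem_cons_self ..) (r' + 1) (by omega) (by omega)
        simp only [List.mem_cons, List.not_mem_nil, or_false] at hb
        rcases hb with rfl | rfl
        · simp only [List.append_nil]
          exact ⟨by omega, h2.2⟩
        · refine ⟨by simp only [List.length_append, List.length_cons, List.length_nil]; omega, ?_⟩
          intro i hi
          rcases List.mem_append.1 hi with hi | hi
          · exact h2.2 i hi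
          · rw [List.mem_singleton] at hi
            subst hi
            exact h3

/-! ### running time -/

section
variable {α : Type} [Enc α]

theorem ptime_natPair {f g : α → ℕ} (hf : PTime f) (hg : PTime g) :
    PTime (fun x => Nat.pair (f x) (g x)) := by
  unfold Nat.pair
  exact PTime.iteP (PTime.lt hf hg) ((hg.mul hg).add hf) (((hf.mul hf).add hf).add hg)

theorem ptime_pos {f : α → List Bool} {g : α → ℕ} (hf : PTime f) (hg : PTime g) :
    PTime (fun x => pos (f x) (g x)) := by
  unfold pos
  exact ((PTime.const 2).mul (ptime_natPair hf.length (ptime_natPair hg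
    (hf.natOfBits.mod hg)))).add (PTime.const 1)

theorem ptime_lin {g : α → ℕ} {f : α → List Bool} {h : α → ℕ} (hg : PTime g) (hf : PTime f)
    (hh : PTime h) : PTime (fun x => lin (g x) (f x) (h x)) := by
  unfold lin
  exact ((PTime.const 1).pair (PTime.const [])).cons (((hg.sub (PTime.const 1)).pair
    ((ptime_pos hf hh).cons (PTime.const []))).cons (PTime.const []))

theorem ptime_shift {f : α → List (ℕ × List ℕ)} (hf : PTime f) :
    PTime (fun x => shift (f x)) := by
  unfold shift
  refine PTime.map (g := fun (_ : α) (t : ℕ × List ℕ) => (t.1, t.2.map fun i => 2 * i)) hf ?_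
  refine (PTime.fst' PTime.snd).pair ?_
  exact PTime.map (g := fun (_ : α × (ℕ × List ℕ)) (i : ℕ) => 2 * i) (PTime.snd' PTime.snd)
    ((PTime.const 2).mul PTime.snd)

theorem ptime_eqs : ∀ (k : ℕ) {α : Type} [Enc α] {p : α → ℕ} {R : α → List ℕ}
    {P : α → List (ℕ × List ℕ)} {Y : α → List (List Bool)}, PTime p → PTime R → PTime P →
    PTime Y → PTime (fun x => eqs k (p x) (R x) (P x) (Y x)) := by
  intro k
  induction k with
  | zero => intro α _ p R P Y _ _ hP _; exact hP.cons (PTime.const [])
  | succ k ih =>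
    intro α _ p R P Y hp hR hP hY
    refine (PTime.list_cases (h := fun z : α × (List Bool × List (List Bool)) =>
      (R z.1).flatMap fun r => eqs k (p z.1) (R z.1) (mulP (P z.1) (lin (p z.1) z.2.1 r)) z.2.2)
      hY (hP.cons (PTime.const [])) ?_).of_eq fun x => ?_
    · refine PTime.flatMap (g := fun (z : α × (List Bool × List (List Bool))) (r : ℕ) =>
        eqs k (p z.1) (R z.1) (mulP (P z.1) (lin (p z.1) z.2.1 r)) z.2.2) (hR.comp PTime.fst) ?_
      have e : PTime (fun w : (α × (List Bool × List (List Bool))) × ℕ => w.1.1) :=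
        PTime.fst' PTime.fst
      exact ih (hp.comp e) (hR.comp e) (ptime_mulP (hP.comp e) (ptime_lin (hp.comp e)
        (PTime.fst' (PTime.snd' PTime.fst)) PTime.snd)) (PTime.snd' (PTime.snd' PTime.fst))
    · cases h : Y x <;> rfl

end

/-- the transformed reduction -/
def newF (k : ℕ) (f : List Bool → ℕ × List (List Cond)) (c : List Bool → List Unit)
    (x : List Bool) : ℕ × List (List (List (ℕ × List ℕ))) :=
  ((f x).1, (f x).2.map fun Z => Z.flatMap fun e =>
    eqs k (f x).1 ((List.range (c x).length).map fun r => r + 1) (shift e.1) e.2)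

theorem ptime_newF (k : ℕ) {f : List Bool → ℕ × List (List Cond)} {c : List Bool → List Unit}
    (hf : PTime f) (hc : PTime c) : PTime (newF k f c) := by
  unfold newF
  refine hf.fst'.pair (PTime.map (g := fun (x : List Bool) (Z : List Cond) =>
    Z.flatMap fun e => eqs k (f x).1 ((List.range (c x).length).map fun r => r + 1)
      (shift e.1) e.2) hf.snd' ?_)
  refine PTime.flatMap (g := fun (z : List Bool × List Cond) (e : Cond) =>
    eqs k (f z.1).1 ((List.range (c z.1).length).map fun r => r + 1) (shift e.1) e.2)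
    PTime.snd ?_
  have e : PTime (fun w : (List Bool × List Cond) × Cond => w.1.1) := PTime.fst' PTime.fst
  refine ptime_eqs k (hf.comp e).fst' ?_ (ptime_shift (PTime.fst' PTime.snd))
    (PTime.snd' PTime.snd)
  exact PTime.map (g := fun (_ : (List Bool × List Cond) × Cond) (r : ℕ) => r + 1)
    (PTime.rangeLength (hc.comp e)) (PTime.snd.add (PTime.const 1))

theorem natPair_le (a b m : ℕ) (ha : a ≤ m) (hb : b ≤ m) : Nat.pair a b ≤ (m + 1) ^ 2 := by
  have h1 := Nat.pair_lt_max_add_one_sq a b
  have h2 : max a b ≤ m := max_le ha hb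
  have h3 : (max a b + 1) ^ 2 ≤ (m + 1) ^ 2 := Nat.pow_le_pow_left (by omega) 2
  omega

theorem pos_le (y : List Bool) (r m : ℕ) (hy : y.length ≤ m) (hr1 : 1 ≤ r) (hr : r ≤ m) :
    pos y r ≤ 2 * ((m + 1) ^ 2 + 1) ^ 2 + 1 := by
  unfold pos
  have h1 : ofBits y % r < r := Nat.mod_lt _ (by omega)
  have h2 := natPair_le r (ofBits y % r) m hr (by omega)
  have h3 : m ≤ (m + 1) ^ 2 := by nlinarith
  have h4 := natPair_le y.length (Nat.pair r (ofBits y % r)) ((m + 1) ^ 2) (by omega) h2
  omega

/-- A reduction to a sparse set and an advice gives a reduction to an advice. -/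
theorem reducible_of_sparse {S : Set (List Bool)} {s : Polynomial ℕ}
    (hS : ∀ n : ℕ, (S ∩ {x | x.length ≤ n}).ncard ≤ s.eval n) (τ : ℕ → ℤ)
    {L : Set (List Bool)} (h : ReducibleTo S τ L) : Reducible (tau' S τ) L := by
  obtain ⟨D, k, q, β, f, hf, hR⟩ := h
  have hf' : PTime f := isPolyTime_iff.1 hf
  obtain ⟨F, hF, hFm, hFs⟩ := hf'.size_le
  have hT : PBd fun n => 2 * (s.eval (F n) * F n + 1) :=
    (PBd.const 2).mul (((PBd.comp ⟨s, fun _ => le_rfl⟩ hF).mul hF).add (PBd.const 1))
  obtain ⟨c, hc, hcb⟩ := PTime.clock (α := List Bool) hT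
  obtain ⟨G, hG, hGm, hGs⟩ := hc.size_le
  have hB : PBd fun n => 2 * ((F n + G n + 1) ^ 2 + 1) ^ 2 + 1 :=
    ((PBd.const 2).mul (PBd.pow ((PBd.pow ((hF.add hG).add (PBd.const 1)) 2).add
      (PBd.const 1)) 2)).add (PBd.const 1)
  obtain ⟨b, hb⟩ := hB
  have hsz : ∀ x : List Bool, size (enc x) ≤ 4 * x.length + 1 := size_bits_le
  refine ⟨D, k + k, 2 * q + b.comp (4 * Polynomial.X + 1), β, newF k f c,
    (ptime_newF k hf' hc).isPolyTime, ?_⟩
  intro x
  obtain ⟨h1, h2, h3, h4, h5⟩ := hR x
  have hq' : (2 * q + b.comp (4 * Polynomial.X + 1)).eval x.length =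
      2 * q.eval x.length + b.eval (4 * x.length + 1) := by
    simp [Polynomial.eval_comp]
  rw [hq']
  -- the strings occurring in the conditions
  have hstr : ∀ Z ∈ (f x).2, ∀ e ∈ Z, ∀ y ∈ e.2, y.length ≤ F (size (enc x)) := by
    intro Z hZ e he y hy
    have e1 := size_le_of_mem hZ
    have e2 := size_le_of_mem he
    have e3 := size_le_of_mem hy
    have e4 := length_le_size y
    have e5 : size (enc e) = size (enc e.1) + size (enc e.2) + 1 := by rw [← size_pair]
    have e6 : size (enc (f x)) = size (enc (f x).1) + size (enc (f x).2) + 1 := by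
      rw [← size_pair]
    have e7 := hFs x
    omega
  have hsmono := eval_mono s
  have hbig : ∀ Z ∈ (f x).2, ∀ e ∈ Z, ∀ y ∈ e.2,
      2 * (s.eval y.length * y.length + 1) ≤ (c x).length := by
    intro Z hZ e he y hy
    have e1 := hstr Z hZ e he y hy
    refine le_trans ?_ (hcb x)
    exact Nat.mul_le_mul_left _ (Nat.add_le_add_right (Nat.mul_le_mul (hsmono e1) e1) 1)
  have hclen : (c x).length ≤ G (size (enc x)) := by
    have e1 := length_le_size (c x)
    have e2 := hGs x
    omega
  refine ⟨h1, ?_, ?_, ?_, ?_⟩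
  · change (f x).1 ≤ _
    omega
  · change ((f x).2.map _).length = D
    rw [List.length_map, h3]
  · intro Z' hZ' P' hP'
    obtain ⟨Z, hZ, rfl⟩ := List.mem_map.1 hZ'
    obtain ⟨e, he, hP'⟩ := List.mem_flatMap.1 hP'
    refine eqs_bd _ _ _ k k (shift e.1) e.2 ?_ ?_ P' hP'
    · intro t ht
      unfold shift at ht
      obtain ⟨t', ht', rfl⟩ := List.mem_map.1 ht
      have h6 := (h4 Z hZ e he).2 t' ht'
      refine ⟨by rw [List.length_map]; exact h6.1, ?_⟩
      intro i hi
      obtain ⟨j, hj, rfl⟩ := List.mem_map.1 hi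
      have := h6.2 j hj
      omega
    · intro y hy r hr1 hr2
      have e1 := hstr Z hZ e he y hy
      have e2 := pos_le y r (F (size (enc x)) + G (size (enc x))) (by omega) hr1 (by omega)
      have e3 := hb (size (enc x))
      have e4 : b.eval (size (enc x)) ≤ b.eval (4 * x.length + 1) := eval_mono b (hsz x)
      simp only at e3
      omega
  · rw [h5]
    have h6 : pattern (tau' S τ) (newF k f c x).1 (newF k f c x).2 =
        truths S τ (f x).1 (f x).2 := by
      classical
      change pattern (tau' S τ) (f x).1 ((f x).2.map _) = _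
      unfold pattern truths
      rw [List.map_map]
      refine List.map_congr_left fun Z hZ => ?_
      simp only [Function.comp_apply]
      rw [decide_eq_decide]
      constructor
      · intro hh e he
        have h7 : Holds (tau' S τ) (f x).1 (eqs k (f x).1
            ((List.range (c x).length).map fun r => r + 1) (shift e.1) e.2) := fun P hP =>
          hh P (List.mem_flatMap.2 ⟨e, he, hP⟩)
        rw [eqs_spec hS τ h1 _ k _ _ (h4 Z hZ e he).1 (hbig Z hZ e he), value_shift] at h7
        exact h7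
      · intro hh P hP
        obtain ⟨e, he, hP⟩ := List.mem_flatMap.1 hP
        have h7 := hh e he
        unfold CondHolds at h7
        rw [← value_shift S τ, ← eqs_spec hS τ h1 (c x).length k _ _ (h4 Z hZ e he).1
          (hbig Z hZ e he)] at h7
        exact h7 P hP
    rw [h6]

/-- Main theorem for sparse sets. -/
theorem main_sparse {S : Set (List Bool)} (hS : Sparse S) (τ : ℕ → ℤ)
    (h : ∀ L, InNP L → ReducibleTo S τ L) : ∀ L, InNP L → InP L := by
  obtain ⟨s, hs⟩ := hS
  exact main (tau' S τ) fun L hL => reducible_of_sparse hs τ (h L hL)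

end Pool.Agent.SparseNP
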