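import Pool.Agent.Lib.MP_69a69c_lc.LPLoop

/-!
# Running time of the procedure for systems of strict linear inequalities
-/

namespace Pool.Agent.SparseNP

open Matrix Pool.Agent.PolyTime

/-! ### Sizes -/

theorem Inv.entry {d : ℕ} {l : List (List ℤ)} {s : List (List ℤ) × ℤ} (h : Inv d l s)
    (i j : Fin d) : (mat d s.1 i j) ^ 2 ≤ s.2 ^ 2 := by
  have h1 := h.quad (Pi.single j 1)
  have h2 := form_ge d l (mat d s.1 *ᵥ Pi.single j 1)
  rw [← h1] at h2
  have h3 : (Pi.single j 1 : Fin d → ℤ) ⬝ᵥ (mat d s.1 *ᵥ Pi.single j 1) =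
      (mat d s.1 *ᵥ Pi.single j 1) j := by
    rw [single_dotProduct, one_mul]
  rw [h3] at h2
  have h4 : ∀ i : Fin d, (mat d s.1 *ᵥ Pi.single j 1) i = mat d s.1 i j := by
    intro i
    rw [mulVec_single_one]
    rfl
  have h5 : ∀ i : Fin d, (mat d s.1 i j) ^ 2 ≤ s.2 * mat d s.1 j j := by
    intro i
    have h6 : (mat d s.1 i j) ^ 2 ≤
        (mat d s.1 *ᵥ Pi.single j 1) ⬝ᵥ (mat d s.1 *ᵥ Pi.single j 1) := by
      unfold dotProduct
      have := Finset.single_le_sum (f := fun k => (mat d s.1 *ᵥ Pi.single j 1) k *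
        (mat d s.1 *ᵥ Pi.single j 1) k) (fun k _ => mul_self_nonneg _) (Finset.mem_univ i)
      simp only [h4] at this
      rw [sq]
      simpa only [h4] using this
    rw [h4] at h2
    exact h6.trans h2
  have h7 := h.pos
  have h8 : mat d s.1 j j ≤ s.2 := by
    have := h5 j
    by_contra h9
    push Not at h9
    nlinarith
  have := h5 i
  nlinarith

theorem Inv.upd_le {d : ℕ} {l : List (List ℤ)} {s : List (List ℤ) × ℤ} (h : Inv d l s)
    (a : List ℤ) : dotL d a (mulL d s.1 a) ≤ s.2 * (vec d a ⬝ᵥ vec d a) := by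
  rw [dotL_eq, vec_mulL]
  have h1 := h.quad (vec d a)
  have h2 := form_ge d l (mat d s.1 *ᵥ vec d a)
  rw [← h1] at h2
  have h3 := h.quad_nonneg (vec d a)
  set w := mat d s.1 *ᵥ vec d a with hw
  have h4 : (vec d a ⬝ᵥ w) ^ 2 ≤ (vec d a ⬝ᵥ vec d a) * (w ⬝ᵥ w) := by
    have h := Finset.sum_mul_sq_le_sq_mul_sq Finset.univ (vec d a) w
    unfold dotProduct
    refine h.trans (le_of_eq ?_)
    congr 1 <;> exact Finset.sum_congr rfl fun i _ => sq _
  have h5 := dotz_self_nonneg (vec d a)
  have h6 := h.pos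
  rcases h3.eq_or_lt with h0 | h0
  · rw [← h0]
    exact mul_nonneg h6.le h5
  · have h7 : (vec d a ⬝ᵥ w) ^ 2 ≤ (vec d a ⬝ᵥ vec d a) * (s.2 * (vec d a ⬝ᵥ w)) :=
      h4.trans (mul_le_mul_of_nonneg_left h2 h5)
    have h8 : (vec d a ⬝ᵥ w) * (vec d a ⬝ᵥ w) ≤
        (vec d a ⬝ᵥ w) * (s.2 * (vec d a ⬝ᵥ vec d a)) := by nlinarith
    exact le_of_mul_le_mul_left h8 h0

theorem getD_natAbs_lt (a : List ℤ) (j : ℕ) : (a.getD j 0).natAbs < 2 ^ size (enc a) := by
  by_cases hj : j < a.length
  · rw [List.getD_eq_getElem _ _ hj]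
    refine (natAbs_lt_size _).trans_le (Nat.pow_le_pow_right (by norm_num) ?_)
    have := size_le_of_mem (List.getElem_mem hj)
    omega
  · rw [List.getD_eq_default _ _ (by omega)]
    simp

theorem one_add_le_two_pow (d : ℕ) : 1 + d ≤ 2 ^ d := by
  have := Nat.lt_two_pow_self (n := d)
  omega

theorem dotz_self_le (d : ℕ) (a : List ℤ) :
    1 + vec d a ⬝ᵥ vec d a ≤ 2 ^ (d + 2 * size (enc a)) := by
  have h1 : vec d a ⬝ᵥ vec d a ≤ d * (2 ^ size (enc a)) ^ 2 := by
    unfold dotProduct
    have h2 : ∀ i ∈ (Finset.univ : Finset (Fin d)), vec d a i * vec d a i ≤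
        (2 ^ size (enc a)) ^ 2 := by
      intro i _
      have h3 := getD_natAbs_lt a i
      have h4 : vec d a i * vec d a i = ((a.getD i 0).natAbs : ℤ) ^ 2 := by
        change a.getD i 0 * a.getD i 0 = _
        rw [Int.natAbs_sq, sq]
      rw [h4]
      have h5 : ((a.getD i 0).natAbs : ℤ) ≤ 2 ^ size (enc a) := by exact_mod_cast h3.le
      exact pow_le_pow_left₀ (Int.natCast_nonneg _) h5 2
    have := Finset.sum_le_card_nsmul _ _ _ h2
    simpa using this
  have h2 : (1 + d : ℤ) ≤ 2 ^ d := by exact_mod_cast one_add_le_two_pow d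
  have h3 : (1 : ℤ) ≤ (2 ^ size (enc a)) ^ 2 := one_le_pow₀ (one_le_pow₀ (by norm_num))
  have h4 : (2 : ℤ) ^ (d + 2 * size (enc a)) = 2 ^ d * (2 ^ size (enc a)) ^ 2 := by
    rw [pow_add, pow_mul, ← pow_mul, ← pow_mul, mul_comm 2]
  rw [h4]
  nlinarith

theorem invL_append (d : ℕ) (l : List (List ℤ)) (a : List ℤ) :
    invL d (l ++ [a]) = upd d (invL d l) a := by
  unfold invL
  rw [List.foldl_append]
  rfl

theorem det_lt (d : ℕ) (l : List (List ℤ)) :
    (invL d l).2 < 2 ^ ((d + 2) * size (enc l)) := by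
  induction l using List.reverseRecOn with
  | nil =>
    change (1 : ℤ) < 2 ^ ((d + 2) * 1)
    exact one_lt_pow₀ (by norm_num) (by omega)
  | append_singleton l a ih =>
    have h1 := (invL_inv d l).upd_le a
    have h2 := dotz_self_le d a
    have h3 : (invL d (l ++ [a])).2 = (invL d l).2 + dotL d a (mulL d (invL d l).1 a) := by
      rw [invL_append]
      rfl
    have h4 : size (enc (l ++ [a])) = size (enc l) + size (enc a) + 1 := by
      have := size_append l [a]
      rw [size_lcons, enc_nil, size_nil] at this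
      omega
    have h5 : (invL d (l ++ [a])).2 ≤ (invL d l).2 * (1 + vec d a ⬝ᵥ vec d a) := by
      rw [h3]
      linarith
    have h6 := dotz_self_nonneg (vec d a)
    have h7 : (invL d l).2 * (1 + vec d a ⬝ᵥ vec d a) <
        2 ^ ((d + 2) * size (enc l)) * 2 ^ (d + 2 * size (enc a)) := by
      apply mul_lt_mul ih h2 (by omega) (by positivity)
    refine (h5.trans_lt h7).trans_le ?_
    rw [← pow_add, h4]
    apply pow_le_pow_right₀ (by norm_num)
    have : (d + 2) * (size (enc l) + size (enc a) + 1) =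
        (d + 2) * size (enc l) + (d * size (enc a) + 2 * size (enc a) + d + 2) := by ring
    rw [this]
    nlinarith [Nat.zero_le (d * size (enc a))]

theorem invL_tab (d : ℕ) (l : List (List ℤ)) : ∃ F : ℕ → ℕ → ℤ,
    (invL d l).1 = (List.range d).map fun i => (List.range d).map fun j => F i j := by
  induction l using List.reverseRecOn with
  | nil => exact ⟨fun i j => if i = j then 1 else 0, rfl⟩
  | append_singleton l a ih =>
    rw [invL_append]
    exact ⟨_, rfl⟩

theorem invL_entry {d : ℕ} {l : List (List ℤ)} {r : List ℤ} (hr : r ∈ (invL d l).1) :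
    r.length = d ∧ ∀ z ∈ r, z.natAbs < 2 ^ ((d + 2) * size (enc l)) := by
  obtain ⟨F, hF⟩ := invL_tab d l
  rw [hF] at hr
  obtain ⟨i, hi, rfl⟩ := List.mem_map.1 hr
  refine ⟨by simp, fun z hz => ?_⟩
  obtain ⟨j, hj, rfl⟩ := List.mem_map.1 hz
  have hi' := List.mem_range.1 hi
  have hj' := List.mem_range.1 hj
  have h1 := (invL_inv d l).entry ⟨i, hi'⟩ ⟨j, hj'⟩
  have h2 : mat d (invL d l).1 ⟨i, hi'⟩ ⟨j, hj'⟩ = F i j := by
    unfold mat
    rw [Matrix.of_apply, hF, getD_tab d _ _ hi', getD_tab d _ _ hj']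
  rw [h2] at h1
  have h3 := det_lt d l
  have h4 := (invL_inv d l).pos
  have h5 : |F i j| ≤ (invL d l).2 := abs_le_of_sq_le_sq h1 h4.le
  have h6 : ((F i j).natAbs : ℤ) < 2 ^ ((d + 2) * size (enc l)) := by
    rw [Int.natCast_natAbs]
    exact h5.trans_lt h3
  exact_mod_cast h6

theorem size_invL (d : ℕ) (l : List (List ℤ)) : size (enc (invL d l)) ≤
    (d * (d * (4 * ((d + 2) * size (enc l)) + 6) + 2) + 1) +
      (4 * ((d + 2) * size (enc l)) + 5) + 1 := by
  have h1 : size (enc (invL d l).1) ≤ d * (d * (4 * ((d + 2) * size (enc l)) + 6) + 2) + 1 := by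
    have h2 := size_list_le (invL d l).1 (d * (4 * ((d + 2) * size (enc l)) + 6) + 1) ?_
    · obtain ⟨F, hF⟩ := invL_tab d l
      have h3 : (invL d l).1.length = d := by rw [hF]; simp
      rw [h3] at h2
      exact h2
    · intro r hr
      obtain ⟨h3, h4⟩ := invL_entry hr
      have h5 := size_list_le r (4 * ((d + 2) * size (enc l)) + 5) fun z hz =>
        size_int_le_of_lt (h4 z hz)
      rw [h3] at h5
      exact h5
  have h6 : size (enc (invL d l).2) ≤ 4 * ((d + 2) * size (enc l)) + 5 := by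
    apply size_int_le_of_lt
    have h3 := det_lt d l
    have h4 := (invL_inv d l).pos
    have h5 : (((invL d l).2).natAbs : ℤ) < 2 ^ ((d + 2) * size (enc l)) := by
      rw [Int.natCast_natAbs, abs_of_pos h4]
      exact h3
    exact_mod_cast h5
  have h7 : size (enc (invL d l)) = size (enc (invL d l).1) + size (enc (invL d l).2) + 1 :=
    size_pair (invL d l).1 (invL d l).2
  omega

/-! ### Vector operations -/

section
variable {α : Type} [Enc α] {D : α → ℕ} {U : α → List Unit}

theorem ptime_entry {f : α → List (List ℤ)} {i : α → ℕ} (hf : PTime f) (hi : PTime i) :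
    PTime (fun x => (f x).getD (i x) []) := hf.listGetD hi (PTime.const [])

theorem ptime_coord {f : α → List ℤ} {i : α → ℕ} (hf : PTime f) (hi : PTime i) :
    PTime (fun x => (f x).getD (i x) 0) := hf.listGetD hi (PTime.const 0)

theorem ptime_dotL (hD : PTime D) (hU : PTime U) (hDU : ∀ x, D x ≤ (U x).length)
    {a b : α → List ℤ} (ha : PTime a) (hb : PTime b) :
    PTime (fun x => dotL (D x) (a x) (b x)) := by
  unfold dotL
  exact ptime_intSum (PTime.map (g := fun (x : α) (j : ℕ) => (a x).getD j 0 * (b x).getD j 0)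
    (PTime.rangeLe hD hU hDU)
    (ptime_intMul (ptime_coord (ha.comp PTime.fst) PTime.snd)
      (ptime_coord (hb.comp PTime.fst) PTime.snd)))

theorem ptime_mulL (hD : PTime D) (hU : PTime U) (hDU : ∀ x, D x ≤ (U x).length)
    {N : α → List (List ℤ)} {a : α → List ℤ} (hN : PTime N) (ha : PTime a) :
    PTime (fun x => mulL (D x) (N x) (a x)) := by
  unfold mulL
  exact PTime.map (g := fun (x : α) (i : ℕ) => dotL (D x) ((N x).getD i []) (a x))
    (PTime.rangeLe hD hU hDU)
    (ptime_dotL (hD.comp PTime.fst) (hU.comp PTime.fst) (fun p => hDU p.1)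
      (ptime_entry (hN.comp PTime.fst) PTime.snd) (ha.comp PTime.fst))

theorem ptime_tab2 (hD : PTime D) (hU : PTime U) (hDU : ∀ x, D x ≤ (U x).length)
    {F : (α × ℕ) × ℕ → ℤ} (hF : PTime F) :
    PTime (fun x => (List.range (D x)).map fun i => (List.range (D x)).map fun j =>
      F ((x, i), j)) :=
  PTime.map (g := fun (x : α) (i : ℕ) => (List.range (D x)).map fun j => F ((x, i), j))
    (PTime.rangeLe hD hU hDU)
    (PTime.map (g := fun (p : α × ℕ) (j : ℕ) => F ((p.1, p.2), j))
      (PTime.rangeLe (hD.comp PTime.fst) (hU.comp PTime.fst) fun p => hDU p.1) hF)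

theorem ptime_upd (hD : PTime D) (hU : PTime U) (hDU : ∀ x, D x ≤ (U x).length)
    {s : α → List (List ℤ) × ℤ} {a : α → List ℤ} (hs : PTime s) (ha : PTime a) :
    PTime (fun x => upd (D x) (s x) (a x)) := by
  unfold upd
  obtain ⟨u, hu⟩ : ∃ u : α → List ℤ, u = fun x => mulL (D x) (s x).1 (a x) := ⟨_, rfl⟩
  have hu' : PTime u := by rw [hu]; exact ptime_mulL hD hU hDU hs.fst' ha
  obtain ⟨δ, hδ⟩ : ∃ δ : α → ℤ, δ = fun x => (s x).2 + dotL (D x) (a x) (u x) := ⟨_, rfl⟩
  have hδ' : PTime δ := by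
    rw [hδ]
    exact ptime_intAdd hs.snd' (ptime_dotL hD hU hDU ha hu')
  have hx : PTime (fun p : (α × ℕ) × ℕ => p.1.1) := PTime.fst' PTime.fst
  have hi : PTime (fun p : (α × ℕ) × ℕ => p.1.2) := PTime.snd' PTime.fst
  have hj : PTime (fun p : (α × ℕ) × ℕ => p.2) := PTime.snd
  have hF : PTime (fun p : (α × ℕ) × ℕ =>
      idiv (δ p.1.1 * ((s p.1.1).1.getD p.1.2 []).getD p.2 0 -
        (u p.1.1).getD p.1.2 0 * (u p.1.1).getD p.2 0) (s p.1.1).2) :=
    ptime_idiv (ptime_intSub
      (ptime_intMul (hδ'.comp hx) (ptime_coord (ptime_entry (hs.comp hx).fst' hi) hj))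
      (ptime_intMul (ptime_coord (hu'.comp hx) hi) (ptime_coord (hu'.comp hx) hj)))
      (hs.comp hx).snd'
  refine ((ptime_tab2 hD hU hDU hF).pair hδ').of_eq fun x => ?_
  rw [hδ, hu]

theorem ptime_idL (hD : PTime D) (hU : PTime U) (hDU : ∀ x, D x ≤ (U x).length) :
    PTime (fun x => idL (D x)) := by
  unfold idL
  exact ptime_tab2 hD hU hDU (F := fun p => if p.1.2 = p.2 then 1 else 0)
    (PTime.iteP (PTime.eq (PTime.snd' PTime.fst) PTime.snd) (PTime.const 1) (PTime.const 0))

theorem ptime_invL (hD : PTime D) (hU : PTime U) (hDU : ∀ x, D x ≤ (U x).length)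
    {l : α → List (List ℤ)} (hl : PTime l) : PTime (fun x => invL (D x) (l x)) := by
  obtain ⟨F, hF, hFm, hFs⟩ := hl.size_le
  obtain ⟨G, hG, hGm, hGs⟩ := hU.size_le
  unfold invL
  refine PTime.foldl (h := fun (x : α) (s : List (List ℤ) × ℤ) (a : List ℤ) => upd (D x) s a) hl
    ((ptime_idL hD hU hDU).pair (PTime.const 1))
    (ptime_upd (hD.comp PTime.fst) (hU.comp PTime.fst) (fun p => hDU p.1) (PTime.fst' PTime.snd)
      (PTime.snd' PTime.snd))
    (B := fun n => (G n * (G n * (4 * ((G n + 2) * F n) + 6) + 2) + 1) +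
      (4 * ((G n + 2) * F n) + 5) + 1) ?_ ?_
  · have h4 : PBd fun n => 4 * ((G n + 2) * F n) :=
      (PBd.const 4).mul ((hG.add (PBd.const 2)).mul hF)
    exact (((hG.mul ((hG.mul (h4.add (PBd.const 6))).add (PBd.const 2))).add (PBd.const 1)).add
      (h4.add (PBd.const 5))).add (PBd.const 1)
  · intro x l₁ l₂ h
    refine (size_invL (D x) l₁).trans ?_
    have h1 : D x ≤ G (size (enc x)) := by
      have e1 := hDU x
      have e2 := length_le_size (U x)
      have e3 := hGs x
      omega
    have h2 : size (enc l₁) ≤ F (size (enc x)) := by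
      refine (size_sublist (?_ : l₁.Sublist (l x))).trans (hFs x)
      rw [h]
      exact List.sublist_append_left l₁ l₂
    have h3 : (D x + 2) * size (enc l₁) ≤ (G (size (enc x)) + 2) * F (size (enc x)) :=
      Nat.mul_le_mul (by omega) h2
    have h5 : D x * (4 * ((D x + 2) * size (enc l₁)) + 6) ≤ G (size (enc x)) *
        (4 * ((G (size (enc x)) + 2) * F (size (enc x))) + 6) :=
      Nat.mul_le_mul h1 (by omega)
    have h6 : D x * (D x * (4 * ((D x + 2) * size (enc l₁)) + 6) + 2) ≤ G (size (enc x)) *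
        (G (size (enc x)) * (4 * ((G (size (enc x)) + 2) * F (size (enc x))) + 6) + 2) :=
      Nat.mul_le_mul h1 (by omega)
    omega

theorem ptime_comb (hD : PTime D) (hU : PTime U) (hDU : ∀ x, D x ≤ (U x).length)
    {A : α → List (List ℤ)} {n : α → List ℕ} (hA : PTime A) (hn : PTime n) :
    PTime (fun x => comb (D x) (A x) (n x)) := by
  unfold comb
  have hx : PTime (fun p : (α × ℕ) × ℕ => p.1.1) := PTime.fst' PTime.fst
  exact PTime.map (g := fun (x : α) (j : ℕ) => ((List.range (A x).length).map fun i =>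
    ((n x).getD i 0 : ℤ) * ((A x).getD i []).getD j 0).sum)
    (PTime.rangeLe hD hU hDU)
    (ptime_intSum (PTime.map (g := fun (p : α × ℕ) (i : ℕ) => ((n p.1).getD i 0 : ℤ) *
      ((A p.1).getD i []).getD p.2 0) (PTime.rangeLength (hA.comp PTime.fst))
      (ptime_intMul (ptime_natCast ((hn.comp hx).listGetD PTime.snd (PTime.const 0)))
        (ptime_coord (ptime_entry (hA.comp hx) PTime.snd) (PTime.snd' PTime.fst)))))

theorem ptime_cand (hD : PTime D) (hU : PTime U) (hDU : ∀ x, D x ≤ (U x).length)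
    {A : α → List (List ℤ)} {n : α → List ℕ} (hA : PTime A) (hn : PTime n) :
    PTime (fun x => cand (D x) (A x) (n x)) := by
  unfold cand
  exact ptime_mulL hD hU hDU (ptime_invL hD hU hDU hA).fst' (ptime_comb hD hU hDU hA hn)

theorem ptime_viol (hD : PTime D) (hU : PTime U) (hDU : ∀ x, D x ≤ (U x).length)
    {A : α → List (List ℤ)} {n : α → List ℕ} (hA : PTime A) (hn : PTime n) :
    PTime (fun x => viol (D x) (A x) (n x)) := by
  obtain ⟨c, hc⟩ : ∃ c : α → List ℤ, c = fun x => cand (D x) (A x) (n x) := ⟨_, rfl⟩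
  have hc' : PTime c := by rw [hc]; exact ptime_cand hD hU hDU hA hn
  have h : PTime (fun x => (List.range (A x).length).find? fun i =>
      decide (dotL (D x) ((A x).getD i []) (c x) ≤ 0)) :=
    PTime.find? (g := fun (x : α) (i : ℕ) => decide (dotL (D x) ((A x).getD i []) (c x) ≤ 0))
      (PTime.rangeLength hA)
      (ptime_intLe (ptime_dotL (hD.comp PTime.fst) (hU.comp PTime.fst) (fun p => hDU p.1)
        (ptime_entry (hA.comp PTime.fst) PTime.snd) (hc'.comp PTime.fst)) (PTime.const 0))
  refine h.of_eq fun x => ?_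
  rw [hc]
  rfl

theorem ptime_incr {n : α → List ℕ} {A : α → List (List ℤ)} {i : α → ℕ} (hA : PTime A)
    (hn : PTime n) (hi : PTime i) : PTime (fun x => incr (A x).length (n x) (i x)) := by
  unfold incr
  have h1 : PTime (fun p : α × ℕ => (n p.1).getD p.2 0) :=
    (hn.comp PTime.fst).listGetD PTime.snd (PTime.const 0)
  exact PTime.map (g := fun (x : α) (k : ℕ) => if k = i x then (n x).getD k 0 + 1
    else (n x).getD k 0) (PTime.rangeLength hA)
    (PTime.iteP (PTime.eq PTime.snd (hi.comp PTime.fst)) h1.succ h1)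

theorem ptime_dbl {A : α → List (List ℤ)} {i : α → ℕ} (hA : PTime A) (hi : PTime i) :
    PTime (fun x => dbl (A x) (i x)) := by
  unfold dbl
  have h1 : PTime (fun p : α × ℕ => (A p.1).getD p.2 []) :=
    ptime_entry (hA.comp PTime.fst) PTime.snd
  exact PTime.map (g := fun (x : α) (k : ℕ) => if k = i x then
    ((A x).getD k []).map fun z => 2 * z else (A x).getD k []) (PTime.rangeLength hA)
    (PTime.iteP (PTime.eq PTime.snd (hi.comp PTime.fst))
      (PTime.map (g := fun (_ : α × ℕ) (z : ℤ) => 2 * z) h1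
        (ptime_intMul (PTime.const 2) PTime.snd)) h1)

theorem ptime_lpStep (hD : PTime D) (hU : PTime U) (hDU : ∀ x, D x ≤ (U x).length)
    {T : α → ℕ} (hT : PTime T) {s : α → List (List ℤ) × List ℕ} (hs : PTime s) :
    PTime (fun x => lpStep (D x) (T x) (s x)) := by
  have hv := ptime_viol hD hU hDU hs.fst' hs.snd'
  have hs' : PTime (fun p : α × ℕ => s p.1) := hs.comp PTime.fst
  have h1 : PTime (fun p : α × ℕ => (s p.1).2.getD p.2 0) :=
    hs'.snd'.listGetD PTime.snd (PTime.const 0)
  have h2 : PTime (fun p : α × ℕ => if (s p.1).2.getD p.2 0 + 1 < T p.1 then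
      ((s p.1).1, incr (s p.1).1.length (s p.1).2 p.2) else (dbl (s p.1).1 p.2, [])) :=
    PTime.iteP (PTime.lt h1.succ (hT.comp PTime.fst))
      (hs'.fst'.pair (ptime_incr hs'.fst' hs'.snd' PTime.snd))
      ((ptime_dbl hs'.fst' PTime.snd).pair (PTime.const []))
  refine (PTime.option_cases hv hs h2).of_eq fun x => ?_
  unfold lpStep
  cases viol (D x) (s x).1 (s x).2 <;> rfl

end

/-! ### The loop -/

/-- bounds for the states of the loop -/
structure StOk (M L S t : ℕ) (s : List (List ℤ) × List ℕ) : Prop where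
  len : s.1.length = M
  row : ∀ r ∈ s.1, r.length ≤ L ∧ ∀ z ∈ r, z.natAbs < 2 ^ (S + t)
  cl : s.2.length ≤ M
  cn : ∀ c ∈ s.2, c ≤ t

theorem StOk.step {d T M L S t : ℕ} {s : List (List ℤ) × List ℕ} (h : StOk M L S t s) :
    StOk M L S (t + 1) (lpStep d T s) := by
  have hrow : ∀ r ∈ s.1, r.length ≤ L ∧ ∀ z ∈ r, z.natAbs < 2 ^ (S + (t + 1)) := by
    intro r hr
    refine ⟨(h.row r hr).1, fun z hz => ((h.row r hr).2 z hz).trans_le ?_⟩
    exact Nat.pow_le_pow_right (by norm_num) (by omega)
  unfold lpStep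
  cases hv : viol d s.1 s.2 with
  | none => exact ⟨h.len, hrow, h.cl, fun c hc => (h.cn c hc).trans (Nat.le_succ t)⟩
  | some i =>
    simp only
    split
    · refine ⟨h.len, hrow, ?_, ?_⟩
      · change (incr s.1.length s.2 i).length ≤ M
        rw [incr_length, h.len]
      · intro c hc
        obtain ⟨k, hk, rfl⟩ := List.mem_map.1 hc
        have h1 : s.2.getD k 0 ≤ t := by
          by_cases hk : k < s.2.length
          · rw [List.getD_eq_getElem _ _ hk]
            exact h.cn _ (List.getElem_mem hk)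
          · rw [List.getD_eq_default _ _ (by omega)]
            exact Nat.zero_le _
        split <;> omega
    · refine ⟨?_, ?_, Nat.zero_le _, fun c hc => absurd hc List.not_mem_nil⟩
      · change (dbl s.1 i).length = M
        rw [dbl_length, h.len]
      · intro r hr
        obtain ⟨k, hk, rfl⟩ := List.mem_map.1 hr
        have hk' : k < s.1.length := List.mem_range.1 hk
        have h1 := h.row _ (getD_mem' hk')
        split
        · refine ⟨by rw [List.length_map]; exact h1.1, fun z hz => ?_⟩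
          obtain ⟨w, hw, rfl⟩ := List.mem_map.1 hz
          have h2 := h1.2 w hw
          have h3 : (2 * w).natAbs = 2 * w.natAbs := by
            rw [Int.natAbs_mul]
            rfl
          rw [h3, ← Nat.add_assoc, pow_succ]
          omega
        · exact hrow _ (getD_mem' hk')

theorem StOk.size {M L S t : ℕ} {s : List (List ℤ) × List ℕ} (h : StOk M L S t s) :
    size (enc s) ≤ (M * (L * (4 * (S + t) + 6) + 2) + 1) + (M * (4 * t + 2) + 1) + 1 := by
  obtain ⟨A, n⟩ := s
  rw [size_pair]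
  have h1 := size_list_le A (L * (4 * (S + t) + 6) + 1) fun r hr => by
    have h2 := size_list_le r (4 * (S + t) + 5) fun z hz =>
      size_int_le_of_lt ((h.row r hr).2 z hz)
    have h3 := (h.row r hr).1
    have h4 : r.length * (4 * (S + t) + 5 + 1) ≤ L * (4 * (S + t) + 6) :=
      Nat.mul_le_mul h3 (by omega)
    omega
  have h5 := size_list_le n (4 * t + 1) fun c hc => by
    have h2 := size_nat_le c
    have h3 := h.cn c hc
    omega
  have h6 := h.len
  have h7 := h.cl
  simp only at h6 h7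
  rw [h6] at h1
  have h8 : n.length * (4 * t + 1 + 1) ≤ M * (4 * t + 2) := Nat.mul_le_mul h7 (by omega)
  have h9 : M * (L * (4 * (S + t) + 6) + 1 + 1) = M * (L * (4 * (S + t) + 6) + 2) := rfl
  omega

theorem run_ok (d T : ℕ) (A : List (List ℤ)) (K : ℕ) :
    StOk A.length (size (enc A)) (size (enc A)) K (lpRun d T A K) := by
  induction K with
  | zero =>
    refine ⟨rfl, fun r hr => ?_, Nat.zero_le _, fun c hc => absurd hc List.not_mem_nil⟩
    have h1 : r ∈ A := hr
    have h2 := size_le_of_mem h1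
    have h3 := length_le_size r
    refine ⟨by omega, fun z hz => ?_⟩
    have h4 := size_le_of_mem hz
    refine (natAbs_lt_size z).trans_le (Nat.pow_le_pow_right (by norm_num) (by omega))
  | succ K ih =>
    rw [lpRun_succ]
    exact ih.step

theorem lpRun_eq_foldl {β : Type} (d T : ℕ) (A : List (List ℤ)) (l : List β) :
    l.foldl (fun s _ => lpStep d T s) (A, []) = lpRun d T A l.length := by
  induction l using List.reverseRecOn with
  | nil => rfl
  | append_singleton l a ih =>
    rw [List.foldl_append, ih, List.length_append, List.length_singleton, lpRun_succ]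
    rfl

section
variable {α : Type} [Enc α] {D : α → ℕ} {U : α → List Unit}

theorem ptime_lp (hD : PTime D) (hU : PTime U) (hDU : ∀ x, D x ≤ (U x).length)
    {T : α → ℕ} (hT : PTime T) {A : α → List (List ℤ)} (hA : PTime A) {c : α → List Unit}
    (hc : PTime c) : PTime (fun x => lp (D x) (T x) (A x) (c x).length) := by
  obtain ⟨F, hF, hFm, hFs⟩ := hA.size_le
  obtain ⟨G, hG, hGm, hGs⟩ := hc.size_le
  obtain ⟨B, hB⟩ : ∃ B : ℕ → ℕ, B = fun n => (F n * (F n * (4 * (F n + G n) + 6) + 2) + 1) +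
    (F n * (4 * G n + 2) + 1) + 1 := ⟨_, rfl⟩
  have hBB : PBd B := by
    rw [hB]
    exact (((hF.mul ((hF.mul (((PBd.const 4).mul (hF.add hG)).add (PBd.const 6))).add
      (PBd.const 2))).add (PBd.const 1)).add ((hF.mul (((PBd.const 4).mul hG).add
      (PBd.const 2))).add (PBd.const 1))).add (PBd.const 1)
  have h1 : PTime (fun x => (c x).foldl (fun s _ => lpStep (D x) (T x) s) (A x, [])) := by
    refine PTime.foldl (h := fun (x : α) (s : List (List ℤ) × List ℕ) (_ : Unit) =>
      lpStep (D x) (T x) s) hc (hA.pair (PTime.const []))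
      (ptime_lpStep (hD.comp PTime.fst) (hU.comp PTime.fst) (fun p => hDU p.1)
        (hT.comp PTime.fst) (PTime.fst' PTime.snd)) hBB ?_
    intro x l₁ l₂ h
    rw [lpRun_eq_foldl]
    refine (run_ok (D x) (T x) (A x) l₁.length).size.trans ?_
    have e1 : (A x).length ≤ F (size (enc x)) := by
      have := length_le_size (A x)
      have := hFs x
      omega
    have e2 : size (enc (A x)) ≤ F (size (enc x)) := hFs x
    have e3 : l₁.length ≤ G (size (enc x)) := by
      have e4 := length_le_size (c x)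
      have e5 := hGs x
      have e6 : l₁.length ≤ (c x).length := by
        rw [h, List.length_append]
        omega
      omega
    rw [hB]
    have e7 : size (enc (A x)) * (4 * (size (enc (A x)) + l₁.length) + 6) ≤
        F (size (enc x)) * (4 * (F (size (enc x)) + G (size (enc x))) + 6) :=
      Nat.mul_le_mul e2 (by omega)
    have e8 : (A x).length * (size (enc (A x)) * (4 * (size (enc (A x)) + l₁.length) + 6) + 2) ≤
        F (size (enc x)) * (F (size (enc x)) *
          (4 * (F (size (enc x)) + G (size (enc x))) + 6) + 2) :=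
      Nat.mul_le_mul e1 (by omega)
    have e9 : (A x).length * (4 * l₁.length + 2) ≤
        F (size (enc x)) * (4 * G (size (enc x)) + 2) := Nat.mul_le_mul e1 (by omega)
    simp only
    omega
  have h2 : PTime (fun x => (viol (D x) ((c x).foldl (fun s _ => lpStep (D x) (T x) s)
      (A x, [])).1 ((c x).foldl (fun s _ => lpStep (D x) (T x) s) (A x, [])).2).isNone) := by
    obtain ⟨s, hs⟩ : ∃ s : α → List (List ℤ) × List ℕ, s = fun x =>
      (c x).foldl (fun s _ => lpStep (D x) (T x) s) (A x, []) := ⟨_, rfl⟩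
    rw [← hs] at h1
    have h3 := ptime_viol hD hU hDU h1.fst' h1.snd'
    have h4 := PTime.option_cases (h := fun _ : α × ℕ => false) h3 (PTime.const true)
      (PTime.const false)
    refine h4.of_eq fun x => ?_
    have e : (c x).foldl (fun s _ => lpStep (D x) (T x) s) (A x, []) = s x := by rw [hs]
    rw [e]
    cases viol (D x) (s x).1 (s x).2 <;> rfl
  refine h2.of_eq fun x => ?_
  rw [lpRun_eq_foldl]
  rfl

end

end Pool.Agent.SparseNP
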