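import Pool.Agent.Lib.MP_69a69c_lc.Forster

/-!
# Forster's bound for the sign rank
-/

namespace Pool.Agent.SparseNP

open Matrix Finset

variable {d : ℕ}

theorem dot_sq_le (x u : Fin d → ℝ) : (x ⬝ᵥ u) ^ 2 ≤ (x ⬝ᵥ x) * (u ⬝ᵥ u) := by
  have h := Finset.sum_mul_sq_le_sq_mul_sq Finset.univ x u
  unfold dotProduct
  refine h.trans (le_of_eq ?_)
  congr 1 <;> exact Finset.sum_congr rfl fun i _ => sq _

theorem dot_le_nrm (x u : Fin d → ℝ) : x ⬝ᵥ u ≤ nrm x * nrm u := by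
  refine le_of_sq_le_sq ?_ (mul_nonneg (nrm_nonneg x) (nrm_nonneg u))
  rw [mul_pow, nrm_sq, nrm_sq]
  exact dot_sq_le x u

theorem abs_dot_le_nrm (x u : Fin d → ℝ) : |x ⬝ᵥ u| ≤ nrm x * nrm u := by
  refine abs_le_of_sq_le_sq ?_ (mul_nonneg (nrm_nonneg x) (nrm_nonneg u))
  rw [mul_pow, nrm_sq, nrm_sq]
  exact dot_sq_le x u

theorem nrm_unit {x : Fin d → ℝ} (hx : x ≠ 0) : nrm ((nrm x)⁻¹ • x) = 1 := by
  rw [nrm_smul, abs_of_pos (inv_pos.2 (nrm_pos hx)), inv_mul_cancel₀ (nrm_pos hx).ne']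

theorem dot_eq_of_inv {A : Matrix (Fin d) (Fin d) ℝ} (hA : A.det ≠ 0) (w y : Fin d → ℝ) :
    (A *ᵥ w) ⬝ᵥ ((A⁻¹)ᵀ *ᵥ y) = w ⬝ᵥ y := by
  rw [Matrix.mulVec_transpose, dotProduct_comm, ← Matrix.dotProduct_mulVec, Matrix.mulVec_mulVec,
    Matrix.nonsing_inv_mul _ (isUnit_iff_ne_zero.2 hA), Matrix.one_mulVec, dotProduct_comm]

/-- Forster's bound, vectors in general position -/
theorem sign_rank_GP {ι V : Type} [Fintype ι] [DecidableEq ι] {W : ι → Fin d → ℝ} (hd : 0 < d)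
    (hW : GP W) (hM : d < Fintype.card ι) (F : Finset V) (y : V → Fin d → ℝ) (g : ι → V → ℝ)
    (hg : ∀ i, ∀ v ∈ F, g i v ^ 2 = 1) (hs : ∀ i, ∀ v ∈ F, 0 < g i v * (W i ⬝ᵥ y v)) {E : ℝ}
    (hE : 0 ≤ E) (hcorr : ∀ v ∈ F, ∀ v' ∈ F, v ≠ v' → |∑ i, g i v * g i v'| ≤ E) :
    (F.card : ℝ) * Fintype.card ι ≤ d ^ 2 * (Fintype.card ι + F.card * E) := by
  classical
  rcases F.eq_empty_or_nonempty with rfl | hFne
  · simp only [Finset.card_empty, Nat.cast_zero, zero_mul, add_zero]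
    positivity
  obtain ⟨A, hA, hiso⟩ := isotropic hd hW hM
  have hdR : (0 : ℝ) < d := by exact_mod_cast hd
  have hMR : (0 : ℝ) < Fintype.card ι := by exact_mod_cast (hd.trans hM)
  have hKR : (0 : ℝ) < F.card := by exact_mod_cast hFne.card_pos
  have hAw : ∀ i, A *ᵥ W i ≠ 0 := fun i h =>
    hW.ne_zero hd hM.le i (Matrix.eq_zero_of_mulVec_eq_zero hA h)
  obtain ⟨z, hz⟩ : ∃ z : V → Fin d → ℝ, z = fun v => (A⁻¹)ᵀ *ᵥ y v := ⟨_, rfl⟩
  have hdot : ∀ i v, (A *ᵥ W i) ⬝ᵥ z v = W i ⬝ᵥ y v := by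
    intro i v
    rw [hz]
    exact dot_eq_of_inv hA _ _
  have hz0 : ∀ v ∈ F, z v ≠ 0 := by
    intro v hv h0
    obtain ⟨i⟩ : Nonempty ι := Fintype.card_pos_iff.1 (hd.trans hM)
    have h1 := hs i v hv
    rw [← hdot, h0, dotProduct_zero, mul_zero] at h1
    exact lt_irrefl _ h1
  obtain ⟨u, hu⟩ : ∃ u : V → Fin d → ℝ, u = fun v => (nrm (z v))⁻¹ • z v := ⟨_, rfl⟩
  obtain ⟨x, hx⟩ : ∃ x : ι → Fin d → ℝ, x = fun i => (nrm (A *ᵥ W i))⁻¹ • (A *ᵥ W i) :=
    ⟨_, rfl⟩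
  have hu1 : ∀ v ∈ F, nrm (u v) = 1 := fun v hv => by rw [hu]; exact nrm_unit (hz0 v hv)
  have hx1 : ∀ i, nrm (x i) = 1 := fun i => by rw [hx]; exact nrm_unit (hAw i)
  have huu : ∀ v ∈ F, u v ⬝ᵥ u v = 1 := fun v hv => by rw [← nrm_sq, hu1 v hv, one_pow]
  have hbpos : ∀ i, ∀ v ∈ F, 0 < g i v * (x i ⬝ᵥ u v) := by
    intro i v hv
    have h1 : g i v * (x i ⬝ᵥ u v) = (nrm (A *ᵥ W i))⁻¹ * (nrm (z v))⁻¹ *
        (g i v * (W i ⬝ᵥ y v)) := by
      rw [hx, hu]
      simp only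
      rw [smul_dotProduct, dotProduct_smul, hdot, smul_eq_mul, smul_eq_mul]
      ring
    rw [h1]
    exact mul_pos (mul_pos (inv_pos.2 (nrm_pos (hAw i))) (inv_pos.2 (nrm_pos (hz0 v hv))))
      (hs i v hv)
  have hb2 : ∀ i, ∀ v ∈ F, (x i ⬝ᵥ u v) ^ 2 ≤ g i v * (x i ⬝ᵥ u v) := by
    intro i v hv
    have h1 : |x i ⬝ᵥ u v| ≤ 1 := by
      have := abs_dot_le_nrm (x i) (u v)
      rwa [hx1, hu1 v hv, one_mul] at this
    have h2 : g i v * (x i ⬝ᵥ u v) = |x i ⬝ᵥ u v| := by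
      rw [← abs_of_pos (hbpos i v hv), abs_mul]
      have h3 : |g i v| = 1 := by
        rw [← Real.sqrt_sq_eq_abs, hg i v hv, Real.sqrt_one]
      rw [h3, one_mul]
    rw [h2, ← sq_abs, sq]
    exact mul_le_of_le_one_left (abs_nonneg _) h1
  have hsum : ∀ v ∈ F, (Fintype.card ι / d : ℝ) ≤ ∑ i, g i v * (x i ⬝ᵥ u v) := by
    intro v hv
    rw [← hiso (u v) (huu v hv)]
    refine Finset.sum_le_sum fun i _ => le_trans (le_of_eq ?_) (hb2 i v hv)
    rw [hx]
    simp only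
    rw [smul_dotProduct, smul_eq_mul, mul_pow, inv_pow, nrm_sq]
    field_simp
  have htot : (F.card : ℝ) * (Fintype.card ι / d) ≤ ∑ i, x i ⬝ᵥ ∑ v ∈ F, g i v • u v := by
    have h1 := Finset.sum_le_sum hsum
    rw [Finset.sum_const, nsmul_eq_mul, Finset.sum_comm] at h1
    refine h1.trans (le_of_eq (Finset.sum_congr rfl fun i _ => ?_))
    rw [dotProduct_sum]
    refine Finset.sum_congr rfl fun v _ => ?_
    rw [dotProduct_smul, smul_eq_mul]
  have hcs : (∑ i, x i ⬝ᵥ ∑ v ∈ F, g i v • u v) ≤ ∑ i, nrm (∑ v ∈ F, g i v • u v) := by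
    refine Finset.sum_le_sum fun i _ => ?_
    have := dot_le_nrm (x i) (∑ v ∈ F, g i v • u v)
    rwa [hx1, one_mul] at this
  have hsq : ((F.card : ℝ) * (Fintype.card ι / d)) ^ 2 ≤
      Fintype.card ι * ∑ i, (∑ v ∈ F, g i v • u v) ⬝ᵥ (∑ v ∈ F, g i v • u v) := by
    have h0 : 0 ≤ (F.card : ℝ) * (Fintype.card ι / d) := by positivity
    have h1 := pow_le_pow_left₀ h0 (htot.trans hcs) 2
    refine h1.trans ?_
    have h2 := sq_sum_le_card_mul_sum_sq (s := (Finset.univ : Finset ι))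
      (f := fun i => nrm (∑ v ∈ F, g i v • u v))
    rw [Finset.card_univ] at h2
    refine h2.trans (le_of_eq ?_)
    congr 1
    exact Finset.sum_congr rfl fun i _ => nrm_sq _
  have hexp : ∑ i, (∑ v ∈ F, g i v • u v) ⬝ᵥ (∑ v ∈ F, g i v • u v) =
      ∑ v ∈ F, ∑ v' ∈ F, (u v ⬝ᵥ u v') * ∑ i, g i v * g i v' := by
    have h1 : ∀ i, (∑ v ∈ F, g i v • u v) ⬝ᵥ (∑ v ∈ F, g i v • u v) =
        ∑ v ∈ F, ∑ v' ∈ F, (u v ⬝ᵥ u v') * (g i v * g i v') := by
      intro i
      rw [sum_dotProduct]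
      refine Finset.sum_congr rfl fun v _ => ?_
      rw [dotProduct_sum]
      refine Finset.sum_congr rfl fun v' _ => ?_
      rw [smul_dotProduct, dotProduct_smul, smul_eq_mul, smul_eq_mul]
      ring
    rw [Finset.sum_congr rfl fun i _ => h1 i, Finset.sum_comm]
    refine Finset.sum_congr rfl fun v _ => ?_
    rw [Finset.sum_comm]
    refine Finset.sum_congr rfl fun v' _ => ?_
    rw [Finset.mul_sum]
  have hle : ∑ v ∈ F, ∑ v' ∈ F, (u v ⬝ᵥ u v') * ∑ i, g i v * g i v' ≤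
      F.card * (Fintype.card ι + F.card * E) := by
    have h1 : ∀ v ∈ F, ∑ v' ∈ F, (u v ⬝ᵥ u v') * ∑ i, g i v * g i v' ≤
        Fintype.card ι + F.card * E := by
      intro v hv
      have h2 : ∀ v' ∈ F, (u v ⬝ᵥ u v') * ∑ i, g i v * g i v' ≤
          (if v' = v then (Fintype.card ι : ℝ) else 0) + E := by
        intro v' hv'
        by_cases h : v' = v
        · subst h
          rw [if_pos rfl, huu v' hv', one_mul]
          have h3 : ∑ i, g i v' * g i v' = Fintype.card ι := by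
            rw [Finset.sum_congr rfl fun i _ => by rw [← sq, hg i v' hv']]
            simp
          rw [h3]
          linarith
        · rw [if_neg h, zero_add]
          refine (le_abs_self _).trans ?_
          rw [abs_mul]
          have h3 : |u v ⬝ᵥ u v'| ≤ 1 := by
            have := abs_dot_le_nrm (u v) (u v')
            rwa [hu1 v hv, hu1 v' hv', one_mul] at this
          calc |u v ⬝ᵥ u v'| * |∑ i, g i v * g i v'| ≤ 1 * E :=
                mul_le_mul h3 (hcorr v hv v' hv' (fun h' => h h'.symm)) (abs_nonneg _) zero_le_one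
            _ = E := one_mul E
      refine (Finset.sum_le_sum h2).trans ?_
      rw [Finset.sum_add_distrib, Finset.sum_const, nsmul_eq_mul, Finset.sum_ite_eq' F v]
      rw [if_pos hv]
    refine (Finset.sum_le_sum h1).trans ?_
    rw [Finset.sum_const, nsmul_eq_mul]
  rw [hexp] at hsq
  have h1 := hsq.trans (mul_le_mul_of_nonneg_left hle hMR.le)
  have h2 : (F.card : ℝ) * Fintype.card ι * (F.card * Fintype.card ι) ≤
      (F.card * Fintype.card ι) * (d ^ 2 * (Fintype.card ι + F.card * E)) := by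
    have h3 : ((F.card : ℝ) * (Fintype.card ι / d)) ^ 2 * d ^ 2 =
        F.card * Fintype.card ι * (F.card * Fintype.card ι) := by
      field_simp
    rw [← h3]
    have h4 := mul_le_mul_of_nonneg_right h1 (sq_nonneg (d : ℝ))
    refine h4.trans (le_of_eq ?_)
    ring
  exact le_of_mul_le_mul_left h2 (mul_pos hKR hMR)

/-- perturbation to general position -/
theorem exists_GP {ι V : Type} [Fintype ι] [DecidableEq ι] (W : ι → Fin d → ℝ) (F : Finset V)
    (y : V → Fin d → ℝ) (g : ι → V → ℝ) (hs : ∀ i, ∀ v ∈ F, 0 < g i v * (W i ⬝ᵥ y v)) :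
    ∃ W' : ι → Fin d → ℝ, GP W' ∧ ∀ i, ∀ v ∈ F, 0 < g i v * (W' i ⬝ᵥ y v) := by
  classical
  obtain ⟨t, ht⟩ : ∃ t : ι → ℝ, Function.Injective t :=
    ⟨fun i => ((Fintype.equivFin ι i : ℕ) : ℝ), fun i j h => by
      have h1 : (Fintype.equivFin ι i : ℕ) = Fintype.equivFin ι j := Nat.cast_injective h
      exact (Fintype.equivFin ι).injective (Fin.ext h1)⟩
  obtain ⟨m, hm⟩ : ∃ m : ι → Fin d → ℝ, m = fun i (j : Fin d) => t i ^ (j : ℕ) := ⟨_, rfl⟩
  -- bad parameters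
  have hfin : ({e : ℝ | ∃ σ : Fin d → ι, Function.Injective σ ∧
      (Matrix.of fun i => W (σ i) + e • m (σ i)).det = 0}).Finite := by
    have h1 : {e : ℝ | ∃ σ : Fin d → ι, Function.Injective σ ∧
        (Matrix.of fun i => W (σ i) + e • m (σ i)).det = 0} ⊆
        ⋃ σ : Fin d → ι, {e : ℝ | Function.Injective σ ∧
          (Matrix.of fun i => W (σ i) + e • m (σ i)).det = 0} := by
      rintro e ⟨σ, h1, h2⟩
      exact Set.mem_iUnion.2 ⟨σ, h1, h2⟩
    refine (Set.finite_iUnion fun σ => ?_).subset h1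
    by_cases hσ : Function.Injective σ
    · obtain ⟨P, hP⟩ : ∃ P : Polynomial ℝ, P = ((Polynomial.X : Polynomial ℝ) •
        (Matrix.of fun i => m (σ i)).map Polynomial.C +
        (Matrix.of fun i => W (σ i)).map Polynomial.C).det := ⟨_, rfl⟩
      have hP0 : P ≠ 0 := by
        intro h
        have h2 := Polynomial.coeff_det_X_add_C_card (Matrix.of fun i => m (σ i))
          (Matrix.of fun i => W (σ i))
        rw [← hP, h, Polynomial.coeff_zero] at h2
        have h3 : (Matrix.of fun i => m (σ i)) = Matrix.vandermonde fun i => t (σ i) := by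
          ext i j
          rw [hm]
          rfl
        rw [h3] at h2
        exact (Matrix.det_vandermonde_ne_zero_iff.2 (ht.comp hσ)) h2.symm
      have hroot : ∀ e : ℝ, (Matrix.of fun i => W (σ i) + e • m (σ i)).det = P.eval e := by
        intro e
        rw [hP, ← Polynomial.coe_evalRingHom, RingHom.map_det]
        congr 1
        ext i j
        simp only [Matrix.of_apply, Pi.add_apply, Pi.smul_apply, smul_eq_mul,
          RingHom.mapMatrix_apply, Matrix.map_apply, Matrix.add_apply, Matrix.smul_apply,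
          map_add, Polynomial.coe_evalRingHom, Polynomial.eval_C, Polynomial.eval_mul,
          Polynomial.eval_X]
        ring
      refine (P.roots.toFinset.finite_toSet).subset ?_
      rintro e ⟨_, he⟩
      rw [hroot] at he
      rw [Finset.mem_coe, Multiset.mem_toFinset, Polynomial.mem_roots hP0]
      exact he
    · refine Set.finite_empty.subset ?_
      rintro e ⟨h, _⟩
      exact hσ h
  -- small parameters
  have hsmall : ∀ᶠ e : ℝ in nhds 0, ∀ i, ∀ v ∈ F, 0 < g i v * ((W i + e • m i) ⬝ᵥ y v) := by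
    rw [Filter.eventually_all]
    intro i
    rw [Filter.eventually_all_finset]
    intro v hv
    have hcont : Continuous fun e : ℝ => g i v * ((W i + e • m i) ⬝ᵥ y v) := by
      have : (fun e : ℝ => g i v * ((W i + e • m i) ⬝ᵥ y v)) = fun e =>
          g i v * (W i ⬝ᵥ y v + e * (m i ⬝ᵥ y v)) := by
        funext e
        rw [add_dotProduct, smul_dotProduct, smul_eq_mul]
      rw [this]
      fun_prop
    have h0 : 0 < g i v * ((W i + (0 : ℝ) • m i) ⬝ᵥ y v) := by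
      rw [zero_smul, add_zero]
      exact hs i v hv
    exact hcont.continuousAt.eventually (lt_mem_nhds h0)
  obtain ⟨r, hr, hball⟩ := Metric.eventually_nhds_iff.1 hsmall
  have hinf : (Set.Ioo (0 : ℝ) r).Infinite := Set.Ioo_infinite hr
  obtain ⟨e, he1, he2⟩ := (hinf.sdiff hfin).nonempty
  refine ⟨fun i => W i + e • m i, ?_, ?_⟩
  · intro σ hσ h
    exact he2 ⟨σ, hσ, h⟩
  · have hd : dist e 0 < r := by
      rw [Real.dist_eq, sub_zero, abs_of_pos he1.1]
      exact he1.2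
    exact hball hd

/-- **Forster's bound.** -/
theorem sign_rank {ι V : Type} [Fintype ι] [DecidableEq ι] {W : ι → Fin d → ℝ} (hd : 0 < d)
    (hM : d < Fintype.card ι) (F : Finset V) (y : V → Fin d → ℝ) (g : ι → V → ℝ)
    (hg : ∀ i, ∀ v ∈ F, g i v ^ 2 = 1) (hs : ∀ i, ∀ v ∈ F, 0 < g i v * (W i ⬝ᵥ y v)) {E : ℝ}
    (hE : 0 ≤ E) (hcorr : ∀ v ∈ F, ∀ v' ∈ F, v ≠ v' → |∑ i, g i v * g i v'| ≤ E) :
    (F.card : ℝ) * Fintype.card ι ≤ d ^ 2 * (Fintype.card ι + F.card * E) := by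
  obtain ⟨W', hW', hs'⟩ := exists_GP W F y g hs
  exact sign_rank_GP hd hW' hM F y g hg hs' hE hcorr

end Pool.Agent.SparseNP
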