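import Pool.Agent.Lib.MP_69a69c_lc.Eval4
import Pool.Agent.Lib.MP_69a69c_lc.LPTime
import Pool.Agent.Lib.MP_69a69c_lc.SignRank

/-!
# The test of a candidate by a system of linear inequalities
-/

namespace Pool.Agent.SparseNP

open Pool.Agent.PolyTime Matrix

/-! ### correlations of the code, lower bound -/

section
variable {p : ℕ} [hp : Fact p.Prime]

theorem code_corr_nonneg (hodd : p % 2 = 1) (v v' : List Bool) :
    0 ≤ ∑ κ ∈ pos3 p, sgn (codeBit p κ v) * sgn (codeBit p κ v') := by
  classical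
  unfold pos3
  rw [Finset.sum_product]
  simp only [Finset.sum_product]
  have hlt : ∀ (α : ℕ) (v : List Bool), evalP p α v < p := by
    intro α v
    unfold evalP
    induction v using List.reverseRecOn with
    | nil => exact hp.out.pos
    | append_singleton v b _ =>
      rw [List.foldl_append]
      exact md_lt hp.out.pos
  refine Finset.sum_nonneg fun α _ => ?_
  by_cases h : evalP p α v = evalP p α v'
  · refine Finset.sum_nonneg fun β _ => Finset.sum_nonneg fun γ _ => ?_
    have : codeBit p (α, β, γ) v = codeBit p (α, β, γ) v' := by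
      unfold codeBit
      simp only
      rw [h]
    rw [this]
    exact mul_self_nonneg _
  · simp only [sgn_codeBit]
    have h2 : ∀ β : ℕ, ∑ γ ∈ Finset.range p,
        G p ((β : ZMod p) * ((evalP p α v : ℕ) : ZMod p) + (γ : ZMod p)) *
        G p ((β : ZMod p) * ((evalP p α v' : ℕ) : ZMod p) + (γ : ZMod p)) =
        ∑ γ : ZMod p, G p ((β : ZMod p) * ((evalP p α v : ℕ) : ZMod p) + γ) *
        G p ((β : ZMod p) * ((evalP p α v' : ℕ) : ZMod p) + γ) := fun β =>
      sum_range_zmod (fun u => G p ((β : ZMod p) * ((evalP p α v : ℕ) : ZMod p) + u) *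
        G p ((β : ZMod p) * ((evalP p α v' : ℕ) : ZMod p) + u))
    simp only [h2]
    rw [sum_range_zmod (fun β => ∑ γ : ZMod p, G p (β * ((evalP p α v : ℕ) : ZMod p) + γ) *
        G p (β * ((evalP p α v' : ℕ) : ZMod p) + γ)), sum_pair ?_ hodd]
    · norm_num
    intro hc
    have := (ZMod.natCast_eq_natCast_iff' _ _ p).1 hc
    rw [Nat.mod_eq_of_lt (hlt α v), Nat.mod_eq_of_lt (hlt α v')] at this
    exact h this

end

theorem sum_idx3 (p : ℕ) (h : ℕ × ℕ × ℕ → ℤ) :
    ∑ i : Fin (idx3 p).length, h (idx3 p)[i] = ∑ κ ∈ pos3 p, h κ := by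
  rw [← idx3_toFinset, List.sum_toFinset _ (idx3_nodup p)]
  exact Fin.sum_univ_fun_getElem (idx3 p) h

/-! ### rows -/

/-- entry of the row of a query -/
def entryL (P Q : PP) (M : List ℕ) : ℤ :=
  2 * (coef P M : ℤ) - 2 * (coef Q M : ℤ) - (if M = [] then 1 else 0)

/-- row of a query -/
def rowL (idx : List (List ℕ)) (P Q : PP) (b : Bool) : List ℤ :=
  idx.map fun M => sgn b * entryL P Q M

/-- the vector of the values of the monomials -/
noncomputable def yT (T : Set ℕ) (idx : List (List ℕ)) : Fin idx.length → ℤ :=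
  fun j => ((idx[j]).map (ind T)).prod

theorem ind_prod (T : Set ℕ) (M : List ℕ) : (M.map (ind T)).prod = 0 ∨ (M.map (ind T)).prod = 1 := by
  classical
  induction M with
  | nil => right; rfl
  | cons i M ih =>
    rw [List.map_cons, List.prod_cons]
    unfold ind
    split
    · rcases ih with h | h
      · left; unfold ind at h; rw [h, mul_zero]
      · right; unfold ind at h; rw [h, mul_one]
    · left; rw [zero_mul]

theorem vec_row (idx : List (List ℕ)) (P Q : PP) (b : Bool) (j : Fin idx.length) :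
    vec idx.length (rowL idx P Q b) j = sgn b * entryL P Q idx[j] := by
  unfold vec rowL
  rw [List.getD_eq_getElem?_getD, List.getElem?_map, List.getElem?_eq_getElem j.2]
  rfl

theorem row_dot {T : Set ℕ} {idx : List (List ℕ)} (hnd : idx.Nodup) (h0 : [] ∈ idx) {P Q : PP}
    (hP : ∀ t ∈ P, t.2 ∈ idx) (hQ : ∀ t ∈ Q, t.2 ∈ idx) (b : Bool) :
    vec idx.length (rowL idx P Q b) ⬝ᵥ yT T idx =
      sgn b * (2 * (value (ind T) P - value (ind T) Q) - 1) := by
  have h1 : vec idx.length (rowL idx P Q b) ⬝ᵥ yT T idx =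
      ∑ j : Fin idx.length, (fun M : List ℕ => sgn b * entryL P Q M * (M.map (ind T)).prod)
        idx[j] := by
    unfold dotProduct
    refine Finset.sum_congr rfl fun j _ => ?_
    rw [vec_row]
    rfl
  refine (h1.trans (Fin.sum_univ_fun_getElem idx
    (fun M : List ℕ => sgn b * entryL P Q M * (M.map (ind T)).prod))).trans ?_
  have h2 : (fun M : List ℕ => sgn b * entryL P Q M * (M.map (ind T)).prod) = fun M =>
      (2 * sgn b) * (((coef P M : ℕ) : ℤ) * (M.map (ind T)).prod) +
      ((-2 * sgn b) * (((coef Q M : ℕ) : ℤ) * (M.map (ind T)).prod) +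
      (-sgn b) * (if M = [] then 1 else 0)) := by
    funext M
    unfold entryL
    by_cases hM : M = []
    · rw [if_pos hM, hM, List.map_nil, List.prod_nil]
      ring
    · rw [if_neg hM]
      ring
  rw [h2, List.sum_map_add, List.sum_map_add, List.sum_map_mul_left, List.sum_map_mul_left,
    List.sum_map_mul_left, sum_coef _ idx hnd P hP, sum_coef _ idx hnd Q hQ]
  have h3 : (idx.map fun M => if M = [] then (1 : ℤ) else 0).sum = 1 := by
    rw [← List.sum_toFinset _ hnd, Finset.sum_ite_eq']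
    simp [h0]
  rw [h3]
  ring

theorem value_ind_nonneg (T : Set ℕ) (P : PP) : 0 ≤ value (ind T) P := by
  unfold value
  refine List.sum_nonneg fun z hz => ?_
  obtain ⟨t, _, rfl⟩ := List.mem_map.1 hz
  rcases ind_prod T t.2 with h | h <;> rw [h] <;> simp

theorem value_ind_lt (T : Set ℕ) (P : PP) : value (ind T) P < 2 ^ size (enc P) := by
  induction P with
  | nil => simp
  | cons t P ih =>
    rw [value_cons, size_lcons]
    have h1 : ((t.1 : ℕ) : ℤ) < 2 ^ size (enc t) := by
      have h2 := lt_two_pow_size t.1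
      have h3 : size (enc t) = size (enc t.1) + size (enc t.2) + 1 := by rw [← size_pair]
      have h4 : t.1 < 2 ^ size (enc t) :=
        h2.trans_le (Nat.pow_le_pow_right (by norm_num) (by omega))
      exact_mod_cast h4
    have h2 : (t.1 : ℤ) * (t.2.map (ind T)).prod ≤ t.1 := by
      rcases ind_prod T t.2 with h | h <;> rw [h]
      · rw [mul_zero]; positivity
      · rw [mul_one]
    have h3 : (2 : ℤ) ^ (size (enc t) + size (enc P) + 1) =
        2 * (2 ^ size (enc t) * 2 ^ size (enc P)) := by rw [pow_succ, pow_add]; ring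
    have h4 : (1 : ℤ) ≤ 2 ^ size (enc t) := one_le_pow₀ (by norm_num)
    have h5 : (1 : ℤ) ≤ 2 ^ size (enc P) := one_le_pow₀ (by norm_num)
    rw [h3]
    nlinarith

/-- the rows of the system for a candidate -/
def rowsV (f : List Bool → PP × PP) (idx : List (List ℕ)) (p : ℕ) (x : List Bool) (c : ℕ)
    (v : List Bool) : List (List ℤ) :=
  (idx3 p).map fun κ => rowL idx (f (wd (x, (c, (v.length, (p, κ)))))).1
    (f (wd (x, (c, (v.length, (p, κ)))))).2 (codeBit p κ v)

/-- the test -/
def passL (f : List Bool → PP × PP) (idx : List (List ℕ)) (clk : List Unit) (p : ℕ)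
    (x : List Bool) (c : ℕ) (v : List Bool) : Bool :=
  lp idx.length (4 * (rowsV f idx p x c v).length * ((rowsV f idx p x c v).length + 1))
    (rowsV f idx p x c v) clk.length

theorem rowsV_length (f : List Bool → PP × PP) (idx : List (List ℕ)) (p : ℕ) (x : List Bool)
    (c : ℕ) (v : List Bool) : (rowsV f idx p x c v).length = p ^ 3 := by
  unfold rowsV
  rw [List.length_map, idx3_length]

theorem rowsV_getD {f : List Bool → PP × PP} {idx : List (List ℕ)} {p : ℕ} {x : List Bool}
    {c : ℕ} {v : List Bool} {i : ℕ} (hi : i < (idx3 p).length) :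
    (rowsV f idx p x c v).getD i [] = rowL idx (f (wd (x, (c, (v.length, (p, (idx3 p)[i])))))).1
      (f (wd (x, (c, (v.length, (p, (idx3 p)[i])))))).2 (codeBit p (idx3 p)[i] v) := by
  unfold rowsV
  rw [List.getD_eq_getElem?_getD, List.getElem?_map, List.getElem?_eq_getElem hi]
  rfl

/-- the right candidate passes the test -/
theorem passL_true {T : Set ℕ} {f : List Bool → PP × PP} {idx : List (List ℕ)} {clk : List Unit}
    {p c β : ℕ} {x v : List Bool} (hnd : idx.Nodup) (h0 : [] ∈ idx)
    (hterm : ∀ κ ∈ idx3 p, ∀ t ∈ (f (wd (x, (c, (v.length, (p, κ)))))).1 ++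
      (f (wd (x, (c, (v.length, (p, κ)))))).2, t.2 ∈ idx)
    (hval : ∀ κ ∈ idx3 p, (codeBit p κ v = true ↔
      value (ind T) (f (wd (x, (c, (v.length, (p, κ)))))).2 <
      value (ind T) (f (wd (x, (c, (v.length, (p, κ)))))).1))
    (hsz : ∀ κ ∈ idx3 p, size (enc (f (wd (x, (c, (v.length, (p, κ))))))) ≤ β)
    (hd : idx.length ≤ β) (hK : p ^ 3 * (4 * p ^ 3 * (p ^ 3 + 1)) * (p ^ 3 * β + 1) ≤ clk.length) :
    passL f idx clk p x c v = true := by
  unfold passL
  have hβ : idx.length < 2 ^ β := (Nat.lt_two_pow_self).trans_le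
    (Nat.pow_le_pow_right (by norm_num) hd)
  have hrow : ∀ i < (rowsV f idx p x c v).length,
      1 ≤ vec idx.length ((rowsV f idx p x c v).getD i []) ⬝ᵥ yT T idx ∧
      vec idx.length ((rowsV f idx p x c v).getD i []) ⬝ᵥ yT T idx ≤ 2 ^ β := by
    intro i hi
    rw [rowsV_length, ← idx3_length] at hi
    rw [rowsV_getD hi]
    have hκ : (idx3 p)[i] ∈ idx3 p := List.getElem_mem hi
    generalize (idx3 p)[i] = κ at hκ
    have h1 := hterm κ hκ
    have h2 := hval κ hκ
    have h3 := hsz κ hκ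
    generalize f (wd (x, (c, (v.length, (p, κ))))) = PQ at h1 h2 h3
    obtain ⟨P, Q⟩ := PQ
    simp only at h1 h2 h3 ⊢
    rw [row_dot hnd h0 (fun t ht => h1 t (List.mem_append_left _ ht))
      (fun t ht => h1 t (List.mem_append_right _ ht))]
    have e1 := value_ind_nonneg T P
    have e2 := value_ind_nonneg T Q
    have e3 := value_ind_lt T P
    have e4 := value_ind_lt T Q
    rw [size_pair] at h3
    have e5 : (2 : ℤ) ^ size (enc P) * 2 ≤ 2 ^ β := by
      rw [← pow_succ]
      exact pow_le_pow_right₀ (by norm_num) (by omega)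
    have e6 : (2 : ℤ) ^ size (enc Q) * 2 ≤ 2 ^ β := by
      rw [← pow_succ]
      exact pow_le_pow_right₀ (by norm_num) (by omega)
    cases hb : codeBit p κ v with
    | true =>
      have e7 := h2.1 hb
      simp only [sgn, if_true]
      constructor <;> linarith
    | false =>
      have e7 : ¬ value (ind T) Q < value (ind T) P := fun h => by
        rw [h2.2 h] at hb
        cases hb
      simp only [sgn, Bool.false_eq_true, if_false]
      constructor <;> linarith
  refine lp_complete (β := β) (yT T idx) rfl ?_ (fun i hi => (hrow i hi).1)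
    (fun i hi => (hrow i hi).2) ?_
  · have h1 : yT T idx ⬝ᵥ yT T idx ≤ idx.length := by
      unfold dotProduct
      have h2 : ∀ j ∈ (Finset.univ : Finset (Fin idx.length)), yT T idx j * yT T idx j ≤ 1 := by
        intro j _
        unfold yT
        rcases ind_prod T (idx[j]) with h | h <;> rw [h] <;> norm_num
      have := Finset.sum_le_card_nsmul _ _ _ h2
      simpa using this
    have h3 : ((idx.length : ℕ) : ℤ) < 2 ^ β := by exact_mod_cast hβ
    have h4 : (1 : ℤ) ≤ 2 ^ β := one_le_pow₀ (by norm_num)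
    nlinarith
  · rw [rowsV_length]
    exact hK

/-- few candidates pass the test -/
theorem passL_card {f : List Bool → PP × PP} {idx : List (List ℕ)} {clk : List Unit}
    {p c n N : ℕ} {x : List Bool} (hp : p.Prime) (hodd : p % 2 = 1) (hd : 0 < idx.length)
    (hn : n < N) (hp' : 2 * idx.length ^ 2 * (N + 1) ≤ p) (F : Finset (List Bool))
    (hF : ∀ v ∈ F, v.length = n + 1 ∧ passL f idx clk p x c v = true) :
    F.card ≤ 2 * idx.length ^ 2 := by
  classical
  have : Fact p.Prime := ⟨hp⟩
  have hsol : ∀ v : List Bool, ∃ y : Fin idx.length → ℤ, v ∈ F →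
      ∀ i < (rowsV f idx p x c v).length,
        0 < vec idx.length ((rowsV f idx p x c v).getD i []) ⬝ᵥ y := by
    intro v
    by_cases hv : v ∈ F
    · obtain ⟨y, hy⟩ := lp_sound (hF v hv).2
      exact ⟨y, fun _ => hy⟩
    · exact ⟨0, fun h => absurd h hv⟩
  choose y hy using hsol
  have hdp : idx.length < p := by nlinarith [Nat.zero_le N]
  have hcard : Fintype.card (Fin (idx3 p).length) = p ^ 3 := by
    rw [Fintype.card_fin, idx3_length]
  have hkey := sign_rank (ι := Fin (idx3 p).length) (d := idx.length)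
    (W := fun i j => ((entryL (f (wd (x, (c, (n + 1, (p, (idx3 p)[i])))))).1
      (f (wd (x, (c, (n + 1, (p, (idx3 p)[i])))))).2 idx[j] : ℤ) : ℝ)) hd ?_ F
    (fun v j => ((y v j : ℤ) : ℝ))
    (fun i v => ((sgn (codeBit p (idx3 p)[i] v) : ℤ) : ℝ)) ?_ ?_
    (E := (((N + 1) * p ^ 2 : ℕ) : ℝ)) (by positivity) ?_
  · rw [hcard] at hkey
    have h1 : F.card * p ^ 3 ≤ idx.length ^ 2 * (p ^ 3 + F.card * ((N + 1) * p ^ 2)) := by
      exact_mod_cast hkey
    by_contra hcon
    push Not at hcon
    have hp0 := hp.pos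
    have h2 : 2 * (idx.length ^ 2 * (F.card * ((N + 1) * p ^ 2))) ≤ F.card * p ^ 3 := by
      calc 2 * (idx.length ^ 2 * (F.card * ((N + 1) * p ^ 2)))
          = (2 * idx.length ^ 2 * (N + 1)) * (F.card * p ^ 2) := by ring
        _ ≤ p * (F.card * p ^ 2) := Nat.mul_le_mul_right _ hp'
        _ = F.card * p ^ 3 := by ring
    have h3 : F.card * p ^ 3 ≤ 2 * idx.length ^ 2 * p ^ 3 := by nlinarith
    have h4 : 0 < p ^ 3 := by positivity
    have h5 := Nat.le_of_mul_le_mul_right h3 h4
    omega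
  · rw [hcard]
    calc idx.length < p := hdp
      _ ≤ p ^ 3 := Nat.le_self_pow (by norm_num) p
  · intro i v _
    have : sgn (codeBit p (idx3 p)[i] v) ^ 2 = 1 := by
      unfold sgn
      split <;> norm_num
    exact_mod_cast this
  · intro i v hv
    have h1 := hy v hv i (by rw [rowsV_length, ← idx3_length]; exact i.2)
    rw [rowsV_getD i.2, (hF v hv).1] at h1
    have h2 : (sgn (codeBit p (idx3 p)[i] v) : ℤ) *
        ((fun j => entryL (f (wd (x, (c, (n + 1, (p, (idx3 p)[i])))))).1
          (f (wd (x, (c, (n + 1, (p, (idx3 p)[i])))))).2 idx[j]) ⬝ᵥ y v) =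
        vec idx.length (rowL idx (f (wd (x, (c, (n + 1, (p, (idx3 p)[i])))))).1
          (f (wd (x, (c, (n + 1, (p, (idx3 p)[i])))))).2 (codeBit p (idx3 p)[i] v)) ⬝ᵥ y v := by
      unfold dotProduct
      rw [Finset.mul_sum]
      refine Finset.sum_congr rfl fun j _ => ?_
      rw [vec_row]
      exact (mul_assoc _ _ _).symm
    have h3 : (0 : ℤ) < sgn (codeBit p (idx3 p)[i] v) *
        ((fun j => entryL (f (wd (x, (c, (n + 1, (p, (idx3 p)[i])))))).1
          (f (wd (x, (c, (n + 1, (p, (idx3 p)[i])))))).2 idx[j]) ⬝ᵥ y v) := by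
      rw [h2]
      exact h1
    have h4 : (0 : ℝ) < ((sgn (codeBit p (idx3 p)[i] v) *
        ((fun j => entryL (f (wd (x, (c, (n + 1, (p, (idx3 p)[i])))))).1
          (f (wd (x, (c, (n + 1, (p, (idx3 p)[i])))))).2 idx[j]) ⬝ᵥ y v) : ℤ) : ℝ) := by
      exact_mod_cast h3
    rw [Int.cast_mul] at h4
    convert h4 using 2
    unfold dotProduct
    push_cast
    rfl
  · intro v hv v' hv' hne
    have h1 := sum_idx3 p fun κ => sgn (codeBit p κ v) * sgn (codeBit p κ v')
    have h2 := code_corr (p := p) hodd v v' (by rw [(hF v hv).1, (hF v' hv').1]) hne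
    have h3 := code_corr_nonneg (p := p) hodd v v'
    rw [← h1] at h2 h3
    rw [(hF v hv).1] at h2
    have h4 : (((n + 1 : ℕ) : ℤ) * (p : ℤ) ^ 2 + p) ≤ (((N + 1) * p ^ 2 : ℕ) : ℤ) := by
      have h5 : p ≤ p ^ 2 := Nat.le_self_pow (by norm_num) p
      have h6 : (n + 1 + 1) * p ^ 2 ≤ (N + 1) * p ^ 2 := Nat.mul_le_mul_right _ (by omega)
      have h7 : (n + 1 + 1) * p ^ 2 = (n + 1) * p ^ 2 + p ^ 2 := by ring
      have h8 : (n + 1) * p ^ 2 + p ≤ (N + 1) * p ^ 2 := by omega
      exact_mod_cast h8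
    have h5 : |∑ i : Fin (idx3 p).length, sgn (codeBit p (idx3 p)[i] v) *
        sgn (codeBit p (idx3 p)[i] v')| ≤ (((N + 1) * p ^ 2 : ℕ) : ℤ) := by
      rw [abs_of_nonneg h3]
      exact h2.trans h4
    have h6 : ((|∑ i : Fin (idx3 p).length, sgn (codeBit p (idx3 p)[i] v) *
        sgn (codeBit p (idx3 p)[i] v')| : ℤ) : ℝ) ≤ (((N + 1) * p ^ 2 : ℕ) : ℝ) := by
      exact_mod_cast h5
    rw [Int.cast_abs] at h6
    push_cast at h6 ⊢
    exact h6

end Pool.Agent.SparseNP
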