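import Pool.Agent.Lib.MP_69a69c_lc.NegDefs
import Pool.Agent.Lib.MP_69a69c_lc.Test4

/-!
# The test of a candidate with hidden integers
-/

namespace Pool.Agent.SparseNP

open Pool.Agent.PolyTime Matrix

/-- the vector of the values of the monomials -/
def yH (τ : ℕ → ℤ) (idx : List (List ℕ)) : Fin idx.length → ℤ :=
  fun j => ((idx[j]).map τ).prod

theorem row_dotH {τ : ℕ → ℤ} {idx : List (List ℕ)} (hnd : idx.Nodup) (h0 : [] ∈ idx) {P Q : PP}
    (hP : ∀ t ∈ P, t.2 ∈ idx) (hQ : ∀ t ∈ Q, t.2 ∈ idx) (b : Bool) :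
    vec idx.length (rowL idx P Q b) ⬝ᵥ yH τ idx =
      sgn b * (2 * (value τ P - value τ Q) - 1) := by
  have h1 : vec idx.length (rowL idx P Q b) ⬝ᵥ yH τ idx =
      ∑ j : Fin idx.length, (fun M : List ℕ => sgn b * entryL P Q M * (M.map τ).prod)
        idx[j] := by
    unfold dotProduct
    refine Finset.sum_congr rfl fun j _ => ?_
    rw [vec_row]
    rfl
  refine (h1.trans (Fin.sum_univ_fun_getElem idx
    (fun M : List ℕ => sgn b * entryL P Q M * (M.map τ).prod))).trans ?_
  have h2 : (fun M : List ℕ => sgn b * entryL P Q M * (M.map τ).prod) = fun M =>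
      (2 * sgn b) * (((coef P M : ℕ) : ℤ) * (M.map τ).prod) +
      ((-2 * sgn b) * (((coef Q M : ℕ) : ℤ) * (M.map τ).prod) +
      (-sgn b) * (if M = [] then 1 else 0)) := by
    funext M
    unfold entryL
    by_cases hM : M = []
    · rw [if_pos hM, hM, List.map_nil, List.prod_nil]
      ring
    · rw [if_neg hM]
      ring
  rw [h2, List.sum_map_add, List.sum_map_add, List.sum_map_mul_left, List.sum_map_mul_left,
    List.sum_map_mul_left, sum_coef _ idx hnd P hP, sum_coef _ idx hnd Q hQ]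
  have h3 : (idx.map fun M => if M = [] then (1 : ℤ) else 0).sum = 1 := by
    rw [← List.sum_toFinset _ hnd, Finset.sum_ite_eq']
    simp [h0]
  rw [h3]
  ring

theorem prod_abs_le {τ : ℕ → ℤ} {B : ℕ} (hτ : ∀ i, |τ i| ≤ 2 ^ B) (M : List ℕ) :
    |(M.map τ).prod| ≤ 2 ^ (B * M.length) := by
  induction M with
  | nil => simp
  | cons i M ih =>
    rw [List.map_cons, List.prod_cons, abs_mul, List.length_cons, Nat.mul_succ, pow_add,
      mul_comm ((2 : ℤ) ^ (B * M.length))]
    exact mul_le_mul (hτ i) ih (abs_nonneg _) (by positivity)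

theorem prod_abs_le' {τ : ℕ → ℤ} {B k : ℕ} (hτ : ∀ i, |τ i| ≤ 2 ^ B) {M : List ℕ}
    (hM : M.length ≤ k) : |(M.map τ).prod| ≤ 2 ^ (B * k) :=
  (prod_abs_le hτ M).trans (pow_le_pow_right₀ (by norm_num) (Nat.mul_le_mul_left _ hM))

theorem value_abs_lt {τ : ℕ → ℤ} {B k : ℕ} (hτ : ∀ i, |τ i| ≤ 2 ^ B) (P : PP)
    (hP : ∀ t ∈ P, t.2.length ≤ k) : |value τ P| < 2 ^ size (enc P) * 2 ^ (B * k) := by
  induction P with
  | nil =>
    have : value τ [] = 0 := rfl
    rw [this, abs_zero]
    positivity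
  | cons t P ih =>
    rw [value_cons, size_lcons]
    have ih' := ih fun t' ht' => hP t' (List.mem_cons_of_mem _ ht')
    have h1 : ((t.1 : ℕ) : ℤ) < 2 ^ size (enc t) := by
      have h2 := lt_two_pow_size t.1
      have h3 : size (enc t) = size (enc t.1) + size (enc t.2) + 1 := by rw [← size_pair]
      have h4 : t.1 < 2 ^ size (enc t) :=
        h2.trans_le (Nat.pow_le_pow_right (by norm_num) (by omega))
      exact_mod_cast h4
    have h2 : |(t.1 : ℤ) * (t.2.map τ).prod| ≤ 2 ^ size (enc t) * 2 ^ (B * k) := by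
      rw [abs_mul, abs_of_nonneg (Int.natCast_nonneg t.1)]
      exact mul_le_mul h1.le (prod_abs_le' hτ (hP t (List.mem_cons_self ..))) (abs_nonneg _)
        (by positivity)
    have h3 : (2 : ℤ) ^ (size (enc t) + size (enc P) + 1) =
        2 * (2 ^ size (enc t) * 2 ^ size (enc P)) := by rw [pow_succ, pow_add]; ring
    have h4 : (1 : ℤ) ≤ 2 ^ size (enc t) := one_le_pow₀ (by norm_num)
    have h5 : (1 : ℤ) ≤ 2 ^ size (enc P) := one_le_pow₀ (by norm_num)
    have h6 : (0 : ℤ) < 2 ^ (B * k) := by positivity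
    refine (abs_add_le _ _).trans_lt ?_
    rw [h3]
    have h7 : (2 : ℤ) ^ size (enc t) + 2 ^ size (enc P) ≤
        2 * (2 ^ size (enc t) * 2 ^ size (enc P)) := by nlinarith
    calc |(t.1 : ℤ) * (t.2.map τ).prod| + |value τ P|
        < 2 ^ size (enc t) * 2 ^ (B * k) + 2 ^ size (enc P) * 2 ^ (B * k) :=
          add_lt_add_of_le_of_lt h2 ih'
      _ = (2 ^ size (enc t) + 2 ^ size (enc P)) * 2 ^ (B * k) := by ring
      _ ≤ _ := mul_le_mul_of_nonneg_right h7 h6.le

/-- the right candidate passes the test -/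
theorem passL_hid {τ : ℕ → ℤ} {f : List Bool → PP × PP} {idx : List (List ℕ)}
    {clk : List Unit} {p c β B k : ℕ} {x v : List Bool} (hnd : idx.Nodup) (h0 : [] ∈ idx)
    (hlen : ∀ M ∈ idx, M.length ≤ k) (hτ : ∀ i, |τ i| ≤ 2 ^ B)
    (hterm : ∀ κ ∈ idx3 p, ∀ t ∈ (f (wd (x, (c, (v.length, (p, κ)))))).1 ++
      (f (wd (x, (c, (v.length, (p, κ)))))).2, t.2 ∈ idx)
    (hval : ∀ κ ∈ idx3 p, (codeBit p κ v = true ↔
      value τ (f (wd (x, (c, (v.length, (p, κ)))))).2 <
      value τ (f (wd (x, (c, (v.length, (p, κ)))))).1))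
    (hsz : ∀ κ ∈ idx3 p, size (enc (f (wd (x, (c, (v.length, (p, κ))))))) + B * k + 2 ≤ β)
    (hd : idx.length + B * k ≤ β)
    (hK : p ^ 3 * (4 * p ^ 3 * (p ^ 3 + 1)) * (p ^ 3 * β + 1) ≤ clk.length) :
    passL f idx clk p x c v = true := by
  unfold passL
  have hrow : ∀ i < (rowsV f idx p x c v).length,
      1 ≤ vec idx.length ((rowsV f idx p x c v).getD i []) ⬝ᵥ yH τ idx ∧
      vec idx.length ((rowsV f idx p x c v).getD i []) ⬝ᵥ yH τ idx ≤ 2 ^ β := by
    intro i hi
    rw [rowsV_length, ← idx3_length] at hi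
    rw [rowsV_getD hi]
    have hκ : (idx3 p)[i] ∈ idx3 p := List.getElem_mem hi
    generalize (idx3 p)[i] = κ at hκ
    have h1 := hterm κ hκ
    have h2 := hval κ hκ
    have h3 := hsz κ hκ
    generalize f (wd (x, (c, (v.length, (p, κ))))) = PQ at h1 h2 h3
    obtain ⟨P, Q⟩ := PQ
    simp only at h1 h2 h3 ⊢
    have hP := fun t ht => h1 t (List.mem_append_left _ ht)
    have hQ := fun t ht => h1 t (List.mem_append_right _ ht)
    rw [row_dotH hnd h0 hP hQ]
    have e3 := abs_lt.1 (value_abs_lt hτ P fun t ht => hlen _ (hP t ht))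
    have e4 := abs_lt.1 (value_abs_lt hτ Q fun t ht => hlen _ (hQ t ht))
    rw [size_pair] at h3
    have e5 : (2 : ℤ) ^ size (enc P) * 2 ^ (B * k) * 8 ≤ 2 ^ β := by
      have : (8 : ℤ) = 2 ^ 3 := by norm_num
      rw [this, ← pow_add, ← pow_add]
      refine pow_le_pow_right₀ (by norm_num) ?_
      have := size_pos (enc Q)
      omega
    have e6 : (2 : ℤ) ^ size (enc Q) * 2 ^ (B * k) * 8 ≤ 2 ^ β := by
      have : (8 : ℤ) = 2 ^ 3 := by norm_num
      rw [this, ← pow_add, ← pow_add]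
      refine pow_le_pow_right₀ (by norm_num) ?_
      have := size_pos (enc P)
      omega
    have e7 : (1 : ℤ) ≤ 2 ^ size (enc P) * 2 ^ (B * k) := by
      rw [← pow_add]
      exact one_le_pow₀ (by norm_num)
    have e8 : (1 : ℤ) ≤ 2 ^ size (enc Q) * 2 ^ (B * k) := by
      rw [← pow_add]
      exact one_le_pow₀ (by norm_num)
    generalize (2 : ℤ) ^ size (enc P) * 2 ^ (B * k) = u at e3 e5 e7
    generalize (2 : ℤ) ^ size (enc Q) * 2 ^ (B * k) = w at e4 e6 e8
    cases hb : codeBit p κ v with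
    | true =>
      have e7 := h2.1 hb
      simp only [sgn, if_true]
      constructor <;> linarith [e3.1, e3.2, e4.1, e4.2]
    | false =>
      have e7 : ¬ value τ Q < value τ P := fun h => by
        rw [h2.2 h] at hb
        cases hb
      simp only [sgn, Bool.false_eq_true, if_false]
      constructor <;> linarith [e3.1, e3.2, e4.1, e4.2]
  refine lp_complete (β := β) (yH τ idx) rfl ?_ (fun i hi => (hrow i hi).1)
    (fun i hi => (hrow i hi).2) ?_
  · have h1 : yH τ idx ⬝ᵥ yH τ idx ≤ idx.length * (2 ^ (B * k)) ^ 2 := by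
      unfold dotProduct
      have h2 : ∀ j ∈ (Finset.univ : Finset (Fin idx.length)),
          yH τ idx j * yH τ idx j ≤ (2 ^ (B * k)) ^ 2 := by
        intro j _
        have h3 : |yH τ idx j| ≤ 2 ^ (B * k) := by
          unfold yH
          exact prod_abs_le' hτ (hlen _ (List.getElem_mem _))
        rw [← sq, ← sq_abs (yH τ idx j)]
        exact pow_le_pow_left₀ (abs_nonneg _) h3 2
      have := Finset.sum_le_card_nsmul _ _ _ h2
      simpa using this
    refine h1.trans ?_
    have h3 : ((idx.length : ℕ) : ℤ) ≤ 2 ^ idx.length := by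
      have := (Nat.lt_two_pow_self (n := idx.length)).le
      exact_mod_cast this
    have h4 : (2 : ℤ) ^ idx.length * (2 ^ (B * k)) ^ 2 ≤ (2 ^ β) ^ 2 := by
      rw [← pow_mul, ← pow_mul, ← pow_add]
      refine pow_le_pow_right₀ (by norm_num) ?_
      omega
    exact (mul_le_mul_of_nonneg_right h3 (by positivity)).trans h4
  · rw [rowsV_length]
    exact hK

end Pool.Agent.SparseNP
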