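import Pool.Agent.Lib.MP_69a69c_lc.Test4

/-!
# Running time of the algorithm for weighted thresholds
-/

namespace Pool.Agent.SparseNP

open Pool.Agent.PolyTime

section
variable {α : Type} [Enc α]

theorem ptime_sgn {b : α → Bool} (hb : PTime b) : PTime (fun x => sgn (b x)) :=
  PTime.ite hb (PTime.const 1) (PTime.const (-1))

theorem ptime_entryL {P Q : α → PP} {M : α → List ℕ} (hP : PTime P) (hQ : PTime Q)
    (hM : PTime M) : PTime (fun x => entryL (P x) (Q x) (M x)) := by
  unfold entryL
  exact ptime_intSub (ptime_intSub
    (ptime_intMul (PTime.const 2) (ptime_natCast (ptime_coef.comp (hP.pair hM))))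
    (ptime_intMul (PTime.const 2) (ptime_natCast (ptime_coef.comp (hQ.pair hM)))))
    (PTime.iteP (PTime.eq hM (PTime.const [])) (PTime.const 1) (PTime.const 0))

theorem ptime_rowL {idx : α → List (List ℕ)} {P Q : α → PP} {b : α → Bool} (hi : PTime idx)
    (hP : PTime P) (hQ : PTime Q) (hb : PTime b) :
    PTime (fun x => rowL (idx x) (P x) (Q x) (b x)) := by
  unfold rowL
  exact PTime.map (g := fun (x : α) (M : List ℕ) => sgn (b x) * entryL (P x) (Q x) M) hi
    (ptime_intMul ((ptime_sgn hb).comp PTime.fst)
      (ptime_entryL (hP.comp PTime.fst) (hQ.comp PTime.fst) PTime.snd))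

end

section

variable {f : List Bool → PP × PP} {idx : List Bool → List (List ℕ)} {pr : List Bool → ℕ}
  {U clk : List Bool → List Unit}

theorem ptime_rowsV (hf : PTime f) (hidx : PTime idx) (hpr : PTime pr) (hU : PTime U)
    (hprU : ∀ x, pr x ≤ (U x).length) :
    PTime (fun z : (List Bool × ℕ) × List Bool => rowsV f (idx z.1.1) (pr z.1.1) z.1.1 z.1.2
      z.2) := by
  have hx : PTime (fun z : (List Bool × ℕ) × List Bool => z.1.1) := PTime.fst' PTime.fst
  have hc : PTime (fun z : (List Bool × ℕ) × List Bool => z.1.2) := PTime.snd' PTime.fst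
  have hv : PTime (fun z : (List Bool × ℕ) × List Bool => z.2) := PTime.snd
  have hp : PTime (fun z : (List Bool × ℕ) × List Bool => pr z.1.1) := hpr.comp hx
  have hI : PTime (fun z : (List Bool × ℕ) × List Bool => idx3 (pr z.1.1)) :=
    ptime_idx3 hp (hU.comp hx) fun z => hprU z.1.1
  have hwd : PTime (fun w : ((List Bool × ℕ) × List Bool) × (ℕ × ℕ × ℕ) =>
      wd (w.1.1.1, (w.1.1.2, (w.1.2.length, (pr w.1.1.1, w.2))))) := by
    unfold wd
    exact PTime.bits' ((hx.comp PTime.fst).pair ((hc.comp PTime.fst).pair
      ((hv.comp PTime.fst).length.pair ((hp.comp PTime.fst).pair PTime.snd))))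
  have hfw := hf.comp hwd
  have hz : PTime (fun w : ((List Bool × ℕ) × List Bool) × (ℕ × ℕ × ℕ) =>
      codeBit (pr w.1.1.1) w.2 w.1.2) :=
    ptime_codeBit (hp.comp PTime.fst) PTime.snd (hv.comp PTime.fst)
  unfold rowsV
  exact PTime.map (g := fun (z : (List Bool × ℕ) × List Bool) (κ : ℕ × ℕ × ℕ) =>
    rowL (idx z.1.1) (f (wd (z.1.1, (z.1.2, (z.2.length, (pr z.1.1, κ)))))).1
      (f (wd (z.1.1, (z.1.2, (z.2.length, (pr z.1.1, κ)))))).2 (codeBit (pr z.1.1) κ z.2)) hI
    (ptime_rowL (hidx.comp (hx.comp PTime.fst)) hfw.fst' hfw.snd' hz)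

theorem ptime_passL (hf : PTime f) (hidx : PTime idx) (hpr : PTime pr) (hU : PTime U)
    (hprU : ∀ x, pr x ≤ (U x).length) (hclk : PTime clk) :
    PTime (fun z : (List Bool × ℕ) × List Bool => passL f (idx z.1.1) (clk z.1.1) (pr z.1.1)
      z.1.1 z.1.2 z.2) := by
  have hx : PTime (fun z : (List Bool × ℕ) × List Bool => z.1.1) := PTime.fst' PTime.fst
  obtain ⟨A, hA⟩ : ∃ A : (List Bool × ℕ) × List Bool → List (List ℤ), A = fun z =>
    rowsV f (idx z.1.1) (pr z.1.1) z.1.1 z.1.2 z.2 := ⟨_, rfl⟩
  have hA' : PTime A := by rw [hA]; exact ptime_rowsV hf hidx hpr hU hprU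
  have hidx' := hidx.comp hx
  have h : PTime (fun z : (List Bool × ℕ) × List Bool =>
      lp (idx z.1.1).length (4 * (A z).length * ((A z).length + 1)) (A z) (clk z.1.1).length) :=
    ptime_lp (U := fun z => (idx z.1.1).map fun _ => ()) hidx'.length
      (PTime.map (g := fun (_ : (List Bool × ℕ) × List Bool) (_ : List ℕ) => ()) hidx'
        (PTime.const ())) (fun z => by rw [List.length_map])
      (((PTime.const 4).mul hA'.length).mul hA'.length.succ) hA' (hclk.comp hx)
  refine h.of_eq fun z => ?_
  rw [hA]
  rfl

/-- filtering the children -/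
theorem ptime_levelG {A : (List Bool × ℕ) × List Bool → Bool} (hA : PTime A) {Kf : List Bool → ℕ}
    (hKf : PTime Kf) :
    PTime (fun z : (List Bool × ℕ) × List (List Bool) =>
      levelG (fun v => A (z.1, v)) (Kf z.1.1) z.2) := ptime_filterTake hA hKf

theorem ptime_searchG (pL : Polynomial ℕ) {A : (List Bool × ℕ) × List Bool → Bool}
    (hA : PTime A) {Kf : List Bool → ℕ} (hKf : PTime Kf) {KB : ℕ → ℕ}
    (hKB : PBd KB) (hK : ∀ x, Kf x ≤ KB (size (enc x))) :
    PTime (fun z : List Bool × ℕ => searchG (pL.eval z.1.length) (fun v => A (z, v))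
      (Kf z.1)) := by
  obtain ⟨KP, hKP⟩ := hKB
  have hKPB : PBd fun n => KP.eval n := ⟨KP, fun _ => le_rfl⟩
  unfold searchG
  refine PTime.foldl (h := fun (z : List Bool × ℕ) (C : List (List Bool)) (_ : Unit) =>
      levelG (fun v => A (z, v)) (Kf z.1) C)
      (PTime.unaryPoly (PTime.fst (α := List Bool) (β := ℕ)) pL)
      (PTime.const [[]]) ?_
      (B := fun n => (KP.eval n + 1) * (4 * pL.eval n + 2) + 1)
      (((hKPB.add (PBd.const 1)).mul
        (((PBd.const 4).mul ⟨pL, fun _ => le_rfl⟩).add (PBd.const 2))).add (PBd.const 1)) ?_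
  · exact (ptime_levelG hA hKf).comp ((PTime.fst (α := List Bool × ℕ)
        (β := List (List Bool) × Unit)).pair (PTime.fst' PTime.snd))
  · intro z l₁ l₂ h
    obtain ⟨x, c⟩ := z
    simp only at h ⊢
    have hl : l₁ = List.replicate l₁.length () := List.eq_replicate_iff.2 ⟨rfl, by simp⟩
    have hn : l₁.length ≤ pL.eval x.length := by
      have := congrArg List.length h
      simp only [List.length_replicate, List.length_append] at this
      omega
    have hp := searchG_props (fun v => A ((x, c), v)) (Kf x) l₁.length
    unfold searchG at hp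
    rw [← hl] at hp
    have h1 := size_list_le _ (4 * pL.eval x.length + 1) (fun v hv => by
      have := size_bits_le v
      rw [hp.1 v hv] at this
      omega : ∀ v ∈ l₁.foldl (fun C _ => levelG (fun v => A ((x, c), v)) (Kf x) C) [[]],
        size (enc v) ≤ 4 * pL.eval x.length + 1)
    refine h1.trans ?_
    have h2 := hp.2.2
    have hsz : size (enc x) ≤ size (enc (x, c)) := by
      have := size_pair x c
      omega
    have h4 : Kf x ≤ KP.eval (size (enc (x, c))) :=
      ((hK x).trans (hKP _)).trans (eval_mono KP hsz)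
    have h5 : pL.eval x.length ≤ pL.eval (size (enc (x, c))) :=
      eval_mono pL (by have := length_le_size x; omega)
    have h6 := Nat.mul_le_mul (show (l₁.foldl (fun C _ =>
      levelG (fun v => A ((x, c), v)) (Kf x) C)
      [[]]).length ≤ KP.eval (size (enc (x, c))) + 1 by omega)
      (show 4 * pL.eval x.length + 1 + 1 ≤ 4 * pL.eval (size (enc (x, c))) + 2 by omega)
    omega

end

/-- the algorithm; `P1`, ..., `P6` are polynomials and `k0` is a constant -/
def alg4 (V : List Bool × List Bool → Bool) (pL : Polynomial ℕ) (f : List Bool → PP × PP) (k : ℕ)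
    (P1 P3 P4 P5 P6 : Polynomial ℕ) (k0 : ℕ) (x : List Bool) : Bool :=
  (List.range ((List.replicate (P4.eval (x ++ List.replicate k0 false).length) ()).length)).any
    fun c => (searchG (pL.eval x.length) (fun v => passL f
      (monos k (List.range (List.replicate (P6.eval (x ++ List.replicate k0 false).length)
        ()).length))
      (List.replicate (P5.eval (x ++ List.replicate k0 false).length) ())
      (findPr (List.replicate (P1.eval (x ++ List.replicate k0 false).length) ())) x c v)
      (P3.eval (x ++ List.replicate k0 false).length)).any fun v =>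
        decide (v.length = pL.eval x.length) && V (x, v)

theorem ptime_alg4 {V : List Bool × List Bool → Bool} (hV : PTime V) {pL : Polynomial ℕ}
    {f : List Bool → PP × PP} (hf : PTime f) (k : ℕ) (P1 P3 P4 P5 P6 : Polynomial ℕ) (k0 : ℕ) :
    PTime (alg4 V pL f k P1 P3 P4 P5 P6 k0) := by
  have hs : PTime (fun x : List Bool => x ++ List.replicate k0 false) :=
    PTime.id.append (PTime.const _)
  have h1 : PTime (fun x : List Bool =>
      List.replicate (P1.eval (x ++ List.replicate k0 false).length) ()) := PTime.unaryPoly hs P1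
  have hpr : PTime (fun x : List Bool =>
      findPr (List.replicate (P1.eval (x ++ List.replicate k0 false).length) ())) :=
    ptime_findPr h1
  have hU : PTime (fun x : List Bool =>
      List.replicate (P1.eval (x ++ List.replicate k0 false).length) () ++
      List.replicate (P1.eval (x ++ List.replicate k0 false).length) () ++ [()]) :=
    (h1.append h1).append (PTime.const [()])
  have h3 : PTime (fun x : List Bool => P3.eval (x ++ List.replicate k0 false).length) :=
    ptime_evalLength hs P3
  have h4 : PTime (fun x : List Bool =>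
      List.replicate (P4.eval (x ++ List.replicate k0 false).length) ()) := PTime.unaryPoly hs P4
  have h5 : PTime (fun x : List Bool =>
      List.replicate (P5.eval (x ++ List.replicate k0 false).length) ()) := PTime.unaryPoly hs P5
  have h6 : PTime (fun x : List Bool =>
      List.replicate (P6.eval (x ++ List.replicate k0 false).length) ()) := PTime.unaryPoly hs P6
  have hidx : PTime (fun x : List Bool => monos k (List.range
      (List.replicate (P6.eval (x ++ List.replicate k0 false).length) ()).length)) :=
    ptime_monos k (PTime.rangeLength h6)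
  have hpass := ptime_passL hf hidx hpr hU (fun x => findPr_le _) h5
  obtain ⟨B, hB⟩ : ∃ B : (List Bool × ℕ) × List Bool → Bool, B = fun z => passL f
      (monos k (List.range (List.replicate (P6.eval (z.1.1 ++ List.replicate k0 false).length)
        ()).length))
      (List.replicate (P5.eval (z.1.1 ++ List.replicate k0 false).length) ())
      (findPr (List.replicate (P1.eval (z.1.1 ++ List.replicate k0 false).length) ()))
      z.1.1 z.1.2 z.2 := ⟨_, rfl⟩
  have hB' : PTime B := by rw [hB]; exact hpass
  have hsearch := ptime_searchG pL hB' h3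
    (KB := fun n => P3.eval (n + k0)) (PBd.comp ⟨P3, fun _ => le_rfl⟩ (PBd.id.add (PBd.const k0)))
    (fun x => eval_mono P3 (by
      rw [List.length_append, List.length_replicate]
      have := length_le_size x
      omega))
  obtain ⟨A, hA⟩ : ∃ A : List Bool × ℕ → List (List Bool), A = fun z =>
      searchG (pL.eval z.1.length) (fun v => B (z, v))
        (P3.eval (z.1 ++ List.replicate k0 false).length) := ⟨_, rfl⟩
  have hA' : PTime A := by rw [hA]; exact hsearch
  have h7 : PTime (fun z : List Bool × ℕ => (A z).any fun v =>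
      decide (v.length = pL.eval z.1.length) && V (z.1, v)) := by
    refine PTime.any (g := fun (z : List Bool × ℕ) (v : List Bool) =>
      decide (v.length = pL.eval z.1.length) && V (z.1, v)) hA' ?_
    exact (PTime.eq PTime.snd.length (ptime_evalLength (PTime.fst' PTime.fst) pL)).and
      (hV.comp ((PTime.fst' PTime.fst).pair PTime.snd))
  have h8 : PTime (fun x : List Bool => (List.range ((List.replicate
      (P4.eval (x ++ List.replicate k0 false).length) ()).length)).any fun c =>
      (A (x, c)).any fun v => decide (v.length = pL.eval x.length) && V (x, v)) :=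
    PTime.any (g := fun (x : List Bool) (c : ℕ) => (A (x, c)).any fun v =>
      decide (v.length = pL.eval x.length) && V (x, v)) (PTime.rangeLength h4) h7
  rw [hA, hB] at h8
  exact h8

end Pool.Agent.SparseNP
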