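import Pool.Agent.Lib.MP_69a69c_lc.HidTest
import Pool.Agent.Lib.MP_69a69c_lc.Time4

/-!
# Running time of the algorithm for hidden thresholds
-/

namespace Pool.Agent.SparseNP

open Pool.Agent.PolyTime

section

variable {F : List Unit × List Bool → PP × PP} {Nf : List Bool → List Unit}
  {idx : List Bool → List (List ℕ)} {pr : List Bool → ℕ} {U clk : List Bool → List Unit}

theorem ptime_rowsH (hF : PTime F) (hN : PTime Nf) (hidx : PTime idx) (hpr : PTime pr)
    (hU : PTime U) (hprU : ∀ x, pr x ≤ (U x).length) :
    PTime (fun z : (List Bool × ℕ) × List Bool => rowsV (fun y => F (Nf z.1.1, y)) (idx z.1.1)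
      (pr z.1.1) z.1.1 z.1.2 z.2) := by
  have hx : PTime (fun z : (List Bool × ℕ) × List Bool => z.1.1) := PTime.fst' PTime.fst
  have hc : PTime (fun z : (List Bool × ℕ) × List Bool => z.1.2) := PTime.snd' PTime.fst
  have hv : PTime (fun z : (List Bool × ℕ) × List Bool => z.2) := PTime.snd
  have hp : PTime (fun z : (List Bool × ℕ) × List Bool => pr z.1.1) := hpr.comp hx
  have hNz : PTime (fun z : (List Bool × ℕ) × List Bool => Nf z.1.1) := hN.comp hx
  have hI : PTime (fun z : (List Bool × ℕ) × List Bool => idx3 (pr z.1.1)) :=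
    ptime_idx3 hp (hU.comp hx) fun z => hprU z.1.1
  have hwd : PTime (fun w : ((List Bool × ℕ) × List Bool) × (ℕ × ℕ × ℕ) =>
      wd (w.1.1.1, (w.1.1.2, (w.1.2.length, (pr w.1.1.1, w.2))))) := by
    unfold wd
    exact PTime.bits' ((hx.comp PTime.fst).pair ((hc.comp PTime.fst).pair
      ((hv.comp PTime.fst).length.pair ((hp.comp PTime.fst).pair PTime.snd))))
  have hfw : PTime (fun w : ((List Bool × ℕ) × List Bool) × (ℕ × ℕ × ℕ) =>
      F (Nf w.1.1.1, wd (w.1.1.1, (w.1.1.2, (w.1.2.length, (pr w.1.1.1, w.2)))))) :=
    hF.comp ((hNz.comp PTime.fst).pair hwd)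
  have hz : PTime (fun w : ((List Bool × ℕ) × List Bool) × (ℕ × ℕ × ℕ) =>
      codeBit (pr w.1.1.1) w.2 w.1.2) :=
    ptime_codeBit (hp.comp PTime.fst) PTime.snd (hv.comp PTime.fst)
  unfold rowsV
  exact PTime.map (g := fun (z : (List Bool × ℕ) × List Bool) (κ : ℕ × ℕ × ℕ) =>
    rowL (idx z.1.1) (F (Nf z.1.1, wd (z.1.1, (z.1.2, (z.2.length, (pr z.1.1, κ)))))).1
      (F (Nf z.1.1, wd (z.1.1, (z.1.2, (z.2.length, (pr z.1.1, κ)))))).2
      (codeBit (pr z.1.1) κ z.2)) hI
    (ptime_rowL (hidx.comp (hx.comp PTime.fst)) hfw.fst' hfw.snd' hz)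

theorem ptime_passH (hF : PTime F) (hN : PTime Nf) (hidx : PTime idx) (hpr : PTime pr)
    (hU : PTime U) (hprU : ∀ x, pr x ≤ (U x).length) (hclk : PTime clk) :
    PTime (fun z : (List Bool × ℕ) × List Bool => passL (fun y => F (Nf z.1.1, y)) (idx z.1.1)
      (clk z.1.1) (pr z.1.1) z.1.1 z.1.2 z.2) := by
  have hx : PTime (fun z : (List Bool × ℕ) × List Bool => z.1.1) := PTime.fst' PTime.fst
  obtain ⟨A, hA⟩ : ∃ A : (List Bool × ℕ) × List Bool → List (List ℤ), A = fun z =>
    rowsV (fun y => F (Nf z.1.1, y)) (idx z.1.1) (pr z.1.1) z.1.1 z.1.2 z.2 := ⟨_, rfl⟩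
  have hA' : PTime A := by rw [hA]; exact ptime_rowsH hF hN hidx hpr hU hprU
  have hidx' := hidx.comp hx
  have h : PTime (fun z : (List Bool × ℕ) × List Bool =>
      lp (idx z.1.1).length (4 * (A z).length * ((A z).length + 1)) (A z) (clk z.1.1).length) :=
    ptime_lp (U := fun z => (idx z.1.1).map fun _ => ()) hidx'.length
      (PTime.map (g := fun (_ : (List Bool × ℕ) × List Bool) (_ : List ℕ) => ()) hidx'
        (PTime.const ())) (fun z => by rw [List.length_map])
      (((PTime.const 4).mul hA'.length).mul hA'.length.succ) hA' (hclk.comp hx)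
  refine h.of_eq fun z => ?_
  rw [hA]
  rfl

end

/-- the algorithm; `P1`, ..., `PN` are polynomials and `k0` is a constant -/
def algH (V : List Bool × List Bool → Bool) (pL : Polynomial ℕ)
    (F : List Unit × List Bool → PP × PP) (k : ℕ)
    (P1 P3 P4 P5 P6 PN : Polynomial ℕ) (k0 : ℕ) (x : List Bool) : Bool :=
  (List.range ((List.replicate (P4.eval (x ++ List.replicate k0 false).length) ()).length)).any
    fun c => (searchG (pL.eval x.length) (fun v => passL
      (fun y => F (List.replicate (PN.eval (x ++ List.replicate k0 false).length) (), y))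
      (monos k (List.range (List.replicate (P6.eval (x ++ List.replicate k0 false).length)
        ()).length))
      (List.replicate (P5.eval (x ++ List.replicate k0 false).length) ())
      (findPr (List.replicate (P1.eval (x ++ List.replicate k0 false).length) ())) x c v)
      (P3.eval (x ++ List.replicate k0 false).length)).any fun v =>
        decide (v.length = pL.eval x.length) && V (x, v)

theorem ptime_algH {V : List Bool × List Bool → Bool} (hV : PTime V) {pL : Polynomial ℕ}
    {F : List Unit × List Bool → PP × PP} (hF : PTime F) (k : ℕ)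
    (P1 P3 P4 P5 P6 PN : Polynomial ℕ) (k0 : ℕ) :
    PTime (algH V pL F k P1 P3 P4 P5 P6 PN k0) := by
  have hs : PTime (fun x : List Bool => x ++ List.replicate k0 false) :=
    PTime.id.append (PTime.const _)
  have h1 : PTime (fun x : List Bool =>
      List.replicate (P1.eval (x ++ List.replicate k0 false).length) ()) := PTime.unaryPoly hs P1
  have hpr : PTime (fun x : List Bool =>
      findPr (List.replicate (P1.eval (x ++ List.replicate k0 false).length) ())) :=
    ptime_findPr h1
  have hU : PTime (fun x : List Bool =>
      List.replicate (P1.eval (x ++ List.replicate k0 false).length) () ++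
      List.replicate (P1.eval (x ++ List.replicate k0 false).length) () ++ [()]) :=
    (h1.append h1).append (PTime.const [()])
  have h3 : PTime (fun x : List Bool => P3.eval (x ++ List.replicate k0 false).length) :=
    ptime_evalLength hs P3
  have h4 : PTime (fun x : List Bool =>
      List.replicate (P4.eval (x ++ List.replicate k0 false).length) ()) := PTime.unaryPoly hs P4
  have h5 : PTime (fun x : List Bool =>
      List.replicate (P5.eval (x ++ List.replicate k0 false).length) ()) := PTime.unaryPoly hs P5
  have h6 : PTime (fun x : List Bool =>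
      List.replicate (P6.eval (x ++ List.replicate k0 false).length) ()) := PTime.unaryPoly hs P6
  have hN : PTime (fun x : List Bool =>
      List.replicate (PN.eval (x ++ List.replicate k0 false).length) ()) := PTime.unaryPoly hs PN
  have hidx : PTime (fun x : List Bool => monos k (List.range
      (List.replicate (P6.eval (x ++ List.replicate k0 false).length) ()).length)) :=
    ptime_monos k (PTime.rangeLength h6)
  have hpass := ptime_passH hF hN hidx hpr hU (fun x => findPr_le _) h5
  obtain ⟨B, hB⟩ : ∃ B : (List Bool × ℕ) × List Bool → Bool, B = fun z => passL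
      (fun y => F (List.replicate (PN.eval (z.1.1 ++ List.replicate k0 false).length) (), y))
      (monos k (List.range (List.replicate (P6.eval (z.1.1 ++ List.replicate k0 false).length)
        ()).length))
      (List.replicate (P5.eval (z.1.1 ++ List.replicate k0 false).length) ())
      (findPr (List.replicate (P1.eval (z.1.1 ++ List.replicate k0 false).length) ()))
      z.1.1 z.1.2 z.2 := ⟨_, rfl⟩
  have hB' : PTime B := by rw [hB]; exact hpass
  have hsearch := ptime_searchG pL hB' h3
    (KB := fun n => P3.eval (n + k0)) (PBd.comp ⟨P3, fun _ => le_rfl⟩ (PBd.id.add (PBd.const k0)))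
    (fun x => eval_mono P3 (by
      rw [List.length_append, List.length_replicate]
      have := length_le_size x
      omega))
  obtain ⟨A, hA⟩ : ∃ A : List Bool × ℕ → List (List Bool), A = fun z =>
      searchG (pL.eval z.1.length) (fun v => B (z, v))
        (P3.eval (z.1 ++ List.replicate k0 false).length) := ⟨_, rfl⟩
  have hA' : PTime A := by rw [hA]; exact hsearch
  have h7 : PTime (fun z : List Bool × ℕ => (A z).any fun v =>
      decide (v.length = pL.eval z.1.length) && V (z.1, v)) := by
    refine PTime.any (g := fun (z : List Bool × ℕ) (v : List Bool) =>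
      decide (v.length = pL.eval z.1.length) && V (z.1, v)) hA' ?_
    exact (PTime.eq PTime.snd.length (ptime_evalLength (PTime.fst' PTime.fst) pL)).and
      (hV.comp ((PTime.fst' PTime.fst).pair PTime.snd))
  have h8 : PTime (fun x : List Bool => (List.range ((List.replicate
      (P4.eval (x ++ List.replicate k0 false).length) ()).length)).any fun c =>
      (A (x, c)).any fun v => decide (v.length = pL.eval x.length) && V (x, v)) :=
    PTime.any (g := fun (x : List Bool) (c : ℕ) => (A (x, c)).any fun v =>
      decide (v.length = pL.eval x.length) && V (x, v)) (PTime.rangeLength h4) h7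
  rw [hA, hB] at h8
  exact h8

end Pool.Agent.SparseNP
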