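import Pool.Agent.Lib.PolyTime.Arith
import Pool.Agent.Lib.PolyTime.Codes
import Pool.Agent.Lib.PolyTime.More

/-!
# Polynomial-time integer arithmetic
-/

namespace Pool.Agent.PolyTime

section
variable {α : Type} [Enc α]

theorem ptime_intParts {f : α → ℤ} (hf : PTime f) :
    PTime (fun x => (decide (f x < 0), (f x).natAbs)) :=
  hf.of_enc_eq (fun x => x) (fun _ => rfl) fun _ => rfl

theorem ptime_isNeg {f : α → ℤ} (hf : PTime f) : PTime (fun x => decide (f x < 0)) :=
  (ptime_intParts hf).fst'

theorem ptime_natAbs {f : α → ℤ} (hf : PTime f) : PTime (fun x => (f x).natAbs) :=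
  (ptime_intParts hf).snd'

/-- the integer with given sign and absolute value -/
def mkInt (b : Bool) (n : ℕ) : ℤ := if b = true then -(n : ℤ) else n

theorem ptime_mkInt {b : α → Bool} {n : α → ℕ} (hb : PTime b) (hn : PTime n) :
    PTime (fun x => mkInt (b x) (n x)) := by
  have h : PTime (fun x => (b x && !(decide (n x = 0)), n x)) :=
    (hb.and (PTime.eq hn (PTime.const 0)).not).pair hn
  refine h.of_enc_eq (fun x => x) (fun _ => rfl) fun x => ?_
  have h1 : enc (mkInt (b x) (n x)) = enc (decide (mkInt (b x) (n x) < 0),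
    (mkInt (b x) (n x)).natAbs) := rfl
  rw [h1]
  congr 2
  · unfold mkInt
    cases b x
    · simp
    · rw [Bool.eq_iff_iff]
      simp only [↓reduceIte, decide_eq_true_eq, Bool.true_and, Bool.not_eq_true',
        decide_eq_false_iff_not]
      omega
  · unfold mkInt
    split <;> simp

/-- difference of natural numbers as an integer -/
theorem ptime_natSub {a b : α → ℕ} (ha : PTime a) (hb : PTime b) :
    PTime (fun x => ((a x : ℤ) - (b x : ℤ))) := by
  refine (ptime_mkInt (PTime.lt ha hb) ((ha.sub hb).add (hb.sub ha))).of_eq fun x => ?_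
  unfold mkInt
  by_cases h : a x < b x
  · rw [if_pos (by simpa using h)]
    push_cast
    omega
  · rw [if_neg (by simpa using h)]
    push_cast
    omega

theorem ptime_toNat {f : α → ℤ} (hf : PTime f) : PTime (fun x => (f x).toNat) := by
  refine (PTime.ite (ptime_isNeg hf) (PTime.const 0) (ptime_natAbs hf)).of_eq fun x => ?_
  by_cases h : f x < 0
  · rw [if_pos (by simpa using h)]
    omega
  · rw [if_neg (by simpa using h)]
    omega

theorem ptime_neg {f : α → ℤ} (hf : PTime f) : PTime (fun x => - f x) := by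
  refine (ptime_mkInt (ptime_isNeg hf).not (ptime_natAbs hf)).of_eq fun x => ?_
  unfold mkInt
  by_cases h : f x < 0
  · rw [if_neg (by simpa using h)]
    omega
  · rw [if_pos (by simpa using h)]
    omega

theorem ptime_intAdd {f g : α → ℤ} (hf : PTime f) (hg : PTime g) :
    PTime (fun x => f x + g x) := by
  refine (ptime_natSub ((ptime_toNat hf).add (ptime_toNat hg))
    ((ptime_toNat (ptime_neg hf)).add (ptime_toNat (ptime_neg hg)))).of_eq fun x => ?_
  push_cast
  omega

theorem ptime_intSub {f g : α → ℤ} (hf : PTime f) (hg : PTime g) :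
    PTime (fun x => f x - g x) :=
  (ptime_intAdd hf (ptime_neg hg)).of_eq fun x => (sub_eq_add_neg _ _).symm

theorem ptime_intMul {f g : α → ℤ} (hf : PTime f) (hg : PTime g) :
    PTime (fun x => f x * g x) := by
  refine (ptime_mkInt (PTime.xor (ptime_isNeg hf) (ptime_isNeg hg))
    ((ptime_natAbs hf).mul (ptime_natAbs hg))).of_eq fun x => ?_
  unfold mkInt
  have hf' : f x = if f x < 0 then -((f x).natAbs : ℤ) else (f x).natAbs := by
    split <;> omega
  have hg' : g x = if g x < 0 then -((g x).natAbs : ℤ) else (g x).natAbs := by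
    split <;> omega
  conv_rhs => rw [hf', hg']
  by_cases h1 : f x < 0 <;> by_cases h2 : g x < 0 <;> simp [h1, h2]

theorem ptime_intLe {f g : α → ℤ} (hf : PTime f) (hg : PTime g) :
    PTime (fun x => decide (f x ≤ g x)) := by
  refine (ptime_isNeg (ptime_intSub hg hf)).not.of_eq fun x => ?_
  rw [Bool.eq_iff_iff]
  simp

theorem ptime_natCast {f : α → ℕ} (hf : PTime f) : PTime (fun x => (f x : ℤ)) :=
  (ptime_mkInt (PTime.const false) hf).of_eq fun x => by simp [mkInt]

/-- division of integers, used for exact divisions -/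
def idiv (z w : ℤ) : ℤ := mkInt (decide (z < 0)) (z.natAbs / w.natAbs)

theorem idiv_eq {z w q : ℤ} (hw : 0 < w) (h : z = w * q) : idiv z w = q := by
  unfold idiv mkInt
  have h1 : z.natAbs = w.natAbs * q.natAbs := by rw [h, Int.natAbs_mul]
  have h2 : 0 < w.natAbs := by omega
  rw [h1, Nat.mul_div_cancel_left _ h2]
  by_cases hq : q < 0
  · have : z < 0 := by rw [h]; exact mul_neg_of_pos_of_neg hw hq
    rw [if_pos (by simpa using this)]
    omega
  · have : ¬ z < 0 := by
      rw [h, not_lt]
      exact mul_nonneg hw.le (by omega)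
    rw [if_neg (by simpa using this)]
    omega

theorem ptime_idiv {f g : α → ℤ} (hf : PTime f) (hg : PTime g) :
    PTime (fun x => idiv (f x) (g x)) :=
  ptime_mkInt (ptime_isNeg hf) ((ptime_natAbs hf).div (ptime_natAbs hg))

end

theorem size_int (z : ℤ) : size (enc z) = size (enc (decide (z < 0))) + size (enc z.natAbs) + 1 :=
  size_pair (decide (z < 0)) z.natAbs

theorem size_bool (b : Bool) : size (enc b) ≤ 3 := by
  cases b
  · rw [enc_false, size_nil]; omega
  · rw [enc_true, size_cons, size_nil]

theorem size_int_le_of_lt {z : ℤ} {k : ℕ} (h : z.natAbs < 2 ^ k) : size (enc z) ≤ 4 * k + 5 := by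
  rw [size_int]
  have h1 := size_bool (decide (z < 0))
  have h2 := size_nat_le_of_lt h
  omega

theorem natAbs_lt_size (z : ℤ) : z.natAbs < 2 ^ size (enc z) := by
  refine (lt_two_pow_size z.natAbs).trans_le (Nat.pow_le_pow_right (by norm_num) ?_)
  rw [size_int]
  omega

theorem sum_natAbs_lt (l : List ℤ) : (l.sum).natAbs < 2 ^ size (enc l) := by
  induction l with
  | nil => simp
  | cons a l ih =>
    rw [List.sum_cons, size_lcons]
    have h1 := natAbs_lt_size a
    have h2 : (a + l.sum).natAbs ≤ a.natAbs + (l.sum).natAbs := Int.natAbs_add_le _ _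
    have h3 : 2 ^ (size (enc a) + size (enc l) + 1) =
        2 * (2 ^ size (enc a) * 2 ^ size (enc l)) := by rw [pow_succ, pow_add]; ring
    have h4 : 1 ≤ 2 ^ size (enc a) := Nat.one_le_two_pow
    have h5 : 1 ≤ 2 ^ size (enc l) := Nat.one_le_two_pow
    rw [h3]
    nlinarith

theorem ptime_intSum {α : Type} [Enc α] {f : α → List ℤ} (hf : PTime f) :
    PTime (fun x => (f x).sum) := by
  obtain ⟨F, hF, hFm, hFs⟩ := hf.size_le
  have h : PTime (fun x => (f x).foldl (fun s z => s + z) 0) := by
    refine PTime.foldl (h := fun (_ : α) (s z : ℤ) => s + z) hf (PTime.const 0)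
      (ptime_intAdd (PTime.fst' PTime.snd) (PTime.snd' PTime.snd))
      (B := fun n => 4 * F n + 5) (((PBd.const 4).mul hF).add (PBd.const 5)) ?_
    intro x l₁ l₂ h
    have h1 : l₁.foldl (fun s z => s + z) (0 : ℤ) = l₁.sum := (List.sum_eq_foldl (xs := l₁)).symm
    rw [h1]
    have h2 := size_int_le_of_lt (sum_natAbs_lt l₁)
    have h3 : size (enc l₁) ≤ size (enc (f x)) := by
      rw [h]
      exact size_sublist (List.sublist_append_left l₁ l₂)
    have h4 := hFs x
    omega
  exact h.of_eq fun x => (List.sum_eq_foldl (xs := f x)).symm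

/-- powers of two with unary exponent -/
theorem ptime_pow2 {α β : Type} [Enc α] [Enc β] {f : α → ℕ} {g : α → List β} (hf : PTime f)
    (hg : PTime g) (h : ∀ x, f x ≤ (g x).length) : PTime (fun x => 2 ^ f x) := by
  have hr : PTime (fun x => (List.range (f x)).map fun _ => false) :=
    PTime.map (g := fun (_ : α) (_ : ℕ) => false) (PTime.rangeLe hf hg h) (PTime.const false)
  refine (hr.append (PTime.const [true])).natOfBits.of_eq fun x => ?_
  rw [ofBits_append]
  have h1 : ∀ l : List ℕ, ofBits (l.map fun _ => false) = 0 := by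
    intro l
    induction l with
    | nil => rfl
    | cons b l ih => rw [List.map_cons, ofBits_cons, ih]; rfl
  rw [h1, List.length_map, List.length_range, ofBits_cons, ofBits_nil]
  simp

end Pool.Agent.PolyTime
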