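import Pool.Agent.Lib.MP_69a69c_lc.LPMath
import Pool.Agent.Lib.MP_69a69c_lc.IntTime

/-!
# A procedure for systems of strict linear inequalities
-/

namespace Pool.Agent.SparseNP

open Matrix Pool.Agent.PolyTime

/-- the vector with the entries of the list `a` -/
def vec (d : ℕ) (a : List ℤ) : Fin d → ℤ := fun i => a.getD i 0

/-- the matrix with the entries of the list `N` -/
def mat (d : ℕ) (N : List (List ℤ)) : Matrix (Fin d) (Fin d) ℤ :=
  Matrix.of fun i j => (N.getD i []).getD j 0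

/-- inner product -/
def dotL (d : ℕ) (a b : List ℤ) : ℤ :=
  ((List.range d).map fun j => a.getD j 0 * b.getD j 0).sum

theorem sum_range_map (d : ℕ) (f : ℕ → ℤ) :
    ((List.range d).map f).sum = ∑ i : Fin d, f i := by
  rw [← List.sum_toFinset f (List.nodup_range), List.toFinset_range, Finset.sum_range]

theorem dotL_eq (d : ℕ) (a b : List ℤ) : dotL d a b = vec d a ⬝ᵥ vec d b :=
  sum_range_map d fun j => a.getD j 0 * b.getD j 0

theorem getD_tab {β : Type} (d : ℕ) (f : ℕ → β) (z : β) {i : ℕ} (hi : i < d) :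
    ((List.range d).map f).getD i z = f i := by
  rw [List.getD_eq_getElem?_getD, List.getElem?_map, List.getElem?_range hi]
  rfl

/-- matrix times vector -/
def mulL (d : ℕ) (N : List (List ℤ)) (a : List ℤ) : List ℤ :=
  (List.range d).map fun i => dotL d (N.getD i []) a

theorem vec_mulL (d : ℕ) (N : List (List ℤ)) (a : List ℤ) :
    vec d (mulL d N a) = mat d N *ᵥ vec d a := by
  ext i
  unfold vec mulL
  rw [getD_tab d _ _ i.2, dotL_eq]
  rfl

/-- the update of the adjugate and the determinant -/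
def upd (d : ℕ) (s : List (List ℤ) × ℤ) (a : List ℤ) : List (List ℤ) × ℤ :=
  ((List.range d).map fun i => (List.range d).map fun j =>
    idiv ((s.2 + dotL d a (mulL d s.1 a)) * (s.1.getD i []).getD j 0 -
      (mulL d s.1 a).getD i 0 * (mulL d s.1 a).getD j 0) s.2,
    s.2 + dotL d a (mulL d s.1 a))

/-- the identity matrix -/
def idL (d : ℕ) : List (List ℤ) :=
  (List.range d).map fun i => (List.range d).map fun j => if i = j then 1 else 0

/-- adjugate and determinant of `1 + ∑ a aᵀ` -/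
def invL (d : ℕ) (l : List (List ℤ)) : List (List ℤ) × ℤ := l.foldl (upd d) (idL d, 1)

/-- the matrix `1 + ∑ a aᵀ` -/
def HM (d : ℕ) (l : List (List ℤ)) : Matrix (Fin d) (Fin d) ℤ :=
  1 + (l.map fun a => vecMulVec (vec d a) (vec d a)).sum

theorem HM_append (d : ℕ) (l : List (List ℤ)) (a : List ℤ) :
    HM d (l ++ [a]) = HM d l + vecMulVec (vec d a) (vec d a) := by
  unfold HM
  rw [List.map_append, List.sum_append, List.map_singleton, List.sum_singleton, add_assoc]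

theorem HM_symm (d : ℕ) (l : List (List ℤ)) : (HM d l)ᵀ = HM d l := by
  induction l using List.reverseRecOn with
  | nil => simp [HM]
  | append_singleton l a ih =>
    rw [HM_append, transpose_add, ih]
    congr 1
    ext i j
    simp [vecMulVec_apply, mul_comm]

/-- the bilinear form of `HM` -/
theorem HM_form (d : ℕ) (l : List (List ℤ)) (x y : Fin d → ℤ) :
    x ⬝ᵥ (HM d l *ᵥ y) = x ⬝ᵥ y + (l.map fun a => (vec d a ⬝ᵥ x) * (vec d a ⬝ᵥ y)).sum := by
  induction l using List.reverseRecOn with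
  | nil => simp [HM]
  | append_singleton l a ih =>
    rw [HM_append, add_mulVec, dotProduct_add, ih, List.map_append, List.sum_append,
      List.map_singleton, List.sum_singleton, ← add_assoc]
    congr 1
    rw [vecMulVec_mulVec]
    have : x ⬝ᵥ (MulOpposite.op (vec d a ⬝ᵥ y) • vec d a) = (x ⬝ᵥ vec d a) * (vec d a ⬝ᵥ y) := by
      simp only [dotProduct, Pi.smul_apply, MulOpposite.smul_eq_mul_unop, MulOpposite.unop_op]
      rw [Finset.sum_mul]
      refine Finset.sum_congr rfl fun i _ => by ring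
    rw [this, dotProduct_comm x]

theorem list_sum_nonneg {l : List ℤ} (h : ∀ x ∈ l, 0 ≤ x) : 0 ≤ l.sum := List.sum_nonneg h

theorem form_self (d : ℕ) (l : List (List ℤ)) (x : Fin d → ℤ) :
    x ⬝ᵥ (HM d l *ᵥ x) = x ⬝ᵥ x + (l.map fun a => (vec d a ⬝ᵥ x) ^ 2).sum := by
  rw [HM_form]
  congr 2
  exact List.map_congr_left fun a _ => (sq _).symm

theorem dotz_self_nonneg {d : ℕ} (x : Fin d → ℤ) : 0 ≤ x ⬝ᵥ x :=
  Finset.sum_nonneg fun i _ => mul_self_nonneg (x i)

theorem form_ge (d : ℕ) (l : List (List ℤ)) (x : Fin d → ℤ) : x ⬝ᵥ x ≤ x ⬝ᵥ (HM d l *ᵥ x) := by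
  rw [form_self]
  have : 0 ≤ (l.map fun a => (vec d a ⬝ᵥ x) ^ 2).sum := by
    apply list_sum_nonneg
    intro z hz
    obtain ⟨a, _, rfl⟩ := List.mem_map.1 hz
    exact sq_nonneg _
  omega

theorem form_nonneg (d : ℕ) (l : List (List ℤ)) (x : Fin d → ℤ) : 0 ≤ x ⬝ᵥ (HM d l *ᵥ x) :=
  (dotz_self_nonneg x).trans (form_ge d l x)

theorem form_ge_mem {d : ℕ} {l : List (List ℤ)} {a : List ℤ} (ha : a ∈ l) (x : Fin d → ℤ) :
    (vec d a ⬝ᵥ x) ^ 2 ≤ x ⬝ᵥ (HM d l *ᵥ x) := by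
  rw [form_self]
  have h1 : (vec d a ⬝ᵥ x) ^ 2 ≤ (l.map fun a => (vec d a ⬝ᵥ x) ^ 2).sum := by
    apply List.single_le_sum
    · intro z hz
      obtain ⟨a, _, rfl⟩ := List.mem_map.1 hz
      exact sq_nonneg _
    · exact List.mem_map.2 ⟨a, ha, rfl⟩
  have := dotz_self_nonneg x
  omega

/-- the Cauchy-Schwarz inequality for the form -/
theorem form_cs (d : ℕ) (l : List (List ℤ)) (x y : Fin d → ℤ) :
    (x ⬝ᵥ (HM d l *ᵥ y)) ^ 2 ≤ (x ⬝ᵥ (HM d l *ᵥ x)) * (y ⬝ᵥ (HM d l *ᵥ y)) := by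
  have hsym : y ⬝ᵥ (HM d l *ᵥ x) = x ⬝ᵥ (HM d l *ᵥ y) := by
    rw [HM_form, HM_form, dotProduct_comm y x]
    congr 2
    exact List.map_congr_left fun a _ => mul_comm _ _
  set B := x ⬝ᵥ (HM d l *ᵥ y) with hB
  set P := x ⬝ᵥ (HM d l *ᵥ x) with hP
  set Q := y ⬝ᵥ (HM d l *ᵥ y) with hQ
  have hQ0 : 0 ≤ Q := form_nonneg d l y
  rcases hQ0.eq_or_lt with h0 | h0
  · have h1 : y ⬝ᵥ y = 0 := le_antisymm ((form_ge d l y).trans h0.symm.le) (dotz_self_nonneg y)
    have h2 : y = 0 := dotProduct_self_eq_zero.1 h1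
    have h3 : B = 0 := by rw [hB, h2, mulVec_zero, dotProduct_zero]
    rw [h3, ← h0]
    simp
  · have h1 := form_nonneg d l (Q • x - B • y)
    have h2 : (Q • x - B • y) ⬝ᵥ (HM d l *ᵥ (Q • x - B • y)) = Q * (Q * P - B ^ 2) := by
      rw [mulVec_sub, mulVec_smul, mulVec_smul, sub_dotProduct, dotProduct_sub, dotProduct_sub,
        smul_dotProduct, smul_dotProduct, smul_dotProduct, smul_dotProduct, dotProduct_smul,
        dotProduct_smul, dotProduct_smul, dotProduct_smul, hsym, ← hP, ← hQ, ← hB]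
      simp only [smul_eq_mul]
      ring
    rw [h2] at h1
    have h3 := nonneg_of_mul_nonneg_right h1 h0
    nlinarith

/-- specification of a pair (adjugate, determinant) -/
structure Inv (d : ℕ) (l : List (List ℤ)) (s : List (List ℤ) × ℤ) : Prop where
  adj : mat d s.1 = (HM d l).adjugate
  det : s.2 = (HM d l).det
  pos : 0 < s.2

theorem Inv.mul {d : ℕ} {l : List (List ℤ)} {s : List (List ℤ) × ℤ} (h : Inv d l s)
    (x : Fin d → ℤ) : HM d l *ᵥ (mat d s.1 *ᵥ x) = s.2 • x := by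
  rw [h.adj, h.det, mulVec_mulVec, mul_adjugate, smul_mulVec, one_mulVec]

theorem Inv.symm {d : ℕ} {l : List (List ℤ)} {s : List (List ℤ) × ℤ} (h : Inv d l s)
    (x y : Fin d → ℤ) : x ⬝ᵥ (mat d s.1 *ᵥ y) = y ⬝ᵥ (mat d s.1 *ᵥ x) := by
  have h1 : (mat d s.1)ᵀ = mat d s.1 := by rw [h.adj, adjugate_transpose, HM_symm]
  rw [dotProduct_mulVec, ← mulVec_transpose, h1, dotProduct_comm]

/-- `δ ⟨x, N x⟩` is the value of the form at `N x` -/
theorem Inv.quad {d : ℕ} {l : List (List ℤ)} {s : List (List ℤ) × ℤ} (h : Inv d l s)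
    (x : Fin d → ℤ) : s.2 * (x ⬝ᵥ (mat d s.1 *ᵥ x)) =
      (mat d s.1 *ᵥ x) ⬝ᵥ (HM d l *ᵥ (mat d s.1 *ᵥ x)) := by
  rw [h.mul, dotProduct_smul, smul_eq_mul, dotProduct_comm]

theorem Inv.quad_nonneg {d : ℕ} {l : List (List ℤ)} {s : List (List ℤ) × ℤ} (h : Inv d l s)
    (x : Fin d → ℤ) : 0 ≤ x ⬝ᵥ (mat d s.1 *ᵥ x) := by
  have h1 := h.quad x
  have h2 := form_nonneg d l (mat d s.1 *ᵥ x)
  rw [← h1] at h2
  exact nonneg_of_mul_nonneg_right h2 h.pos

theorem Inv.quad_le {d : ℕ} {l : List (List ℤ)} {s : List (List ℤ) × ℤ} (h : Inv d l s)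
    {a : List ℤ} (ha : a ∈ l) : vec d a ⬝ᵥ (mat d s.1 *ᵥ vec d a) ≤ s.2 := by
  have h1 := h.quad (vec d a)
  have h2 := form_ge_mem ha (mat d s.1 *ᵥ vec d a)
  rw [← h1] at h2
  have h3 := h.quad_nonneg (vec d a)
  have h4 := h.pos
  by_contra h5
  push Not at h5
  nlinarith

/-- the inequality behind the main loop -/
theorem Inv.cs {d : ℕ} {l : List (List ℤ)} {s : List (List ℤ) × ℤ} (h : Inv d l s)
    (v y : Fin d → ℤ) :
    s.2 * (v ⬝ᵥ y) ^ 2 ≤ (v ⬝ᵥ (mat d s.1 *ᵥ v)) * (y ⬝ᵥ (HM d l *ᵥ y)) := by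
  have h1 := form_cs d l y (mat d s.1 *ᵥ v)
  rw [h.mul v, dotProduct_smul, smul_eq_mul, dotProduct_smul, smul_eq_mul,
    dotProduct_comm (mat d s.1 *ᵥ v) v, dotProduct_comm y v] at h1
  have h4 := h.pos
  have h5 : s.2 * (s.2 * (v ⬝ᵥ y) ^ 2) ≤
      s.2 * ((v ⬝ᵥ (mat d s.1 *ᵥ v)) * (y ⬝ᵥ (HM d l *ᵥ y))) := by nlinarith
  exact le_of_mul_le_mul_left h5 h4

theorem mat_idL (d : ℕ) : mat d (idL d) = 1 := by
  ext i j
  unfold mat idL
  rw [Matrix.of_apply, getD_tab d _ _ i.2, getD_tab d _ _ j.2, Matrix.one_apply]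
  simp only [Fin.ext_iff]

theorem upd_inv {d : ℕ} {l : List (List ℤ)} {s : List (List ℤ) × ℤ} (h : Inv d l s)
    (a : List ℤ) : Inv d (l ++ [a]) (upd d s a) := by
  have hdet : (HM d l).det ≠ 0 := by rw [← h.det]; exact h.pos.ne'
  have hq := h.quad_nonneg (vec d a)
  have e1 : s.2 + dotL d a (mulL d s.1 a) =
      (HM d l).det + vec d a ⬝ᵥ ((HM d l).adjugate *ᵥ vec d a) := by
    rw [dotL_eq, vec_mulL, h.adj, h.det]
  have hpos : 0 < s.2 + dotL d a (mulL d s.1 a) := by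
    rw [dotL_eq, vec_mulL]
    have := h.pos
    omega
  have e2 := adj_rank_one (HM d l) (HM_symm d l) hdet (vec d a) (by rw [← e1]; exact hpos.ne')
  refine ⟨?_, ?_, hpos⟩
  · ext i j
    unfold mat upd
    rw [Matrix.of_apply]
    simp only
    rw [getD_tab d _ _ i.2, getD_tab d _ _ j.2]
    apply idiv_eq h.pos
    have e3 := congrFun (congrFun e2 i) j
    rw [Matrix.smul_apply, Matrix.sub_apply, Matrix.smul_apply, vecMulVec_apply, smul_eq_mul,
      smul_eq_mul, ← h.adj, ← h.det] at e3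
    rw [HM_append, e3, dotL_eq, vec_mulL]
    have e4 : ∀ i : Fin d, (mulL d s.1 a).getD i 0 = (mat d s.1 *ᵥ vec d a) i := by
      intro i
      rw [← vec_mulL]
      rfl
    rw [e4, e4]
    rfl
  · rw [HM_append, det_rank_one _ hdet]
    exact e1

theorem invL_inv (d : ℕ) (l : List (List ℤ)) : Inv d l (invL d l) := by
  induction l using List.reverseRecOn with
  | nil =>
    refine ⟨?_, ?_, by simp [invL]⟩
    · simp [invL, mat_idL, HM]
    · simp [invL, HM]
  | append_singleton l a ih =>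
    have : invL d (l ++ [a]) = upd d (invL d l) a := by
      unfold invL
      rw [List.foldl_append]
      rfl
    rw [this]
    exact upd_inv ih a

end Pool.Agent.SparseNP
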