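import Pool.Agent.Lib.MP_69a69c_lc.LP

/-!
# The main loop of the procedure for systems of strict linear inequalities
-/

namespace Pool.Agent.SparseNP

open Matrix Pool.Agent.PolyTime

/-- the combination `∑ n_i a_i` -/
def comb (d : ℕ) (A : List (List ℤ)) (n : List ℕ) : List ℤ :=
  (List.range d).map fun j =>
    ((List.range A.length).map fun i => (n.getD i 0 : ℤ) * (A.getD i []).getD j 0).sum

/-- the candidate -/
def cand (d : ℕ) (A : List (List ℤ)) (n : List ℕ) : List ℤ := mulL d (invL d A).1 (comb d A n)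

/-- index of a violated inequality -/
def viol (d : ℕ) (A : List (List ℤ)) (n : List ℕ) : Option ℕ :=
  (List.range A.length).find? fun i => decide (dotL d (A.getD i []) (cand d A n) ≤ 0)

/-- increase the count of `i` -/
def incr (M : ℕ) (n : List ℕ) (i : ℕ) : List ℕ :=
  (List.range M).map fun k => if k = i then n.getD k 0 + 1 else n.getD k 0

/-- double the row `i` -/
def dbl (A : List (List ℤ)) (i : ℕ) : List (List ℤ) :=
  (List.range A.length).map fun k => if k = i then (A.getD k []).map fun z => 2 * z else A.getD k []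

/-- a step of the loop -/
def lpStep (d T : ℕ) (s : List (List ℤ) × List ℕ) : List (List ℤ) × List ℕ :=
  match viol d s.1 s.2 with
  | none => s
  | some i => if s.2.getD i 0 + 1 < T then (s.1, incr s.1.length s.2 i) else (dbl s.1 i, [])

/-- the state after `K` steps -/
def lpRun (d T : ℕ) (A : List (List ℤ)) (K : ℕ) : List (List ℤ) × List ℕ :=
  (lpStep d T)^[K] (A, [])

/-- the procedure -/
def lp (d T : ℕ) (A : List (List ℤ)) (K : ℕ) : Bool :=
  (viol d (lpRun d T A K).1 (lpRun d T A K).2).isNone

theorem sum_range_map' (d : ℕ) (f : ℕ → ℤ) :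
    ((List.range d).map f).sum = ∑ i ∈ Finset.range d, f i := by
  rw [sum_range_map, Finset.sum_range]

theorem vec_comb (d : ℕ) (A : List (List ℤ)) (n : List ℕ) :
    vec d (comb d A n) = ∑ i ∈ Finset.range A.length, (n.getD i 0 : ℤ) • vec d (A.getD i []) := by
  ext j
  unfold comb
  rw [show vec d ((List.range d).map fun j => ((List.range A.length).map fun i =>
    (n.getD i 0 : ℤ) * (A.getD i []).getD j 0).sum) j = ((List.range d).map fun j =>
    ((List.range A.length).map fun i => (n.getD i 0 : ℤ) * (A.getD i []).getD j 0).sum).getD j 0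
    from rfl, getD_tab d _ _ j.2, sum_range_map', Finset.sum_apply]
  rfl

theorem viol_none {d : ℕ} {A : List (List ℤ)} {n : List ℕ} (h : viol d A n = none) :
    ∀ i < A.length, 0 < vec d (A.getD i []) ⬝ᵥ vec d (cand d A n) := by
  intro i hi
  unfold viol at h
  rw [List.find?_eq_none] at h
  have := h i (List.mem_range.2 hi)
  rw [dotL_eq] at this
  simpa using this

theorem viol_some {d : ℕ} {A : List (List ℤ)} {n : List ℕ} {i : ℕ} (h : viol d A n = some i) :
    i < A.length ∧ vec d (A.getD i []) ⬝ᵥ vec d (cand d A n) ≤ 0 := by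
  unfold viol at h
  refine ⟨List.mem_range.1 (List.mem_of_find?_eq_some h), ?_⟩
  have := List.find?_some h
  rw [dotL_eq] at this
  simpa using this

theorem incr_getD {M : ℕ} {n : List ℕ} {i k : ℕ} (hk : k < M) :
    (incr M n i).getD k 0 = if k = i then n.getD k 0 + 1 else n.getD k 0 :=
  getD_tab M _ _ hk

theorem incr_length (M : ℕ) (n : List ℕ) (i : ℕ) : (incr M n i).length = M := by
  simp [incr]

theorem dbl_length (A : List (List ℤ)) (i : ℕ) : (dbl A i).length = A.length := by
  simp [dbl]

theorem dbl_getD {A : List (List ℤ)} {i k : ℕ} (hk : k < A.length) :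
    (dbl A i).getD k [] = if k = i then (A.getD k []).map fun z => 2 * z else A.getD k [] :=
  getD_tab A.length _ _ hk

theorem getD_map_two (a : List ℤ) (i : ℕ) : (a.map fun z => 2 * z).getD i 0 = 2 * a.getD i 0 := by
  rw [List.getD_eq_getElem?_getD, List.getD_eq_getElem?_getD, List.getElem?_map]
  cases a[i]? <;> simp

theorem vec_dbl {d : ℕ} {A : List (List ℤ)} {i k : ℕ} (hk : k < A.length) :
    vec d ((dbl A i).getD k []) = if k = i then (2 : ℤ) • vec d (A.getD k []) else
      vec d (A.getD k []) := by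
  rw [dbl_getD hk]
  split
  · ext j
    exact getD_map_two _ _
  · rfl

/-- sum of the counts -/
def tot (M : ℕ) (n : List ℕ) : ℕ := ∑ i ∈ Finset.range M, n.getD i 0

theorem tot_incr {M : ℕ} {n : List ℕ} {i : ℕ} (hi : i < M) : tot M (incr M n i) = tot M n + 1 := by
  unfold tot
  have h1 : ∀ k ∈ Finset.range M, (incr M n i).getD k 0 = n.getD k 0 + if k = i then 1 else 0 := by
    intro k hk
    rw [incr_getD (Finset.mem_range.1 hk)]
    split <;> rfl
  rw [Finset.sum_congr rfl h1, Finset.sum_add_distrib, Finset.sum_ite_eq' (Finset.range M) i,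
    if_pos (Finset.mem_range.2 hi)]

theorem comb_incr {d : ℕ} {A : List (List ℤ)} {n : List ℕ} {i : ℕ} (hi : i < A.length) :
    vec d (comb d A (incr A.length n i)) = vec d (comb d A n) + vec d (A.getD i []) := by
  rw [vec_comb, vec_comb]
  have h1 : ∀ k ∈ Finset.range A.length,
      ((incr A.length n i).getD k 0 : ℤ) • vec d (A.getD k []) =
      (n.getD k 0 : ℤ) • vec d (A.getD k []) + if k = i then vec d (A.getD k []) else 0 := by
    intro k hk
    rw [incr_getD (Finset.mem_range.1 hk)]
    split
    · push_cast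
      rw [add_smul, one_smul]
    · rw [add_zero]
  rw [Finset.sum_congr rfl h1, Finset.sum_add_distrib, Finset.sum_ite_eq' (Finset.range A.length) i,
    if_pos (Finset.mem_range.2 hi)]

/-- the quadratic form at the combination -/
def qf (d : ℕ) (A : List (List ℤ)) (n : List ℕ) : ℤ :=
  vec d (comb d A n) ⬝ᵥ (mat d (invL d A).1 *ᵥ vec d (comb d A n))

theorem getD_mem' {A : List (List ℤ)} {i : ℕ} (hi : i < A.length) : A.getD i [] ∈ A := by
  rw [List.getD_eq_getElem _ _ hi]
  exact List.getElem_mem hi

theorem qf_incr {d : ℕ} {A : List (List ℤ)} {n : List ℕ} {i : ℕ} (h : viol d A n = some i) :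
    qf d A (incr A.length n i) ≤ qf d A n + (invL d A).2 := by
  obtain ⟨hi, h1⟩ := viol_some h
  have hinv := invL_inv d A
  have h2 := hinv.quad_le (getD_mem' hi)
  have h3 := hinv.symm (vec d (comb d A n)) (vec d (A.getD i []))
  unfold cand at h1
  rw [vec_mulL] at h1
  unfold qf
  rw [comb_incr hi, mulVec_add, add_dotProduct, dotProduct_add, dotProduct_add, h3]
  linarith

/-- the invariant of the loop in the feasible case -/
structure GoodS (d T : ℕ) (U : ℤ) (A0 : List (List ℤ)) (y : Fin d → ℤ)
    (s : List (List ℤ) × List ℕ) (e : ℕ → ℕ) : Prop where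
  len : s.1.length = A0.length
  row : ∀ i < A0.length, vec d (s.1.getD i []) = (2 ^ e i : ℤ) • vec d (A0.getD i [])
  le : ∀ i < A0.length, 2 ^ e i * (vec d (A0.getD i []) ⬝ᵥ y) ≤ U
  cnt : ∀ i, s.2.getD i 0 < T
  quad : qf d s.1 s.2 ≤ (invL d s.1).2 * tot s.1.length s.2

/-- the potential -/
def pot (M T : ℕ) (s : List (List ℤ) × List ℕ) (e : ℕ → ℕ) : ℕ :=
  M * T * ∑ i ∈ Finset.range M, e i + tot M s.2

theorem tot_le {M T : ℕ} {n : List ℕ} (h : ∀ i, n.getD i 0 < T) (hM : 0 < M) :
    tot M n + 1 ≤ M * T := by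
  have h1 : tot M n ≤ ∑ i ∈ Finset.range M, (T - 1) := by
    apply Finset.sum_le_sum
    intro i _
    have := h i
    omega
  rw [Finset.sum_const, Finset.card_range, smul_eq_mul] at h1
  have h2 : 0 < T := (Nat.zero_le _).trans_lt (h 0)
  obtain ⟨t, rfl⟩ : ∃ t, T = t + 1 := ⟨T - 1, by omega⟩
  rw [Nat.add_sub_cancel] at h1
  rw [mul_add, mul_one]
  omega

theorem list_sum_le_card {l : List ℤ} {c : ℤ} (h : ∀ x ∈ l, x ≤ c) : l.sum ≤ l.length * c := by
  have := List.sum_le_card_nsmul l c h
  simpa using this

theorem step_goodS {d T β : ℕ} {A0 : List (List ℤ)} {y : Fin d → ℤ} {s : List (List ℤ) × List ℕ}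
    {e : ℕ → ℕ} (hT : T = 4 * A0.length * (A0.length + 1))
    (hy : y ⬝ᵥ y ≤ (2 ^ β) ^ 2) (hx : ∀ i < A0.length, 1 ≤ vec d (A0.getD i []) ⬝ᵥ y)
    (h : GoodS d T (2 ^ β) A0 y s e) {i : ℕ} (hv : viol d s.1 s.2 = some i) :
    ∃ e', GoodS d T (2 ^ β) A0 y (lpStep d T s) e' ∧
      pot A0.length T s e + 1 ≤ pot A0.length T (lpStep d T s) e' := by
  obtain ⟨hi, _⟩ := viol_some hv
  have hi0 : i < A0.length := by rw [← h.len]; exact hi
  have hM : 0 < A0.length := (Nat.zero_le _).trans_lt hi0
  have hq1 := qf_incr hv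
  have hδ := (invL_inv d s.1).pos
  have hq2 : qf d s.1 (incr s.1.length s.2 i) ≤ (invL d s.1).2 * ((tot s.1.length s.2 : ℤ) + 1) := by
    have := h.quad
    linarith
  unfold lpStep
  rw [hv]
  simp only
  split
  · rename_i hlt
    refine ⟨e, ⟨h.len, h.row, h.le, ?_, ?_⟩, ?_⟩
    · intro k
      by_cases hk : k < s.1.length
      · change (incr s.1.length s.2 i).getD k 0 < T
        rw [incr_getD hk]
        have := h.cnt k
        split
        · rename_i hki
          rw [hki]
          exact hlt
        · exact this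
      · change (incr s.1.length s.2 i).getD k 0 < T
        rw [List.getD_eq_default _ _ (by rw [incr_length]; omega)]
        exact (Nat.zero_le _).trans_lt (h.cnt 0)
    · change qf d s.1 (incr s.1.length s.2 i) ≤ (invL d s.1).2 *
        ((tot s.1.length (incr s.1.length s.2 i) : ℕ) : ℤ)
      rw [tot_incr hi]
      push_cast
      exact hq2
    · unfold pot
      simp only
      rw [← h.len, tot_incr hi]
      omega
  · rename_i hge
    have hni : s.2.getD i 0 + 1 = T := by
      have := h.cnt i
      omega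
    -- the vector after the increment
    have hcs := (invL_inv d s.1).cs (vec d (comb d s.1 (incr s.1.length s.2 i))) y
    have hB : y ⬝ᵥ (HM d s.1 *ᵥ y) ≤ (A0.length + 1) * (2 ^ β) ^ 2 := by
      rw [form_self]
      have h1 : ((s.1.map fun a => (vec d a ⬝ᵥ y) ^ 2).sum) ≤
          ((s.1.map fun a => (vec d a ⬝ᵥ y) ^ 2).length : ℤ) * (2 ^ β) ^ 2 := by
        apply list_sum_le_card
        intro z hz
        obtain ⟨a, ha, rfl⟩ := List.mem_map.1 hz
        obtain ⟨k, hk, rfl⟩ := List.getElem_of_mem ha
        have hk0 : k < A0.length := by rw [← h.len]; exact hk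
        have h2 := h.row k hk0
        rw [List.getD_eq_getElem _ _ hk] at h2
        rw [h2, smul_dotProduct, smul_eq_mul]
        have h3 := h.le k hk0
        have h4 := hx k hk0
        have h5 : (0 : ℤ) < 2 ^ e k := by positivity
        have h6 : 0 ≤ 2 ^ e k * (vec d (A0.getD k []) ⬝ᵥ y) := by positivity
        exact pow_le_pow_left₀ h6 h3 2
      rw [List.length_map, h.len] at h1
      nlinarith
    have htot := tot_le h.cnt hM
    have htot' : ((tot s.1.length s.2 : ℤ) + 1) ≤ A0.length * T := by
      rw [h.len]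
      exact_mod_cast htot
    -- lower bound for the scalar product
    have hX1 : (1 : ℤ) ≤ 2 ^ e i * (vec d (A0.getD i []) ⬝ᵥ y) := by
      have h4 := hx i hi0
      have h5 : (1 : ℤ) ≤ 2 ^ e i := one_le_pow₀ (by norm_num)
      nlinarith
    have hlow : (T : ℤ) * (2 ^ e i * (vec d (A0.getD i []) ⬝ᵥ y)) ≤
        vec d (comb d s.1 (incr s.1.length s.2 i)) ⬝ᵥ y := by
      rw [vec_comb, sum_dotProduct]
      have h1 : (T : ℤ) * (2 ^ e i * (vec d (A0.getD i []) ⬝ᵥ y)) =
          (((incr s.1.length s.2 i).getD i 0 : ℕ) : ℤ) • vec d (s.1.getD i []) ⬝ᵥ y := by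
        rw [incr_getD hi, if_pos rfl, hni, smul_dotProduct, h.row i hi0, smul_dotProduct,
          smul_eq_mul, smul_eq_mul]
      rw [h1]
      apply Finset.single_le_sum
        (f := fun k => (((incr s.1.length s.2 i).getD k 0 : ℕ) : ℤ) • vec d (s.1.getD k []) ⬝ᵥ y)
      · intro k hk
        have hk1 : k < s.1.length := Finset.mem_range.1 hk
        have hk0 : k < A0.length := by rw [← h.len]; exact hk1
        simp only [smul_dotProduct, smul_eq_mul]
        rw [h.row k hk0, smul_dotProduct, smul_eq_mul]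
        have h4 := hx k hk0
        positivity
      · exact Finset.mem_range.2 hi
    have hkey : 2 * (2 ^ e i * (vec d (A0.getD i []) ⬝ᵥ y)) ≤ 2 ^ β := by
      set X := 2 ^ e i * (vec d (A0.getD i []) ⬝ᵥ y) with hX
      set V := vec d (comb d s.1 (incr s.1.length s.2 i)) ⬝ᵥ y with hV
      set δ := (invL d s.1).2 with hδ'
      set t : ℤ := (tot s.1.length s.2 : ℤ) + 1 with ht
      set B := y ⬝ᵥ (HM d s.1 *ᵥ y) with hB'
      set q := qf d s.1 (incr s.1.length s.2 i) with hq
      have c1 : δ * V ^ 2 ≤ q * B := hcs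
      have hB0 : 0 ≤ B := form_nonneg d s.1 y
      have c2 : q * B ≤ δ * t * B := mul_le_mul_of_nonneg_right hq2 hB0
      have c3 : V ^ 2 ≤ t * B := by
        have : δ * V ^ 2 ≤ δ * (t * B) := by linarith
        exact le_of_mul_le_mul_left this hδ
      have ht0 : 0 ≤ t := by positivity
      have c4 : t * B ≤ (A0.length * T) * ((A0.length + 1) * (2 ^ β) ^ 2) := by
        apply mul_le_mul htot' hB hB0
        positivity
      have hT0 : (0 : ℤ) < T := by
        have : 0 < T := (Nat.zero_le _).trans_lt (h.cnt 0)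
        exact_mod_cast this
      have c5 : (T * X) ^ 2 ≤ V ^ 2 := by
        apply pow_le_pow_left₀ _ hlow
        positivity
      have c6 : (T : ℤ) * (T * X ^ 2) ≤ T * (A0.length * ((A0.length + 1) * (2 ^ β) ^ 2)) := by
        have e1 : (T : ℤ) * (T * X ^ 2) = (T * X) ^ 2 := by ring
        have e2 : (T : ℤ) * (A0.length * ((A0.length + 1) * (2 ^ β) ^ 2)) =
          (A0.length * T) * ((A0.length + 1) * (2 ^ β) ^ 2) := by ring
        rw [e1, e2]
        exact c5.trans (c3.trans c4)
      have c7 := le_of_mul_le_mul_left c6 hT0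
      have hM' : (0 : ℤ) < A0.length * (A0.length + 1) := by
        have : (0 : ℤ) < A0.length := by exact_mod_cast hM
        positivity
      have c8 : (A0.length * (A0.length + 1) : ℤ) * (2 * X) ^ 2 ≤
          (A0.length * (A0.length + 1) : ℤ) * (2 ^ β) ^ 2 := by
        have e1 : (T : ℤ) = 4 * A0.length * (A0.length + 1) := by
          rw [hT]
          push_cast
          ring
        rw [e1] at c7
        nlinarith
      have c9 := le_of_mul_le_mul_left c8 hM'
      exact le_of_sq_le_sq c9 (by positivity)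
    refine ⟨fun k => if k = i then e k + 1 else e k, ⟨?_, ?_, ?_, ?_, ?_⟩, ?_⟩
    · change (dbl s.1 i).length = _
      rw [dbl_length, h.len]
    · intro k hk
      change vec d ((dbl s.1 i).getD k []) = _
      rw [vec_dbl (by rw [h.len]; exact hk), h.row k hk]
      split
      · rw [smul_smul, pow_succ, mul_comm]
      · rfl
    · intro k hk
      split
      · rename_i hki
        rw [hki, pow_succ]
        linarith
      · exact h.le k hk
    · intro k
      change ([] : List ℕ).getD k 0 < T
      rw [List.getD_nil]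
      exact (Nat.zero_le _).trans_lt (h.cnt 0)
    · change qf d (dbl s.1 i) [] ≤ _ * ((tot _ [] : ℕ) : ℤ)
      have e1 : vec d (comb d (dbl s.1 i) []) = 0 := by
        rw [vec_comb]
        apply Finset.sum_eq_zero
        intro k _
        rw [List.getD_nil]
        simp
      have e2 : tot (dbl s.1 i).length [] = 0 := by
        unfold tot
        apply Finset.sum_eq_zero
        intro k _
        exact List.getD_nil ..
      unfold qf
      rw [e1, zero_dotProduct]
      change 0 ≤ _ * ((tot (dbl s.1 i).length [] : ℕ) : ℤ)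
      rw [e2]
      simp
    · unfold pot
      simp only
      have e2 : tot A0.length [] = 0 := by
        unfold tot
        apply Finset.sum_eq_zero
        intro k _
        exact List.getD_nil ..
      have e3 : ∑ k ∈ Finset.range A0.length, (if k = i then e k + 1 else e k) =
          ∑ k ∈ Finset.range A0.length, e k + 1 := by
        have h1 : ∀ k ∈ Finset.range A0.length, (if k = i then e k + 1 else e k) =
            e k + if k = i then 1 else 0 := by
          intro k _
          split <;> rfl
        rw [Finset.sum_congr rfl h1, Finset.sum_add_distrib,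
          Finset.sum_ite_eq' (Finset.range A0.length) i, if_pos (Finset.mem_range.2 hi0)]
      rw [e2, e3, mul_add, mul_one]
      omega

theorem lpStep_none {d T : ℕ} {s : List (List ℤ) × List ℕ} (h : viol d s.1 s.2 = none) :
    lpStep d T s = s := by
  unfold lpStep
  rw [h]

theorem lpRun_succ (d T : ℕ) (A : List (List ℤ)) (K : ℕ) :
    lpRun d T A (K + 1) = lpStep d T (lpRun d T A K) := by
  unfold lpRun
  rw [Function.iterate_succ_apply']

theorem run_good {d T β : ℕ} {A : List (List ℤ)} {y : Fin d → ℤ}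
    (hT : T = 4 * A.length * (A.length + 1)) (hT0 : 0 < T)
    (hy : y ⬝ᵥ y ≤ (2 ^ β) ^ 2) (hx : ∀ i < A.length, 1 ≤ vec d (A.getD i []) ⬝ᵥ y)
    (hx' : ∀ i < A.length, vec d (A.getD i []) ⬝ᵥ y ≤ 2 ^ β) (K : ℕ) :
    ∃ e, GoodS d T (2 ^ β) A y (lpRun d T A K) e ∧
      (viol d (lpRun d T A K).1 (lpRun d T A K).2 = none ∨
        K ≤ pot A.length T (lpRun d T A K) e) := by
  induction K with
  | zero =>
    refine ⟨fun _ => 0, ⟨rfl, ?_, ?_, ?_, ?_⟩, Or.inr (Nat.zero_le _)⟩
    · intro i _
      change vec d (A.getD i []) = _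
      simp
    · intro i hi
      simpa using hx' i hi
    · intro i
      change ([] : List ℕ).getD i 0 < T
      rw [List.getD_nil]
      exact hT0
    · change qf d A [] ≤ (invL d A).2 * ((tot A.length [] : ℕ) : ℤ)
      have e1 : vec d (comb d A []) = 0 := by
        rw [vec_comb]
        apply Finset.sum_eq_zero
        intro k _
        rw [List.getD_nil]
        simp
      have e2 : tot A.length [] = 0 := by
        unfold tot
        apply Finset.sum_eq_zero
        intro k _
        exact List.getD_nil ..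
      unfold qf
      rw [e1, zero_dotProduct, e2]
      simp
  | succ K ih =>
    obtain ⟨e, hg, ho⟩ := ih
    rw [lpRun_succ]
    cases hv : viol d (lpRun d T A K).1 (lpRun d T A K).2 with
    | none =>
      rw [lpStep_none hv]
      exact ⟨e, hg, Or.inl hv⟩
    | some i =>
      obtain ⟨e', h1, h2⟩ := step_goodS hT hy hx hg hv
      refine ⟨e', h1, Or.inr ?_⟩
      rcases ho with ho | ho
      · rw [ho] at hv
        cases hv
      · omega

/-- completeness of the procedure -/
theorem lp_complete {d T β K : ℕ} {A : List (List ℤ)} (y : Fin d → ℤ)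
    (hT : T = 4 * A.length * (A.length + 1))
    (hy : y ⬝ᵥ y ≤ (2 ^ β) ^ 2) (hx : ∀ i < A.length, 1 ≤ vec d (A.getD i []) ⬝ᵥ y)
    (hx' : ∀ i < A.length, vec d (A.getD i []) ⬝ᵥ y ≤ 2 ^ β)
    (hK : A.length * T * (A.length * β + 1) ≤ K) : lp d T A K = true := by
  rcases Nat.eq_zero_or_pos A.length with h0 | h0
  · have hA : A = [] := List.length_eq_zero_iff.1 h0
    have h1 : ∀ K, lpRun d T [] K = ([], []) := by
      intro K
      induction K with
      | zero => rfl
      | succ K ih => rw [lpRun_succ, ih]; rfl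
    unfold lp
    rw [hA, h1]
    rfl
  · have hT0 : 0 < T := by rw [hT]; positivity
    obtain ⟨e, hg, ho⟩ := run_good hT hT0 hy hx hx' K
    unfold lp
    rcases ho with ho | ho
    · rw [ho]
      rfl
    · exfalso
      have h1 : ∀ i ∈ Finset.range A.length, e i ≤ β := by
        intro i hi
        have h2 := hg.le i (Finset.mem_range.1 hi)
        have h3 := hx i (Finset.mem_range.1 hi)
        have h4 : (2 : ℤ) ^ e i ≤ 2 ^ β := by
          have : (0 : ℤ) < 2 ^ e i := by positivity
          nlinarith
        have h5 : 2 ^ e i ≤ 2 ^ β := by exact_mod_cast h4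
        exact (Nat.pow_le_pow_iff_right (le_refl 2)).1 h5
      have h2 : ∑ i ∈ Finset.range A.length, e i ≤ A.length * β := by
        have := Finset.sum_le_card_nsmul _ _ _ h1
        simpa using this
      have h3 := tot_le hg.cnt h0
      unfold pot at ho
      have h4 : A.length * T * ∑ i ∈ Finset.range A.length, e i ≤
          A.length * T * (A.length * β) := Nat.mul_le_mul_left _ h2
      rw [mul_add, mul_one] at hK
      omega

theorem run_rows {d T : ℕ} (A : List (List ℤ)) (K : ℕ) : (lpRun d T A K).1.length = A.length ∧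
    ∀ i < A.length, ∃ e : ℕ, vec d ((lpRun d T A K).1.getD i []) =
      (2 ^ e : ℤ) • vec d (A.getD i []) := by
  induction K with
  | zero => exact ⟨rfl, fun i _ => ⟨0, by rw [pow_zero, one_smul]; rfl⟩⟩
  | succ K ih =>
    obtain ⟨h1, h2⟩ := ih
    rw [lpRun_succ]
    generalize lpRun d T A K = s at h1 h2
    unfold lpStep
    cases hv : viol d s.1 s.2 with
    | none => exact ⟨h1, h2⟩
    | some i =>
      simp only
      split
      · exact ⟨h1, h2⟩
      · refine ⟨by rw [dbl_length, h1], fun k hk => ?_⟩
        obtain ⟨e, he⟩ := h2 k hk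
        simp only
        rw [vec_dbl (by rw [h1]; exact hk), he]
        split
        · exact ⟨e + 1, by rw [smul_smul, pow_succ, mul_comm]⟩
        · exact ⟨e, rfl⟩

/-- soundness of the procedure -/
theorem lp_sound {d T K : ℕ} {A : List (List ℤ)} (h : lp d T A K = true) :
    ∃ y : Fin d → ℤ, ∀ i < A.length, 0 < vec d (A.getD i []) ⬝ᵥ y := by
  unfold lp at h
  rw [Option.isNone_iff_eq_none] at h
  refine ⟨vec d (cand d (lpRun d T A K).1 (lpRun d T A K).2), fun i hi => ?_⟩
  obtain ⟨h1, h2⟩ := run_rows (d := d) (T := T) A K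
  have h3 := viol_none h i (by rw [h1]; exact hi)
  obtain ⟨e, he⟩ := h2 i hi
  rw [he, smul_dotProduct, smul_eq_mul] at h3
  have h4 : (0 : ℤ) < 2 ^ e := by positivity
  exact (mul_pos_iff_of_pos_left h4).1 h3

end Pool.Agent.SparseNP
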