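import Mathlib

/-!
# Rank one updates of integer matrices
-/

namespace Pool.Agent.SparseNP

open Matrix

variable {d : ℕ}

/-- determinant of a rank one update -/
theorem det_rank_one (H : Matrix (Fin d) (Fin d) ℤ) (hd : H.det ≠ 0) (a : Fin d → ℤ) :
    (H + vecMulVec a a).det = H.det + a ⬝ᵥ (H.adjugate *ᵥ a) := by
  have h0 : ((H.map (Int.cast : ℤ → ℚ)).det) = (H.det : ℚ) := by
    have := (Int.castRingHom ℚ).map_det H
    rw [RingHom.mapMatrix_apply] at this
    simpa using this.symm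
  have h1 : ((H + vecMulVec a a).map (Int.cast : ℤ → ℚ)).det =
      ((H + vecMulVec a a).det : ℚ) := by
    have := (Int.castRingHom ℚ).map_det (H + vecMulVec a a)
    rw [RingHom.mapMatrix_apply] at this
    simpa using this.symm
  have h2 : (H + vecMulVec a a).map (Int.cast : ℤ → ℚ) = H.map (Int.cast : ℤ → ℚ) +
      replicateCol Unit (fun i => (a i : ℚ)) * replicateRow Unit (fun i => (a i : ℚ)) := by
    ext i j
    simp [vecMulVec_apply, Matrix.mul_apply]
  have hu : IsUnit (H.map (Int.cast : ℤ → ℚ)).det := by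
    rw [h0, isUnit_iff_ne_zero]
    exact_mod_cast hd
  have h3 := det_add_replicateCol_mul_replicateRow (ι := Unit) hu (fun i => (a i : ℚ))
    (fun i => (a i : ℚ))
  rw [← h2, h1, h0] at h3
  have h4 : (1 + replicateRow Unit (fun i => (a i : ℚ)) * (H.map (Int.cast : ℤ → ℚ))⁻¹ *
      replicateCol Unit (fun i => (a i : ℚ))).det =
      1 + (H.det : ℚ)⁻¹ * ((a ⬝ᵥ (H.adjugate *ᵥ a) : ℤ) : ℚ) := by
    have hadj : (H.map (Int.cast : ℤ → ℚ)).adjugate = H.adjugate.map (Int.cast : ℤ → ℚ) := by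
      have := (Int.castRingHom ℚ).map_adjugate H
      simpa [RingHom.mapMatrix_apply] using this.symm
    rw [Matrix.inv_def, h0, Ring.inverse_eq_inv', hadj]
    simp only [det_unique, Matrix.add_apply, Matrix.one_apply_eq, Matrix.mul_apply,
      replicateRow_apply, replicateCol_apply, Matrix.smul_apply, Matrix.map_apply, smul_eq_mul,
      dotProduct, mulVec, Int.cast_sum, Int.cast_mul]
    congr 1
    rw [Finset.mul_sum]
    simp_rw [Finset.sum_mul, Finset.mul_sum]
    rw [Finset.sum_comm]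
    refine Finset.sum_congr rfl fun i _ => Finset.sum_congr rfl fun j _ => ?_
    ring
  rw [h4] at h3
  have h5 : (H.det : ℚ) ≠ 0 := by exact_mod_cast hd
  have h6 : (((H + vecMulVec a a).det : ℤ) : ℚ) =
      ((H.det + a ⬝ᵥ (H.adjugate *ᵥ a) : ℤ) : ℚ) := by
    rw [h3, Int.cast_add, mul_add, mul_one, ← mul_assoc, mul_inv_cancel₀ h5, one_mul]
  exact_mod_cast h6

/-- adjugate of a rank one update of a symmetric matrix -/
theorem adj_rank_one (H : Matrix (Fin d) (Fin d) ℤ) (hs : Hᵀ = H) (hd : H.det ≠ 0) (a : Fin d → ℤ)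
    (hd' : H.det + a ⬝ᵥ (H.adjugate *ᵥ a) ≠ 0) :
    H.det • (H + vecMulVec a a).adjugate = (H.det + a ⬝ᵥ (H.adjugate *ᵥ a)) • H.adjugate -
      vecMulVec (H.adjugate *ᵥ a) (H.adjugate *ᵥ a) := by
  set u := H.adjugate *ᵥ a with hu
  have hN : H.adjugateᵀ = H.adjugate := by rw [adjugate_transpose, hs]
  have hau : a ᵥ* H.adjugate = u := by
    rw [hu, ← hN, mulVec_transpose, hN]
  have hHu : H *ᵥ u = H.det • a := by
    rw [hu, mulVec_mulVec, mul_adjugate, smul_mulVec, one_mulVec]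
  have hK : (H + vecMulVec a a) *ᵥ u = (H.det + a ⬝ᵥ u) • a := by
    rw [add_mulVec, hHu, vecMulVec_mulVec, add_smul]
    congr 1
    ext i
    simp [mul_comm]
  have hX : (H + vecMulVec a a) * ((H.det + a ⬝ᵥ u) • H.adjugate - vecMulVec u u) =
      ((H.det + a ⬝ᵥ u) * H.det) • (1 : Matrix (Fin d) (Fin d) ℤ) := by
    rw [Matrix.mul_sub, Matrix.mul_smul, Matrix.add_mul, mul_adjugate, vecMulVec_mul, hau,
      mul_vecMulVec, hK, smul_add, smul_smul]
    have : vecMulVec ((H.det + a ⬝ᵥ u) • a) u = (H.det + a ⬝ᵥ u) • vecMulVec a u := by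
      ext i j
      simp [vecMulVec_apply, mul_assoc]
    rw [this, add_sub_cancel_right]
  have h1 := congrArg (fun X => (H + vecMulVec a a).adjugate * X) hX
  rw [← Matrix.mul_assoc, adjugate_mul, det_rank_one H hd a, ← hu, Matrix.smul_mul, Matrix.one_mul,
    Matrix.mul_smul, Matrix.mul_one, ← smul_smul] at h1
  have h2 : (H.det + a ⬝ᵥ u) • (((H.det + a ⬝ᵥ u) • H.adjugate - vecMulVec u u) -
      H.det • (H + vecMulVec a a).adjugate) = 0 := by
    rw [smul_sub, h1, sub_self]
  rcases smul_eq_zero.1 h2 with h | h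
  · exact absurd h hd'
  · exact (sub_eq_zero.1 h).symm

end Pool.Agent.SparseNP
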