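import Pool.Agent.Lib.MP_69a69c_lc.Main
import Pool.Agent.Lib.MP_69a69c_lc.Count
import Pool.Agent.Lib.MP_69a69c_lc.Defs2

/-!
# The auxiliary NP language
-/

namespace Pool.Agent.SparseNP

open Pool.Agent.PolyTime

/-! ### decoding of trees -/

/-- the spine of a tree -/
def toL : D → List D
  | D.nil => []
  | D.cons a b => a :: toL b

/-- is the tree not trivial? -/
def isC : D → Bool
  | D.nil => false
  | D.cons _ _ => true

/-- first part -/
def carD : D → D
  | D.nil => D.nil
  | D.cons a _ => a

/-- second part -/
def cdrD : D → D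
  | D.nil => D.nil
  | D.cons _ b => b

/-- decoding of strings -/
def toStr (d : D) : List Bool := (toL d).map isC

/-- decoding of numbers -/
def toNum (d : D) : ℕ := ofBits (toStr d)

theorem enc_toL (d : D) : enc (toL d) = d := by
  induction d with
  | nil => rfl
  | cons a b _ ih =>
    change D.cons (enc a) (enc (toL b)) = _
    rw [ih]
    rfl

theorem toL_enc {α : Type} [Enc α] (l : List α) : toL (enc l) = l.map fun a => enc a := by
  induction l with
  | nil => rfl
  | cons a l ih =>
    change enc a :: toL (enc l) = _
    rw [ih]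
    rfl

theorem toStr_enc (l : List Bool) : toStr (enc l) = l := by
  unfold toStr
  rw [toL_enc, List.map_map]
  conv_rhs => rw [← List.map_id l]
  refine List.map_congr_left fun b _ => ?_
  cases b <;> rfl

theorem toNum_enc (n : ℕ) : toNum (enc n) = n := by
  unfold toNum
  have : toStr (enc n) = n.bits := toStr_enc n.bits
  rw [this, ofBits_bits]

section
variable {α : Type} [Enc α]

theorem ptime_toL {f : α → D} (hf : PTime f) : PTime (fun x => toL (f x)) :=
  hf.of_enc_eq (fun x => x) (fun _ => rfl) fun x => enc_toL (f x)

theorem ptime_isC {f : α → D} (hf : PTime f) : PTime (fun x => isC (f x)) :=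
  (PTime.D_cases (h := fun _ : α × (D × D) => true) hf (PTime.const false)
    (PTime.const true)).of_eq fun x => by cases f x <;> rfl

theorem ptime_carD {f : α → D} (hf : PTime f) : PTime (fun x => carD (f x)) :=
  (PTime.D_cases (h := fun p : α × (D × D) => p.2.1) hf (PTime.const D.nil)
    (PTime.fst' PTime.snd)).of_eq fun x => by cases f x <;> rfl

theorem ptime_cdrD {f : α → D} (hf : PTime f) : PTime (fun x => cdrD (f x)) :=
  (PTime.D_cases (h := fun p : α × (D × D) => p.2.2) hf (PTime.const D.nil)
    (PTime.snd' PTime.snd)).of_eq fun x => by cases f x <;> rfl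

theorem ptime_toStr {f : α → D} (hf : PTime f) : PTime (fun x => toStr (f x)) :=
  PTime.map (g := fun (_ : α) (d : D) => isC d) (ptime_toL hf) (ptime_isC PTime.snd)

theorem ptime_toNum {f : α → D} (hf : PTime f) : PTime (fun x => toNum (f x)) :=
  (ptime_toStr hf).natOfBits

end

/-- the parameters of a query: input, census, level, prime, position -/
abbrev Tup := List Bool × (ℕ × (ℕ × (ℕ × (ℕ × ℕ × ℕ))))

/-- the string for a tuple -/
def wd (t : Tup) : List Bool := bits (enc t)

/-- decoding of tuples -/
def dec (y : List Bool) : Tup :=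
  let d := parse y
  (toStr (carD d), (toNum (carD (cdrD d)), (toNum (carD (cdrD (cdrD d))),
    (toNum (carD (cdrD (cdrD (cdrD d)))), (toNum (carD (cdrD (cdrD (cdrD (cdrD d))))),
      toNum (carD (cdrD (cdrD (cdrD (cdrD (cdrD d)))))),
      toNum (cdrD (cdrD (cdrD (cdrD (cdrD (cdrD d)))))))))))

theorem dec_wd (t : Tup) : dec (wd t) = t := by
  obtain ⟨x, c, l, p, a, b, g⟩ := t
  unfold dec wd
  simp only [parse_bits']
  simp only [enc_pair, carD, cdrD, toStr_enc, toNum_enc]

theorem ptime_dec : PTime dec := by
  unfold dec
  have h0 : PTime (fun y : List Bool => parse y) := PTime.parse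
  have h1 := ptime_cdrD h0
  have h2 := ptime_cdrD h1
  have h3 := ptime_cdrD h2
  have h4 := ptime_cdrD h3
  have h5 := ptime_cdrD h4
  have h6 := ptime_cdrD h5
  exact (ptime_toStr (ptime_carD h0)).pair ((ptime_toNum (ptime_carD h1)).pair
    ((ptime_toNum (ptime_carD h2)).pair ((ptime_toNum (ptime_carD h3)).pair
      ((ptime_toNum (ptime_carD h4)).pair ((ptime_toNum (ptime_carD h5)).pair
        (ptime_toNum h6))))))

/-- decoding of certificates -/
def decL (u : List Bool) : List (List Bool × List Bool) :=
  (toL (parse u)).map fun d => (toStr (carD d), toStr (cdrD d))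

theorem decL_bits (l : List (List Bool × List Bool)) (w : List Bool) :
    decL (bits (enc l) ++ w) = l := by
  unfold decL
  rw [parse_bits_append, toL_enc, List.map_map]
  conv_rhs => rw [← List.map_id l]
  refine List.map_congr_left fun q _ => ?_
  obtain ⟨a, b⟩ := q
  simp only [Function.comp_apply, enc_pair, carD, cdrD, toStr_enc, id]

theorem ptime_decL : PTime decL := by
  unfold decL
  exact PTime.map (g := fun (_ : List Bool) (d : D) => (toStr (carD d), toStr (cdrD d)))
    (ptime_toL PTime.parse) ((ptime_toStr (ptime_carD PTime.snd)).pair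
      (ptime_toStr (ptime_cdrD PTime.snd)))

/-! ### evaluation of threshold reductions on explicit sets -/

/-- lists of monomials -/
abbrev LL := List (List (List Bool))

/-- number of monomials contained in a list -/
def sub (Sh : List (List Bool)) (P : LL) : ℕ :=
  (P.filter fun A => A.all fun s => decide (s ∈ Sh)).length

/-- comparison -/
def cmpL (Sh : List (List Bool)) (PQ : LL × LL) : Bool := decide (sub Sh PQ.2 < sub Sh PQ.1)

/-- greedy search of the maximal certificate -/
def greedy (pL : Polynomial ℕ) (g : List Bool → LL × LL) (x : List Bool)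
    (Sh : List (List Bool)) : List Bool :=
  (List.replicate (pL.eval x.length) ()).foldl
    (fun v _ => cmpL Sh (g (word pL x (true :: v))) :: v) []

section
variable {α : Type} [Enc α]

theorem ptime_sub {f : α → List (List Bool)} {g : α → LL} (hf : PTime f) (hg : PTime g) :
    PTime (fun x => sub (f x) (g x)) := by
  unfold sub
  refine (PTime.filter (g := fun (x : α) (A : List (List Bool)) =>
    A.all fun s => decide (s ∈ f x)) hg ?_).length
  refine PTime.all (g := fun (z : α × List (List Bool)) (s : List Bool) =>
    decide (s ∈ f z.1)) PTime.snd ?_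
  exact PTime.mem PTime.snd (hf.comp (PTime.fst' PTime.fst))

theorem ptime_cmpL {f : α → List (List Bool)} {g : α → LL × LL} (hf : PTime f) (hg : PTime g) :
    PTime (fun x => cmpL (f x) (g x)) :=
  PTime.lt (ptime_sub hf hg.snd') (ptime_sub hf hg.fst')

end

theorem ptime_word (p : Polynomial ℕ) : PTime (fun z : List Bool × List Bool => word p z.1 z.2) := by
  have hz : PTime (fun x : List Bool => zeros p x) :=
    PTime.map (g := fun (_ : List Bool) (_ : Unit) => false) (PTime.unaryPoly PTime.id p)
      (PTime.const false)
  unfold word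
  have hz' := hz.comp (PTime.fst (α := List Bool) (β := List Bool))
  exact ptime_pairWord PTime.fst ((PTime.take hz' (hz'.length.sub PTime.snd.length)).append
    PTime.snd)

theorem greedy_length (pL : Polynomial ℕ) (g : List Bool → LL × LL) (x : List Bool)
    (Sh : List (List Bool)) (l : List Unit) :
    (l.foldl (fun v _ => cmpL Sh (g (word pL x (true :: v))) :: v) []).length = l.length := by
  induction l using List.reverseRecOn with
  | nil => rfl
  | append_singleton l a ih =>
    rw [List.foldl_append]
    simp only [List.foldl_cons, List.foldl_nil, List.length_cons, List.length_append, ih,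
      List.length_nil]

theorem ptime_greedy (pL : Polynomial ℕ) {g : List Bool → LL × LL} (hg : PTime g) :
    PTime (fun z : List Bool × List (List Bool) => greedy pL g z.1 z.2) := by
  unfold greedy
  refine PTime.foldl (h := fun (z : List Bool × List (List Bool)) v (_ : Unit) =>
    cmpL z.2 (g (word pL z.1 (true :: v))) :: v) (PTime.unaryPoly PTime.fst pL)
    (PTime.const []) ?_ (B := fun n => 4 * pL.eval n + 1)
    (((PBd.const 4).mul ⟨pL, fun _ => le_rfl⟩).add (PBd.const 1)) ?_
  · have e1 : PTime (fun p : (List Bool × List (List Bool)) × (List Bool × Unit) => p.2.1) :=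
      PTime.fst' PTime.snd
    have e2 : PTime (fun p : (List Bool × List (List Bool)) × (List Bool × Unit) =>
      word pL p.1.1 (true :: p.2.1)) :=
      (ptime_word pL).comp ((PTime.fst' PTime.fst).pair ((PTime.const true).cons e1))
    exact (ptime_cmpL (PTime.snd' PTime.fst) (hg.comp e2)).cons e1
  · intro z l₁ l₂ h
    have h1 := size_bits_le (l₁.foldl (fun v _ => cmpL z.2 (g (word pL z.1 (true :: v))) :: v) [])
    rw [greedy_length] at h1
    have h2 : l₁.length ≤ pL.eval z.1.length := by
      have := congrArg List.length h
      simp only [List.length_replicate, List.length_append] at this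
      omega
    have h3 : pL.eval z.1.length ≤ pL.eval (size (enc z)) := by
      refine eval_mono pL ?_
      have e1 := length_le_size z.1
      have e2 : size (enc z) = size (enc z.1) + size (enc z.2) + 1 := by rw [← size_pair]
      omega
    refine h1.trans ?_
    omega

/-! ### the language -/

section lang

variable (pL : Polynomial ℕ) (g : List Bool → LL × LL) (cl : List Bool → List Unit)
  (VS : List Bool × List Bool → Bool) (pS : Polynomial ℕ)

/-- `l` is a list of `c` distinct short elements of `S` with certificates -/
def GoodL (x : List Bool) (c : ℕ) (l : List (List Bool × List Bool)) : Prop :=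
  l.length = c ∧ (l.map fun e => e.1).Nodup ∧
    ∀ e ∈ l, e.1.length ≤ (cl x).length ∧ e.2.length = pS.eval e.1.length ∧ VS e = true

/-- the bit of the code for a list -/
def bitOf (t : Tup) (Sh : List (List Bool)) : Bool :=
  codeBit t.2.2.2.1 t.2.2.2.2
    ((greedy pL g t.1 Sh).drop (pL.eval t.1.length - t.2.2.1))

/-- the language -/
def W : Set (List Bool) :=
  {y | ∃ l, GoodL cl VS pS (dec y).1 (dec y).2.1 l ∧
    bitOf pL g (dec y) (l.map fun e => e.1) = true}

end lang

theorem ptime_evalP {α : Type} [Enc α] {p a : α → ℕ} {v : α → List Bool} (hp : PTime p)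
    (ha : PTime a) (hv : PTime v) : PTime (fun x => evalP (p x) (a x) (v x)) := by
  have key : PTime (fun z : ℕ × (ℕ × List Bool) => evalP z.1 z.2.1 z.2.2) := by
    unfold evalP
    refine PTime.foldl (h := fun (z : ℕ × (ℕ × List Bool)) s b =>
      md (b.toNat + z.2.1 * s) z.1) (PTime.snd' PTime.snd) (PTime.const 0) ?_
      (B := fun n => 4 * n + 1) (((PBd.const 4).mul PBd.id).add (PBd.const 1)) ?_
    · exact ptime_md ((PTime.boolToNat (PTime.snd' PTime.snd)).add
        ((PTime.fst' (PTime.snd' PTime.fst)).mul (PTime.fst' PTime.snd)))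
        (PTime.fst' PTime.fst)
    · intro z l₁ l₂ _
      have e2 : size (enc z) = size (enc z.1) + size (enc z.2) + 1 := by rw [← size_pair]
      rcases List.eq_nil_or_concat l₁ with rfl | ⟨l, b, rfl⟩
      · have := size_nat_le 0
        simp only [List.foldl_nil]
        omega
      · rw [List.concat_eq_append, List.foldl_append]
        simp only [List.foldl_cons, List.foldl_nil]
        refine (md_size _ _).trans ?_
        omega
  exact key.comp (hp.pair (ha.pair hv))

theorem ptime_codeBit {α : Type} [Enc α] {p : α → ℕ} {κ : α → ℕ × ℕ × ℕ} {v : α → List Bool}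
    (hp : PTime p) (hκ : PTime κ) (hv : PTime v) :
    PTime (fun x => codeBit (p x) (κ x) (v x)) := by
  unfold codeBit
  exact PTime.lt ((PTime.const 2).mul (ptime_md ((hκ.snd'.fst'.mul
    (ptime_evalP hp hκ.fst' hv)).add hκ.snd'.snd') hp)) hp

theorem ptime_drop {α β : Type} [Enc α] [Enc β] {f : α → List β} {n : α → ℕ} (hf : PTime f)
    (hn : PTime n) : PTime (fun x => (f x).drop (n x)) := by
  refine (PTime.take hf.reverse (hf.length.sub hn)).reverse.of_eq fun x => ?_
  rw [List.take_reverse]
  simp only [List.reverse_reverse]
  by_cases h : n x ≤ (f x).length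
  · congr 1
    omega
  · rw [List.drop_of_length_le (by omega : (f x).length ≤ n x), List.drop_of_length_le (by omega)]

theorem ptime_bitOf (pL : Polynomial ℕ) {g : List Bool → LL × LL} (hg : PTime g) :
    PTime (fun z : Tup × List (List Bool) => bitOf pL g z.1 z.2) := by
  unfold bitOf
  have e1 : PTime (fun z : Tup × List (List Bool) => z.1.1) := PTime.fst' PTime.fst
  have e2 : PTime (fun z : Tup × List (List Bool) => z.1.2.2) := PTime.snd' (PTime.snd' PTime.fst)
  exact ptime_codeBit e2.snd'.fst' e2.snd'.snd' (ptime_drop
    ((ptime_greedy pL hg).comp (e1.pair PTime.snd)) ((ptime_evalLength e1 pL).sub e2.fst'))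

theorem ptime_bitOf' {α : Type} [Enc α] (pL : Polynomial ℕ) {g : List Bool → LL × LL}
    (hg : PTime g) {t : α → Tup} {Sh : α → List (List Bool)} (ht : PTime t) (hSh : PTime Sh) :
    PTime (fun x => bitOf pL g (t x) (Sh x)) :=
  (ptime_bitOf pL hg).comp (ht.pair hSh)

/-- elements of sparse sets in lists -/
theorem nodup_length_le {S : Set (List Bool)} {n : ℕ} (l : List (List Bool)) (hl : l.Nodup)
    (hS : ∀ s ∈ l, s ∈ S ∧ s.length ≤ n) : l.length ≤ (S ∩ {x | x.length ≤ n}).ncard := by
  classical
  have hfin : (S ∩ {x | x.length ≤ n}).Finite :=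
    (List.finite_length_le Bool n).subset Set.inter_subset_right
  rw [← List.toFinset_card_of_nodup hl, ← Set.ncard_coe_finset]
  refine Set.ncard_le_ncard ?_ hfin
  intro s hs
  have := hS s (by simpa using hs)
  exact this

theorem W_inNP {pL : Polynomial ℕ} {g : List Bool → LL × LL} {cl : List Bool → List Unit}
    {VS : List Bool × List Bool → Bool} {pS sp : Polynomial ℕ} {S : Set (List Bool)}
    (hg : PTime g) (hcl : PTime cl) (hVS : PTime VS)
    (hS : ∀ x, x ∈ S ↔ ∃ u : List Bool, u.length = pS.eval x.length ∧ VS (x, u) = true)
    (hsp : ∀ n : ℕ, (S ∩ {x | x.length ≤ n}).ncard ≤ sp.eval n) :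
    InNP (W pL g cl VS pS) := by
  classical
  -- the verifier
  have hL : PTime (fun z : List Bool × List Bool => decL z.2) := ptime_decL.comp PTime.snd
  have hD : PTime (fun z : List Bool × List Bool => dec z.1) := ptime_dec.comp PTime.fst
  have h1 : PTime (fun z : List Bool × List Bool =>
      decide ((decL z.2).length = (dec z.1).2.1)) := PTime.eq hL.length hD.snd'.fst'
  have h2 : PTime (fun z : List Bool × List Bool => (decL z.2).all fun e =>
      decide (((decL z.2).filter fun e' => decide (e'.1 = e.1)).length = 1)) := by
    have e1 : PTime (fun w : (List Bool × List Bool) × (List Bool × List Bool) =>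
        decL w.1.2) := hL.comp PTime.fst
    have e2 : PTime (fun w : (List Bool × List Bool) × (List Bool × List Bool) =>
        (decL w.1.2).filter fun e' => decide (e'.1 = w.2.1)) :=
      PTime.filter (g := fun (w : (List Bool × List Bool) × (List Bool × List Bool))
        (e' : List Bool × List Bool) => decide (e'.1 = w.2.1)) e1
        (PTime.eq (PTime.fst' PTime.snd) (PTime.fst' (PTime.snd' PTime.fst)))
    have e3 : PTime (fun w : (List Bool × List Bool) × (List Bool × List Bool) =>
        decide (((decL w.1.2).filter fun e' => decide (e'.1 = w.2.1)).length = 1)) :=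
      PTime.eq e2.length (PTime.const 1)
    exact PTime.all (g := fun (z : List Bool × List Bool) (e : List Bool × List Bool) =>
        decide (((decL z.2).filter fun e' => decide (e'.1 = e.1)).length = 1)) hL e3
  have h3 : PTime (fun z : List Bool × List Bool => (decL z.2).all fun e =>
      decide (e.1.length ≤ (cl (dec z.1).1).length) &&
      (decide (e.2.length = pS.eval e.1.length) && VS e)) := by
    have e1 : PTime (fun w : (List Bool × List Bool) × (List Bool × List Bool) =>
        (cl (dec w.1.1).1).length) := (hcl.comp (hD.comp PTime.fst).fst').length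
    have e2 : PTime (fun w : (List Bool × List Bool) × (List Bool × List Bool) =>
        decide (w.2.1.length ≤ (cl (dec w.1.1).1).length)) :=
      PTime.le (PTime.fst' PTime.snd).length e1
    have e3 : PTime (fun w : (List Bool × List Bool) × (List Bool × List Bool) =>
        decide (w.2.2.length = pS.eval w.2.1.length)) :=
      PTime.eq (PTime.snd' PTime.snd).length (ptime_evalLength (PTime.fst' PTime.snd) pS)
    have e4 : PTime (fun w : (List Bool × List Bool) × (List Bool × List Bool) =>
        VS w.2) := hVS.comp PTime.snd
    exact PTime.all (g := fun (z : List Bool × List Bool) (e : List Bool × List Bool) =>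
        decide (e.1.length ≤ (cl (dec z.1).1).length) &&
        (decide (e.2.length = pS.eval e.1.length) && VS e)) hL (e2.and (e3.and e4))
  have h4 : PTime (fun z : List Bool × List Bool =>
      bitOf pL g (dec z.1) ((decL z.2).map fun e => e.1)) := by
    have e1 : PTime (fun z : List Bool × List Bool => (decL z.2).map fun e => e.1) :=
      PTime.map (g := fun (_ : List Bool × List Bool) (e : List Bool × List Bool) => e.1) hL
        (PTime.fst' PTime.snd)
    exact ptime_bitOf' pL hg hD e1
  obtain ⟨A1, hA1⟩ : ∃ A : List Bool × List Bool → Bool, A = fun z =>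
    decide ((decL z.2).length = (dec z.1).2.1) := ⟨_, rfl⟩
  obtain ⟨A2, hA2⟩ : ∃ A : List Bool × List Bool → Bool, A = fun z =>
    (decL z.2).all fun e => decide (((decL z.2).filter fun e' => decide (e'.1 = e.1)).length
      = 1) := ⟨_, rfl⟩
  obtain ⟨A3, hA3⟩ : ∃ A : List Bool × List Bool → Bool, A = fun z =>
    (decL z.2).all fun e => decide (e.1.length ≤ (cl (dec z.1).1).length) &&
      (decide (e.2.length = pS.eval e.1.length) && VS e) := ⟨_, rfl⟩
  obtain ⟨A4, hA4⟩ : ∃ A : List Bool × List Bool → Bool, A = fun z =>
    bitOf pL g (dec z.1) ((decL z.2).map fun e => e.1) := ⟨_, rfl⟩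
  rw [← hA1] at h1
  rw [← hA2] at h2
  rw [← hA3] at h3
  rw [← hA4] at h4
  have hVW : PTime (fun z => A1 z && (A2 z && (A3 z && A4 z))) := h1.and (h2.and (h3.and h4))
  have hVWspec : ∀ y u, (A1 (y, u) && (A2 (y, u) && (A3 (y, u) && A4 (y, u)))) = true ↔ GoodL cl VS pS (dec y).1 (dec y).2.1 (decL u) ∧
      bitOf pL g (dec y) ((decL u).map fun e => e.1) = true := by
    intro y u
    rw [hA1, hA2, hA3, hA4]
    simp only [GoodL, Bool.and_eq_true, decide_eq_true_eq, List.all_eq_true, and_assoc]
    have hnodup : (∀ e ∈ decL u, ((decL u).filter fun e' => decide (e'.1 = e.1)).length = 1) ↔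
        ((decL u).map fun e => e.1).Nodup := by
      rw [List.nodup_iff_count_eq_one]
      have hcount : ∀ s, ((decL u).map fun e => e.1).count s =
          ((decL u).filter fun e' => decide (e'.1 = s)).length := by
        intro s
        rw [List.count, List.countP_map, List.countP_eq_length_filter]
        refine congrArg List.length (List.filter_congr fun e _ => ?_)
        rw [Bool.eq_iff_iff]
        simp
      simp only [hcount]
      constructor
      · intro h s hs
        obtain ⟨e, he, rfl⟩ := List.mem_map.1 hs
        exact h e he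
      · intro h e he
        exact h e.1 (List.mem_map.2 ⟨e, he, rfl⟩)
    rw [← hnodup]
  -- length of certificates
  obtain ⟨F, hF, hFm, hFs⟩ := (hcl.comp ptime_dec.fst').size_le
  have hB : PBd fun n => sp.eval (F n) * ((4 * F n + 1) + (4 * pS.eval (F n) + 1) + 1 + 1) + 1 :=
    ((PBd.comp ⟨sp, fun _ => le_rfl⟩ hF).mul (((((((PBd.const 4).mul hF).add (PBd.const 1)).add
      (((PBd.const 4).mul (PBd.comp ⟨pS, fun _ => le_rfl⟩ hF)).add (PBd.const 1))).add
      (PBd.const 1)).add (PBd.const 1)))).add (PBd.const 1)
  obtain ⟨b, hb⟩ := hB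
  refine ⟨b.comp (4 * Polynomial.X + 1), _, hVW.isPolyTime, ?_⟩
  intro y
  have heval : (b.comp (4 * Polynomial.X + 1)).eval y.length = b.eval (4 * y.length + 1) := by
    simp [Polynomial.eval_comp]
  rw [heval]
  constructor
  · rintro ⟨l, hl, hbit⟩
    have hsize : size (enc l) ≤ b.eval (4 * y.length + 1) := by
      have h0 : (cl (dec y).1).length ≤ F (size (enc y)) := by
        have e1 := length_le_size (cl (dec y).1)
        have e2 := hFs y
        omega
      have h1 : l.length ≤ sp.eval (F (size (enc y))) := by
        have h2 := nodup_length_le (S := S) (n := (cl (dec y).1).length)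
          (l.map fun e => e.1) hl.2.1 (by
            intro s hs
            obtain ⟨e, he, rfl⟩ := List.mem_map.1 hs
            have h3 := hl.2.2 e he
            exact ⟨(hS e.1).2 ⟨e.2, h3.2.1, h3.2.2⟩, h3.1⟩)
        rw [List.length_map] at h2
        exact (h2.trans (hsp _)).trans (eval_mono sp h0)
      have h2 := size_list_le l ((4 * F (size (enc y)) + 1) +
        (4 * pS.eval (F (size (enc y))) + 1) + 1) (by
          intro e he
          have h3 := hl.2.2 e he
          have e0 : size (enc e) = size (enc e.1) + size (enc e.2) + 1 := by rw [← size_pair]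
          have e1 := size_bits_le e.1
          have e2 := size_bits_le e.2
          have e3 : pS.eval e.1.length ≤ pS.eval (F (size (enc y))) :=
            eval_mono pS (h3.1.trans h0)
          have e4 := h3.1
          have e5 := h3.2.1
          omega)
      refine h2.trans (le_trans ?_ ((hb (size (enc y))).trans (eval_mono b (size_bits_le y))))
      exact Nat.add_le_add_right (Nat.mul_le_mul_right _ h1) 1
    refine ⟨bits (enc l) ++ List.replicate (b.eval (4 * y.length + 1) - size (enc l)) false,
      ?_, ?_⟩
    · rw [List.length_append, List.length_replicate, length_bits]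
      omega
    · rw [hVWspec, decL_bits]
      exact ⟨hl, hbit⟩
  · rintro ⟨u, _, hu⟩
    rw [hVWspec] at hu
    exact ⟨decL u, hu.1, hu.2⟩

end Pool.Agent.SparseNP
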