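import Pool.Agent.Lib.MP_69a69c_lc.Final
import Pool.Agent.Lib.MP_69a69c_lc.Defs4

/-!
# The auxiliary NP language for a general evaluation procedure
-/

namespace Pool.Agent.SparseNP

open Pool.Agent.PolyTime

section lang

variable (pL : Polynomial ℕ) (e : List (List Bool) → List Bool → Bool)
  (cl : List Bool → List Unit) (VS : List Bool × List Bool → Bool) (pS : Polynomial ℕ)

/-- greedy search of the maximal certificate -/
def greedyE (x : List Bool) (Sh : List (List Bool)) : List Bool :=
  (List.replicate (pL.eval x.length) ()).foldl (fun v _ => e Sh (word pL x (true :: v)) :: v) []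

/-- the bit of the code for a list -/
def bitE (t : Tup) (Sh : List (List Bool)) : Bool :=
  codeBit t.2.2.2.1 t.2.2.2.2 ((greedyE pL e t.1 Sh).drop (pL.eval t.1.length - t.2.2.1))

/-- the language -/
def WE : Set (List Bool) :=
  {y | ∃ l, GoodL cl VS pS (dec y).1 (dec y).2.1 l ∧
    bitE pL e (dec y) (l.map fun e => e.1) = true}

end lang

theorem greedyE_length (pL : Polynomial ℕ) (e : List (List Bool) → List Bool → Bool)
    (x : List Bool) (Sh : List (List Bool)) (l : List Unit) :
    (l.foldl (fun v _ => e Sh (word pL x (true :: v)) :: v) []).length = l.length := by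
  induction l using List.reverseRecOn with
  | nil => rfl
  | append_singleton l a ih =>
    rw [List.foldl_append]
    simp only [List.foldl_cons, List.foldl_nil, List.length_cons, List.length_append, ih,
      List.length_nil]

theorem ptime_greedyE (pL : Polynomial ℕ) {e : List (List Bool) → List Bool → Bool}
    (he : PTime (fun z : List (List Bool) × List Bool => e z.1 z.2)) :
    PTime (fun z : List Bool × List (List Bool) => greedyE pL e z.1 z.2) := by
  unfold greedyE
  refine PTime.foldl (h := fun (z : List Bool × List (List Bool)) v (_ : Unit) =>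
    e z.2 (word pL z.1 (true :: v)) :: v) (PTime.unaryPoly PTime.fst pL)
    (PTime.const []) ?_ (B := fun n => 4 * pL.eval n + 1)
    (((PBd.const 4).mul ⟨pL, fun _ => le_rfl⟩).add (PBd.const 1)) ?_
  · have e1 : PTime (fun p : (List Bool × List (List Bool)) × (List Bool × Unit) => p.2.1) :=
      PTime.fst' PTime.snd
    have e2 : PTime (fun p : (List Bool × List (List Bool)) × (List Bool × Unit) =>
      word pL p.1.1 (true :: p.2.1)) :=
      (ptime_word pL).comp ((PTime.fst' PTime.fst).pair ((PTime.const true).cons e1))
    exact (he.comp ((PTime.snd' PTime.fst).pair e2)).cons e1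
  · intro z l₁ l₂ h
    have h1 := size_bits_le (l₁.foldl (fun v _ => e z.2 (word pL z.1 (true :: v)) :: v) [])
    rw [greedyE_length] at h1
    have h2 : l₁.length ≤ pL.eval z.1.length := by
      have := congrArg List.length h
      simp only [List.length_replicate, List.length_append] at this
      omega
    have h3 : pL.eval z.1.length ≤ pL.eval (size (enc z)) := by
      refine eval_mono pL ?_
      have e1 := length_le_size z.1
      have e2 : size (enc z) = size (enc z.1) + size (enc z.2) + 1 := by rw [← size_pair]
      omega
    refine h1.trans ?_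
    omega

theorem ptime_bitE (pL : Polynomial ℕ) {e : List (List Bool) → List Bool → Bool}
    (he : PTime (fun z : List (List Bool) × List Bool => e z.1 z.2)) :
    PTime (fun z : Tup × List (List Bool) => bitE pL e z.1 z.2) := by
  unfold bitE
  have e1 : PTime (fun z : Tup × List (List Bool) => z.1.1) := PTime.fst' PTime.fst
  have e2 : PTime (fun z : Tup × List (List Bool) => z.1.2.2) := PTime.snd' (PTime.snd' PTime.fst)
  exact ptime_codeBit e2.snd'.fst' e2.snd'.snd' (ptime_drop
    ((ptime_greedyE pL he).comp (e1.pair PTime.snd)) ((ptime_evalLength e1 pL).sub e2.fst'))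

theorem ptime_bitE' {α : Type} [Enc α] (pL : Polynomial ℕ)
    {e : List (List Bool) → List Bool → Bool}
    (he : PTime (fun z : List (List Bool) × List Bool => e z.1 z.2)) {t : α → Tup}
    {Sh : α → List (List Bool)} (ht : PTime t) (hSh : PTime Sh) :
    PTime (fun x => bitE pL e (t x) (Sh x)) :=
  (ptime_bitE pL he).comp (ht.pair hSh)

theorem WE_inNP {pL : Polynomial ℕ} {e : List (List Bool) → List Bool → Bool}
    {cl : List Bool → List Unit}
    {VS : List Bool × List Bool → Bool} {pS sp : Polynomial ℕ} {S : Set (List Bool)}
    (he : PTime (fun z : List (List Bool) × List Bool => e z.1 z.2)) (hcl : PTime cl)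
    (hVS : PTime VS)
    (hS : ∀ x, x ∈ S ↔ ∃ u : List Bool, u.length = pS.eval x.length ∧ VS (x, u) = true)
    (hsp : ∀ n : ℕ, (S ∩ {x | x.length ≤ n}).ncard ≤ sp.eval n) :
    InNP (WE pL e cl VS pS) := by
  classical
  -- the verifier
  have hL : PTime (fun z : List Bool × List Bool => decL z.2) := ptime_decL.comp PTime.snd
  have hD : PTime (fun z : List Bool × List Bool => dec z.1) := ptime_dec.comp PTime.fst
  have h1 : PTime (fun z : List Bool × List Bool =>
      decide ((decL z.2).length = (dec z.1).2.1)) := PTime.eq hL.length hD.snd'.fst'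
  have h2 : PTime (fun z : List Bool × List Bool => (decL z.2).all fun e =>
      decide (((decL z.2).filter fun e' => decide (e'.1 = e.1)).length = 1)) := by
    have e1 : PTime (fun w : (List Bool × List Bool) × (List Bool × List Bool) =>
        decL w.1.2) := hL.comp PTime.fst
    have e2 : PTime (fun w : (List Bool × List Bool) × (List Bool × List Bool) =>
        (decL w.1.2).filter fun e' => decide (e'.1 = w.2.1)) :=
      PTime.filter (g := fun (w : (List Bool × List Bool) × (List Bool × List Bool))
        (e' : List Bool × List Bool) => decide (e'.1 = w.2.1)) e1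
        (PTime.eq (PTime.fst' PTime.snd) (PTime.fst' (PTime.snd' PTime.fst)))
    have e3 : PTime (fun w : (List Bool × List Bool) × (List Bool × List Bool) =>
        decide (((decL w.1.2).filter fun e' => decide (e'.1 = w.2.1)).length = 1)) :=
      PTime.eq e2.length (PTime.const 1)
    exact PTime.all (g := fun (z : List Bool × List Bool) (e : List Bool × List Bool) =>
        decide (((decL z.2).filter fun e' => decide (e'.1 = e.1)).length = 1)) hL e3
  have h3 : PTime (fun z : List Bool × List Bool => (decL z.2).all fun e =>
      decide (e.1.length ≤ (cl (dec z.1).1).length) &&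
      (decide (e.2.length = pS.eval e.1.length) && VS e)) := by
    have e1 : PTime (fun w : (List Bool × List Bool) × (List Bool × List Bool) =>
        (cl (dec w.1.1).1).length) := (hcl.comp (hD.comp PTime.fst).fst').length
    have e2 : PTime (fun w : (List Bool × List Bool) × (List Bool × List Bool) =>
        decide (w.2.1.length ≤ (cl (dec w.1.1).1).length)) :=
      PTime.le (PTime.fst' PTime.snd).length e1
    have e3 : PTime (fun w : (List Bool × List Bool) × (List Bool × List Bool) =>
        decide (w.2.2.length = pS.eval w.2.1.length)) :=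
      PTime.eq (PTime.snd' PTime.snd).length (ptime_evalLength (PTime.fst' PTime.snd) pS)
    have e4 : PTime (fun w : (List Bool × List Bool) × (List Bool × List Bool) =>
        VS w.2) := hVS.comp PTime.snd
    exact PTime.all (g := fun (z : List Bool × List Bool) (e : List Bool × List Bool) =>
        decide (e.1.length ≤ (cl (dec z.1).1).length) &&
        (decide (e.2.length = pS.eval e.1.length) && VS e)) hL (e2.and (e3.and e4))
  have h4 : PTime (fun z : List Bool × List Bool =>
      bitE pL e (dec z.1) ((decL z.2).map fun e => e.1)) := by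
    have e1 : PTime (fun z : List Bool × List Bool => (decL z.2).map fun e => e.1) :=
      PTime.map (g := fun (_ : List Bool × List Bool) (e : List Bool × List Bool) => e.1) hL
        (PTime.fst' PTime.snd)
    exact ptime_bitE' pL he hD e1
  obtain ⟨A1, hA1⟩ : ∃ A : List Bool × List Bool → Bool, A = fun z =>
    decide ((decL z.2).length = (dec z.1).2.1) := ⟨_, rfl⟩
  obtain ⟨A2, hA2⟩ : ∃ A : List Bool × List Bool → Bool, A = fun z =>
    (decL z.2).all fun e => decide (((decL z.2).filter fun e' => decide (e'.1 = e.1)).length
      = 1) := ⟨_, rfl⟩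
  obtain ⟨A3, hA3⟩ : ∃ A : List Bool × List Bool → Bool, A = fun z =>
    (decL z.2).all fun e => decide (e.1.length ≤ (cl (dec z.1).1).length) &&
      (decide (e.2.length = pS.eval e.1.length) && VS e) := ⟨_, rfl⟩
  obtain ⟨A4, hA4⟩ : ∃ A : List Bool × List Bool → Bool, A = fun z =>
    bitE pL e (dec z.1) ((decL z.2).map fun e => e.1) := ⟨_, rfl⟩
  rw [← hA1] at h1
  rw [← hA2] at h2
  rw [← hA3] at h3
  rw [← hA4] at h4
  have hVW : PTime (fun z => A1 z && (A2 z && (A3 z && A4 z))) := h1.and (h2.and (h3.and h4))
  have hVWspec : ∀ y u, (A1 (y, u) && (A2 (y, u) && (A3 (y, u) && A4 (y, u)))) = true ↔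
      GoodL cl VS pS (dec y).1 (dec y).2.1 (decL u) ∧
      bitE pL e (dec y) ((decL u).map fun e => e.1) = true := by
    intro y u
    rw [hA1, hA2, hA3, hA4]
    simp only [GoodL, Bool.and_eq_true, decide_eq_true_eq, List.all_eq_true, and_assoc]
    have hnodup : (∀ e ∈ decL u, ((decL u).filter fun e' => decide (e'.1 = e.1)).length = 1) ↔
        ((decL u).map fun e => e.1).Nodup := by
      rw [List.nodup_iff_count_eq_one]
      have hcount : ∀ s, ((decL u).map fun e => e.1).count s =
          ((decL u).filter fun e' => decide (e'.1 = s)).length := by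
        intro s
        rw [List.count, List.countP_map, List.countP_eq_length_filter]
        refine congrArg List.length (List.filter_congr fun e _ => ?_)
        rw [Bool.eq_iff_iff]
        simp
      simp only [hcount]
      constructor
      · intro h s hs
        obtain ⟨e, he, rfl⟩ := List.mem_map.1 hs
        exact h e he
      · intro h e he
        exact h e.1 (List.mem_map.2 ⟨e, he, rfl⟩)
    rw [← hnodup]
  -- length of certificates
  obtain ⟨F, hF, hFm, hFs⟩ := (hcl.comp ptime_dec.fst').size_le
  have hB : PBd fun n => sp.eval (F n) * ((4 * F n + 1) + (4 * pS.eval (F n) + 1) + 1 + 1) + 1 :=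
    ((PBd.comp ⟨sp, fun _ => le_rfl⟩ hF).mul (((((((PBd.const 4).mul hF).add (PBd.const 1)).add
      (((PBd.const 4).mul (PBd.comp ⟨pS, fun _ => le_rfl⟩ hF)).add (PBd.const 1))).add
      (PBd.const 1)).add (PBd.const 1)))).add (PBd.const 1)
  obtain ⟨b, hb⟩ := hB
  refine ⟨b.comp (4 * Polynomial.X + 1), _, hVW.isPolyTime, ?_⟩
  intro y
  have heval : (b.comp (4 * Polynomial.X + 1)).eval y.length = b.eval (4 * y.length + 1) := by
    simp [Polynomial.eval_comp]
  rw [heval]
  constructor
  · rintro ⟨l, hl, hbit⟩
    have hsize : size (enc l) ≤ b.eval (4 * y.length + 1) := by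
      have h0 : (cl (dec y).1).length ≤ F (size (enc y)) := by
        have e1 := length_le_size (cl (dec y).1)
        have e2 := hFs y
        omega
      have h1 : l.length ≤ sp.eval (F (size (enc y))) := by
        have h2 := nodup_length_le (S := S) (n := (cl (dec y).1).length)
          (l.map fun e => e.1) hl.2.1 (by
            intro s hs
            obtain ⟨e, he, rfl⟩ := List.mem_map.1 hs
            have h3 := hl.2.2 e he
            exact ⟨(hS e.1).2 ⟨e.2, h3.2.1, h3.2.2⟩, h3.1⟩)
        rw [List.length_map] at h2
        exact (h2.trans (hsp _)).trans (eval_mono sp h0)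
      have h2 := size_list_le l ((4 * F (size (enc y)) + 1) +
        (4 * pS.eval (F (size (enc y))) + 1) + 1) (by
          intro e he
          have h3 := hl.2.2 e he
          have e0 : size (enc e) = size (enc e.1) + size (enc e.2) + 1 := by rw [← size_pair]
          have e1 := size_bits_le e.1
          have e2 := size_bits_le e.2
          have e3 : pS.eval e.1.length ≤ pS.eval (F (size (enc y))) :=
            eval_mono pS (h3.1.trans h0)
          have e4 := h3.1
          have e5 := h3.2.1
          omega)
      refine h2.trans (le_trans ?_ ((hb (size (enc y))).trans (eval_mono b (size_bits_le y))))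
      exact Nat.add_le_add_right (Nat.mul_le_mul_right _ h1) 1
    refine ⟨bits (enc l) ++ List.replicate (b.eval (4 * y.length + 1) - size (enc l)) false,
      ?_, ?_⟩
    · rw [List.length_append, List.length_replicate, length_bits]
      omega
    · rw [hVWspec, decL_bits]
      exact ⟨hl, hbit⟩
  · rintro ⟨u, _, hu⟩
    rw [hVWspec] at hu
    exact ⟨decL u, hu.1, hu.2⟩

theorem greedyE_spec {V : List Bool × List Bool → Bool} {pL : Polynomial ℕ}
    {e : List (List Bool) → List Bool → Bool} {Sh : List (List Bool)} {x w : List Bool}
    (he : ∀ v : List Bool, v.length ≤ pL.eval x.length →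
      (e Sh (word pL x v) = true ↔ word pL x v ∈ Left V pL))
    (hw : w.length = pL.eval x.length) (hVw : V (x, w) = true)
    (hmax : ∀ w', w'.length = pL.eval x.length → V (x, w') = true → ofBits w' ≤ ofBits w) :
    greedyE pL e x Sh = w := by
  have key : ∀ n : ℕ, n ≤ pL.eval x.length →
      (List.replicate n ()).foldl (fun v _ => e Sh (word pL x (true :: v)) :: v) [] =
        w.drop (pL.eval x.length - n) := by
    intro n
    induction n with
    | zero =>
      intro _
      rw [Nat.sub_zero, ← hw, List.drop_length]
      rfl
    | succ n ih =>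
      intro hn
      rw [foldl_replicate (fun v => e Sh (word pL x (true :: v)) :: v), ih (by omega)]
      have hi : pL.eval x.length - (n + 1) < w.length := by omega
      have hcons : w.drop (pL.eval x.length - (n + 1)) =
          w[pL.eval x.length - (n + 1)] :: w.drop (pL.eval x.length - n) := by
        rw [List.drop_eq_getElem_cons hi]
        congr 2
        omega
      have hvl : (w.drop (pL.eval x.length - n)).length = n := by
        rw [List.length_drop]
        omega
      have h1 : (true :: w.drop (pL.eval x.length - n)).length ≤ pL.eval x.length := by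
        rw [List.length_cons, hvl]
        omega
      have h2 := word_mem_left (p := pL) x (true :: w.drop (pL.eval x.length - n)) w h1 hw hVw
        hmax
      rw [← he _ h1, List.length_cons, hvl, hcons] at h2
      rw [hcons]
      congr 1
      cases hb : w[pL.eval x.length - (n + 1)] with
      | true =>
        rw [hb] at h2
        exact h2.2 le_rfl
      | false =>
        rw [hb] at h2
        by_contra hc
        rw [Bool.not_eq_false] at hc
        have h4 := h2.1 hc
        rw [ofBits_cons, ofBits_cons] at h4
        simp at h4
  have h := key _ le_rfl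
  rw [Nat.sub_self, List.drop_zero] at h
  exact h

/-- the value of the auxiliary language -/
theorem WE_value {V : List Bool × List Bool → Bool} {pL : Polynomial ℕ}
    {e : List (List Bool) → List Bool → Bool} {cl : List Bool → List Unit}
    {VS : List Bool × List Bool → Bool} {pS : Polynomial ℕ} {S : Set (List Bool)}
    (hS : ∀ x, x ∈ S ↔ ∃ u : List Bool, u.length = pS.eval x.length ∧ VS (x, u) = true)
    {x w : List Bool}
    (he : ∀ Sh : List (List Bool), (∀ s ∈ Sh, s ∈ S) →
      (∀ s : List Bool, s.length ≤ (cl x).length → (s ∈ Sh ↔ s ∈ S)) →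
      ∀ v : List Bool, v.length ≤ pL.eval x.length →
      (e Sh (word pL x v) = true ↔ word pL x v ∈ Left V pL))
    (hw : w.length = pL.eval x.length) (hVw : V (x, w) = true)
    (hmax : ∀ w', w'.length = pL.eval x.length → V (x, w') = true → ofBits w' ≤ ofBits w)
    (l p : ℕ) (κ : ℕ × ℕ × ℕ) :
    wd (x, (census S (cl x).length, (l, (p, κ)))) ∈ WE pL e cl VS pS ↔
      codeBit p κ (w.drop (pL.eval x.length - l)) = true := by
  unfold WE
  rw [Set.mem_setOf_eq, dec_wd]
  simp only
  have hbit : ∀ L, GoodL cl VS pS x (census S (cl x).length) L →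
      bitE pL e (x, (census S (cl x).length, (l, (p, κ)))) (L.map fun e => e.1) =
        codeBit p κ (w.drop (pL.eval x.length - l)) := by
    intro L hL
    unfold bitE
    simp only
    rw [greedyE_spec (he _ ?_ (good_unique hS hL)) hw hVw hmax]
    intro s hs
    obtain ⟨a, ha, rfl⟩ := List.mem_map.1 hs
    have h3 := hL.2.2 a ha
    exact (hS a.1).2 ⟨a.2, h3.2.1, h3.2.2⟩
  constructor
  · rintro ⟨L, hL, hb⟩
    rwa [hbit L hL] at hb
  · intro hb
    obtain ⟨L, hL⟩ := good_exists (cl := cl) hS x
    exact ⟨L, hL, by rwa [hbit L hL]⟩

end Pool.Agent.SparseNP
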