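import Pool.Agent.Lib.PolyTime.More

/-!
# A pairing of bit strings (adapted from `Pool.Agent.Lib.CookLevin.Raw`)
-/

namespace Pool.Agent.SparseNP

open Pool.Agent.PolyTime

/-- The code of a pair of bit strings `(x, u)`: each bit of `x` is preceded by `1`, then `0` and
`u` follow. -/
def pairWord (q : List Bool × List Bool) : List Bool :=
  q.1.flatMap (fun b => [true, b]) ++ false :: q.2

/-- Decoding of pairs. State: are we in the second part, is a bit of the first part expected,
the two parts read so far (reversed). -/
def unpairStep (s : (Bool × Bool) × (List Bool × List Bool)) (b : Bool) :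
    (Bool × Bool) × (List Bool × List Bool) :=
  if s.1.1 = true then (s.1, (s.2.1, b :: s.2.2))
  else if s.1.2 = true then ((false, false), (b :: s.2.1, s.2.2))
  else if b = true then ((false, true), s.2)
  else ((true, false), s.2)

/-- Decoding of pairs. -/
def unpair (w : List Bool) : List Bool × List Bool :=
  let s := w.foldl unpairStep ((false, false), ([], []))
  (s.2.1.reverse, s.2.2.reverse)

theorem unpair_pairWord (x u : List Bool) : unpair (pairWord (x, u)) = (x, u) := by
  have h1 : ∀ (u X U : List Bool), u.foldl unpairStep ((true, false), (X, U)) =
      ((true, false), (X, u.reverse ++ U)) := by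
    intro u
    induction u with
    | nil => intro X U; rfl
    | cons b u ih =>
      intro X U
      rw [List.foldl_cons]
      change u.foldl unpairStep ((true, false), (X, b :: U)) = _
      rw [ih]
      simp
  have h2 : ∀ (x X U : List Bool), (x.flatMap (fun b => [true, b])).foldl unpairStep
      ((false, false), (X, U)) = ((false, false), (x.reverse ++ X, U)) := by
    intro x
    induction x with
    | nil => intro X U; rfl
    | cons b x ih =>
      intro X U
      rw [List.flatMap_cons, List.foldl_append]
      change (x.flatMap (fun b => [true, b])).foldl unpairStep ((false, false), (b :: X, U)) = _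
      rw [ih]
      simp
  unfold unpair pairWord
  simp only
  rw [List.foldl_append, h2, List.foldl_cons]
  have e : unpairStep ((false, false), (x.reverse ++ [], [])) false =
    ((true, false), (x.reverse ++ [], [])) := rfl
  rw [e, h1]
  simp

theorem ptime_unpair : PTime unpair := by
  have hstep : PTime (fun p : List Bool × (((Bool × Bool) × (List Bool × List Bool)) × Bool) =>
      unpairStep p.2.1 p.2.2) := by
    have s : PTime (fun p : List Bool × (((Bool × Bool) × (List Bool × List Bool)) × Bool) =>
        p.2.1) := PTime.fst.comp PTime.snd
    have b : PTime (fun p : List Bool × (((Bool × Bool) × (List Bool × List Bool)) × Bool) =>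
        p.2.2) := PTime.snd.comp PTime.snd
    have s1 := PTime.fst.comp s
    have s11 := PTime.fst.comp s1
    have s12 := PTime.snd.comp s1
    have s2 := PTime.snd.comp s
    have s21 := PTime.fst.comp s2
    have s22 := PTime.snd.comp s2
    unfold unpairStep
    exact PTime.ite s11 (s1.pair (s21.pair (b.cons s22)))
      (PTime.ite s12 ((PTime.const (false, false)).pair ((b.cons s21).pair s22))
        (PTime.ite b ((PTime.const (false, true)).pair s2) ((PTime.const (true, false)).pair s2)))
  have hb : ∀ (l : List Bool) (s : (Bool × Bool) × (List Bool × List Bool)),
      size (enc (l.foldl unpairStep s)) ≤ size (enc s) + 8 * l.length := by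
    intro l
    induction l with
    | nil => intro s; simp
    | cons b l ih =>
      intro s
      rw [List.foldl_cons, List.length_cons]
      refine (ih _).trans ?_
      have : size (enc (unpairStep s b)) ≤ size (enc s) + 8 := by
        obtain ⟨⟨p, q⟩, X, U⟩ := s
        cases p <;> cases q <;> cases b <;>
          simp [unpairStep, size_pair, size_lcons, enc_true, enc_false] <;> omega
      omega
  have hfold : PTime (fun w : List Bool => w.foldl unpairStep ((false, false), ([], []))) := by
    refine PTime.foldl (h := fun (_ : List Bool) s b => unpairStep s b) PTime.id (PTime.const _)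
      hstep (B := fun n => size (enc (((false, false), ([], [])) :
        (Bool × Bool) × (List Bool × List Bool))) + 8 * n) ((PBd.const _).add
        ((PBd.const 8).mul PBd.id)) ?_
    intro a l₁ l₂ h
    refine (hb l₁ _).trans ?_
    have h1 := length_le_size a
    have h2 : l₁.length ≤ a.length := by rw [h]; simp
    omega
  unfold unpair
  exact (PTime.reverse (PTime.fst.comp (PTime.snd.comp hfold))).pair
    (PTime.reverse (PTime.snd.comp (PTime.snd.comp hfold)))


end Pool.Agent.SparseNP
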