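import Pool.Agent.Lib.MP_69a69c_lc.Time
import Pool.Agent.Lib.MP_69a69c_lc.Unpair
import Pool.Agent.Lib.PolyTime.Converse

/-!
# P = NP if NP is reducible to a tally advice by systems of congruences
-/

namespace Pool.Agent.SparseNP

open Pool.Agent.PolyTime

/-- The left set of the verifier `V`. -/
def Left (V : List Bool × List Bool → Bool) (p : Polynomial ℕ) : Set (List Bool) :=
  {y | ∃ x u : List Bool, y = pairWord (x, u) ∧ u.length = p.eval x.length ∧
    ∃ w : List Bool, w.length = u.length ∧ ofBits u ≤ ofBits w ∧ V (x, w) = true}

theorem pairWord_length (x u : List Bool) :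
    (pairWord (x, u)).length = 2 * x.length + 1 + u.length := by
  unfold pairWord
  simp only [List.length_append, List.length_flatMap, List.length_cons, List.length_nil,
    List.map_const', List.sum_replicate, smul_eq_mul]
  omega

theorem ptime_pairWord {α : Type} [Enc α] {f g : α → List Bool} (hf : PTime f) (hg : PTime g) :
    PTime (fun x => pairWord (f x, g x)) := by
  unfold pairWord
  refine PTime.append (PTime.flatMap (g := fun (_ : α) (b : Bool) => [true, b]) hf ?_)
    (PTime.cons (PTime.const false) hg)
  exact (PTime.const true).cons (PTime.snd.cons (PTime.const []))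

theorem ptime_evalLength {α β : Type} [Enc α] [Enc β] {f : α → List β} (hf : PTime f)
    (p : Polynomial ℕ) : PTime (fun x => p.eval (f x).length) :=
  (PTime.unaryPoly hf p).length.of_eq fun x => by rw [List.length_replicate]

theorem left_inNP {V : List Bool × List Bool → Bool} (hV : PTime V) (p : Polynomial ℕ) :
    InNP (Left V p) := by
  classical
  let V' : List Bool × List Bool → Bool := fun z =>
    decide (pairWord ((unpair z.1).1, (unpair z.1).2) = z.1) &&
    (decide ((unpair z.1).2.length = p.eval (unpair z.1).1.length) &&
    (decide (ofBits (unpair z.1).2 ≤ ofBits (z.2.take (unpair z.1).2.length)) &&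
      V ((unpair z.1).1, z.2.take (unpair z.1).2.length)))
  have hV' : PTime V' := by
    have hu : PTime (fun z : List Bool × List Bool => unpair z.1) := ptime_unpair.comp PTime.fst
    have ht : PTime (fun z : List Bool × List Bool => z.2.take (unpair z.1).2.length) :=
      PTime.take PTime.snd hu.snd'.length
    exact (PTime.eq (ptime_pairWord hu.fst' hu.snd') PTime.fst).and
      ((PTime.eq hu.snd'.length (ptime_evalLength hu.fst' p)).and
        ((PTime.le hu.snd'.natOfBits ht.natOfBits).and (hV.comp (hu.fst'.pair ht))))
  refine ⟨Polynomial.X, V', hV'.isPolyTime, ?_⟩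
  intro y
  simp only [Polynomial.eval_X]
  constructor
  · rintro ⟨x, u, rfl, hu, w, hw, hle, hVw⟩
    have hlen := pairWord_length x u
    refine ⟨w ++ List.replicate ((pairWord (x, u)).length - w.length) false, ?_, ?_⟩
    · rw [List.length_append, List.length_replicate]
      omega
    · simp only [V', unpair_pairWord]
      have ht : (w ++ List.replicate ((pairWord (x, u)).length - w.length) false).take u.length
          = w := by
        rw [← hw, List.take_left']
        rfl
      rw [ht]
      simp [hu, hle, hVw]
  · rintro ⟨w', hw', h⟩
    simp only [V', Bool.and_eq_true, decide_eq_true_eq] at h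
    obtain ⟨h1, h2, h3, h4⟩ := h
    refine ⟨(unpair y).1, (unpair y).2, h1.symm, h2, _, ?_, h3, h4⟩
    rw [List.length_take, hw']
    have h5 := congrArg List.length h1
    rw [pairWord_length] at h5
    omega

section loop

variable (V : List Bool × List Bool → Bool) (p q : Polynomial ℕ) (D k : ℕ)
  (β : List Bool → Bool) (f : List Bool → ℕ × List (List (List (ℕ × List ℕ))))
  (c : List Bool → List Unit)

/-- zeros -/
def zeros (x : List Bool) : List Bool := (List.replicate (p.eval x.length) ()).map fun _ => false

/-- the query for the candidate `v` -/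
def word (x v : List Bool) : List Bool :=
  pairWord (x, (zeros p x).take ((zeros p x).length - v.length) ++ v)

/-- the item for the candidate `v` -/
def item (x v : List Bool) : Item :=
  (v, ((f (word p x v)).1, conv β D (f (word p x v)).2))

/-- the monomials -/
noncomputable def idx (x : List Bool) : List (List ℕ) :=
  monos (2 ^ depth β D * k)
    (List.range (List.replicate ((q + 1).eval (pairWord (x, zeros p x)).length) ()).length)

/-- children -/
def children (C : List (List Bool)) : List (List Bool) :=
  C.flatMap fun v => [false :: v, true :: v]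

/-- one level of the search -/
noncomputable def level (x : List Bool) (C : List (List Bool)) : List (List Bool) :=
  ((children C).filter fun v => decide (v ∈ prune (depth β D) (idx p q D k β x)
    ((children C).map (item p D β f x)))).take (c x).length

/-- the search -/
noncomputable def search (x : List Bool) : List (List Bool) :=
  (List.replicate (p.eval x.length) ()).foldl (fun C _ => level p q D k β f c x C) [[]]

/-- the algorithm -/
noncomputable def alg (x : List Bool) : Bool :=
  (search p q D k β f c x).any fun v => decide (v.length = p.eval x.length) && V (x, v)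

end loop

theorem zeros_eq (p : Polynomial ℕ) (x : List Bool) :
    zeros p x = List.replicate (p.eval x.length) false := by
  simp [zeros]

theorem word_eq (p : Polynomial ℕ) (x v : List Bool) :
    word p x v = pairWord (x, List.replicate (p.eval x.length - v.length) false ++ v) := by
  unfold word
  rw [zeros_eq, List.length_replicate, List.take_replicate, Nat.min_eq_left (by omega)]

theorem word_length (p : Polynomial ℕ) (x v : List Bool) (hv : v.length ≤ p.eval x.length) :
    (word p x v).length = 2 * x.length + 1 + p.eval x.length := by
  rw [word_eq, pairWord_length, List.length_append, List.length_replicate]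
  omega

theorem idx_eq (p q : Polynomial ℕ) (D k : ℕ) (β : List Bool → Bool) (x : List Bool) :
    idx p q D k β x = monos (2 ^ depth β D * k)
      (List.range (q.eval (2 * x.length + 1 + p.eval x.length) + 1)) := by
  unfold idx
  rw [List.length_replicate, pairWord_length, zeros_eq, List.length_replicate]
  simp

theorem ofBits_zeros (r : ℕ) (v : List Bool) :
    ofBits (List.replicate r false ++ v) = 2 ^ r * ofBits v := by
  rw [ofBits_append, List.length_replicate]
  have : ofBits (List.replicate r false) = 0 := by
    induction r with
    | zero => rfl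
    | succ r ih => rw [List.replicate_succ, ofBits_cons, ih]; rfl
  rw [this, Nat.zero_add]

section correct

variable {V : List Bool × List Bool → Bool} {p q : Polynomial ℕ} {D k : ℕ}
  {β : List Bool → Bool} {f : List Bool → ℕ × List (List (List (ℕ × List ℕ)))}
  {c : List Bool → List Unit} {τ : ℕ → ℤ}

/-- the properties of the reduction of the left set -/
def RedOk (τ : ℕ → ℤ) (V : List Bool × List Bool → Bool) (p q : Polynomial ℕ) (D k : ℕ)
    (β : List Bool → Bool) (f : List Bool → ℕ × List (List (List (ℕ × List ℕ)))) : Prop :=
  ∀ x, (f x).1.Prime ∧ (f x).1 ≤ q.eval x.length ∧ (f x).2.length = D ∧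
      (∀ Z ∈ (f x).2, ∀ P ∈ Z, ∀ t ∈ P, t.2.length ≤ k ∧ ∀ i ∈ t.2, i ≤ q.eval x.length) ∧
      (x ∈ Left V p ↔ β (pattern τ (f x).1 (f x).2) = true)

theorem item_ok (hR : RedOk τ V p q D k β f) (x v : List Bool) (hv : v.length ≤ p.eval x.length) :
    ItemOk (idx p q D k β x) (q.eval (2 * x.length + 1 + p.eval x.length)) (depth β D)
      (item p D β f x v) := by
  obtain ⟨h1, h2, _, h4, _⟩ := hR (word p x v)
  rw [word_length p x v hv] at h2 h4
  refine ⟨h1, h2, ?_, conv_length _ _ _⟩
  intro Z hZ P hP t ht
  have h6 := conv_bd k (q.eval (2 * x.length + 1 + p.eval x.length)) β D (f (word p x v)).2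
    (fun Z hZ P hP t ht => h4 Z hZ P hP t ht) Z hZ P hP t ht
  rw [idx_eq, mem_monos]
  exact ⟨h6.1, fun i hi => List.mem_range.2 (by have := h6.2 i hi; omega)⟩

theorem item_truth (hR : RedOk τ V p q D k β f) (x v : List Bool) :
    Ft τ (item p D β f x v) = true ↔ word p x v ∈ Left V p := by
  obtain ⟨h1, _, h3, _, h5⟩ := hR (word p x v)
  rw [h5]
  unfold Ft item
  simp only
  rw [conv_spec τ h1 β D _ h3]

theorem idx_nodup (p q : Polynomial ℕ) (D k : ℕ) (β : List Bool → Bool) (x : List Bool) :
    (idx p q D k β x).Nodup := by
  rw [idx_eq]
  exact monos_nodup _ List.nodup_range _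

theorem nil_mem_idx (p q : Polynomial ℕ) (D k : ℕ) (β : List Bool → Bool) (x : List Bool) :
    [] ∈ idx p q D k β x := by
  rw [idx_eq, mem_monos]
  exact ⟨Nat.zero_le _, by simp⟩

theorem word_mem_left (x v w : List Bool) (hv : v.length ≤ p.eval x.length)
    (hw : w.length = p.eval x.length) (hVw : V (x, w) = true)
    (hmax : ∀ w', w'.length = p.eval x.length → V (x, w') = true → ofBits w' ≤ ofBits w) :
    word p x v ∈ Left V p ↔ ofBits v ≤ ofBits (w.drop (p.eval x.length - v.length)) := by
  generalize hN : p.eval x.length = N at *
  have hsplit : ofBits w = ofBits (w.take (N - v.length)) +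
      2 ^ (N - v.length) * ofBits (w.drop (N - v.length)) := by
    conv_lhs => rw [← List.take_append_drop (N - v.length) w]
    rw [ofBits_append, List.length_take, hw, Nat.min_eq_left (by omega)]
  have hlt : ofBits (w.take (N - v.length)) < 2 ^ (N - v.length) := by
    have := ofBits_lt (w.take (N - v.length))
    rwa [List.length_take, hw, Nat.min_eq_left (by omega)] at this
  rw [word_eq, hN]
  constructor
  · rintro ⟨x', u, hy, hu, w', hw', hle, hVw'⟩
    have h1 := congrArg unpair hy
    rw [unpair_pairWord, unpair_pairWord] at h1
    simp only [Prod.mk.injEq] at h1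
    obtain ⟨rfl, rfl⟩ := h1
    rw [hN] at hu
    have h2 := hmax w' (by rw [hw', hu]) hVw'
    rw [ofBits_zeros] at hle
    have h3 : 2 ^ (N - v.length) * ofBits v <
        2 ^ (N - v.length) * (ofBits (w.drop (N - v.length)) + 1) := by
      rw [Nat.mul_add, Nat.mul_one]
      omega
    exact Nat.lt_succ_iff.1 (lt_of_mul_lt_mul_left h3 (Nat.zero_le _))
  · intro h
    refine ⟨x, _, rfl, ?_, w, ?_, ?_, hVw⟩
    · rw [List.length_append, List.length_replicate, hN]; omega
    · rw [List.length_append, List.length_replicate, hw]; omega
    · rw [ofBits_zeros, hsplit]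
      exact (Nat.mul_le_mul_left _ h).trans (Nat.le_add_left _ _)

theorem children_length {C : List (List Bool)} {n : ℕ} (hC : ∀ v ∈ C, v.length = n) :
    ∀ v ∈ children C, v.length = n + 1 := by
  intro v hv
  obtain ⟨u, hu, hv⟩ := List.mem_flatMap.1 hv
  have := hC u hu
  simp only [List.mem_cons, List.not_mem_nil, or_false] at hv
  rcases hv with rfl | rfl <;> simp [this]

theorem children_sorted {C : List (List Bool)}
    (hC : C.Pairwise fun v v' => ofBits v < ofBits v') :
    (children C).Pairwise fun v v' => ofBits v < ofBits v' := by
  unfold children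
  rw [List.pairwise_flatMap]
  constructor
  · intro v _
    simp [ofBits_cons]
  · refine hC.imp ?_
    intro v v' h a ha b hb
    simp only [List.mem_cons, List.not_mem_nil, or_false] at ha hb
    rcases ha with rfl | rfl <;> rcases hb with rfl | rfl <;> simp [ofBits_cons] <;> omega

theorem level_props {x : List Bool} {C : List (List Bool)} {n : ℕ}
    (hC : ∀ v ∈ C, v.length = n) (hs : C.Pairwise fun v v' => ofBits v < ofBits v') :
    (∀ v ∈ level p q D k β f c x C, v.length = n + 1) ∧
    (level p q D k β f c x C).Pairwise (fun v v' => ofBits v < ofBits v') ∧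
    (level p q D k β f c x C).length ≤ (c x).length := by
  unfold level
  refine ⟨fun v hv => ?_, ?_, ?_⟩
  · exact children_length hC v (List.mem_of_mem_filter (List.mem_of_mem_take hv))
  · exact ((children_sorted hs).filter _).take
  · exact List.length_take_le _ _

/-- bound for the number of candidates -/
noncomputable def bnd (p q : Polynomial ℕ) (D k : ℕ) (β : List Bool → Bool) (n : ℕ) : ℕ :=
  (2 * ((q.eval (2 * n + 1 + p.eval n) + 1) *
    (q.eval (2 * n + 1 + p.eval n) + 2) ^ (2 ^ depth β D * k) + 1)) ^ depth β D

theorem level_mem (hR : RedOk τ V p q D k β f) {x : List Bool}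
    (hc : bnd p q D k β x.length ≤ (c x).length) {C : List (List Bool)} {n : ℕ}
    (hn : n < p.eval x.length) (hC : ∀ v ∈ C, v.length = n)
    (hs : C.Pairwise fun v v' => ofBits v < ofBits v') {w : List Bool}
    (hw : w.length = p.eval x.length) (hVw : V (x, w) = true)
    (hmax : ∀ w', w'.length = p.eval x.length → V (x, w') = true → ofBits w' ≤ ofBits w)
    (hmem : w.drop (p.eval x.length - n) ∈ C) :
    w.drop (p.eval x.length - (n + 1)) ∈ level p q D k β f c x C := by
  have hch := children_length hC
  have hchs := children_sorted hs
  have hi : p.eval x.length - (n + 1) < w.length := by omega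
  have hcons : w.drop (p.eval x.length - (n + 1)) =
      w[p.eval x.length - (n + 1)] :: w.drop (p.eval x.length - n) := by
    rw [List.drop_eq_getElem_cons hi]
    congr 2
    omega
  have hv : w.drop (p.eval x.length - (n + 1)) ∈ children C := by
    rw [hcons]
    refine List.mem_flatMap.2 ⟨_, hmem, ?_⟩
    cases w[p.eval x.length - (n + 1)] <;> simp
  have hokI : ∀ a ∈ (children C).map (item p D β f x), ItemOk (idx p q D k β x)
      (q.eval (2 * x.length + 1 + p.eval x.length)) (depth β D) a := by
    intro a ha
    obtain ⟨v, hv, rfl⟩ := List.mem_map.1 ha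
    exact item_ok hR x v (by rw [hch v hv]; omega)
  have hspec := prune_spec τ (idx_nodup p q D k β x) (nil_mem_idx p q D k β x) (depth β D)
    ((children C).map (item p D β f x)) hokI
  have htruth : ∀ v ∈ children C, (Ft τ (item p D β f x v) = true ↔
      ofBits v ≤ ofBits (w.drop (p.eval x.length - (n + 1)))) := by
    intro v hv
    rw [item_truth hR, word_mem_left x v w (by rw [hch v hv]; omega) hw hVw hmax, hch v hv]
  obtain ⟨c₁, c₂, hsplit⟩ := List.append_of_mem hv
  generalize hv' : w.drop (p.eval x.length - (n + 1)) = v' at *
  have hK : v' ∈ prune (depth β D) (idx p q D k β x) ((children C).map (item p D β f x)) := by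
    rw [hsplit, List.pairwise_append, List.pairwise_cons] at hchs
    obtain ⟨_, ⟨h2, _⟩, h3⟩ := hchs
    refine (hspec ((c₁ ++ [v']).map (item p D β f x)) (c₂.map (item p D β f x)) ?_ ?_ ?_).1
      (item p D β f x v') ?_
    · rw [← List.map_append, List.append_assoc, hsplit]
      rfl
    · intro a ha
      obtain ⟨v, hv1, rfl⟩ := List.mem_map.1 ha
      have hvc : v ∈ children C := by
        rw [hsplit]
        rcases List.mem_append.1 hv1 with h | h
        · exact List.mem_append.2 (Or.inl h)
        · rw [List.mem_singleton] at h
          subst h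
          exact List.mem_append.2 (Or.inr (List.mem_cons_self ..))
      rw [htruth v hvc]
      rcases List.mem_append.1 hv1 with h | h
      · exact (h3 v h v' (List.mem_cons_self ..)).le
      · rw [List.mem_singleton] at h
        rw [h]
    · intro a ha
      obtain ⟨v, hv1, rfl⟩ := List.mem_map.1 ha
      have hvc : v ∈ children C := by
        rw [hsplit]
        exact List.mem_append.2 (Or.inr (List.mem_cons_of_mem _ hv1))
      rw [← Bool.not_eq_true, htruth v hvc, not_le]
      exact h2 v hv1
    · simp
  have hfil : v' ∈ (children C).filter fun v => decide (v ∈ prune (depth β D)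
      (idx p q D k β x) ((children C).map (item p D β f x))) :=
    List.mem_filter.2 ⟨hv, decide_eq_true hK⟩
  unfold level
  rw [List.take_of_length_le]
  · exact hfil
  · refine le_trans ?_ hc
    have hnd : ((children C).filter fun v => decide (v ∈ prune (depth β D)
        (idx p q D k β x) ((children C).map (item p D β f x)))).Nodup := by
      refine List.Nodup.filter _ ?_
      exact (children_sorted hs).imp fun {a b} h hab => by rw [hab] at h; exact lt_irrefl _ h
    have hsub : ((children C).filter fun v => decide (v ∈ prune (depth β D)
        (idx p q D k β x) ((children C).map (item p D β f x)))) ⊆ prune (depth β D)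
        (idx p q D k β x) ((children C).map (item p D β f x)) := by
      intro v hv
      simpa using (List.mem_filter.1 hv).2
    refine ((List.subperm_of_subset hnd hsub).length_le).trans ?_
    refine (prune_length τ (idx_nodup p q D k β x) (nil_mem_idx p q D k β x) (depth β D)
      _ hokI).trans ?_
    unfold bnd
    refine Nat.pow_le_pow_left (Nat.mul_le_mul_left _ (Nat.add_le_add_right
      (Nat.mul_le_mul_left _ ?_) 1)) _
    rw [idx_eq]
    refine (monos_length _ _).trans ?_
    rw [List.length_range]

theorem foldl_replicate {σ : Type} (g : σ → σ) (n : ℕ) (s : σ) :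
    (List.replicate (n + 1) ()).foldl (fun C _ => g C) s =
      g ((List.replicate n ()).foldl (fun C _ => g C) s) := by
  rw [List.replicate_succ', List.foldl_append]
  rfl

theorem fold_props (x : List Bool) : ∀ n : ℕ,
    (∀ v ∈ (List.replicate n ()).foldl (fun C _ => level p q D k β f c x C) [[]],
      v.length = n) ∧
    ((List.replicate n ()).foldl (fun C _ => level p q D k β f c x C) [[]]).Pairwise
      (fun v v' => ofBits v < ofBits v') ∧
    ((List.replicate n ()).foldl (fun C _ => level p q D k β f c x C) [[]]).length ≤
      (c x).length + 1 := by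
  intro n
  induction n with
  | zero => simp
  | succ n ih =>
    rw [foldl_replicate (fun C => level p q D k β f c x C)]
    have h := level_props (p := p) (q := q) (D := D) (k := k) (β := β) (f := f) (c := c)
      (x := x) ih.1 ih.2.1
    exact ⟨h.1, h.2.1, h.2.2.trans (Nat.le_succ _)⟩

theorem alg_correct (hR : RedOk τ V p q D k β f) (x : List Bool)
    (hc : bnd p q D k β x.length ≤ (c x).length) :
    alg V p q D k β f c x = true ↔ ∃ u : List Bool, u.length = p.eval x.length ∧
      V (x, u) = true := by
  unfold alg
  rw [List.any_eq_true]
  constructor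
  · rintro ⟨v, _, hv⟩
    simp only [Bool.and_eq_true, decide_eq_true_eq] at hv
    exact ⟨v, hv⟩
  · rintro ⟨u, hu1, hu2⟩
    obtain ⟨w, ⟨hw, hVw⟩, hmax⟩ : ∃ w : List Bool, (w.length = p.eval x.length ∧
        V (x, w) = true) ∧ ∀ w', w'.length = p.eval x.length → V (x, w') = true →
          ofBits w' ≤ ofBits w := by
      classical
      let Q : ℕ → Prop := fun n => ∃ w : List Bool, (w.length = p.eval x.length ∧
        V (x, w) = true) ∧ ofBits w = n
      have hQ : Q (Nat.findGreatest Q (2 ^ p.eval x.length)) := by
        refine Nat.findGreatest_spec (P := Q) (m := ofBits u) ?_ ⟨u, ⟨hu1, hu2⟩, rfl⟩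
        have := ofBits_lt u
        rw [hu1] at this
        exact this.le
      obtain ⟨w, hw, hwn⟩ := hQ
      refine ⟨w, hw, fun w' hw1 hw2 => ?_⟩
      rw [hwn]
      refine Nat.le_findGreatest ?_ ⟨w', ⟨hw1, hw2⟩, rfl⟩
      have := ofBits_lt w'
      rw [hw1] at this
      exact this.le
    have key : ∀ n : ℕ, n ≤ p.eval x.length → w.drop (p.eval x.length - n) ∈
        (List.replicate n ()).foldl (fun C _ => level p q D k β f c x C) [[]] := by
      intro n
      induction n with
      | zero =>
        intro _
        rw [Nat.sub_zero, ← hw, List.drop_length]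
        simp
      | succ n ih =>
        intro hn
        rw [foldl_replicate (fun C => level p q D k β f c x C)]
        have h := fold_props (p := p) (q := q) (D := D) (k := k) (β := β) (f := f) (c := c) x n
        exact level_mem hR hc (by omega) h.1 h.2.1 hw hVw hmax (ih (by omega))
    have h1 := key _ le_rfl
    rw [Nat.sub_self, List.drop_zero] at h1
    refine ⟨w, h1, ?_⟩
    simp [hw, hVw]

end correct

theorem ptime_level {p q : Polynomial ℕ} {D k : ℕ}
    {β : List Bool → Bool} {f : List Bool → ℕ × List (List (List (ℕ × List ℕ)))}
    {c : List Bool → List Unit} (hf : PTime f) (hc : PTime c) :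
    PTime (fun z : List Bool × List (List Bool) => level p q D k β f c z.1 z.2) := by
  have hz : PTime (fun x : List Bool => zeros p x) :=
    PTime.map (g := fun (_ : List Bool) (_ : Unit) => false) (PTime.unaryPoly PTime.id p)
      (PTime.const false)
  have hword : PTime (fun z : List Bool × List Bool => word p z.1 z.2) := by
    unfold word
    have hz' := hz.comp (PTime.fst (α := List Bool) (β := List Bool))
    exact ptime_pairWord PTime.fst ((PTime.take hz' (hz'.length.sub PTime.snd.length)).append
      PTime.snd)
  have hitem : PTime (fun z : List Bool × List Bool => item p D β f z.1 z.2) := by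
    unfold item
    exact PTime.snd.pair ((hf.comp hword).fst'.pair (ptime_conv β D (hf.comp hword).snd'))
  have hidx : PTime (fun x : List Bool => idx p q D k β x) := by
    unfold idx
    exact ptime_monos _ (PTime.rangeLength (PTime.unaryPoly (ptime_pairWord PTime.id hz) (q + 1)))
  have hch : PTime (fun C : List (List Bool) => children C) :=
    PTime.flatMap (g := fun (_ : List (List Bool)) (v : List Bool) => [false :: v, true :: v])
      PTime.id (((PTime.const false).cons PTime.snd).cons (((PTime.const true).cons
        PTime.snd).cons (PTime.const [])))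
  have hch' := hch.comp (PTime.snd (α := List Bool) (β := List (List Bool)))
  have hprune : PTime (fun z : List Bool × List (List Bool) => prune (depth β D)
      (idx p q D k β z.1) ((children z.2).map (item p D β f z.1))) := by
    refine ptime_prune (depth β D) (hidx.comp PTime.fst) ?_
    exact PTime.map (g := fun (z : List Bool × List (List Bool)) (v : List Bool) =>
      item p D β f z.1 v) hch' (hitem.comp ((PTime.fst' PTime.fst).pair PTime.snd))
  unfold level
  refine PTime.take (PTime.filter (g := fun (z : List Bool × List (List Bool))
    (v : List Bool) => decide (v ∈ prune (depth β D)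
      (idx p q D k β z.1) ((children z.2).map (item p D β f z.1)))) hch' ?_)
    (hc.comp PTime.fst).length
  exact PTime.mem PTime.snd (hprune.comp PTime.fst)

theorem ptime_alg {V : List Bool × List Bool → Bool} (hV : PTime V) {p q : Polynomial ℕ}
    {D k : ℕ} {β : List Bool → Bool} {f : List Bool → ℕ × List (List (List (ℕ × List ℕ)))}
    {c : List Bool → List Unit} (hf : PTime f) (hc : PTime c) :
    PTime (alg V p q D k β f c) := by
  obtain ⟨F, hF, hFm, hFs⟩ := hc.size_le
  have hsearch : PTime (search p q D k β f c) := by
    unfold search
    refine PTime.foldl (h := fun (x : List Bool) (C : List (List Bool)) (_ : Unit) =>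
      level p q D k β f c x C) (PTime.unaryPoly PTime.id p) (PTime.const [[]]) ?_
      (B := fun n => (F n + 1) * (4 * p.eval n + 2) + 1)
      (((hF.add (PBd.const 1)).mul (((PBd.const 4).mul ⟨p, fun _ => le_rfl⟩).add
        (PBd.const 2))).add (PBd.const 1)) ?_
    · exact (ptime_level hf hc).comp ((PTime.fst (α := List Bool)
        (β := List (List Bool) × Unit)).pair (PTime.fst' PTime.snd))
    · intro x l₁ l₂ h
      have hl : l₁ = List.replicate l₁.length () := List.eq_replicate_iff.2 ⟨rfl, by simp⟩
      have hn : l₁.length ≤ p.eval x.length := by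
        have := congrArg List.length h
        simp only [List.length_replicate, List.length_append] at this
        omega
      have hp := fold_props (p := p) (q := q) (D := D) (k := k) (β := β) (f := f) (c := c) x
        l₁.length
      rw [← hl] at hp
      have h1 := size_list_le _ (4 * p.eval x.length + 1) (fun v hv => by
        have := size_bits_le v
        rw [hp.1 v hv] at this
        omega : ∀ v ∈ l₁.foldl (fun C _ => level p q D k β f c x C) [[]],
          size (enc v) ≤ 4 * p.eval x.length + 1)
      refine h1.trans ?_
      have h2 := hp.2.2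
      have h3 := length_le_size (c x)
      have h4 := hFs x
      have h5 : p.eval x.length ≤ p.eval (size (enc x)) :=
        eval_mono p (by have := length_le_size x; omega)
      have h6 := Nat.mul_le_mul (show (l₁.foldl (fun C _ => level p q D k β f c x C)
        [[]]).length ≤ F (size (enc x)) + 1 by omega)
        (show 4 * p.eval x.length + 1 + 1 ≤ 4 * p.eval (size (enc x)) + 2 by omega)
      omega
  unfold alg
  refine PTime.any (g := fun (x : List Bool) (v : List Bool) =>
    decide (v.length = p.eval x.length) && V (x, v)) hsearch ?_
  exact (PTime.eq PTime.snd.length (ptime_evalLength PTime.fst p)).and hV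

theorem pbd_bnd (p q : Polynomial ℕ) (D k : ℕ) (β : List Bool → Bool) :
    PBd (bnd p q D k β) := by
  have hp : PBd fun n => p.eval n := ⟨p, fun _ => le_rfl⟩
  have hq : PBd fun n => q.eval n := ⟨q, fun _ => le_rfl⟩
  have h1 : PBd fun n => q.eval (2 * n + 1 + p.eval n) :=
    PBd.comp hq ((((PBd.const 2).mul PBd.id).add (PBd.const 1)).add hp)
  exact PBd.pow ((PBd.const 2).mul (((h1.add (PBd.const 1)).mul
    (PBd.pow (h1.add (PBd.const 2)) (2 ^ depth β D * k))).add (PBd.const 1))) (depth β D)

theorem bnd_mono (p q : Polynomial ℕ) (D k : ℕ) (β : List Bool → Bool) :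
    Monotone (bnd p q D k β) := by
  intro m n h
  have h1 : p.eval m ≤ p.eval n := eval_mono p h
  have h2 : q.eval (2 * m + 1 + p.eval m) ≤ q.eval (2 * n + 1 + p.eval n) :=
    eval_mono q (by omega)
  unfold bnd
  refine Nat.pow_le_pow_left (Nat.mul_le_mul_left _ (Nat.add_le_add_right
    (Nat.mul_le_mul (Nat.add_le_add_right h2 1) ?_) 1)) _
  exact Nat.pow_le_pow_left (Nat.add_le_add_right h2 2) _

/-- Main theorem. -/
theorem main (τ : ℕ → ℤ) (h : ∀ L, InNP L → Reducible τ L) :
    ∀ L, InNP L → InP L := by
  rintro L ⟨p, V, hV, hL⟩
  have hV' : PTime V := isPolyTime_iff.1 hV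
  obtain ⟨D, k, q, β, f, hf, hR⟩ := h (Left V p) (left_inNP hV' p)
  have hf' : PTime f := isPolyTime_iff.1 hf
  obtain ⟨c, hc, hcb⟩ := PTime.clock (α := List Bool) (pbd_bnd p q D k β)
  refine ⟨alg V p q D k β f c, (ptime_alg hV' hf' hc).isPolyTime, ?_⟩
  intro x
  rw [hL x, alg_correct (τ := τ) hR x]
  exact (bnd_mono p q D k β (by have := length_le_size x; omega)).trans (hcb x)

end Pool.Agent.SparseNP
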