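import Pool.Agent.Lib.MP_69a69c_lc.Eval4

/-!
# Adaptive reductions with few negative answers: definitions
-/

namespace Pool.Agent.SparseNP

open Pool.Agent.PolyTime

open Classical in
/-- An adaptive oracle algorithm is given by its next-query function `M`: on the input `x`, after
the answers `a` (a list of bits, the oldest one first), it asks the query `q` if
`M (x, a) = some q`, and it stops if `M (x, a) = none`. `run M S x n a` is the list of all answers
after at most `n` further queries to the oracle `S`, when the answers up to now are `a`. -/
noncomputable def run (M : List Bool × List Bool → Option (List Bool)) (S : Set (List Bool))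
    (x : List Bool) : ℕ → List Bool → List Bool
  | 0, a => a
  | n + 1, a => match M (x, a) with
    | none => a
    | some q => run M S x n (a ++ [decide (q ∈ S)])

/-- The same run when the oracle is given by the finite list `Sh`. -/
def runL (M : List Bool × List Bool → Option (List Bool)) (Sh : List (List Bool))
    (x : List Bool) : ℕ → List Bool → List Bool
  | 0, a => a
  | n + 1, a => match M (x, a) with
    | none => a
    | some q => runL M Sh x n (a ++ [decide (q ∈ Sh)])

/-- `L` is reducible to `S` by an adaptive polynomial-time reduction with few negative answers on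
one side: the next-query function `M` and the verdict `R` are computed in polynomial time, at most
`T(|x|)` queries are asked, `x` belongs to `L` iff the verdict on the list of answers is positive,
and, for all `x` in `L` (if `b = true`) or for all `x` outside `L` (if `b = false`), at most `k` of
the answers are negative. -/
def FewNegativeReducible (S : Set (List Bool)) (L : Set (List Bool)) : Prop :=
  ∃ (k : ℕ) (b : Bool) (T : Polynomial ℕ) (M : List Bool × List Bool → Option (List Bool))
    (R : List Bool × List Bool → Bool),
    IsPolyTime (enc : List Bool × List Bool → D) (enc : Option (List Bool) → D) M ∧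
    IsPolyTime (enc : List Bool × List Bool → D) (enc : Bool → D) R ∧
    ∀ x, (x ∈ L ↔ R (x, run M S x (T.eval x.length) []) = true) ∧
      ((x ∈ L ↔ b = true) → (run M S x (T.eval x.length) []).count false ≤ k)

/-- The version with few negative answers on all inputs. -/
def FewNeg (S : Set (List Bool)) (L : Set (List Bool)) : Prop :=
  ∃ (k : ℕ) (T : Polynomial ℕ) (M : List Bool × List Bool → Option (List Bool))
    (R : List Bool × List Bool → Bool), PTime M ∧ PTime R ∧
    ∀ x, (x ∈ L ↔ R (x, run M S x (T.eval x.length) []) = true) ∧
      (run M S x (T.eval x.length) []).count false ≤ k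

/-- Hidden thresholds: `L` has a polynomial-time decision procedure relative to the explicit list
of the elements of `S`, and membership in `L` of the strings of length at most `N` is the sign of
a polynomial of bounded degree at a hidden integer point depending on `N` only. -/
def Hidden (S : Set (List Bool)) (L : Set (List Bool)) : Prop :=
  (∃ (mq : Polynomial ℕ) (e : List (List Bool) → List Bool → Bool),
    PTime (fun z : List (List Bool) × List Bool => e z.1 z.2) ∧
    ∀ (y : List Bool) (Sh : List (List Bool)), (∀ s ∈ Sh, s ∈ S) →
      (∀ s : List Bool, s.length ≤ mq.eval y.length → (s ∈ Sh ↔ s ∈ S)) →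
      (e Sh y = true ↔ y ∈ L)) ∧
  ∃ (k : ℕ) (b q : Polynomial ℕ) (F : List Unit × List Bool → PP × PP), PTime F ∧
    ∀ N : ℕ, ∃ τ : ℕ → ℤ, (∀ i, |τ i| ≤ 2 ^ b.eval N) ∧
      ∀ y : List Bool, y.length ≤ N →
        (∀ t ∈ (F (List.replicate N (), y)).1 ++ (F (List.replicate N (), y)).2,
          t.2.length ≤ k ∧ ∀ i ∈ t.2, i ≤ q.eval N) ∧
        (y ∈ L ↔ value τ (F (List.replicate N (), y)).2 <
          value τ (F (List.replicate N (), y)).1)

/-! ### the tree of a reduction -/

/-- the number of a string -/
def num (q : List Bool) : ℕ := ofBits (q ++ [true])

/-- the nodes and the queries on the path from `a` on which all answers are positive -/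
def spine (M : List Bool × List Bool → Option (List Bool)) (y : List Bool) :
    ℕ → List Bool → List (List Bool × List Bool)
  | 0, _ => []
  | n + 1, a => match M (y, a) with
    | none => []
    | some q => (a, q) :: spine M y n (a ++ [true])

/-- the end of this path -/
def yesEnd (M : List Bool × List Bool → Option (List Bool)) (y : List Bool) :
    ℕ → List Bool → List Bool
  | 0, a => a
  | n + 1, a => match M (y, a) with
    | none => a
    | some _ => yesEnd M y n (a ++ [true])

/-- terms with signs -/
abbrev ST := Bool × (ℕ × List ℕ)

/-- the weight of the node `a` at level `j` -/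
def wt (T g j : ℕ) (a : List Bool) : ℕ := 2 ^ ((T + 1 - a.length) * ((T + 3) ^ j * g))

/-- the terms of the polynomial of the node `a`, when at most `j` further negative answers are
considered -/
def terms (M : List Bool × List Bool → Option (List Bool)) (R : List Bool × List Bool → Bool)
    (y : List Bool) (T g : ℕ) (U : List ℕ) : ℕ → List Bool → List ST
  | 0, a => [(R (y, yesEnd M y (T - a.length) a), (1, []))]
  | j + 1, a => (R (y, yesEnd M y (T - a.length) a), (1, [])) ::
    (spine M y (T - a.length) a).flatMap fun p =>
      U.flatMap fun i => (terms M R y T g U j (p.1 ++ [false])).map fun t =>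
        (t.1, (wt T g j p.1 * num p.2 ^ i * t.2.1, i :: t.2.2))

/-- the value of a list of terms with signs -/
def sval (τ : ℕ → ℤ) (L : List ST) : ℤ :=
  (L.map fun t => sgn t.1 * ((t.2.1 : ℤ) * (t.2.2.map τ).prod)).sum

/-- the value of the hidden polynomial in one variable -/
def hid (τ : ℕ → ℤ) (U : List ℕ) (q : List Bool) : ℤ := (U.map fun i => τ i * (num q : ℤ) ^ i).sum

end Pool.Agent.SparseNP
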