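import Pool.Agent.Lib.MP_69a69c_lc.NegDefs
import Pool.Agent.Lib.MP_69a69c_lc.Hash

/-!
# Few negative answers: the polynomial vanishing exactly on the elements of `S`
-/

namespace Pool.Agent.SparseNP

open Pool.Agent.PolyTime Polynomial

private theorem num_eq (q : List Bool) : num q = ofBits q + 2 ^ q.length := by
  unfold num
  rw [ofBits_append]
  simp

theorem num_inj : Function.Injective num := by
  intro u v h
  rw [num_eq, num_eq] at h
  have hu := ofBits_lt u
  have hv := ofBits_lt v
  have hl : u.length = v.length := by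
    rcases lt_trichotomy u.length v.length with h1 | h1 | h1
    · have : 2 ^ (u.length + 1) ≤ 2 ^ v.length := Nat.pow_le_pow_right (by norm_num) h1
      rw [pow_succ] at this
      omega
    · exact h1
    · have : 2 ^ (v.length + 1) ≤ 2 ^ u.length := Nat.pow_le_pow_right (by norm_num) h1
      rw [pow_succ] at this
      omega
  rw [hl] at h
  exact ofBits_inj u v hl (by omega)

private theorem num_lt (q : List Bool) : num q < 2 ^ (q.length + 1) := by
  have := ofBits_lt q
  rw [num_eq, pow_succ]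
  omega

private theorem num_lt' (q : List Bool) (m : ℕ) (h : q.length ≤ m) : num q < 2 ^ (m + 1) :=
  lt_of_lt_of_le (num_lt q) (Nat.pow_le_pow_right (by norm_num) (by omega))

private theorem coeff_step (a : ℕ) (p : ℤ[X]) (K M : ℤ) (hp : ∀ i, |p.coeff i| ≤ K)
    (ha : (a : ℤ) + 1 ≤ M) (hK : 0 ≤ K) (i : ℕ) :
    |((X - C (a : ℤ)) * p).coeff i| ≤ M * K := by
  have h1 : ((X - C (a : ℤ)) * p).coeff i = (X * p).coeff i - a * p.coeff i := by
    rw [sub_mul, coeff_sub, coeff_C_mul]
  have h2 : |(X * p).coeff i| ≤ K := by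
    cases i with
    | zero => simpa using hK
    | succ i => rw [coeff_X_mul]; exact hp i
  have h3 : |(a : ℤ) * p.coeff i| ≤ a * K := by
    rw [abs_mul, Nat.abs_cast]
    exact mul_le_mul_of_nonneg_left (hp i) (by positivity)
  rw [h1]
  calc |(X * p).coeff i - a * p.coeff i| ≤ |(X * p).coeff i| + |(a : ℤ) * p.coeff i| := abs_sub _ _
    _ ≤ K + a * K := add_le_add h2 h3
    _ = (a + 1) * K := by ring
    _ ≤ M * K := mul_le_mul_of_nonneg_right ha hK

private noncomputable def dpoly (A : Finset ℕ) : ℤ[X] := ∏ a ∈ A, (X - C (a : ℤ)) ^ 2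

private theorem dpoly_coeff (A : Finset ℕ) (m : ℕ) (hA : ∀ a ∈ A, a < 2 ^ (m + 1)) (i : ℕ) :
    |(dpoly A).coeff i| ≤ 2 ^ (2 * A.card * (m + 1)) := by
  classical
  induction A using Finset.induction_on generalizing i with
  | empty =>
    simp only [dpoly, Finset.prod_empty, Finset.card_empty]
    rw [coeff_one]
    split_ifs <;> simp
  | insert a A ha ih =>
    have h1 : dpoly (insert a A) = (X - C (a : ℤ)) * ((X - C (a : ℤ)) * dpoly A) := by
      unfold dpoly
      rw [Finset.prod_insert ha]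
      ring
    have h2 : (a : ℤ) + 1 ≤ 2 ^ (m + 1) := by
      have := hA a (Finset.mem_insert_self a A)
      exact_mod_cast this
    have h3 := ih (fun b hb => hA b (Finset.mem_insert_of_mem hb))
    have h4 := coeff_step a (dpoly A) _ _ h3 h2 (by positivity)
    have h5 := coeff_step a _ _ _ h4 h2 (by positivity) i
    rw [h1, Finset.card_insert_of_notMem ha]
    calc _ ≤ _ := h5
      _ = 2 ^ (2 * (A.card + 1) * (m + 1)) := by ring

private theorem dpoly_natDegree (A : Finset ℕ) : (dpoly A).natDegree ≤ 2 * A.card := by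
  unfold dpoly
  refine (natDegree_prod_le _ _).trans ?_
  calc ∑ a ∈ A, ((X - C (a : ℤ)) ^ 2).natDegree ≤ ∑ a ∈ A, 2 := by
        refine Finset.sum_le_sum fun a _ => ?_
        refine (natDegree_pow_le).trans ?_
        rw [natDegree_X_sub_C]
    _ = 2 * A.card := by rw [Finset.sum_const, smul_eq_mul, mul_comm]

private theorem dpoly_eval (A : Finset ℕ) (x : ℤ) :
    (dpoly A).eval x = ∏ a ∈ A, (x - a) ^ 2 := by
  unfold dpoly
  rw [eval_prod]
  simp

theorem dist_exists (S : Set (List Bool)) (m r : ℕ)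
    (hr : (S ∩ {x | x.length ≤ m}).ncard ≤ r) :
    ∃ τ : ℕ → ℤ, (∀ i, |τ i| ≤ 2 ^ (2 * r * (m + 1))) ∧
      ∀ q : List Bool, q.length ≤ m →
        (q ∈ S → hid τ (List.range (2 * r + 1)) q = 0) ∧
        (q ∉ S → 1 ≤ hid τ (List.range (2 * r + 1)) q) ∧
        hid τ (List.range (2 * r + 1)) q ≤ 2 ^ (2 * r * (m + 1)) := by
  classical
  have hfin : (S ∩ {x : List Bool | x.length ≤ m}).Finite :=
    (List.finite_length_le Bool m).subset Set.inter_subset_right
  set A : Finset ℕ := hfin.toFinset.image num with hA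
  have hcard : A.card ≤ r := by
    rw [Set.ncard_eq_toFinset_card _ hfin] at hr
    exact Finset.card_image_le.trans hr
  have hmem : ∀ q : List Bool, q.length ≤ m → (num q ∈ A ↔ q ∈ S) := by
    intro q hq
    rw [hA, Finset.mem_image]
    constructor
    · rintro ⟨s, hs, hsq⟩
      rw [Set.Finite.mem_toFinset] at hs
      rw [← num_inj hsq]
      exact hs.1
    · intro h
      exact ⟨q, by rw [Set.Finite.mem_toFinset]; exact ⟨h, hq⟩, rfl⟩
  have hlt : ∀ a ∈ A, a < 2 ^ (m + 1) := by
    intro a ha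
    rw [hA, Finset.mem_image] at ha
    obtain ⟨s, hs, rfl⟩ := ha
    rw [Set.Finite.mem_toFinset] at hs
    exact num_lt' s m hs.2
  have hpow : (2 : ℤ) ^ (2 * A.card * (m + 1)) ≤ 2 ^ (2 * r * (m + 1)) := by
    refine pow_le_pow_right₀ (by norm_num) ?_
    gcongr
  refine ⟨fun i => (dpoly A).coeff i, fun i => (dpoly_coeff A m hlt i).trans hpow, ?_⟩
  intro q hq
  have hval : hid (fun i => (dpoly A).coeff i) (List.range (2 * r + 1)) q =
      ∏ a ∈ A, ((num q : ℤ) - a) ^ 2 := by
    rw [← dpoly_eval, eval_eq_sum_range' (n := 2 * r + 1)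
      (by have := dpoly_natDegree A; omega)]
    unfold hid
    rw [Finset.sum_eq_multiset_sum]
    rfl
  rw [hval]
  refine ⟨fun h => ?_, fun h => ?_, ?_⟩
  · refine Finset.prod_eq_zero ((hmem q hq).2 h) ?_
    simp
  · refine Int.add_one_le_iff.2 (Finset.prod_pos fun a ha => ?_)
    have hne : (num q : ℤ) - a ≠ 0 := by
      intro h0
      have : num q = a := by omega
      exact h ((hmem q hq).1 (this ▸ ha))
    positivity
  · refine le_trans ?_ hpow
    calc ∏ a ∈ A, ((num q : ℤ) - a) ^ 2 ≤ ∏ _a ∈ A, ((2 : ℤ) ^ (m + 1)) ^ 2 := by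
          refine Finset.prod_le_prod (fun a _ => by positivity) fun a ha => ?_
          have h1 := hlt a ha
          have h2 := num_lt' q m hq
          have h1' : (a : ℤ) < 2 ^ (m + 1) := by exact_mod_cast h1
          have h2' : (num q : ℤ) < 2 ^ (m + 1) := by exact_mod_cast h2
          refine sq_le_sq' ?_ ?_ <;> omega
      _ = 2 ^ (2 * A.card * (m + 1)) := by
          rw [Finset.prod_const, ← pow_mul, ← pow_mul]
          ring_nf

end Pool.Agent.SparseNP
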