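import Pool.Agent.Lib.MP_69a69c_lc.NegDefs

/-!
# Few negative answers: deciding the language with an explicit list

`query_len`: the queries are polynomially short, by `PTime.size_le`.  `runL_eq`: a run with the
explicit list of the short elements of the oracle is the run with the oracle.  `ptime_runL`: the
run with an explicit list is a left fold over polynomially many units, hence computed in
polynomial time.  `neg_eval`: the resulting decision procedure.
-/

namespace Pool.Agent.SparseNP

open Pool.Agent.PolyTime

theorem query_len {M : List Bool × List Bool → Option (List Bool)} (hM : PTime M)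
    (T : Polynomial ℕ) : ∃ mq : Polynomial ℕ, ∀ (y a q : List Bool),
      a.length ≤ T.eval y.length → M (y, a) = some q → q.length ≤ mq.eval y.length := by
  obtain ⟨F, hF, hFm, hFs⟩ := hM.size_le
  have hB : PBd fun n => F (4 * n + 4 * T.eval n + 3) := by
    refine hF.comp ?_
    exact (((PBd.const 4).mul PBd.id).add ((PBd.const 4).mul ⟨T, fun n => le_refl _⟩)).add
      (PBd.const 3)
  obtain ⟨mq, hmq⟩ := hB
  refine ⟨mq, fun y a q ha hq => ?_⟩
  have h1 := hFs (y, a)
  rw [hq, enc_some, size_cons, size_nil] at h1
  have h2 := length_le_size q
  have h3 : size (enc (y, a)) ≤ 4 * y.length + 4 * T.eval y.length + 3 := by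
    rw [size_pair]
    have h4 := size_bits_le y
    have h5 := size_bits_le a
    omega
  have h6 := hFm h3
  have h7 := hmq y.length
  simp only at h7
  omega

theorem runL_eq {M : List Bool × List Bool → Option (List Bool)} {S : Set (List Bool)}
    {Sh : List (List Bool)} {y : List Bool} {N m : ℕ}
    (hq : ∀ a q, a.length ≤ N → M (y, a) = some q → q.length ≤ m)
    (hSh : ∀ s : List Bool, s.length ≤ m → (s ∈ Sh ↔ s ∈ S)) :
    ∀ (n : ℕ) (a : List Bool), a.length + n ≤ N → runL M Sh y n a = run M S y n a := by
  intro n
  induction n with
  | zero => intro a _; rfl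
  | succ n ih =>
    intro a ha
    cases hMa : M (y, a) with
    | none => rw [runL, run, hMa]
    | some q =>
      have hl := hq a q (by omega) hMa
      have e : decide (q ∈ Sh) = @decide (q ∈ S) (Classical.propDecidable _) :=
        decide_eq_decide.mpr (hSh q hl)
      rw [runL, run, hMa]
      simp only
      rw [e]
      exact ih _ (by rw [List.length_append, List.length_singleton]; omega)

/-- one step of the run with an explicit list -/
private def stepL (M : List Bool × List Bool → Option (List Bool))
    (z : List (List Bool) × List Bool) (a : List Bool) (_ : Unit) : List Bool :=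
  match M (z.2, a) with
  | none => a
  | some q => a ++ [decide (q ∈ z.1)]

private theorem stepL_fix (M : List Bool × List Bool → Option (List Bool))
    (z : List (List Bool) × List Bool) (a : List Bool) (h : M (z.2, a) = none) :
    ∀ n : ℕ, (List.replicate n ()).foldl (stepL M z) a = a := by
  intro n
  induction n with
  | zero => rfl
  | succ n ih =>
    rw [List.replicate_succ, List.foldl_cons]
    have : stepL M z a () = a := by rw [stepL, h]
    rw [this]
    exact ih

private theorem runL_fold (M : List Bool × List Bool → Option (List Bool))
    (z : List (List Bool) × List Bool) : ∀ (n : ℕ) (a : List Bool),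
    (List.replicate n ()).foldl (stepL M z) a = runL M z.1 z.2 n a := by
  intro n
  induction n with
  | zero => intro a; rfl
  | succ n ih =>
    intro a
    cases hMa : M (z.2, a) with
    | none =>
      rw [stepL_fix M z a hMa, runL, hMa]
    | some q =>
      rw [List.replicate_succ, List.foldl_cons, runL, hMa]
      have : stepL M z a () = a ++ [decide (q ∈ z.1)] := by rw [stepL, hMa]
      rw [this]
      exact ih _

private theorem stepL_length (M : List Bool × List Bool → Option (List Bool))
    (z : List (List Bool) × List Bool) : ∀ (l : List Unit) (a : List Bool),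
    (l.foldl (stepL M z) a).length ≤ a.length + l.length := by
  intro l
  induction l with
  | nil => intro a; simp
  | cons u l ih =>
    intro a
    rw [List.foldl_cons]
    refine (ih _).trans ?_
    have : (stepL M z a u).length ≤ a.length + 1 := by
      rw [stepL]
      cases M (z.2, a) with
      | none => simp
      | some q => simp
    rw [List.length_cons]
    omega

private theorem ptime_stepL {M : List Bool × List Bool → Option (List Bool)} (hM : PTime M) :
    PTime (fun p : (List (List Bool) × List Bool) × (List Bool × Unit) =>
      stepL M p.1 p.2.1 p.2.2) := by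
  have ha : PTime (fun p : (List (List Bool) × List Bool) × (List Bool × Unit) => p.2.1) :=
    PTime.fst.comp PTime.snd
  have hz2 : PTime (fun p : (List (List Bool) × List Bool) × (List Bool × Unit) => p.1.2) :=
    PTime.snd.comp PTime.fst
  have hf : PTime (fun p : (List (List Bool) × List Bool) × (List Bool × Unit) =>
      M (p.1.2, p.2.1)) := hM.comp (hz2.pair ha)
  have hq : PTime (fun r : ((List (List Bool) × List Bool) × (List Bool × Unit)) × List Bool =>
      r.2) := PTime.snd
  have hS : PTime (fun r : ((List (List Bool) × List Bool) × (List Bool × Unit)) × List Bool =>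
      r.1.1.1) := PTime.fst.comp (PTime.fst.comp PTime.fst)
  have hd : PTime (fun r : ((List (List Bool) × List Bool) × (List Bool × Unit)) × List Bool =>
      decide (r.2 ∈ r.1.1.1)) := PTime.mem hq hS
  have ha' : PTime (fun r : ((List (List Bool) × List Bool) × (List Bool × Unit)) × List Bool =>
      r.1.2.1) := PTime.fst.comp (PTime.snd.comp PTime.fst)
  have hh : PTime (fun r : ((List (List Bool) × List Bool) × (List Bool × Unit)) × List Bool =>
      r.1.2.1 ++ [decide (r.2 ∈ r.1.1.1)]) := ha'.append (hd.cons (PTime.const []))
  refine (PTime.option_cases hf ha hh).of_eq fun p => ?_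
  unfold stepL
  cases M (p.1.2, p.2.1) <;> rfl

theorem ptime_runL {M : List Bool × List Bool → Option (List Bool)} (hM : PTime M)
    (T : Polynomial ℕ) : PTime (fun z : List (List Bool) × List Bool =>
      runL M z.1 z.2 (T.eval z.2.length) []) := by
  have hf : PTime (fun z : List (List Bool) × List Bool =>
      List.replicate (T.eval z.2.length) ()) := PTime.unaryPoly PTime.snd T
  have hB : PBd fun n => 4 * T.eval n + 1 :=
    ((PBd.const 4).mul ⟨T, fun n => le_refl _⟩).add (PBd.const 1)
  have key := PTime.foldl (f := fun z : List (List Bool) × List Bool =>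
      List.replicate (T.eval z.2.length) ()) (g := fun _ => ([] : List Bool))
      (h := stepL M) hf (PTime.const []) (ptime_stepL hM) hB ?_
  · exact key.of_eq fun z => runL_fold M z _ _
  · intro z l₁ l₂ hl
    have h1 := stepL_length M z l₁ []
    have h2 := size_bits_le (l₁.foldl (stepL M z) [])
    have h3 : l₁.length ≤ T.eval z.2.length := by
      have := congrArg List.length hl
      rw [List.length_replicate, List.length_append] at this
      omega
    have h4 : z.2.length ≤ size (enc z) := by
      have h5 := length_le_size z.2
      have h6 : size (enc z) = size (enc z.1) + size (enc z.2) + 1 := size_pair z.1 z.2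
      omega
    have h7 := eval_mono T h4
    simp only at h7
    rw [List.length_nil] at h1
    omega

theorem neg_eval {S L : Set (List Bool)} {T : Polynomial ℕ}
    {M : List Bool × List Bool → Option (List Bool)} {R : List Bool × List Bool → Bool}
    (hM : PTime M) (hR : PTime R)
    (h : ∀ x, x ∈ L ↔ R (x, run M S x (T.eval x.length) []) = true) :
    ∃ (mq : Polynomial ℕ) (e : List (List Bool) → List Bool → Bool),
    PTime (fun z : List (List Bool) × List Bool => e z.1 z.2) ∧
    ∀ (y : List Bool) (Sh : List (List Bool)), (∀ s ∈ Sh, s ∈ S) →
      (∀ s : List Bool, s.length ≤ mq.eval y.length → (s ∈ Sh ↔ s ∈ S)) →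
      (e Sh y = true ↔ y ∈ L) := by
  obtain ⟨mq, hmq⟩ := query_len hM T
  refine ⟨mq, fun Sh y => R (y, runL M Sh y (T.eval y.length) []), ?_, ?_⟩
  · exact hR.comp (PTime.snd.pair (ptime_runL hM T))
  · intro y Sh _ hSh
    have e := runL_eq (M := M) (S := S) (Sh := Sh) (y := y) (N := T.eval y.length)
      (m := mq.eval y.length) (fun a q ha hq => hmq y a q ha hq) hSh (T.eval y.length) []
      (by rw [List.length_nil]; omega)
    simp only
    rw [e]
    exact (h y).symm

end Pool.Agent.SparseNP
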