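import Pool.Agent.Lib.MP_69a69c_lc.NegDefs

/-!
# Few negative answers: the sign of the polynomial of a reduction 

PROOF. `sval_split`: induction on the list `L` (definition of `sgn`, `value_cons`).
`terms_mem`: induction on `j`.
`terms_sign`: put `G j = 2 ^ ((T + 3) ^ j * g)` and `C 0 = 1`, `C (j + 1) = 2 * B * C j *
G j ^ (T + 1)` (integers). INVARIANTS: `2 * B * C j + 1 ≤ G j` and `2 * B + 1 ≤ G j`. For `j = 0`
this is `hg`. `G (j + 1) = G j ^ (T + 3)`, and `2 B C_{j+1} + 1 = 4 B² C_j G_j^{T+1} + 1 ≤
G_j^{T+3}` because `G_j² ≥ (2 B C_j + 1)(2 B + 1) ≥ 4 B² C_j + 1`.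
CLAIM for `j` and all `a` with `a.length ≤ T`: (1) `|sval τ (terms .. j a)| ≤ C j`; (2) if
`(run M S y (T - a.length) a).count false ≤ a.count false + j` then
`1 ≤ sgn (R (y, run M S y (T - a.length) a)) * sval τ (terms .. j a)`.
`j = 0`: the value is `sgn (R (y, yesEnd ..))`, and if the run has no new negative answer it is the
all-yes run, so `run .. = yesEnd ..` (a run only appends letters).
STEP. By the definition, `sval τ (terms .. (j+1) a) = V (T - a.length) a` where
`V n a = sgn (R (y, yesEnd M y n a)) + ∑_{(a', q) in spine M y n a} wt T g j a' * hid τ U q *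
sval τ (terms .. j (a' ++ [false]))` (the inner sum over `i ∈ U` is `hid`). Induction on `n` for
all `a` with `a.length + n = T`: `|V n a| ≤ 2 B C_j G_j ^ (n + 1)` and (2) for `V n a`. For
`n = 0`, or if `M (y, a) = none`: `V n a = sgn (R (y, a))`, the run is `a`, and
`1 ≤ 2 B C_j G_j ^ (n+1)`. If `M (y, a) = some q` (with `n + 1`): `V (n + 1) a = V n (a ++ [true]) +
G_j ^ (n + 2) * hid τ U q * X` with `X = sval τ (terms .. j (a ++ [false]))`, `|X| ≤ C j`, since
`T + 1 - a.length = n + 2`. Bound: `2 B C_j G_j^{n+1} + G_j^{n+2} B C_j ≤ 2 B C_j G_j^{n+2}` as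
`G_j ≥ 2`. Sign: if `q ∈ S` then `hid τ U q = 0`, `V (n+1) a = V n (a ++ [true])`, and the run goes on
with `a ++ [true]`. If `q ∉ S` then `hid τ U q ≥ 1`, the run goes on with `a ++ [false]` and has at
most `j` further negative answers, so `sgn * X ≥ 1` (claim for `j`, note
`T - (a ++ [false]).length = n`), and `sgn * V (n+1) a ≥ G_j^{n+2} - 2 B C_j G_j^{n+1} ≥ 1`.
-/

namespace Pool.Agent.SparseNP

open Pool.Agent.PolyTime

/-! ### values of lists of terms with signs -/

private theorem ns_sval_nil (τ : ℕ → ℤ) : sval τ [] = 0 := rfl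

private theorem ns_sval_cons (τ : ℕ → ℤ) (t : ST) (L : List ST) :
    sval τ (t :: L) = sgn t.1 * ((t.2.1 : ℤ) * (t.2.2.map τ).prod) + sval τ L := by
  simp [sval]

private theorem ns_sval_append (τ : ℕ → ℤ) (L L' : List ST) :
    sval τ (L ++ L') = sval τ L + sval τ L' := by
  simp [sval]

private theorem ns_sval_flatMap {α : Type} (τ : ℕ → ℤ) (l : List α) (f : α → List ST) :
    sval τ (l.flatMap f) = (l.map fun a => sval τ (f a)).sum := by
  induction l with
  | nil => rfl
  | cons a l ih =>
    rw [List.flatMap_cons, ns_sval_append, ih, List.map_cons, List.sum_cons]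

theorem sval_split (τ : ℕ → ℤ) (L : List ST) :
    sval τ L = value τ ((L.filter fun t => t.1).map fun t => t.2) -
      value τ ((L.filter fun t => !t.1).map fun t => t.2) := by
  induction L with
  | nil => rfl
  | cons t L ih =>
    obtain ⟨b, t⟩ := t
    cases b with
    | true =>
      have e1 : (((true, t) :: L).filter fun t => t.1) = (true, t) :: (L.filter fun t => t.1) := by
        rw [List.filter_cons]
        rfl
      have e2 : (((true, t) :: L).filter fun t => !t.1) = (L.filter fun t => !t.1) := by
        rw [List.filter_cons]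
        rfl
      rw [ns_sval_cons, e1, e2, List.map_cons, value_cons, ih]
      simp only [sgn, if_true, one_mul]
      ring
    | false =>
      have e1 : (((false, t) :: L).filter fun t => t.1) = (L.filter fun t => t.1) := by
        rw [List.filter_cons]
        rfl
      have e2 : (((false, t) :: L).filter fun t => !t.1) =
          (false, t) :: (L.filter fun t => !t.1) := by
        rw [List.filter_cons]
        rfl
      rw [ns_sval_cons, e1, e2, List.map_cons, value_cons, ih]
      simp only [sgn]
      norm_num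
      ring

theorem terms_mem {M : List Bool × List Bool → Option (List Bool)}
    {R : List Bool × List Bool → Bool} {y : List Bool} {T g : ℕ} {U : List ℕ} :
    ∀ (j : ℕ) (a : List Bool), ∀ t ∈ terms M R y T g U j a,
      t.2.2.length ≤ j ∧ ∀ i ∈ t.2.2, i ∈ U := by
  intro j
  induction j with
  | zero =>
    intro a t ht
    simp only [terms, List.mem_singleton] at ht
    subst ht
    exact ⟨le_rfl, fun i hi => absurd hi List.not_mem_nil⟩
  | succ j ih =>
    intro a t ht
    rw [terms, List.mem_cons] at ht
    rcases ht with rfl | ht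
    · exact ⟨Nat.zero_le _, fun i hi => absurd hi List.not_mem_nil⟩
    · obtain ⟨p, _, ht⟩ := List.mem_flatMap.1 ht
      obtain ⟨i, hi, ht⟩ := List.mem_flatMap.1 ht
      obtain ⟨t', ht', rfl⟩ := List.mem_map.1 ht
      obtain ⟨h1, h2⟩ := ih _ t' ht'
      refine ⟨?_, ?_⟩
      · show (i :: t'.2.2).length ≤ j + 1
        rw [List.length_cons]
        omega
      · intro i' hi'
        rcases List.mem_cons.1 hi' with rfl | hi'
        · exact hi
        · exact h2 i' hi'

/-! ### runs -/

private theorem ns_run_some {M : List Bool × List Bool → Option (List Bool)}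
    {S : Set (List Bool)} {y a q : List Bool} (n : ℕ) (h : M (y, a) = some q) :
    (q ∈ S → run M S y (n + 1) a = run M S y n (a ++ [true])) ∧
      (q ∉ S → run M S y (n + 1) a = run M S y n (a ++ [false])) := by
  constructor
  · intro hq
    rw [run, h]
    simp only [hq, decide_true]
  · intro hq
    rw [run, h]
    simp only [hq, decide_false]

private theorem ns_run_none {M : List Bool × List Bool → Option (List Bool)}
    {S : Set (List Bool)} {y a : List Bool} (n : ℕ) (h : M (y, a) = none) :
    run M S y (n + 1) a = a := by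
  rw [run, h]

private theorem ns_count_true (a : List Bool) : (a ++ [true]).count false = a.count false := by
  rw [List.count_append]
  rfl

private theorem ns_count_false (a : List Bool) :
    (a ++ [false]).count false = a.count false + 1 := by
  rw [List.count_append]
  rfl

private theorem ns_count_le {M : List Bool × List Bool → Option (List Bool)}
    {S : Set (List Bool)} {y : List Bool} :
    ∀ (n : ℕ) (a : List Bool), a.count false ≤ (run M S y n a).count false := by
  intro n
  induction n with
  | zero => intro a; exact le_rfl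
  | succ n ih =>
    intro a
    cases h : M (y, a) with
    | none => rw [ns_run_none n h]
    | some q =>
      by_cases hq : q ∈ S
      · rw [(ns_run_some n h).1 hq]
        exact (ns_count_true a).symm.le.trans (ih _)
      · rw [(ns_run_some n h).2 hq]
        refine le_trans ?_ (ih _)
        rw [ns_count_false]
        exact Nat.le_succ _

private theorem ns_run_yes {M : List Bool × List Bool → Option (List Bool)}
    {S : Set (List Bool)} {y : List Bool} :
    ∀ (n : ℕ) (a : List Bool), (run M S y n a).count false ≤ a.count false →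
      run M S y n a = yesEnd M y n a := by
  intro n
  induction n with
  | zero => intro a _; rfl
  | succ n ih =>
    intro a ha
    cases h : M (y, a) with
    | none =>
      rw [ns_run_none n h, yesEnd, h]
    | some q =>
      have e1 : yesEnd M y (n + 1) a = yesEnd M y n (a ++ [true]) := by
        rw [yesEnd, h]
      rw [e1]
      by_cases hq : q ∈ S
      · rw [(ns_run_some n h).1 hq] at ha ⊢
        exact ih _ (ha.trans (ns_count_true a).symm.le)
      · rw [(ns_run_some n h).2 hq] at ha
        have := ns_count_le (M := M) (S := S) (y := y) n (a ++ [false])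
        rw [ns_count_false] at this
        omega

/-! ### the growth of the bounds -/

private def nsG (T g j : ℕ) : ℤ := 2 ^ ((T + 3) ^ j * g)

private def nsC (B : ℤ) (T g : ℕ) : ℕ → ℤ
  | 0 => 1
  | j + 1 => 2 * B * nsC B T g j * nsG T g j ^ (T + 1)

private theorem nsG_succ (T g j : ℕ) : nsG T g (j + 1) = nsG T g j ^ (T + 3) := by
  unfold nsG
  rw [← pow_mul]
  congr 1
  ring

private theorem ns_inv {B : ℤ} (hB : 1 ≤ B) {T g : ℕ} (hg : 2 * B + 1 ≤ 2 ^ g) (j : ℕ) :
    1 ≤ nsC B T g j ∧ 2 * B * nsC B T g j + 1 ≤ nsG T g j ∧ 2 * B + 1 ≤ nsG T g j := by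
  induction j with
  | zero =>
    have e1 : nsG T g 0 = 2 ^ g := by
      unfold nsG
      rw [pow_zero, one_mul]
    rw [e1]
    exact ⟨le_rfl, by rw [nsC, mul_one]; exact hg, hg⟩
  | succ j ih =>
    obtain ⟨h1, h2, h3⟩ := ih
    set c := nsC B T g j with hc
    set G := nsG T g j with hG
    have hG1 : 1 ≤ G := by linarith
    have hP : 1 ≤ G ^ (T + 1) := one_le_pow₀ hG1
    have hBc : 1 ≤ B * c := by nlinarith
    rw [nsG_succ, nsC, ← hc, ← hG]
    refine ⟨?_, ?_, ?_⟩
    · have : 1 ≤ 2 * B * c := by nlinarith
      nlinarith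
    · have e1 : (4 * B ^ 2 * c + 1) ≤ G ^ 2 := by
        have : (2 * B * c + 1) * (2 * B + 1) ≤ G * G :=
          mul_le_mul h2 h3 (by linarith) (by linarith)
        nlinarith
      have e2 : G ^ (T + 3) = G ^ (T + 1) * G ^ 2 := by rw [← pow_add]
      have e3 : G ^ (T + 1) * (4 * B ^ 2 * c + 1) ≤ G ^ (T + 1) * G ^ 2 :=
        mul_le_mul_of_nonneg_left e1 (by linarith)
      rw [e2]
      calc 2 * B * (2 * B * c * G ^ (T + 1)) + 1 ≤ G ^ (T + 1) * (4 * B ^ 2 * c + 1) := by
            nlinarith
        _ ≤ _ := e3
    · refine h3.trans ?_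
      exact le_self_pow₀ hG1 (by omega)

/-! ### the polynomial of a node along the path of positive answers -/

/-- value of the polynomial of a node of level `j + 1` -/
private def nsV (M : List Bool × List Bool → Option (List Bool)) (R : List Bool × List Bool → Bool)
    (y : List Bool) (T g : ℕ) (U : List ℕ) (τ : ℕ → ℤ) (j n : ℕ) (a : List Bool) : ℤ :=
  sgn (R (y, yesEnd M y n a)) + ((spine M y n a).map fun p =>
    (wt T g j p.1 : ℤ) * hid τ U p.2 * sval τ (terms M R y T g U j (p.1 ++ [false]))).sum

private theorem ns_inner (τ : ℕ → ℤ) (w m : ℕ) (U : List ℕ) (L : List ST) :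
    sval τ (U.flatMap fun i => L.map fun t => (t.1, (w * m ^ i * t.2.1, i :: t.2.2))) =
      (w : ℤ) * (U.map fun i => τ i * (m : ℤ) ^ i).sum * sval τ L := by
  rw [ns_sval_flatMap]
  have h1 : ∀ i : ℕ, sval τ (L.map fun t => (t.1, (w * m ^ i * t.2.1, i :: t.2.2))) =
      (w : ℤ) * (τ i * (m : ℤ) ^ i) * sval τ L := by
    intro i
    induction L with
    | nil => rw [List.map_nil, ns_sval_nil, mul_zero]
    | cons t L ih =>
      rw [List.map_cons, ns_sval_cons, ns_sval_cons, ih]
      simp only [List.map_cons, List.prod_cons]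
      push_cast
      ring
  induction U with
  | nil => simp
  | cons i U ih =>
    rw [List.map_cons, List.sum_cons, ih, h1, List.map_cons, List.sum_cons]
    ring

private theorem ns_terms {M : List Bool × List Bool → Option (List Bool)}
    {R : List Bool × List Bool → Bool} {y : List Bool} {T g : ℕ} {U : List ℕ} {τ : ℕ → ℤ}
    (j : ℕ) (a : List Bool) :
    sval τ (terms M R y T g U (j + 1) a) = nsV M R y T g U τ j (T - a.length) a := by
  rw [terms, ns_sval_cons, ns_sval_flatMap]
  unfold nsV
  have e1 : sgn (R (y, yesEnd M y (T - a.length) a)) *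
      (((1 : ℕ) : ℤ) * (([] : List ℕ).map τ).prod) = sgn (R (y, yesEnd M y (T - a.length) a)) := by
    simp
  refine congrArg₂ (· + ·) e1 ?_
  refine congrArg List.sum (List.map_congr_left fun p _ => ?_)
  rw [ns_inner]
  rfl

private theorem ns_sgn_sq (b : Bool) : sgn b * sgn b = 1 := by
  cases b <;> simp [sgn]

private theorem ns_sgn_abs (b : Bool) : |sgn b| = 1 := by
  cases b <;> simp [sgn]

private theorem ns_wt (T g j n : ℕ) (a : List Bool) (h : T + 1 - a.length = n) :
    ((wt T g j a : ℕ) : ℤ) = nsG T g j ^ n := by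
  unfold wt nsG
  rw [h, ← pow_mul]
  push_cast
  congr 1
  ring

private theorem ns_V {M : List Bool × List Bool → Option (List Bool)}
    {R : List Bool × List Bool → Bool} {S : Set (List Bool)} {y : List Bool} {T g : ℕ}
    {U : List ℕ} {τ : ℕ → ℤ} {B : ℤ} (hB : 1 ≤ B) (hg : 2 * B + 1 ≤ 2 ^ g)
    (hA : ∀ a q, a.length ≤ T → M (y, a) = some q →
      (q ∈ S → hid τ U q = 0) ∧ (q ∉ S → 1 ≤ hid τ U q) ∧ hid τ U q ≤ B) (j : ℕ)
    (IH : ∀ a : List Bool, a.length ≤ T → |sval τ (terms M R y T g U j a)| ≤ nsC B T g j ∧
      ((run M S y (T - a.length) a).count false ≤ a.count false + j →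
        1 ≤ sgn (R (y, run M S y (T - a.length) a)) * sval τ (terms M R y T g U j a))) :
    ∀ (n : ℕ) (a : List Bool), a.length + n = T →
      |nsV M R y T g U τ j n a| ≤ 2 * B * nsC B T g j * nsG T g j ^ (n + 1) ∧
      ((run M S y n a).count false ≤ a.count false + (j + 1) →
        1 ≤ sgn (R (y, run M S y n a)) * nsV M R y T g U τ j n a) := by
  obtain ⟨i1, i2, i3⟩ := ns_inv hB (T := T) hg j
  set c := nsC B T g j with hc
  set G := nsG T g j with hG
  have hG1 : 1 ≤ G := by linarith
  have hBc : 1 ≤ 2 * B * c := by nlinarith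
  have hbase : ∀ n : ℕ, (1 : ℤ) ≤ 2 * B * c * G ^ (n + 1) := by
    intro n
    have : (1 : ℤ) ≤ G ^ (n + 1) := one_le_pow₀ hG1
    nlinarith
  intro n
  induction n with
  | zero =>
    intro a ha
    have e1 : nsV M R y T g U τ j 0 a = sgn (R (y, a)) := by
      unfold nsV spine yesEnd
      simp
    rw [e1]
    refine ⟨?_, fun _ => ?_⟩
    · rw [ns_sgn_abs]
      exact hbase 0
    · show 1 ≤ sgn (R (y, a)) * sgn (R (y, a))
      rw [ns_sgn_sq]
  | succ n ih =>
    intro a ha
    cases h : M (y, a) with
    | none =>
      have e1 : nsV M R y T g U τ j (n + 1) a = sgn (R (y, a)) := by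
        unfold nsV spine yesEnd
        rw [h]
        simp
      rw [e1, ns_run_none n h]
      refine ⟨?_, fun _ => ?_⟩
      · rw [ns_sgn_abs]
        exact hbase _
      · rw [ns_sgn_sq]
    | some q =>
      have hlen : (a ++ [true]).length + n = T := by
        rw [List.length_append, List.length_singleton]
        omega
      have hlen' : (a ++ [false]).length + n = T := by
        rw [List.length_append, List.length_singleton]
        omega
      obtain ⟨k1, k2⟩ := ih (a ++ [true]) hlen
      obtain ⟨x1, x2⟩ := IH (a ++ [false]) (by omega)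
      rw [show T - (a ++ [false]).length = n by omega] at x2
      obtain ⟨a1, a2, a3⟩ := hA a q (by omega) h
      set X := sval τ (terms M R y T g U j (a ++ [false])) with hX
      have e1 : nsV M R y T g U τ j (n + 1) a =
          nsV M R y T g U τ j n (a ++ [true]) + G ^ (n + 2) * hid τ U q * X := by
        have f1 : yesEnd M y (n + 1) a = yesEnd M y n (a ++ [true]) := by
          rw [yesEnd, h]
        have f2 : spine M y (n + 1) a = (a, q) :: spine M y n (a ++ [true]) := by
          rw [spine, h]
        unfold nsV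
        rw [f1, f2, List.map_cons, List.sum_cons]
        have f3 := ns_wt T g j (n + 2) a (by omega)
        rw [f3, ← hG, ← hX]
        ring
      have hid0 : 0 ≤ hid τ U q := by
        by_cases hq : q ∈ S
        · exact (a1 hq).ge
        · exact zero_le_one.trans (a2 hq)
      have hP : (0 : ℤ) < G ^ (n + 1) := by positivity
      have hP2 : G ^ (n + 2) = G ^ (n + 1) * G := pow_succ _ _
      refine ⟨?_, ?_⟩
      · rw [e1]
        have b1 : |G ^ (n + 2) * hid τ U q * X| ≤ G ^ (n + 2) * B * c := by
          rw [abs_mul, abs_mul, abs_of_nonneg (by positivity : (0 : ℤ) ≤ G ^ (n + 2)),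
            abs_of_nonneg hid0]
          exact mul_le_mul (mul_le_mul_of_nonneg_left a3 (by positivity)) x1 (abs_nonneg _)
            (by positivity)
        have b2 := abs_add_le (nsV M R y T g U τ j n (a ++ [true])) (G ^ (n + 2) * hid τ U q * X)
        have b3 : 2 * B * c * G ^ (n + 1) + G ^ (n + 2) * B * c ≤
            2 * B * c * G ^ (n + 1 + 1) := by
          rw [show n + 1 + 1 = n + 2 by omega, hP2]
          have b4 : (2 : ℤ) ≤ G := by linarith
          have b5 : (0 : ℤ) ≤ B * c * G ^ (n + 1) := by positivity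
          nlinarith
        linarith
      · intro hcnt
        by_cases hq : q ∈ S
        · rw [(ns_run_some n h).1 hq] at hcnt ⊢
          rw [e1, a1 hq, mul_zero, zero_mul, add_zero]
          exact k2 (by rw [ns_count_true]; exact hcnt)
        · rw [(ns_run_some n h).2 hq] at hcnt ⊢
          have x3 := x2 (by rw [ns_count_false]; omega)
          set s := sgn (R (y, run M S y n (a ++ [false]))) with hs
          have hsa : |s| = 1 := ns_sgn_abs _
          have g1 : -(2 * B * c * G ^ (n + 1)) ≤ s * nsV M R y T g U τ j n (a ++ [true]) := by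
            have : |s * nsV M R y T g U τ j n (a ++ [true])| ≤ 2 * B * c * G ^ (n + 1) := by
              rw [abs_mul, hsa, one_mul]
              exact k1
            exact (abs_le.1 this).1
          have g2 : G ^ (n + 2) ≤ G ^ (n + 2) * hid τ U q * (s * X) := by
            have g3 : 1 ≤ hid τ U q * (s * X) := by nlinarith [a2 hq]
            have g4 : (0 : ℤ) ≤ G ^ (n + 2) := by positivity
            nlinarith
          rw [e1]
          have g5 : s * (nsV M R y T g U τ j n (a ++ [true]) + G ^ (n + 2) * hid τ U q * X) =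
              s * nsV M R y T g U τ j n (a ++ [true]) + G ^ (n + 2) * hid τ U q * (s * X) := by
            ring
          rw [g5]
          have g6 : 1 ≤ G ^ (n + 1) * (G - 2 * B * c) := by
            have g7 : 1 ≤ G - 2 * B * c := by linarith
            have g8 : (1 : ℤ) ≤ G ^ (n + 1) := hP
            nlinarith
          rw [hP2] at g2 ⊢
          nlinarith

private theorem ns_claim {M : List Bool × List Bool → Option (List Bool)}
    {R : List Bool × List Bool → Bool} {S : Set (List Bool)} {y : List Bool} {T g : ℕ}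
    {U : List ℕ} {τ : ℕ → ℤ} {B : ℤ} (hB : 1 ≤ B) (hg : 2 * B + 1 ≤ 2 ^ g)
    (hA : ∀ a q, a.length ≤ T → M (y, a) = some q →
      (q ∈ S → hid τ U q = 0) ∧ (q ∉ S → 1 ≤ hid τ U q) ∧ hid τ U q ≤ B) (j : ℕ) :
    ∀ a : List Bool, a.length ≤ T → |sval τ (terms M R y T g U j a)| ≤ nsC B T g j ∧
      ((run M S y (T - a.length) a).count false ≤ a.count false + j →
        1 ≤ sgn (R (y, run M S y (T - a.length) a)) * sval τ (terms M R y T g U j a)) := by
  induction j with
  | zero =>
    intro a _
    have e1 : sval τ (terms M R y T g U 0 a) = sgn (R (y, yesEnd M y (T - a.length) a)) := by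
      simp [terms, sval]
    rw [e1]
    refine ⟨(ns_sgn_abs _).le, fun h => ?_⟩
    rw [ns_run_yes _ _ h, ns_sgn_sq]
  | succ j ih =>
    intro a ha
    obtain ⟨h1, h2⟩ := ns_V hB hg hA j ih (T - a.length) a (by omega)
    rw [ns_terms]
    refine ⟨h1.trans ?_, h2⟩
    obtain ⟨i1, i2, i3⟩ := ns_inv hB (T := T) hg j
    have hG1 : 1 ≤ nsG T g j := by linarith
    rw [nsC]
    refine mul_le_mul_of_nonneg_left ?_ (by positivity)
    exact pow_le_pow_right₀ hG1 (by omega)

theorem terms_sign {M : List Bool × List Bool → Option (List Bool)}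
    {R : List Bool × List Bool → Bool} {S : Set (List Bool)} {y : List Bool} {T g : ℕ}
    {U : List ℕ} {τ : ℕ → ℤ} {B : ℤ} (hB : 1 ≤ B) (hg : 2 * B + 1 ≤ 2 ^ g)
    (hA : ∀ a q, a.length ≤ T → M (y, a) = some q →
      (q ∈ S → hid τ U q = 0) ∧ (q ∉ S → 1 ≤ hid τ U q) ∧ hid τ U q ≤ B) (k : ℕ)
    (hk : (run M S y T []).count false ≤ k) :
    R (y, run M S y T []) = true ↔ 0 < sval τ (terms M R y T g U k []) := by
  have h1 := (ns_claim (R := R) hB hg hA k [] (Nat.zero_le _)).2
  have h2 : T - ([] : List Bool).length = T := rfl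
  rw [h2] at h1
  have h3 := h1 (by
    have : ([] : List Bool).count false = 0 := rfl
    omega)
  cases hR : R (y, run M S y T []) with
  | true =>
    rw [hR] at h3
    simp only [sgn, if_true, one_mul] at h3
    exact ⟨fun _ => by omega, fun _ => rfl⟩
  | false =>
    rw [hR] at h3
    have e1 : sgn false = -1 := rfl
    rw [e1] at h3
    refine ⟨fun h => absurd h (by decide), fun h => ?_⟩
    omega

end Pool.Agent.SparseNP
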