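import Pool.Agent.Lib.MP_69a69c_lc.NegDefs
import Pool.Agent.Lib.MP_69a69c_lc.IntTime

/-!
# Few negative answers: the terms are computed in polynomial time

PROOF. `ptime_npow`: `f ^ n = (List.range n).foldl (fun s _ => s * f) 1` (`PTime.rangeLe`,
`PTime.foldl`, `PTime.mul`; a number below `2 ^ k` has a code of size at most `4 k + 1`,
`size_nat_le_of_lt`, `lt_two_pow_size`). `ptime_wt`: `ptime_pow2` of IntTime with a unary bound for
the exponent from `PTime.unaryPoly` (here `j` is a constant).
`ptime_yesEnd`, `ptime_spine`: both are computed by one left fold over a list of length `n` with the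
state `(a, list)`: step `(a, l) ↦ (a, l)` if `M (y, a) = none` and
`(a ++ [true], l ++ [(a, q)])` if `M (y, a) = some q`; the fold from
`(a, l)` over `n` units is `(yesEnd M y n a, l ++ spine M y n a)`.
`ptime_terms`: induction on the constant `j` for ALL types `α`. The function under `PTime.flatMap`
must be total in `i`, and `num p.2 ^ i` is in polynomial time only for `i ≤ (UU x).length`: the
exponent `min i (UU x).length` is used there and replaced by `i` at the end.
-/

namespace Pool.Agent.SparseNP

open Pool.Agent.PolyTime

theorem ptime_npow {α : Type} [Enc α] {f n : α → ℕ} {u : α → List Unit} (hf : PTime f)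
    (hn : PTime n) (hu : PTime u) (h : ∀ x, n x ≤ (u x).length) :
    PTime (fun x => f x ^ n x) := by
  obtain ⟨F, hF, hFm, hFs⟩ := hf.size_le
  obtain ⟨V, hV, hVm, hVs⟩ := hu.size_le
  have hfold : ∀ (b : ℕ) (l : List ℕ), l.foldl (fun (s : ℕ) (_ : ℕ) => s * b) 1 =
      b ^ l.length := by
    intro b l
    induction l using List.reverseRecOn with
    | nil => rfl
    | append_singleton l i ih =>
      rw [List.foldl_append, ih, List.length_append, List.length_singleton, pow_succ]
      rfl
  have key : PTime (fun x => (List.range (n x)).foldl ((fun (x : α) (s : ℕ) (_ : ℕ) =>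
      s * f x) x) 1) := by
    refine PTime.foldl (h := fun (x : α) (s : ℕ) (_ : ℕ) => s * f x) (g := fun _ => 1)
      (PTime.rangeLe hn hu h) (PTime.const 1) ((PTime.fst' PTime.snd).mul (hf.comp PTime.fst))
      (B := fun m => 4 * (F m * V m + 1) + 1) ?_ ?_
    · exact ((PBd.const 4).mul ((hF.mul hV).add (PBd.const 1))).add (PBd.const 1)
    · intro x l₁ l₂ hl
      rw [hfold]
      have h1 : l₁.length ≤ V (size (enc x)) := by
        have e1 : l₁.length ≤ n x := by
          have := congrArg List.length hl
          rw [List.length_range, List.length_append] at this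
          omega
        have e2 := length_le_size (u x)
        have e3 := hVs x
        have e4 := h x
        omega
      have h2 : f x ≤ 2 ^ F (size (enc x)) :=
        (lt_two_pow_size (f x)).le.trans (Nat.pow_le_pow_right (by norm_num) (hFs x))
      have h3 : f x ^ l₁.length < 2 ^ (F (size (enc x)) * V (size (enc x)) + 1) := by
        calc f x ^ l₁.length ≤ (2 ^ F (size (enc x))) ^ l₁.length := Nat.pow_le_pow_left h2 _
          _ = 2 ^ (F (size (enc x)) * l₁.length) := by rw [← pow_mul]
          _ ≤ 2 ^ (F (size (enc x)) * V (size (enc x))) :=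
            Nat.pow_le_pow_right (by norm_num) (Nat.mul_le_mul_left _ h1)
          _ < 2 ^ (F (size (enc x)) * V (size (enc x)) + 1) :=
            Nat.pow_lt_pow_right (by norm_num) (Nat.lt_succ_self _)
      exact size_nat_le_of_lt h3
  refine key.of_eq fun x => ?_
  rw [hfold, List.length_range]

theorem ptime_num {α : Type} [Enc α] {q : α → List Bool} (hq : PTime q) :
    PTime (fun x => num (q x)) := by
  unfold num
  exact (hq.append (PTime.const [true])).natOfBits

theorem ptime_wt (j : ℕ) {α : Type} [Enc α] {T g : α → ℕ} {UT Ug : α → List Unit}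
    {a : α → List Bool} (hT : PTime T) (hg : PTime g) (hUT : PTime UT) (hUg : PTime Ug)
    (hTU : ∀ x, T x ≤ (UT x).length) (hgU : ∀ x, g x ≤ (Ug x).length) (ha : PTime a) :
    PTime (fun x => wt (T x) (g x) j (a x)) := by
  unfold wt
  have h1 : PTime (fun x => (T x + 3) ^ j) :=
    ptime_npow (n := fun _ => j) (u := fun _ => List.replicate j ()) (hT.add (PTime.const 3))
      (PTime.const j) (PTime.const _) (fun _ => by rw [List.length_replicate])
  have h2 : PTime (fun x => (T x + 1 - (a x).length) * ((T x + 3) ^ j * g x)) :=
    ((hT.add (PTime.const 1)).sub ha.length).mul (h1.mul hg)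
  refine ptime_pow2 h2 (PTime.unaryPoly (hUT.append hUg)
    ((Polynomial.X + 1) * ((Polynomial.X + 3) ^ j * Polynomial.X))) fun x => ?_
  rw [List.length_replicate, List.length_append]
  have e : ((Polynomial.X + 1) * ((Polynomial.X + 3) ^ j * Polynomial.X) : Polynomial ℕ).eval
      ((UT x).length + (Ug x).length) = ((UT x).length + (Ug x).length + 1) *
        (((UT x).length + (Ug x).length + 3) ^ j * ((UT x).length + (Ug x).length)) := by
    simp
  rw [e]
  have h3 := hTU x
  have h4 := hgU x
  refine Nat.mul_le_mul (by omega) (Nat.mul_le_mul (Nat.pow_le_pow_left (by omega) _) (by omega))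

/-! ### the walk along the positive answers -/

/-- one step of the walk -/
private def walk (M : List Bool × List Bool → Option (List Bool)) (y : List Bool)
    (s : List Bool × List (List Bool × List Bool)) : List Bool × List (List Bool × List Bool) :=
  match M (y, s.1) with
  | none => s
  | some q => (s.1 ++ [true], s.2 ++ [(s.1, q)])

private theorem yesEnd_none {M : List Bool × List Bool → Option (List Bool)} {y a : List Bool}
    (h : M (y, a) = none) (n : ℕ) : yesEnd M y n a = a := by
  cases n with
  | zero => rfl
  | succ n => simp [yesEnd, h]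

private theorem spine_none {M : List Bool × List Bool → Option (List Bool)} {y a : List Bool}
    (h : M (y, a) = none) (n : ℕ) : spine M y n a = [] := by
  cases n with
  | zero => rfl
  | succ n => simp [spine, h]

private theorem walk_fold {β : Type} (M : List Bool × List Bool → Option (List Bool))
    (y : List Bool) : ∀ (l : List β) (a : List Bool) (acc : List (List Bool × List Bool)),
    l.foldl (fun s _ => walk M y s) (a, acc) =
      (yesEnd M y l.length a, acc ++ spine M y l.length a) := by
  intro l
  induction l with
  | nil => intro a acc; simp [yesEnd, spine]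
  | cons b l ih =>
    intro a acc
    rw [List.foldl_cons, List.length_cons]
    rcases hM : M (y, a) with _ | q
    · have h1 : walk M y (a, acc) = (a, acc) := by simp [walk, hM]
      rw [h1, ih, yesEnd_none hM, yesEnd_none hM, spine_none hM, spine_none hM]
    · have h1 : walk M y (a, acc) = (a ++ [true], acc ++ [(a, q)]) := by simp [walk, hM]
      rw [h1, ih]
      simp [yesEnd, spine, hM]

private theorem size_snoc (a : List Bool) : size (enc (a ++ [true])) = size (enc a) + 4 := by
  have h1 := size_append a [true]
  have h2 : size (enc [true]) = 5 := by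
    rw [size_lcons, enc_true, enc_nil, size_cons, size_nil]
  omega

private theorem size_yesEnd (M : List Bool × List Bool → Option (List Bool)) (y : List Bool) :
    ∀ (n : ℕ) (a : List Bool), size (enc (yesEnd M y n a)) ≤ size (enc a) + 4 * n := by
  intro n
  induction n with
  | zero => intro a; simp [yesEnd]
  | succ n ih =>
    intro a
    rcases hM : M (y, a) with _ | q
    · rw [yesEnd_none hM]; omega
    · have h1 : yesEnd M y (n + 1) a = yesEnd M y n (a ++ [true]) := by simp [yesEnd, hM]
      rw [h1]
      have h2 := ih (a ++ [true])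
      rw [size_snoc] at h2
      omega

private theorem length_spine (M : List Bool × List Bool → Option (List Bool)) (y : List Bool) :
    ∀ (n : ℕ) (a : List Bool), (spine M y n a).length ≤ n := by
  intro n
  induction n with
  | zero => intro a; simp [spine]
  | succ n ih =>
    intro a
    rcases hM : M (y, a) with _ | q
    · rw [spine_none hM]; simp
    · have h1 : spine M y (n + 1) a = (a, q) :: spine M y n (a ++ [true]) := by simp [spine, hM]
      rw [h1, List.length_cons]
      have h2 := ih (a ++ [true])
      omega

private theorem size_spine_mem {M : List Bool × List Bool → Option (List Bool)} {F : ℕ → ℕ}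
    (hFm : Monotone F) (hFs : ∀ z, size (enc (M z)) ≤ F (size (enc z))) (y : List Bool) (K : ℕ) :
    ∀ (n : ℕ) (a : List Bool), size (enc a) + 4 * n ≤ K → ∀ p ∈ spine M y n a,
      size (enc p) ≤ K + F (size (enc y) + K + 1) + 1 := by
  intro n
  induction n with
  | zero => intro a _ p hp; simp [spine] at hp
  | succ n ih =>
    intro a hK p hp
    rcases hM : M (y, a) with _ | q
    · rw [spine_none hM] at hp; simp at hp
    · have h1 : spine M y (n + 1) a = (a, q) :: spine M y n (a ++ [true]) := by simp [spine, hM]
      rw [h1, List.mem_cons] at hp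
      rcases hp with rfl | hp
      · rw [size_pair]
        have h2 := hFs (y, a)
        rw [hM, enc_some, size_cons, size_pair] at h2
        have h3 : F (size (enc y) + size (enc a) + 1) ≤ F (size (enc y) + K + 1) :=
          hFm (by omega)
        omega
      · exact ih (a ++ [true]) (by rw [size_snoc]; omega) p hp

private theorem ptime_walk {M : List Bool × List Bool → Option (List Bool)} (hM : PTime M)
    {α : Type} [Enc α] {y a : α → List Bool} {n : α → ℕ} {u : α → List Unit} (hy : PTime y)
    (ha : PTime a) (hn : PTime n) (hu : PTime u) (h : ∀ x, n x ≤ (u x).length) :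
    PTime (fun x => (yesEnd M (y x) (n x) (a x), spine M (y x) (n x) (a x))) := by
  obtain ⟨F, hF, hFm, hFs⟩ := hM.size_le
  obtain ⟨Y, hY, hYm, hYs⟩ := hy.size_le
  obtain ⟨A, hA, hAm, hAs⟩ := ha.size_le
  obtain ⟨V, hV, hVm, hVs⟩ := hu.size_le
  have hinit : PTime (fun x => (a x, ([] : List (List Bool × List Bool)))) :=
    ha.pair (PTime.const [])
  have hstep : PTime (fun p : α × ((List Bool × List (List Bool × List Bool)) × ℕ) =>
      walk M (y p.1) p.2.1) := by
    have e1 : PTime (fun p : α × ((List Bool × List (List Bool × List Bool)) × ℕ) => p.2.1) :=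
      PTime.fst' PTime.snd
    have e2 : PTime (fun p : α × ((List Bool × List (List Bool × List Bool)) × ℕ) =>
        M (y p.1, p.2.1.1)) := hM.comp ((hy.comp PTime.fst).pair e1.fst')
    have e3 : PTime (fun r : (α × ((List Bool × List (List Bool × List Bool)) × ℕ)) × List Bool =>
        (r.1.2.1.1 ++ [true], r.1.2.1.2 ++ [(r.1.2.1.1, r.2)])) := by
      have f1 : PTime (fun r : (α × ((List Bool × List (List Bool × List Bool)) × ℕ)) ×
          List Bool => r.1.2.1) := e1.comp PTime.fst
      exact (f1.fst'.append (PTime.const [true])).pair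
        (f1.snd'.append ((f1.fst'.pair PTime.snd).cons (PTime.const [])))
    refine (PTime.option_cases e2 e1 e3).of_eq fun p => ?_
    unfold walk
    rcases M (y p.1, p.2.1.1) with _ | q <;> rfl
  have key : PTime (fun x => (List.range (n x)).foldl ((fun (x : α)
      (s : List Bool × List (List Bool × List Bool)) (_ : ℕ) => walk M (y x) s) x) (a x, [])) := by
    refine PTime.foldl (h := fun (x : α) (s : List Bool × List (List Bool × List Bool)) (_ : ℕ) =>
      walk M (y x) s) (g := fun x => (a x, [])) (PTime.rangeLe hn hu h) hinit hstep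
      (B := fun m => (A m + 4 * V m) + (V m * ((A m + 4 * V m) +
        F (Y m + (A m + 4 * V m) + 1) + 1 + 1) + 1) + 1) ?_ ?_
    · have hK : PBd fun m => A m + 4 * V m := hA.add ((PBd.const 4).mul hV)
      have hG : PBd fun m => F (Y m + (A m + 4 * V m) + 1) :=
        hF.comp ((hY.add hK).add (PBd.const 1))
      exact (hK.add ((hV.mul (((hK.add hG).add (PBd.const 1)).add (PBd.const 1))).add
        (PBd.const 1))).add (PBd.const 1)
    · intro x l₁ l₂ hl
      rw [walk_fold, List.nil_append, size_pair]
      have h1 : l₁.length ≤ V (size (enc x)) := by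
        have e1 : l₁.length ≤ n x := by
          have := congrArg List.length hl
          rw [List.length_range, List.length_append] at this
          omega
        have e2 := length_le_size (u x)
        have e3 := hVs x
        have e4 := h x
        omega
      have hKx : size (enc (a x)) + 4 * l₁.length ≤
          A (size (enc x)) + 4 * V (size (enc x)) := by
        have := hAs x
        omega
      have h2 := size_yesEnd M (y x) l₁.length (a x)
      have h3 := size_spine_mem hFm hFs (y x) (A (size (enc x)) + 4 * V (size (enc x)))
        l₁.length (a x) hKx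
      have h4 := size_list_le _ _ h3
      have h5 := length_spine M (y x) l₁.length (a x)
      have h6 : F (size (enc (y x)) + (A (size (enc x)) + 4 * V (size (enc x))) + 1) ≤
          F (Y (size (enc x)) + (A (size (enc x)) + 4 * V (size (enc x))) + 1) := by
        have := hYs x
        exact hFm (by omega)
      have h7 : (spine M (y x) l₁.length (a x)).length * (A (size (enc x)) +
          4 * V (size (enc x)) + F (size (enc (y x)) + (A (size (enc x)) +
            4 * V (size (enc x))) + 1) + 1 + 1) ≤
          V (size (enc x)) * (A (size (enc x)) + 4 * V (size (enc x)) +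
            F (Y (size (enc x)) + (A (size (enc x)) + 4 * V (size (enc x))) + 1) + 1 + 1) :=
        Nat.mul_le_mul (h5.trans h1) (by omega)
      omega
  refine key.of_eq fun x => ?_
  rw [walk_fold, List.nil_append, List.length_range]

theorem ptime_yesEnd {M : List Bool × List Bool → Option (List Bool)} (hM : PTime M)
    {α : Type} [Enc α] {y a : α → List Bool} {n : α → ℕ} {u : α → List Unit} (hy : PTime y)
    (ha : PTime a) (hn : PTime n) (hu : PTime u) (h : ∀ x, n x ≤ (u x).length) :
    PTime (fun x => yesEnd M (y x) (n x) (a x)) :=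
  (ptime_walk hM hy ha hn hu h).fst'

theorem ptime_spine {M : List Bool × List Bool → Option (List Bool)} (hM : PTime M)
    {α : Type} [Enc α] {y a : α → List Bool} {n : α → ℕ} {u : α → List Unit} (hy : PTime y)
    (ha : PTime a) (hn : PTime n) (hu : PTime u) (h : ∀ x, n x ≤ (u x).length) :
    PTime (fun x => spine M (y x) (n x) (a x)) :=
  (ptime_walk hM hy ha hn hu h).snd'

theorem ptime_terms {M : List Bool × List Bool → Option (List Bool)} (hM : PTime M)
    {R : List Bool × List Bool → Bool} (hR : PTime R) : ∀ (j : ℕ) {α : Type} [Enc α]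
    {y a : α → List Bool} {T g : α → ℕ} {UT Ug UU : α → List Unit} {U : α → List ℕ},
    PTime y → PTime a → PTime T → PTime g → PTime UT → PTime Ug → PTime UU → PTime U →
    (∀ x, T x ≤ (UT x).length) → (∀ x, g x ≤ (Ug x).length) →
    (∀ x, ∀ i ∈ U x, i ≤ (UU x).length) →
    PTime (fun x => terms M R (y x) (T x) (g x) (U x) j (a x)) := by
  intro j
  induction j with
  | zero =>
    intro α _ y a T g UT Ug UU U hy ha hT hg hUT hUg hUU hU hTU hgU hUb
    have h1 : PTime (fun x => yesEnd M (y x) (T x - (a x).length) (a x)) :=
      ptime_yesEnd hM hy ha (hT.sub ha.length) hUT fun x => (Nat.sub_le _ _).trans (hTU x)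
    have h2 : PTime (fun x => R (y x, yesEnd M (y x) (T x - (a x).length) (a x))) :=
      hR.comp (hy.pair h1)
    exact (h2.pair (PTime.const (1, []))).cons (PTime.const [])
  | succ j ih =>
    intro α _ y a T g UT Ug UU U hy ha hT hg hUT hUg hUU hU hTU hgU hUb
    have hlen : ∀ x, T x - (a x).length ≤ (UT x).length :=
      fun x => (Nat.sub_le _ _).trans (hTU x)
    have h1 : PTime (fun x => yesEnd M (y x) (T x - (a x).length) (a x)) :=
      ptime_yesEnd hM hy ha (hT.sub ha.length) hUT hlen
    have h2 : PTime (fun x => R (y x, yesEnd M (y x) (T x - (a x).length) (a x))) :=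
      hR.comp (hy.pair h1)
    have h3 : PTime (fun x => spine M (y x) (T x - (a x).length) (a x)) :=
      ptime_spine hM hy ha (hT.sub ha.length) hUT hlen
    -- the inner list
    have p1 : PTime (fun z : (α × (List Bool × List Bool)) × ℕ => z.1.1) := PTime.fst' PTime.fst
    have p2 : PTime (fun z : (α × (List Bool × List Bool)) × ℕ => z.1.2) := PTime.snd' PTime.fst
    have h4 : PTime (fun z : (α × (List Bool × List Bool)) × ℕ =>
        terms M R (y z.1.1) (T z.1.1) (g z.1.1) (U z.1.1) j (z.1.2.1 ++ [false])) :=
      ih (y := fun z : (α × (List Bool × List Bool)) × ℕ => y z.1.1)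
        (a := fun z => z.1.2.1 ++ [false]) (T := fun z => T z.1.1) (g := fun z => g z.1.1)
        (UT := fun z => UT z.1.1) (Ug := fun z => Ug z.1.1) (UU := fun z => UU z.1.1)
        (U := fun z => U z.1.1) (hy.comp p1) (p2.fst'.append (PTime.const [false]))
        (hT.comp p1) (hg.comp p1) (hUT.comp p1) (hUg.comp p1) (hUU.comp p1) (hU.comp p1)
        (fun z => hTU z.1.1) (fun z => hgU z.1.1) (fun z => hUb z.1.1)
    have h5 : PTime (fun z : (α × (List Bool × List Bool)) × ℕ =>
        wt (T z.1.1) (g z.1.1) j z.1.2.1) :=
      ptime_wt j (hT.comp p1) (hg.comp p1) (hUT.comp p1) (hUg.comp p1) (fun z => hTU z.1.1)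
        (fun z => hgU z.1.1) p2.fst'
    have h6 : PTime (fun z : (α × (List Bool × List Bool)) × ℕ =>
        if z.2 ≤ (UU z.1.1).length then z.2 else (UU z.1.1).length) :=
      PTime.iteP (PTime.le PTime.snd (hUU.comp p1).length) PTime.snd (hUU.comp p1).length
    have h7 : PTime (fun z : (α × (List Bool × List Bool)) × ℕ =>
        num z.1.2.2 ^ (if z.2 ≤ (UU z.1.1).length then z.2 else (UU z.1.1).length)) :=
      ptime_npow (u := fun z : (α × (List Bool × List Bool)) × ℕ => UU z.1.1)
        (ptime_num p2.snd') h6 (hUU.comp p1) fun z => by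
          by_cases hz : z.2 ≤ (UU z.1.1).length
          · rw [if_pos hz]; exact hz
          · rw [if_neg hz]
    have h8 : PTime (fun z : (α × (List Bool × List Bool)) × ℕ =>
        (terms M R (y z.1.1) (T z.1.1) (g z.1.1) (U z.1.1) j (z.1.2.1 ++ [false])).map
          fun t => ((t.1, (wt (T z.1.1) (g z.1.1) j z.1.2.1 *
            num z.1.2.2 ^ (if z.2 ≤ (UU z.1.1).length then z.2 else (UU z.1.1).length) * t.2.1,
              z.2 :: t.2.2)) : ST)) := by
      refine PTime.map (g := fun (z : (α × (List Bool × List Bool)) × ℕ) (t : ST) =>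
        ((t.1, (wt (T z.1.1) (g z.1.1) j z.1.2.1 *
            num z.1.2.2 ^ (if z.2 ≤ (UU z.1.1).length then z.2 else (UU z.1.1).length) * t.2.1,
              z.2 :: t.2.2)) : ST)) h4 ?_
      have q1 : PTime (fun w : ((α × (List Bool × List Bool)) × ℕ) × ST => w.2) := PTime.snd
      exact q1.fst'.pair ((((h5.comp PTime.fst).mul (h7.comp PTime.fst)).mul q1.snd'.fst').pair
        ((PTime.snd' PTime.fst).cons q1.snd'.snd'))
    have h9 : PTime (fun z : α × (List Bool × List Bool) => (U z.1).flatMap fun i =>
        (terms M R (y z.1) (T z.1) (g z.1) (U z.1) j (z.2.1 ++ [false])).map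
          fun t => ((t.1, (wt (T z.1) (g z.1) j z.2.1 *
            num z.2.2 ^ (if i ≤ (UU z.1).length then i else (UU z.1).length) * t.2.1,
              i :: t.2.2)) : ST)) :=
      PTime.flatMap (g := fun (z : α × (List Bool × List Bool)) (i : ℕ) =>
        (terms M R (y z.1) (T z.1) (g z.1) (U z.1) j (z.2.1 ++ [false])).map
          fun t => ((t.1, (wt (T z.1) (g z.1) j z.2.1 *
            num z.2.2 ^ (if i ≤ (UU z.1).length then i else (UU z.1).length) * t.2.1,
              i :: t.2.2)) : ST)) (hU.comp PTime.fst) h8
    have h10 : PTime (fun x => (spine M (y x) (T x - (a x).length) (a x)).flatMap fun p =>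
        (U x).flatMap fun i =>
        (terms M R (y x) (T x) (g x) (U x) j (p.1 ++ [false])).map
          fun t => ((t.1, (wt (T x) (g x) j p.1 *
            num p.2 ^ (if i ≤ (UU x).length then i else (UU x).length) * t.2.1,
              i :: t.2.2)) : ST)) :=
      PTime.flatMap (g := fun (x : α) (p : List Bool × List Bool) => (U x).flatMap fun i =>
        (terms M R (y x) (T x) (g x) (U x) j (p.1 ++ [false])).map
          fun t => ((t.1, (wt (T x) (g x) j p.1 *
            num p.2 ^ (if i ≤ (UU x).length then i else (UU x).length) * t.2.1,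
              i :: t.2.2)) : ST)) h3 h9
    refine ((h2.pair (PTime.const (1, []))).cons h10).of_eq fun x => ?_
    rw [terms]
    congr 1
    refine List.flatMap_congr fun p _ => List.flatMap_congr fun i hi => ?_
    rw [if_pos (hUb x i hi)]

end Pool.Agent.SparseNP
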