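import Pool.Agent.Lib.MP_69a69c_lc.NegTrunc
import Pool.Agent.Lib.MP_69a69c_lc.NegDist
import Pool.Agent.Lib.MP_69a69c_lc.NegSign
import Pool.Agent.Lib.MP_69a69c_lc.NegTime
import Pool.Agent.Lib.MP_69a69c_lc.NegEval

/-!
# Reductions with few negative answers to sparse sets are hidden thresholds
-/

namespace Pool.Agent.SparseNP

open Pool.Agent.PolyTime

theorem hidden_of {S L : Set (List Bool)} (hsparse : Sparse S) (h : FewNeg S L) :
    Hidden S L := by
  obtain ⟨sp, hsp⟩ := hsparse
  obtain ⟨k, T, M, R, hM, hR, h⟩ := h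
  refine ⟨neg_eval hM hR fun x => (h x).1, ?_⟩
  obtain ⟨mq, hmq⟩ := query_len hM T
  obtain ⟨rp, hrp⟩ : ∃ P : Polynomial ℕ, ∀ n, P.eval n = 2 * sp.eval (mq.eval n) :=
    ⟨2 * sp.comp mq, fun n => by simp [Polynomial.eval_comp]⟩
  obtain ⟨bp, hbp⟩ : ∃ P : Polynomial ℕ, ∀ n, P.eval n = rp.eval n * (mq.eval n + 1) :=
    ⟨rp * (mq + 1), fun n => by simp⟩
  obtain ⟨gp, hgp⟩ : ∃ P : Polynomial ℕ, ∀ n, P.eval n = bp.eval n + 2 :=
    ⟨bp + 2, fun n => by simp⟩
  have hy : PTime (fun z : List Unit × List Bool => z.2) := PTime.snd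
  have hn : PTime (fun z : List Unit × List Bool => z.1) := PTime.fst
  have hterms : PTime (fun z : List Unit × List Bool => terms M R z.2 (T.eval z.2.length)
      (gp.eval z.1.length) (List.range (List.replicate (rp.eval z.1.length + 1) ()).length) k
      []) := by
    have h1 : PTime (fun z : List Unit × List Bool =>
        List.replicate (rp.eval z.1.length + 1) ()) := by
      refine ((PTime.unaryPoly hn rp).append (PTime.const [()])).of_eq fun z => ?_
      rw [List.replicate_add]
      rfl
    exact ptime_terms hM hR k hy (PTime.const []) (ptime_evalLength hy T)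
      (ptime_evalLength hn gp) (PTime.unaryPoly hy T) (PTime.unaryPoly hn gp) h1
      (PTime.rangeLength h1) (fun z => by rw [List.length_replicate])
      (fun z => by rw [List.length_replicate])
      (fun z i hi => by
        rw [List.mem_range] at hi
        exact hi.le)
  obtain ⟨Tm, hTm⟩ : ∃ Tm : List Unit × List Bool → List ST, Tm = fun z =>
      terms M R z.2 (T.eval z.2.length) (gp.eval z.1.length)
        (List.range (List.replicate (rp.eval z.1.length + 1) ()).length) k [] := ⟨_, rfl⟩
  rw [← hTm] at hterms
  refine ⟨k, bp, rp, fun z => (((Tm z).filter fun t => t.1).map fun t => t.2,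
    ((Tm z).filter fun t => !t.1).map fun t => t.2), ?_, ?_⟩
  · refine PTime.pair ?_ ?_
    · exact PTime.map (g := fun (_ : List Unit × List Bool) (t : ST) => t.2)
        (PTime.filter (g := fun (_ : List Unit × List Bool) (t : ST) => t.1) hterms
          (PTime.fst' PTime.snd)) (PTime.snd' PTime.snd)
    · exact PTime.map (g := fun (_ : List Unit × List Bool) (t : ST) => t.2)
        (PTime.filter (g := fun (_ : List Unit × List Bool) (t : ST) => !t.1) hterms
          (PTime.fst' PTime.snd).not) (PTime.snd' PTime.snd)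
  · intro N
    obtain ⟨τ, hτ, hq⟩ := dist_exists S (mq.eval N) (sp.eval (mq.eval N)) (hsp _)
    rw [← hrp, ← hbp] at hτ
    rw [← hrp, ← hbp] at hq
    refine ⟨τ, hτ, fun y hyN => ?_⟩
    have hT : Tm (List.replicate N (), y) = terms M R y (T.eval y.length) (gp.eval N)
        (List.range (rp.eval N + 1)) k [] := by
      rw [hTm]
      simp only [List.length_replicate]
    simp only [hT]
    constructor
    · intro t ht
      have hmem : ∃ t' ∈ terms M R y (T.eval y.length) (gp.eval N)
          (List.range (rp.eval N + 1)) k [], t'.2 = t := by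
        rcases List.mem_append.1 ht with ht | ht
        · obtain ⟨t', ht', rfl⟩ := List.mem_map.1 ht
          exact ⟨t', List.mem_of_mem_filter ht', rfl⟩
        · obtain ⟨t', ht', rfl⟩ := List.mem_map.1 ht
          exact ⟨t', List.mem_of_mem_filter ht', rfl⟩
      obtain ⟨t', ht', rfl⟩ := hmem
      obtain ⟨h1, h2⟩ := terms_mem k [] t' ht'
      refine ⟨h1, fun i hi => ?_⟩
      have := h2 i hi
      rw [List.mem_range] at this
      omega
    · obtain ⟨h1, h2⟩ := h y
      have hs := terms_sign (R := R) (S := S) (y := y) (T := T.eval y.length) (g := gp.eval N)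
        (τ := τ) (U := List.range (rp.eval N + 1)) (B := 2 ^ bp.eval N)
        (M := M) (one_le_pow₀ (by norm_num)) (by
          rw [hgp, pow_add]
          have : (1 : ℤ) ≤ 2 ^ bp.eval N := one_le_pow₀ (by norm_num)
          linarith) (by
          intro a q ha hMq
          have e1 := hmq y a q ha hMq
          exact hq q (e1.trans (eval_mono mq hyN))) k h2
      rw [h1, hs, sval_split]
      constructor <;> intro h3 <;> linarith

end Pool.Agent.SparseNP
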