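import Pool.Agent.Lib.MP_69a69c_lc.Alg2

/-!
# Running time of the algorithm for threshold reductions
-/

namespace Pool.Agent.SparseNP

open Pool.Agent.PolyTime

theorem ptime_count {α β : Type} [Enc α] [Enc β] [EncInj β] [DecidableEq β] {f : α → List β}
    {a : α → β} (hf : PTime f) (ha : PTime a) : PTime (fun x => (f x).count (a x)) := by
  have h : PTime (fun x => ((f x).filter fun e => decide (e = a x)).length) :=
    (PTime.filter (g := fun (x : α) (e : β) => decide (e = a x)) hf
      (PTime.eq PTime.snd (ha.comp PTime.fst))).length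
  refine h.of_eq fun x => ?_
  rw [List.count, List.countP_eq_length_filter]
  refine congrArg List.length (List.filter_congr fun e _ => ?_)
  rw [Bool.eq_iff_iff]
  simp

theorem ptime_posL {α ι M : Type} [Enc α] [Enc ι] [Enc M] {I : α → List ι}
    {P Q : α → ι → List M} {z : α → ι → Bool} (hI : PTime I)
    (hP : PTime (fun w : α × ι => P w.1 w.2)) (hQ : PTime (fun w : α × ι => Q w.1 w.2))
    (hz : PTime (fun w : α × ι => z w.1 w.2)) :
    PTime (fun x => posL (I x) (P x) (Q x) (z x)) := by
  unfold posL
  exact PTime.flatMap (g := fun (x : α) (κ : ι) => if z x κ = true then P x κ else Q x κ) hI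
    (PTime.ite hz hP hQ)

theorem ptime_passes {α ι M : Type} [Enc α] [Enc ι] [Enc M] [EncInj M] [DecidableEq M]
    {I : α → List ι} {P Q : α → ι → List M} {T : α → ℕ} {z : α → ι → Bool} (hI : PTime I)
    (hP : PTime (fun w : α × ι => P w.1 w.2)) (hQ : PTime (fun w : α × ι => Q w.1 w.2))
    (hT : PTime T) (hz : PTime (fun w : α × ι => z w.1 w.2)) :
    PTime (fun x => passes (I x) (P x) (Q x) (T x) (z x)) := by
  unfold passes
  have h1 := ptime_posL hI hP hQ hz
  have h2 := ptime_posL hI hQ hP hz
  have hT' : PTime (fun w : α × M => 2 * T w.1) := (PTime.const 2).mul (hT.comp PTime.fst)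
  exact PTime.any (g := fun (x : α) (A : M) => decide ((I x).length +
    2 * T x * (posL (I x) (Q x) (P x) (z x)).count A ≤
    2 * T x * (posL (I x) (P x) (Q x) (z x)).count A)) h1
    (PTime.le ((hI.length.comp PTime.fst).add (hT'.mul
      (ptime_count (h2.comp PTime.fst) PTime.snd)))
      (hT'.mul (ptime_count (h1.comp PTime.fst) PTime.snd)))

section

variable {f : List Bool → LL × LL} {pr Tf Kf : List Bool → ℕ} {U : List Bool → List Unit}

theorem ptime_passV (hf : PTime f) (hpr : PTime pr) (hTf : PTime Tf) (hU : PTime U)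
    (hprU : ∀ x, pr x ≤ (U x).length) :
    PTime (fun z : (List Bool × ℕ) × List Bool => passV f z.1.1 z.1.2 (pr z.1.1) (Tf z.1.1)
      z.2) := by
  have hx : PTime (fun z : (List Bool × ℕ) × List Bool => z.1.1) := PTime.fst' PTime.fst
  have hc : PTime (fun z : (List Bool × ℕ) × List Bool => z.1.2) := PTime.snd' PTime.fst
  have hv : PTime (fun z : (List Bool × ℕ) × List Bool => z.2) := PTime.snd
  have hp : PTime (fun z : (List Bool × ℕ) × List Bool => pr z.1.1) := hpr.comp hx
  have hI : PTime (fun z : (List Bool × ℕ) × List Bool => idx3 (pr z.1.1)) :=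
    ptime_idx3 hp (hU.comp hx) fun z => hprU z.1.1
  have hwd : PTime (fun w : ((List Bool × ℕ) × List Bool) × (ℕ × ℕ × ℕ) =>
      wd (w.1.1.1, (w.1.1.2, (w.1.2.length, (pr w.1.1.1, w.2))))) := by
    unfold wd
    exact PTime.bits' ((hx.comp PTime.fst).pair ((hc.comp PTime.fst).pair
      ((hv.comp PTime.fst).length.pair ((hp.comp PTime.fst).pair PTime.snd))))
  have hfw := hf.comp hwd
  have hP : PTime (fun w : ((List Bool × ℕ) × List Bool) × (ℕ × ℕ × ℕ) =>
      qryP f w.1.1.1 w.1.1.2 w.1.2.length (pr w.1.1.1) w.2) := hfw.fst'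
  have hQ : PTime (fun w : ((List Bool × ℕ) × List Bool) × (ℕ × ℕ × ℕ) =>
      qryQ f w.1.1.1 w.1.1.2 w.1.2.length (pr w.1.1.1) w.2) := hfw.snd'
  have hz : PTime (fun w : ((List Bool × ℕ) × List Bool) × (ℕ × ℕ × ℕ) =>
      codeBit (pr w.1.1.1) w.2 w.1.2) :=
    ptime_codeBit (hp.comp PTime.fst) PTime.snd (hv.comp PTime.fst)
  unfold passV
  exact ptime_passes (I := fun z : (List Bool × ℕ) × List Bool => idx3 (pr z.1.1))
    (P := fun (z : (List Bool × ℕ) × List Bool) κ => qryP f z.1.1 z.1.2 z.2.length (pr z.1.1) κ)
    (Q := fun (z : (List Bool × ℕ) × List Bool) κ => qryQ f z.1.1 z.1.2 z.2.length (pr z.1.1) κ)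
    (z := fun (z : (List Bool × ℕ) × List Bool) κ => codeBit (pr z.1.1) κ z.2)
    hI hP hQ (hTf.comp hx) hz

/-- filtering the children -/
theorem ptime_filterTake {A : (List Bool × ℕ) × List Bool → Bool} (hA : PTime A)
    (hKf : PTime Kf) :
    PTime (fun z : (List Bool × ℕ) × List (List Bool) =>
      ((children z.2).filter fun v => A (z.1, v)).take (Kf z.1.1)) := by
  have hch : PTime (fun C : List (List Bool) => children C) :=
    PTime.flatMap (g := fun (_ : List (List Bool)) (v : List Bool) => [false :: v, true :: v])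
      PTime.id (((PTime.const false).cons PTime.snd).cons (((PTime.const true).cons
        PTime.snd).cons (PTime.const [])))
  have hch' := hch.comp (PTime.snd (α := List Bool × ℕ) (β := List (List Bool)))
  have hx : PTime (fun z : (List Bool × ℕ) × List (List Bool) => z.1.1) := PTime.fst' PTime.fst
  have h1 : PTime (fun w : ((List Bool × ℕ) × List (List Bool)) × List Bool =>
      A (w.1.1, w.2)) := hA.comp ((PTime.fst' PTime.fst).pair PTime.snd)
  exact PTime.take (PTime.filter (g := fun (z : (List Bool × ℕ) × List (List Bool))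
    (v : List Bool) => A (z.1, v)) hch' h1) (hKf.comp hx)

theorem ptime_level2 (hf : PTime f) (hpr : PTime pr) (hTf : PTime Tf) (hKf : PTime Kf)
    (hU : PTime U) (hprU : ∀ x, pr x ≤ (U x).length) :
    PTime (fun z : (List Bool × ℕ) × List (List Bool) => level2 f z.1.1 z.1.2 (pr z.1.1)
      (Tf z.1.1) (Kf z.1.1) z.2) := by
  obtain ⟨A, hA⟩ : ∃ A : (List Bool × ℕ) × List Bool → Bool, A = fun z =>
    passV f z.1.1 z.1.2 (pr z.1.1) (Tf z.1.1) z.2 := ⟨_, rfl⟩
  have hA' : PTime A := by rw [hA]; exact ptime_passV hf hpr hTf hU hprU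
  refine (ptime_filterTake hA' hKf).of_eq fun z => ?_
  rw [hA]
  rfl

theorem ptime_search2 (pL : Polynomial ℕ) (hf : PTime f) (hpr : PTime pr) (hTf : PTime Tf)
    (hKf : PTime Kf) (hU : PTime U) (hprU : ∀ x, pr x ≤ (U x).length) {KB : ℕ → ℕ}
    (hKB : PBd KB) (hK : ∀ x, Kf x ≤ KB (size (enc x))) :
    PTime (fun z : List Bool × ℕ => search2 pL f z.1 z.2 (pr z.1) (Tf z.1) (Kf z.1)) := by
  unfold search2
  obtain ⟨KP, hKP⟩ := hKB
  have hKPB : PBd fun n => KP.eval n := ⟨KP, fun _ => le_rfl⟩
  refine PTime.foldl (h := fun (z : List Bool × ℕ) (C : List (List Bool)) (_ : Unit) =>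
      level2 f z.1 z.2 (pr z.1) (Tf z.1) (Kf z.1) C)
      (PTime.unaryPoly (PTime.fst (α := List Bool) (β := ℕ)) pL)
      (PTime.const [[]]) ?_
      (B := fun n => (KP.eval n + 1) * (4 * pL.eval n + 2) + 1)
      (((hKPB.add (PBd.const 1)).mul
        (((PBd.const 4).mul ⟨pL, fun _ => le_rfl⟩).add (PBd.const 2))).add (PBd.const 1)) ?_
  · exact (ptime_level2 hf hpr hTf hKf hU hprU).comp ((PTime.fst (α := List Bool × ℕ)
        (β := List (List Bool) × Unit)).pair (PTime.fst' PTime.snd))
  · intro z l₁ l₂ h
    obtain ⟨x, c⟩ := z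
    simp only at h ⊢
    have hl : l₁ = List.replicate l₁.length () := List.eq_replicate_iff.2 ⟨rfl, by simp⟩
    have hn : l₁.length ≤ pL.eval x.length := by
      have := congrArg List.length h
      simp only [List.length_replicate, List.length_append] at this
      omega
    have hp := fold2_props f x c (pr x) (Tf x) (Kf x) l₁.length
    rw [← hl] at hp
    have h1 := size_list_le _ (4 * pL.eval x.length + 1) (fun v hv => by
      have := size_bits_le v
      rw [hp.1 v hv] at this
      omega : ∀ v ∈ l₁.foldl (fun C _ => level2 f x c (pr x) (Tf x) (Kf x) C) [[]],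
        size (enc v) ≤ 4 * pL.eval x.length + 1)
    refine h1.trans ?_
    have h2 := hp.2.2
    have hsz : size (enc x) ≤ size (enc (x, c)) := by
      have := size_pair x c
      omega
    have h4 : Kf x ≤ KP.eval (size (enc (x, c))) :=
      ((hK x).trans (hKP _)).trans (eval_mono KP hsz)
    have h5 : pL.eval x.length ≤ pL.eval (size (enc (x, c))) :=
      eval_mono pL (by have := length_le_size x; omega)
    have h6 := Nat.mul_le_mul (show (l₁.foldl (fun C _ => level2 f x c (pr x) (Tf x) (Kf x) C)
      [[]]).length ≤ KP.eval (size (enc (x, c))) + 1 by omega)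
      (show 4 * pL.eval x.length + 1 + 1 ≤ 4 * pL.eval (size (enc (x, c))) + 2 by omega)
    omega

end

theorem findPr_le (l : List Unit) : findPr l ≤ (l ++ l ++ [()]).length := by
  unfold findPr
  cases hf : (List.range (l ++ l ++ [()]).length).find? (fun n =>
      decide (l.length < n) && isPr (List.range (l ++ l ++ [()]).length) n) with
  | none => exact Nat.zero_le _
  | some r => exact (List.mem_range.1 (List.mem_of_find?_eq_some hf)).le

theorem ptime_alg2 {V : List Bool × List Bool → Bool} (hV : PTime V) {pL : Polynomial ℕ}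
    {f : List Bool → LL × LL} (hf : PTime f) (P1 P2 P3 P4 : Polynomial ℕ) (k0 : ℕ) :
    PTime (alg2 V pL f P1 P2 P3 P4 k0) := by
  have hs : PTime (fun x : List Bool => x ++ List.replicate k0 false) :=
    PTime.id.append (PTime.const _)
  have h1 : PTime (fun x : List Bool =>
      List.replicate (P1.eval (x ++ List.replicate k0 false).length) ()) := PTime.unaryPoly hs P1
  have hpr : PTime (fun x : List Bool =>
      findPr (List.replicate (P1.eval (x ++ List.replicate k0 false).length) ())) :=
    ptime_findPr h1
  have hU : PTime (fun x : List Bool =>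
      List.replicate (P1.eval (x ++ List.replicate k0 false).length) () ++
      List.replicate (P1.eval (x ++ List.replicate k0 false).length) () ++ [()]) :=
    (h1.append h1).append (PTime.const [()])
  have h2 : PTime (fun x : List Bool => P2.eval (x ++ List.replicate k0 false).length) :=
    ptime_evalLength hs P2
  have h3 : PTime (fun x : List Bool => P3.eval (x ++ List.replicate k0 false).length) :=
    ptime_evalLength hs P3
  have h4 : PTime (fun x : List Bool =>
      List.replicate (P4.eval (x ++ List.replicate k0 false).length) ()) := PTime.unaryPoly hs P4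
  have hsearch := ptime_search2 pL hf hpr h2 h3 hU (fun x => findPr_le _)
    (KB := fun n => P3.eval (n + k0)) (PBd.comp ⟨P3, fun _ => le_rfl⟩ (PBd.id.add (PBd.const k0)))
    (fun x => eval_mono P3 (by
      rw [List.length_append, List.length_replicate]
      have := length_le_size x
      omega))
  obtain ⟨A, hA⟩ : ∃ A : List Bool × ℕ → List (List Bool), A = fun z => search2 pL f z.1 z.2
      (findPr (List.replicate (P1.eval (z.1 ++ List.replicate k0 false).length) ()))
      (P2.eval (z.1 ++ List.replicate k0 false).length)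
      (P3.eval (z.1 ++ List.replicate k0 false).length) := ⟨_, rfl⟩
  have hA' : PTime A := by rw [hA]; exact hsearch
  have h5 : PTime (fun z : List Bool × ℕ => (A z).any fun v =>
      decide (v.length = pL.eval z.1.length) && V (z.1, v)) := by
    refine PTime.any (g := fun (z : List Bool × ℕ) (v : List Bool) =>
      decide (v.length = pL.eval z.1.length) && V (z.1, v)) hA' ?_
    exact (PTime.eq PTime.snd.length (ptime_evalLength (PTime.fst' PTime.fst) pL)).and
      (hV.comp ((PTime.fst' PTime.fst).pair PTime.snd))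
  have h6 : PTime (fun x : List Bool => (List.range ((List.replicate
      (P4.eval (x ++ List.replicate k0 false).length) ()).length)).any fun c =>
      (A (x, c)).any fun v => decide (v.length = pL.eval x.length) && V (x, v)) :=
    PTime.any (g := fun (x : List Bool) (c : ℕ) => (A (x, c)).any fun v =>
      decide (v.length = pL.eval x.length) && V (x, v)) (PTime.rangeLength h4) h5
  rw [hA] at h6
  exact h6

end Pool.Agent.SparseNP
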