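import Pool.Agent.Lib.MP_69a69c_lc.NegDefs
import Pool.Agent.Lib.MP_69a69c_lc.Time2

/-!
# Few negative answers: stopping the reduction after too many negative answers (STUB)

PROOF. Let `k b T M R` be given by `h`. Put `M' (x, a) = none` if `k < a.count false` and
`M (x, a)` otherwise, `R' (x, a) = !b` if `k < a.count false` and `R (x, a)` otherwise; the new
constant is `k + 1`, the polynomial `T` is the same. Both functions are in polynomial time
(`isPolyTime_iff`, `PTime.iteP`, `PTime.lt`, `ptime_count` of Time2). For all `n` and all `a` with
`a.count false ≤ k + 1` one shows by induction on `n` (generalizing `a`): if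
`(run M S x n a).count false ≤ k` then `run M' S x n a = run M S x n a`; otherwise
`(run M' S x n a).count false = k + 1`. (A run only appends letters, so `a.count false` is at most
the count of `run M S x n a`. In the step: if `k < a.count false` then `M'` stops, and the count is
`k + 1`; otherwise `M' (x, a) = M (x, a)` and the next list has at most `k + 1` letters `false`.)
If the count is at most `k`, the verdict is the old one. Otherwise the verdict is `!b`, and by
hypothesis `¬ (x ∈ L ↔ b = true)`, so `x ∈ L ↔ (!b) = true`.
-/

namespace Pool.Agent.SparseNP

open Pool.Agent.PolyTime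

private theorem count_append_le (a : List Bool) (c : Bool) :
    (a ++ [c]).count false ≤ a.count false + 1 := by
  rw [List.count_append]
  have : ([c] : List Bool).count false ≤ 1 := by
    refine (List.count_le_length).trans ?_
    simp
  omega

private theorem count_le_append (a : List Bool) (c : Bool) :
    a.count false ≤ (a ++ [c]).count false := by
  rw [List.count_append]
  omega

private theorem count_le_run (M : List Bool × List Bool → Option (List Bool))
    (S : Set (List Bool)) (x : List Bool) : ∀ (n : ℕ) (a : List Bool),
    a.count false ≤ (run M S x n a).count false := by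
  intro n
  induction n with
  | zero => intro a; rw [run]
  | succ n ih =>
    intro a
    rw [run]
    cases hM : M (x, a) with
    | none => exact le_rfl
    | some q => exact (count_le_append a _).trans (ih _)

private theorem run_trunc {M M' : List Bool × List Bool → Option (List Bool)}
    {S : Set (List Bool)} {x : List Bool} {k : ℕ}
    (h1 : ∀ a : List Bool, k < a.count false → M' (x, a) = none)
    (h2 : ∀ a : List Bool, ¬ k < a.count false → M' (x, a) = M (x, a)) :
    ∀ (n : ℕ) (a : List Bool), a.count false ≤ k + 1 →
      ((run M S x n a).count false ≤ k → run M' S x n a = run M S x n a) ∧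
      (¬ (run M S x n a).count false ≤ k → (run M' S x n a).count false = k + 1) := by
  intro n
  induction n with
  | zero =>
    intro a ha
    rw [run, run]
    exact ⟨fun _ => rfl, fun h => by omega⟩
  | succ n ih =>
    intro a ha
    by_cases hk : k < a.count false
    · have h3 := count_le_run M S x (n + 1) a
      have h4 : run M' S x (n + 1) a = a := by
        rw [run, h1 a hk]
      rw [h4]
      exact ⟨fun h => by omega, fun _ => by omega⟩
    · rw [run, run, h2 a hk]
      cases hM : M (x, a) with
      | none => exact ⟨fun _ => rfl, fun h => absurd (not_lt.1 hk) h⟩
      | some q =>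
        exact ih _ ((count_append_le a _).trans (by omega))

theorem fewNeg_of {S L : Set (List Bool)} (h : FewNegativeReducible S L) : FewNeg S L := by
  obtain ⟨k, b, T, M, R, hM, hR, hx⟩ := h
  have hM' := isPolyTime_iff.1 hM
  have hR' := isPolyTime_iff.1 hR
  have hc : PTime (fun z : List Bool × List Bool => decide (k < z.2.count false)) :=
    PTime.lt (PTime.const k) (ptime_count PTime.snd (PTime.const false))
  refine ⟨k + 1, T, fun z => if decide (k < z.2.count false) = true then none else M z,
    fun z => if decide (k < z.2.count false) = true then !b else R z,
    PTime.ite hc (PTime.const none) hM', PTime.ite hc (PTime.const (!b)) hR', ?_⟩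
  intro x
  obtain ⟨hx1, hx2⟩ := hx x
  have key := run_trunc (M := M)
    (M' := fun z => if decide (k < z.2.count false) = true then none else M z)
    (S := S) (x := x) (k := k) (fun a ha => by simp [ha]) (fun a ha => by simp [ha])
    (T.eval x.length) [] (by simp)
  by_cases hk : (run M S x (T.eval x.length) []).count false ≤ k
  · rw [key.1 hk]
    refine ⟨?_, by omega⟩
    beta_reduce
    rw [if_neg (by rw [decide_eq_true_iff]; exact not_lt.2 hk)]
    exact hx1
  · have h5 := key.2 hk
    refine ⟨?_, h5.le⟩
    beta_reduce
    rw [if_pos (by rw [decide_eq_true_iff]; dsimp only; omega)]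
    have h6 : ¬ (x ∈ L ↔ b = true) := fun h => hk (hx2 h)
    cases b
    · simp only [Bool.false_eq_true, iff_false, not_not, Bool.not_false, iff_true] at h6 ⊢
      exact h6
    · simp only [iff_true, Bool.not_true, Bool.false_eq_true, iff_false] at h6 ⊢
      exact h6

end Pool.Agent.SparseNP
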