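import Pool.Agent.Lib.MP_69a69c_lc.Algebra

/-!
# Boolean combinations of systems as alternating differences of nested systems
-/

namespace Pool.Agent.SparseNP

/-- product of two polynomials -/
def mulP (P Q : List (ℕ × List ℕ)) : List (ℕ × List ℕ) :=
  P.flatMap fun s => Q.map fun t => (s.1 * t.1, s.2 ++ t.2)

/-- system describing the union of two solution sets -/
def un (U Z : List (List (ℕ × List ℕ))) : List (List (ℕ × List ℕ)) :=
  U.flatMap fun P => Z.map fun Q => mulP P Q

/-- insertion into a decreasing chain -/
def insN : ℕ → List (List (ℕ × List ℕ)) → List (List (List (ℕ × List ℕ))) →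
    List (List (List (ℕ × List ℕ)))
  | 0, Z, _ => [Z]
  | _ + 1, Z, [] => [Z]
  | N + 1, Z, U :: Us => un U Z :: insN N (U ++ Z) Us

/-- nested form -/
def nestN : ℕ → List (List (List (ℕ × List ℕ))) → List (List (List (ℕ × List ℕ)))
  | 0, _ => []
  | _ + 1, [] => []
  | N + 1, Z :: Zs => insN N Z (nestN N Zs)

/-- systems, the number of valid ones being odd iff the pattern is `σ` -/
def expand : List Bool → List (List (List (ℕ × List ℕ))) → List (List (List (ℕ × List ℕ)))
  | [], [] => [[]]
  | [], _ :: _ => []
  | _ :: _, [] => []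
  | true :: σ, Z :: Zs => (expand σ Zs).map fun Y => Z ++ Y
  | false :: σ, Z :: Zs => expand σ Zs ++ (expand σ Zs).map fun Y => Z ++ Y

/-- alternating difference -/
def altB : List Bool → Bool
  | [] => false
  | u :: us => u && !altB us

/-- all Boolean lists of length `D` -/
def allPat : ℕ → List (List Bool)
  | 0 => [[]]
  | D + 1 => (allPat D).map (fun l => true :: l) ++ (allPat D).map (fun l => false :: l)

/-- accepted patterns -/
def acc (β : List Bool → Bool) (D : ℕ) : List (List Bool) := (allPat D).filter β

/-- bound for the number of systems in the nested form -/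
def depth (β : List Bool → Bool) (D : ℕ) : ℕ := ((acc β D).map fun σ => 2 ^ σ.length).sum

/-- conversion of a Boolean combination into nested form -/
def conv (β : List Bool → Bool) (D : ℕ) (Zs : List (List (List (ℕ × List ℕ)))) :
    List (List (List (ℕ × List ℕ))) :=
  nestN (depth β D) ((acc β D).flatMap fun σ => expand σ Zs)

/-! ### values -/

theorem value_mul_term (τ : ℕ → ℤ) (s : ℕ × List ℕ) (Q : List (ℕ × List ℕ)) :
    value τ (Q.map fun t => (s.1 * t.1, s.2 ++ t.2)) =
      (s.1 : ℤ) * (s.2.map τ).prod * value τ Q := by
  induction Q with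
  | nil => simp
  | cons t Q ih =>
    rw [List.map_cons, value_cons, ih, value_cons]
    push_cast
    rw [List.map_append, List.prod_append]
    ring

theorem value_mulP (τ : ℕ → ℤ) (P Q : List (ℕ × List ℕ)) :
    value τ (mulP P Q) = value τ P * value τ Q := by
  unfold mulP
  induction P with
  | nil => simp
  | cons s P ih =>
    rw [List.flatMap_cons, value_append, ih, value_mul_term, value_cons]
    ring

theorem holds_append (τ : ℕ → ℤ) (p : ℕ) (U Z : List (List (ℕ × List ℕ))) :
    Holds τ p (U ++ Z) ↔ Holds τ p U ∧ Holds τ p Z := by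
  unfold Holds
  simp only [List.mem_append]
  constructor
  · intro h
    exact ⟨fun P hP => h P (Or.inl hP), fun P hP => h P (Or.inr hP)⟩
  · rintro ⟨h1, h2⟩ P (hP | hP)
    · exact h1 P hP
    · exact h2 P hP

theorem holds_un (τ : ℕ → ℤ) {p : ℕ} (hp : p.Prime) (U Z : List (List (ℕ × List ℕ))) :
    Holds τ p (un U Z) ↔ Holds τ p U ∨ Holds τ p Z := by
  have hp' : Prime (p : ℤ) := Nat.prime_iff_prime_int.1 hp
  constructor
  · intro h
    by_contra hc
    push Not at hc
    obtain ⟨h1, h2⟩ := hc
    unfold Holds at h1 h2
    push Not at h1 h2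
    obtain ⟨P, hP, hP'⟩ := h1
    obtain ⟨Q, hQ, hQ'⟩ := h2
    have h3 := h (mulP P Q) (List.mem_flatMap.2 ⟨P, hP, List.mem_map.2 ⟨Q, hQ, rfl⟩⟩)
    rw [value_mulP, hp'.dvd_mul] at h3
    rcases h3 with h3 | h3
    · exact hP' h3
    · exact hQ' h3
  · intro h R hR
    obtain ⟨P, hP, hR⟩ := List.mem_flatMap.1 hR
    obtain ⟨Q, hQ, rfl⟩ := List.mem_map.1 hR
    rw [value_mulP]
    rcases h with h | h
    · exact (h P hP).mul_right _
    · exact (h Q hQ).mul_left _

theorem pattern_cons (τ : ℕ → ℤ) (p : ℕ) (Z : List (List (ℕ × List ℕ)))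
    (Zs : List (List (List (ℕ × List ℕ)))) [Decidable (Holds τ p Z)] :
    pattern τ p (Z :: Zs) = decide (Holds τ p Z) :: pattern τ p Zs := by
  unfold pattern
  rw [List.map_cons]
  congr

theorem pattern_append (τ : ℕ → ℤ) (p : ℕ) (Us Zs : List (List (List (ℕ × List ℕ)))) :
    pattern τ p (Us ++ Zs) = pattern τ p Us ++ pattern τ p Zs := by
  simp [pattern]

theorem pattern_length (τ : ℕ → ℤ) (p : ℕ) (Zs : List (List (List (ℕ × List ℕ)))) :
    (pattern τ p Zs).length = Zs.length := by simp [pattern]

/-! ### insertion and nested form -/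

theorem insN_spec (τ : ℕ → ℤ) {p : ℕ} (hp : p.Prime) : ∀ (N : ℕ)
    (Z : List (List (ℕ × List ℕ))) (Us : List (List (List (ℕ × List ℕ)))) (a b : ℕ),
    Us.length ≤ N → pattern τ p Us = List.replicate a true ++ List.replicate b false →
    (Holds τ p Z → pattern τ p (insN N Z Us) =
      List.replicate (a + 1) true ++ List.replicate b false) ∧
    (¬ Holds τ p Z → pattern τ p (insN N Z Us) =
      List.replicate a true ++ List.replicate (b + 1) false) := by
  classical
  have hnil : ∀ (Z : List (List (ℕ × List ℕ))) (a b : ℕ),
      pattern τ p [] = List.replicate a true ++ List.replicate b false →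
      (Holds τ p Z → pattern τ p [Z] = List.replicate (a + 1) true ++ List.replicate b false) ∧
      (¬ Holds τ p Z → pattern τ p [Z] =
        List.replicate a true ++ List.replicate (b + 1) false) := by
    intro Z a b h
    have h' := congrArg List.length h
    simp [pattern] at h'
    obtain ⟨rfl, rfl⟩ : a = 0 ∧ b = 0 := by omega
    constructor
    · intro hZ; rw [pattern_cons, decide_eq_true hZ]; simp [pattern]
    · intro hZ; rw [pattern_cons, decide_eq_false hZ]; simp [pattern]
  intro N
  induction N with
  | zero =>
    intro Z Us a b hl h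
    obtain rfl : Us = [] := List.length_eq_zero_iff.1 (by omega)
    exact hnil Z a b h
  | succ N ih =>
    intro Z Us a b hl h
    cases Us with
    | nil => exact hnil Z a b h
    | cons U Us =>
      rw [pattern_cons] at h
      change (Holds τ p Z → pattern τ p (un U Z :: insN N (U ++ Z) Us) = _) ∧
        (¬ Holds τ p Z → pattern τ p (un U Z :: insN N (U ++ Z) Us) = _)
      rw [pattern_cons]
      cases a with
      | zero =>
        cases b with
        | zero => simp at h
        | succ b =>
          rw [List.replicate_zero, List.nil_append, List.replicate_succ, List.cons.injEq] at h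
          obtain ⟨hU, hUs⟩ := h
          have hU' : ¬ Holds τ p U := by simpa using hU
          have hc : ¬ Holds τ p (U ++ Z) := fun hc => hU' ((holds_append τ p U Z).1 hc).1
          have h1 := (ih (U ++ Z) Us 0 b (by simpa using hl) (by simpa using hUs)).2 hc
          rw [h1]
          constructor
          · intro hZ
            rw [decide_eq_true ((holds_un τ hp U Z).2 (Or.inr hZ))]
            rfl
          · intro hZ
            rw [decide_eq_false fun hc' => ((holds_un τ hp U Z).1 hc').elim hU' hZ]
            rfl
      | succ a =>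
        rw [List.replicate_succ, List.cons_append, List.cons.injEq] at h
        obtain ⟨hU, hUs⟩ := h
        have hU' : Holds τ p U := by simpa using hU
        have h1 := ih (U ++ Z) Us a b (by simpa using hl) hUs
        rw [decide_eq_true ((holds_un τ hp U Z).2 (Or.inl hU'))]
        constructor
        · intro hZ
          rw [h1.1 ((holds_append τ p U Z).2 ⟨hU', hZ⟩)]
          rfl
        · intro hZ
          rw [h1.2 fun hc => hZ ((holds_append τ p U Z).1 hc).2]
          rfl

theorem insN_length : ∀ (N : ℕ) (Z : List (List (ℕ × List ℕ)))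
    (Us : List (List (List (ℕ × List ℕ)))), Us.length ≤ N →
    (insN N Z Us).length = Us.length + 1 := by
  intro N
  induction N with
  | zero =>
    intro Z Us hl
    obtain rfl : Us = [] := List.length_eq_zero_iff.1 (by omega)
    rfl
  | succ N ih =>
    intro Z Us hl
    cases Us with
    | nil => rfl
    | cons U Us =>
      change (insN N (U ++ Z) Us).length + 1 = _
      rw [ih _ _ (by simpa using hl)]
      rfl

theorem nestN_length : ∀ (N : ℕ) (Zs : List (List (List (ℕ × List ℕ)))), Zs.length ≤ N →
    (nestN N Zs).length = Zs.length := by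
  intro N
  induction N with
  | zero =>
    intro Zs hl
    obtain rfl : Zs = [] := List.length_eq_zero_iff.1 (by omega)
    rfl
  | succ N ih =>
    intro Zs hl
    cases Zs with
    | nil => rfl
    | cons Z Zs =>
      have h := ih Zs (by simpa using hl)
      change (insN N Z (nestN N Zs)).length = _
      rw [insN_length N Z _ (by rw [h]; simpa using hl), h]
      rfl

theorem nestN_length_le : ∀ (N : ℕ) (Zs : List (List (List (ℕ × List ℕ)))),
    (nestN N Zs).length ≤ N := by
  have h0 : ∀ (N : ℕ) (Z : List (List (ℕ × List ℕ))) (Us : List (List (List (ℕ × List ℕ)))),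
      (insN N Z Us).length ≤ N + 1 := by
    intro N
    induction N with
    | zero => intro Z Us; exact le_refl _
    | succ N ih =>
      intro Z Us
      cases Us with
      | nil => change 1 ≤ _; omega
      | cons U Us =>
        change (insN N (U ++ Z) Us).length + 1 ≤ _
        have := ih (U ++ Z) Us
        omega
  intro N
  cases N with
  | zero => intro Zs; exact le_refl _
  | succ N =>
    intro Zs
    cases Zs with
    | nil => exact Nat.zero_le _
    | cons Z Zs => exact h0 N Z _

theorem nestN_spec (τ : ℕ → ℤ) {p : ℕ} (hp : p.Prime) : ∀ (N : ℕ)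
    (Zs : List (List (List (ℕ × List ℕ)))), Zs.length ≤ N →
    ∃ b, pattern τ p (nestN N Zs) =
      List.replicate ((pattern τ p Zs).count true) true ++ List.replicate b false := by
  classical
  intro N
  induction N with
  | zero =>
    intro Zs hl
    obtain rfl : Zs = [] := List.length_eq_zero_iff.1 (by omega)
    exact ⟨0, rfl⟩
  | succ N ih =>
    intro Zs hl
    cases Zs with
    | nil => exact ⟨0, rfl⟩
    | cons Z Zs =>
      have hl' : Zs.length ≤ N := by simpa using hl
      obtain ⟨b, hb⟩ := ih Zs hl'
      have h := insN_spec τ hp N Z (nestN N Zs) _ b (by rw [nestN_length N Zs hl']; exact hl') hb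
      rw [pattern_cons]
      change ∃ b, pattern τ p (insN N Z (nestN N Zs)) = _
      by_cases hZ : Holds τ p Z
      · exact ⟨b, by rw [h.1 hZ, decide_eq_true hZ, List.count_cons_self]⟩
      · exact ⟨b + 1, by rw [h.2 hZ, decide_eq_false hZ, List.count_cons_of_ne (by decide)]⟩

theorem altB_sorted (b : ℕ) : ∀ a : ℕ,
    altB (List.replicate a true ++ List.replicate b false) = decide (a % 2 = 1) := by
  intro a
  induction a with
  | zero =>
    cases b with
    | zero => rfl
    | succ b => simp [altB, List.replicate_succ]
  | succ a ih =>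
    rw [List.replicate_succ, List.cons_append]
    change (true && !altB _) = _
    rw [ih]
    rcases Nat.mod_two_eq_zero_or_one a with h | h <;> simp [Nat.add_mod, h]

/-! ### expansion -/

theorem count_expand (τ : ℕ → ℤ) (p : ℕ) : ∀ (σ : List Bool)
    (Zs : List (List (List (ℕ × List ℕ)))),
    (pattern τ p (expand σ Zs)).count true % 2 = if pattern τ p Zs = σ then 1 else 0 := by
  classical
  have hmap : ∀ (Z : List (List (ℕ × List ℕ))) (Ys : List (List (List (ℕ × List ℕ)))),
      (pattern τ p (Ys.map fun Y => Z ++ Y)).count true =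
        if Holds τ p Z then (pattern τ p Ys).count true else 0 := by
    intro Z Ys
    induction Ys with
    | nil => simp [pattern]
    | cons Y Ys ih =>
      rw [List.map_cons, pattern_cons, pattern_cons]
      by_cases hZ : Holds τ p Z
      · rw [if_pos hZ] at ih ⊢
        by_cases hY : Holds τ p Y
        · rw [decide_eq_true ((holds_append τ p Z Y).2 ⟨hZ, hY⟩), decide_eq_true hY,
            List.count_cons_self, List.count_cons_self, ih]
        · rw [decide_eq_false fun h => hY ((holds_append τ p Z Y).1 h).2, decide_eq_false hY,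
            List.count_cons_of_ne (by decide), List.count_cons_of_ne (by decide), ih]
      · rw [if_neg hZ] at ih ⊢
        rw [decide_eq_false fun h => hZ ((holds_append τ p Z Y).1 h).1,
          List.count_cons_of_ne (by decide), ih]
  intro σ
  induction σ with
  | nil =>
    intro Zs
    cases Zs with
    | nil =>
      have h1 : Holds τ p [] := fun P hP => by simp at hP
      change (pattern τ p [[]]).count true % 2 = _
      rw [pattern_cons, decide_eq_true h1]
      simp [pattern]
    | cons Z Zs =>
      change (pattern τ p []).count true % 2 = _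
      rw [if_neg]
      · rfl
      · intro h
        have := congrArg List.length h
        simp [pattern] at this
  | cons s σ ih =>
    intro Zs
    cases Zs with
    | nil =>
      have h1 : expand (s :: σ) [] = [] := by cases s <;> rfl
      rw [h1, if_neg]
      · rfl
      · intro h
        have := congrArg List.length h
        simp [pattern] at this
    | cons Z Zs =>
      have hi := ih Zs
      rw [pattern_cons]
      cases s with
      | true =>
        change (pattern τ p ((expand σ Zs).map fun Y => Z ++ Y)).count true % 2 = _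
        rw [hmap]
        by_cases hZ : Holds τ p Z
        · rw [if_pos hZ, hi, decide_eq_true hZ]
          simp
        · rw [if_neg hZ, decide_eq_false hZ]
          simp
      | false =>
        change (pattern τ p (expand σ Zs ++ (expand σ Zs).map fun Y => Z ++ Y)).count true % 2 = _
        rw [pattern_append, List.count_append, hmap]
        by_cases hZ : Holds τ p Z
        · rw [if_pos hZ, decide_eq_true hZ]
          simp
          omega
        · rw [if_neg hZ, decide_eq_false hZ, Nat.add_zero, hi]
          simp

theorem expand_length : ∀ (σ : List Bool) (Zs : List (List (List (ℕ × List ℕ)))),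
    (expand σ Zs).length ≤ 2 ^ σ.length := by
  intro σ
  induction σ with
  | nil => intro Zs; cases Zs <;> simp [expand]
  | cons s σ ih =>
    intro Zs
    cases Zs with
    | nil => cases s <;> simp [expand]
    | cons Z Zs =>
      have h := ih Zs
      cases s
      · simp only [expand, List.length_append, List.length_map, List.length_cons, pow_succ]
        omega
      · simp only [expand, List.length_map, List.length_cons, pow_succ]
        omega

theorem mem_allPat : ∀ (D : ℕ) (l : List Bool), l ∈ allPat D ↔ l.length = D := by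
  intro D
  induction D with
  | zero => intro l; simp [allPat]
  | succ D ih =>
    intro l
    cases l with
    | nil => simp [allPat]
    | cons b l => cases b <;> simp [allPat, ih]

theorem allPat_nodup : ∀ D : ℕ, (allPat D).Nodup := by
  intro D
  induction D with
  | zero => simp [allPat]
  | succ D ih =>
    unfold allPat
    rw [List.nodup_append']
    refine ⟨ih.map fun a b h => by simpa using h, ih.map fun a b h => by simpa using h, ?_⟩
    intro x hx hx'
    obtain ⟨l, _, rfl⟩ := List.mem_map.1 hx
    obtain ⟨l', _, h⟩ := List.mem_map.1 hx'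
    simp at h

theorem count_flatMap (τ : ℕ → ℤ) (p : ℕ) (Zs : List (List (List (ℕ × List ℕ)))) :
    ∀ A : List (List Bool), A.Nodup →
      (pattern τ p (A.flatMap fun σ => expand σ Zs)).count true % 2 =
        if pattern τ p Zs ∈ A then 1 else 0 := by
  intro A
  induction A with
  | nil => intro _; simp [pattern]
  | cons σ A ih =>
    intro hA
    rw [List.nodup_cons] at hA
    rw [List.flatMap_cons, pattern_append, List.count_append, Nat.add_mod, ih hA.2,
      count_expand]
    by_cases h : pattern τ p Zs = σ
    · rw [if_pos h, if_neg (by rw [h]; exact hA.1), if_pos (by rw [h]; exact List.mem_cons_self ..)]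
    · rw [if_neg h]
      by_cases h' : pattern τ p Zs ∈ A
      · rw [if_pos h', if_pos (List.mem_cons_of_mem _ h')]
      · rw [if_neg h', if_neg]
        rw [List.mem_cons]
        exact fun hc => hc.elim h h'

theorem conv_spec (τ : ℕ → ℤ) {p : ℕ} (hp : p.Prime) (β : List Bool → Bool) (D : ℕ)
    (Zs : List (List (List (ℕ × List ℕ)))) (hD : Zs.length = D) :
    altB (pattern τ p (conv β D Zs)) = β (pattern τ p Zs) := by
  have hlen : ((acc β D).flatMap fun σ => expand σ Zs).length ≤ depth β D := by
    unfold depth
    rw [List.length_flatMap]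
    exact List.sum_le_sum fun σ _ => expand_length σ Zs
  obtain ⟨b, hb⟩ := nestN_spec τ hp (depth β D) _ hlen
  unfold conv
  rw [hb, altB_sorted, count_flatMap τ p Zs (acc β D) ((allPat_nodup D).filter _)]
  have hmem : pattern τ p Zs ∈ acc β D ↔ β (pattern τ p Zs) = true := by
    unfold acc
    rw [List.mem_filter, mem_allPat, pattern_length, hD]
    simp
  by_cases h : β (pattern τ p Zs) = true
  · rw [if_pos (hmem.2 h), h]; rfl
  · rw [if_neg fun hc => h (hmem.1 hc)]
    rw [Bool.not_eq_true] at h
    rw [h]; rfl

theorem conv_length (β : List Bool → Bool) (D : ℕ) (Zs : List (List (List (ℕ × List ℕ)))) :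
    (conv β D Zs).length ≤ depth β D := nestN_length_le _ _

/-! ### degrees and indices -/

/-- bound for degrees and indices -/
def Bd (k m : ℕ) (Z : List (List (ℕ × List ℕ))) : Prop :=
  ∀ P ∈ Z, ∀ t ∈ P, t.2.length ≤ k ∧ ∀ i ∈ t.2, i ≤ m

theorem Bd.mono {k k' m : ℕ} {Z : List (List (ℕ × List ℕ))} (h : Bd k m Z) (hk : k ≤ k') :
    Bd k' m Z := fun P hP t ht => ⟨((h P hP t ht).1).trans hk, (h P hP t ht).2⟩

theorem Bd.append {k m : ℕ} {U Z : List (List (ℕ × List ℕ))} (hU : Bd k m U) (hZ : Bd k m Z) :
    Bd k m (U ++ Z) := by
  intro P hP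
  rcases List.mem_append.1 hP with hP | hP
  · exact hU P hP
  · exact hZ P hP

theorem Bd.un {k m : ℕ} {U Z : List (List (ℕ × List ℕ))} (hU : Bd k m U) (hZ : Bd k m Z) :
    Bd (2 * k) m (un U Z) := by
  intro R hR t ht
  obtain ⟨P, hP, hR⟩ := List.mem_flatMap.1 hR
  obtain ⟨Q, hQ, rfl⟩ := List.mem_map.1 hR
  unfold mulP at ht
  obtain ⟨s, hs, ht⟩ := List.mem_flatMap.1 ht
  obtain ⟨s', hs', rfl⟩ := List.mem_map.1 ht
  have h1 := hU P hP s hs
  have h2 := hZ Q hQ s' hs'
  refine ⟨by simp only [List.length_append]; omega, ?_⟩
  intro i hi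
  rcases List.mem_append.1 hi with hi | hi
  · exact h1.2 i hi
  · exact h2.2 i hi

theorem insN_bd (m : ℕ) : ∀ (N k : ℕ) (Z : List (List (ℕ × List ℕ)))
    (Us : List (List (List (ℕ × List ℕ)))), Bd k m Z → (∀ U ∈ Us, Bd k m U) →
    ∀ U ∈ insN N Z Us, Bd (2 * k) m U := by
  intro N
  induction N with
  | zero =>
    intro k Z Us hZ _ U hU
    rw [insN, List.mem_singleton] at hU
    subst hU
    exact hZ.mono (by omega)
  | succ N ih =>
    intro k Z Us hZ hUs U hU
    cases Us with
    | nil =>
      rw [insN, List.mem_singleton] at hU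
      subst hU
      exact hZ.mono (by omega)
    | cons U' Us =>
      rw [insN] at hU
      rcases List.mem_cons.1 hU with rfl | hU
      · exact (hUs U' (List.mem_cons_self ..)).un hZ
      · exact ih k (U' ++ Z) Us ((hUs U' (List.mem_cons_self ..)).append hZ)
          (fun U hU => hUs U (List.mem_cons_of_mem _ hU)) U hU

theorem nestN_bd (m k : ℕ) : ∀ (N : ℕ) (Zs : List (List (List (ℕ × List ℕ)))),
    (∀ Z ∈ Zs, Bd k m Z) → ∀ U ∈ nestN N Zs, Bd (2 ^ N * k) m U := by
  intro N
  induction N with
  | zero => intro Zs _ U hU; simp [nestN] at hU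
  | succ N ih =>
    intro Zs hZs U hU
    cases Zs with
    | nil => simp [nestN] at hU
    | cons Z Zs =>
      rw [nestN] at hU
      have h1 := ih Zs fun Z hZ => hZs Z (List.mem_cons_of_mem _ hZ)
      have h2 := insN_bd m N (2 ^ N * k) Z (nestN N Zs) ((hZs Z (List.mem_cons_self ..)).mono
        (Nat.le_mul_of_pos_left _ (by positivity))) h1 U hU
      rw [pow_succ, mul_comm (2 ^ N) 2, mul_assoc]
      exact h2

theorem expand_bd (k m : ℕ) : ∀ (σ : List Bool) (Zs : List (List (List (ℕ × List ℕ)))),
    (∀ Z ∈ Zs, Bd k m Z) → ∀ U ∈ expand σ Zs, Bd k m U := by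
  intro σ
  induction σ with
  | nil =>
    intro Zs _ U hU
    cases Zs with
    | nil =>
      simp only [expand, List.mem_singleton] at hU
      subst hU
      intro P hP
      simp at hP
    | cons Z Zs => simp [expand] at hU
  | cons s σ ih =>
    intro Zs hZs U hU
    cases Zs with
    | nil => cases s <;> simp [expand] at hU
    | cons Z Zs =>
      have h1 := ih Zs fun Z hZ => hZs Z (List.mem_cons_of_mem _ hZ)
      have h2 : ∀ U ∈ (expand σ Zs).map fun Y => Z ++ Y, Bd k m U := by
        intro U hU
        obtain ⟨Y, hY, rfl⟩ := List.mem_map.1 hU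
        exact (hZs Z (List.mem_cons_self ..)).append (h1 Y hY)
      cases s with
      | true => exact h2 U hU
      | false =>
        rcases List.mem_append.1 hU with hU | hU
        · exact h1 U hU
        · exact h2 U hU

theorem conv_bd (k m : ℕ) (β : List Bool → Bool) (D : ℕ) (Zs : List (List (List (ℕ × List ℕ))))
    (hZs : ∀ Z ∈ Zs, Bd k m Z) : ∀ U ∈ conv β D Zs, Bd (2 ^ depth β D * k) m U := by
  refine nestN_bd m k _ _ ?_
  intro U hU
  obtain ⟨σ, _, hU⟩ := List.mem_flatMap.1 hU
  exact expand_bd k m σ Zs hZs U hU

/-! ### monomials -/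

/-- all lists of length at most `k` with entries in `L` -/
def monos : ℕ → List ℕ → List (List ℕ)
  | 0, _ => [[]]
  | k + 1, L => [] :: L.flatMap fun i => (monos k L).map fun M => i :: M

theorem mem_monos (L : List ℕ) : ∀ (k : ℕ) (M : List ℕ),
    M ∈ monos k L ↔ M.length ≤ k ∧ ∀ i ∈ M, i ∈ L := by
  intro k
  induction k with
  | zero => intro M; cases M <;> simp [monos]
  | succ k ih =>
    intro M
    cases M with
    | nil => simp [monos]
    | cons i M =>
      simp only [monos, List.mem_cons, List.mem_flatMap, List.mem_map, List.length_cons, ih]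
      constructor
      · rintro (h | ⟨j, hj, M', hM', h⟩)
        · simp at h
        · simp only [List.cons.injEq] at h
          obtain ⟨rfl, rfl⟩ := h
          exact ⟨by omega, by rintro x (rfl | hx); exacts [hj, hM'.2 x hx]⟩
      · rintro ⟨h1, h2⟩
        exact Or.inr ⟨i, h2 i (Or.inl rfl), M, ⟨by omega, fun x hx => h2 x (Or.inr hx)⟩, rfl⟩

theorem monos_nodup (L : List ℕ) (hL : L.Nodup) : ∀ k : ℕ, (monos k L).Nodup := by
  intro k
  induction k with
  | zero => simp [monos]
  | succ k ih =>
    rw [monos, List.nodup_cons]
    refine ⟨by simp, ?_⟩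
    rw [List.nodup_flatMap]
    refine ⟨fun i _ => ih.map fun a b h => by simpa using h, ?_⟩
    refine hL.imp ?_
    intro i j hij M hM hM'
    obtain ⟨a, _, rfl⟩ := List.mem_map.1 hM
    obtain ⟨b, _, h⟩ := List.mem_map.1 hM'
    simp only [List.cons.injEq] at h
    exact hij h.1.symm

theorem monos_length (L : List ℕ) : ∀ k : ℕ, (monos k L).length ≤ (L.length + 1) ^ k := by
  intro k
  induction k with
  | zero => simp [monos]
  | succ k ih =>
    have h : (monos (k + 1) L).length = L.length * (monos k L).length + 1 := by
      simp [monos, List.length_flatMap]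
    rw [h, pow_succ]
    have h1 : 1 ≤ (L.length + 1) ^ k := Nat.one_le_pow _ _ (by omega)
    nlinarith

end Pool.Agent.SparseNP
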