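import Pool.Agent.Lib.MP_69a69c_lc.Nest

/-!
# Pruning a chain of candidates
-/

namespace Pool.Agent.SparseNP

/-- candidate, prime, nested systems -/
abbrev Item := List Bool × (ℕ × List (List (List (ℕ × List ℕ))))

/-- a system which never holds -/
def falseSys : List (List (ℕ × List ℕ)) := [[(1, [])]]

/-- the first system of a list -/
def headSys (Us : List (List (List (ℕ × List ℕ)))) : List (List (ℕ × List ℕ)) := Us.headD falseSys

/-- remove the first system -/
def tl (a : Item) : Item := (a.1, (a.2.1, a.2.2.tail))

/-- truth value of an item -/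
noncomputable def Ft (τ : ℕ → ℤ) (a : Item) : Bool := altB (pattern τ a.2.1 a.2.2)

/-- truth value of the first system -/
def Ht (τ : ℕ → ℤ) (a : Item) : Prop := Holds τ a.2.1 (headSys a.2.2)

/-- step of the cutting procedure -/
def cutStep (idx : List (List ℕ)) (s : List BE × List (List Item)) (a : Item) :
    List BE × List (List Item) :=
  if (insertS idx a.2.1 s.1 (headSys a.2.2)).length = s.1.length then
    match s.2 with
    | [] => (s.1, [[a]])
    | I :: rest => (s.1, (a :: I) :: rest)
  else (insertS idx a.2.1 s.1 (headSys a.2.2), [a] :: s.2)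

/-- cut the list of items into intervals (reversed, in reversed order) on which the first systems
give no new equations -/
def cut (idx : List (List ℕ)) (l : List Item) : List (List Item) :=
  (l.foldl (cutStep idx) ([], [])).2

/-- pruning -/
def prune : ℕ → List (List ℕ) → List Item → List (List Bool)
  | 0, _, l => (l.take 1).map fun a => a.1
  | d + 1, idx, l => (cut idx l).flatMap fun I =>
      (I.reverse.take 1).map (fun a => a.1) ++ prune d idx (I.map tl)

/-- validity of items -/
structure ItemOk (idx : List (List ℕ)) (q d : ℕ) (a : Item) : Prop where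
  prime : a.2.1.Prime
  le : a.2.1 ≤ q
  inn : ∀ Z ∈ a.2.2, ∀ P ∈ Z, In idx P
  len : a.2.2.length ≤ d

theorem not_holds_falseSys (τ : ℕ → ℤ) {p : ℕ} (hp : p.Prime) : ¬ Holds τ p falseSys := by
  intro h
  have h1 := h [(1, [])] (by simp [falseSys])
  have h2 : value τ [(1, [])] = 1 := by simp [value]
  rw [h2] at h1
  have h3 : (p : ℤ) ∣ ((1 : ℕ) : ℤ) := by simpa using h1
  rw [Int.natCast_dvd_natCast, Nat.dvd_one] at h3
  exact hp.one_lt.ne' h3

open Classical in
theorem Ft_eq (τ : ℕ → ℤ) {a : Item} (hp : a.2.1.Prime) :
    Ft τ a = (decide (Ht τ a) && !Ft τ (tl a)) := by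
  obtain ⟨v, p, Us⟩ := a
  cases Us with
  | nil =>
    have h : ¬ Ht τ (v, (p, [])) := not_holds_falseSys τ hp
    rw [decide_eq_false h]
    rfl
  | cons U Us =>
    unfold Ft Ht tl
    simp only
    rw [pattern_cons]
    rfl

theorem ItemOk.head {idx : List (List ℕ)} (h0 : [] ∈ idx) {q d : ℕ} {a : Item}
    (h : ItemOk idx q d a) : ∀ P ∈ headSys a.2.2, In idx P := by
  intro P hP
  unfold headSys at hP
  cases hU : a.2.2 with
  | nil =>
    rw [hU, List.headD_nil, falseSys, List.mem_singleton] at hP
    subst hP
    intro t ht
    rw [List.mem_singleton] at ht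
    subst ht
    exact h0
  | cons U Us =>
    rw [hU, List.headD_cons] at hP
    exact h.inn U (by rw [hU]; exact List.mem_cons_self ..) P hP

theorem ItemOk.tl {idx : List (List ℕ)} {q d : ℕ} {a : Item}
    (h : ItemOk idx q (d + 1) a) : ItemOk idx q d (tl a) :=
  ⟨h.prime, h.le, fun Z hZ => h.inn Z (List.mem_of_mem_tail hZ), by
    have := h.len
    change a.2.2.tail.length ≤ d
    rw [List.length_tail]
    omega⟩

/-- the items of a list of (reversed) intervals -/
def itemsOf : List (List Item) → List Item
  | [] => []
  | I :: rest => itemsOf rest ++ I.reverse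

/-- if the first systems hold for all items before an interval and for its first item, then they
hold on the interval -/
def Good (τ : ℕ → ℤ) : List (List Item) → Prop
  | [] => True
  | I :: rest => (∃ I' a0, I = I' ++ [a0] ∧
      ((∀ b ∈ itemsOf rest, Ht τ b) → Ht τ a0 → ∀ a ∈ I, Ht τ a)) ∧ Good τ rest

/-- invariant of the cutting procedure -/
structure CutInv (τ : ℕ → ℤ) (idx : List (List ℕ)) (q : ℕ) (pre : List Item)
    (s : List BE × List (List Item)) : Prop where
  basis : BasisOk idx.length q s.1
  items : itemsOf s.2 = pre
  good : Good τ s.2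
  van : (∀ a ∈ pre, Ht τ a) → ∀ b ∈ s.1, Van τ idx b
  count : s.2.length ≤ s.1.length + 1

theorem cutStep_inv (τ : ℕ → ℤ) {idx : List (List ℕ)} (hnd : idx.Nodup) (h0 : [] ∈ idx)
    {q d : ℕ} {pre : List Item} {s : List BE × List (List Item)}
    (h : CutInv τ idx q pre s) {a : Item} (ha : ItemOk idx q d a) :
    CutInv τ idx q (pre ++ [a]) (cutStep idx s a) := by
  obtain ⟨B, acc⟩ := s
  have hvan' : (∀ b ∈ pre ++ [a], Ht τ b) → ∀ b ∈ B, Van τ idx b := fun hh =>
    h.van fun b hb => hh b (List.mem_append.2 (Or.inl hb))
  unfold cutStep
  simp only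
  split
  · rename_i hl
    cases acc with
    | nil =>
      simp only
      have hpre : pre = [] := h.items.symm
      subst hpre
      refine ⟨h.basis, rfl, ⟨⟨[], a, rfl, ?_⟩, trivial⟩, hvan', by simp⟩
      intro _ h1 b hb
      rw [List.mem_singleton] at hb
      subst hb
      exact h1
    | cons I rest =>
      simp only
      have hitems : itemsOf rest ++ I.reverse = pre := h.items
      refine ⟨h.basis, ?_, ?_, hvan', h.count⟩
      · change itemsOf rest ++ (a :: I).reverse = _
        rw [← hitems, List.reverse_cons, List.append_assoc]
      · obtain ⟨⟨I', a0, hI, hG⟩, hrest⟩ := h.good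
        refine ⟨⟨a :: I', a0, by rw [hI]; rfl, ?_⟩, hrest⟩
        intro h1 h2 b hb
        have h3 := hG h1 h2
        rcases List.mem_cons.1 hb with rfl | hb
        · have h4 : ∀ b ∈ B, Van τ idx b := by
            refine h.van fun c hc => ?_
            rw [← hitems] at hc
            rcases List.mem_append.1 hc with hc | hc
            · exact h1 c hc
            · exact h3 c (List.mem_reverse.1 hc)
          exact (insertS_same τ idx hnd ha.prime ha.le _ (ha.head h0) h.basis h4 hl).2
        · exact h3 b hb
  · rename_i hl
    refine ⟨insertS_ok idx ha.prime ha.le _ h.basis, ?_, ⟨⟨[], a, rfl, ?_⟩, h.good⟩, ?_, ?_⟩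
    · change itemsOf acc ++ [a] = _
      rw [h.items]
    · intro _ h1 b hb
      rw [List.mem_singleton] at hb
      subst hb
      exact h1
    · intro hh
      exact insertS_van τ idx hnd ha.prime ha.le _ (ha.head h0)
        (hh a (List.mem_append.2 (Or.inr (List.mem_singleton_self _)))) h.basis (hvan' hh)
    · have h1 := insertS_length idx a.2.1 (headSys a.2.2) B
      have h2 := h.count
      simp only [List.length_cons] at h2 ⊢
      omega

theorem cut_inv (τ : ℕ → ℤ) {idx : List (List ℕ)} (hnd : idx.Nodup) (h0 : [] ∈ idx)
    {q d : ℕ} (l : List Item) (hl : ∀ a ∈ l, ItemOk idx q d a) :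
    ∃ B, CutInv τ idx q l (B, cut idx l) := by
  have key : ∀ (l : List Item) (pre : List Item) (s : List BE × List (List Item)),
      (∀ a ∈ l, ItemOk idx q d a) → CutInv τ idx q pre s →
      CutInv τ idx q (pre ++ l) (l.foldl (cutStep idx) s) := by
    intro l
    induction l with
    | nil => intro pre s _ h; simpa using h
    | cons a l ih =>
      intro pre s hl h
      have h1 := ih (pre ++ [a]) (cutStep idx s a) (fun b hb => hl b (List.mem_cons_of_mem _ hb))
        (cutStep_inv τ hnd h0 h (hl a (List.mem_cons_self ..)))
      rw [List.append_assoc] at h1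
      exact h1
  have h := key l [] ([], []) hl ⟨⟨by simp, List.Pairwise.nil⟩, rfl, trivial, by simp, by simp⟩
  exact ⟨(l.foldl (cutStep idx) ([], [])).1, h⟩

/-- the property of the pruned list: both neighbours of the boundary are kept -/
def Spec (τ : ℕ → ℤ) (l : List Item) (K : List (List Bool)) : Prop :=
  ∀ l₁ l₂, l = l₁ ++ l₂ → (∀ a ∈ l₁, Ft τ a = true) → (∀ a ∈ l₂, Ft τ a = false) →
    (∀ a, l₁.getLast? = some a → a.1 ∈ K) ∧ (∀ a, l₂.head? = some a → a.1 ∈ K)

theorem mem_itemsOf {J : List (List Item)} {a : Item} (h : a ∈ itemsOf J) : ∃ I ∈ J, a ∈ I := by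
  induction J with
  | nil => simp [itemsOf] at h
  | cons I J ih =>
    rw [itemsOf, List.mem_append] at h
    rcases h with h | h
    · obtain ⟨I', hI', ha⟩ := ih h
      exact ⟨I', List.mem_cons_of_mem _ hI', ha⟩
    · exact ⟨I, List.mem_cons_self .., List.mem_reverse.1 h⟩

theorem itemsOf_mem {J : List (List Item)} {a : Item} {I : List Item} (hI : I ∈ J) (h : a ∈ I) :
    a ∈ itemsOf J := by
  induction J with
  | nil => simp at hI
  | cons I' J ih =>
    rw [itemsOf, List.mem_append]
    rcases List.mem_cons.1 hI with rfl | hI
    · exact Or.inr (List.mem_reverse.2 h)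
    · exact Or.inl (ih hI)

theorem prune_spec (τ : ℕ → ℤ) {idx : List (List ℕ)} (hnd : idx.Nodup) (h0 : [] ∈ idx)
    {q : ℕ} : ∀ (d : ℕ) (l : List Item), (∀ a ∈ l, ItemOk idx q d a) →
      Spec τ l (prune d idx l) := by
  classical
  intro d
  induction d with
  | zero =>
    intro l hl l₁ l₂ hll h1 h2
    have hF : ∀ a ∈ l, Ft τ a = false := by
      intro a ha
      have h3 : a.2.2 = [] := List.length_eq_zero_iff.1 (by have := (hl a ha).len; omega)
      unfold Ft
      rw [h3]
      rfl
    cases l₁ with
    | nil =>
      refine ⟨by simp, ?_⟩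
      intro a ha
      rw [List.nil_append] at hll
      subst hll
      cases l with
      | nil => simp at ha
      | cons b l =>
        simp only [List.head?_cons, Option.some.injEq] at ha
        subst ha
        simp [prune]
    | cons b l₁ =>
      have h3 := h1 b (List.mem_cons_self ..)
      rw [hF b (by rw [hll]; simp)] at h3
      simp at h3
  | succ d ih =>
    intro l hl
    obtain ⟨B, hinv⟩ := cut_inv τ hnd h0 l hl
    have hok : ∀ I ∈ cut idx l, ∀ a ∈ I, ItemOk idx q (d + 1) a := by
      intro I hI a ha
      exact hl a (by rw [← hinv.items]; exact itemsOf_mem hI ha)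
    have key : ∀ J : List (List Item), Good τ J → (∀ I ∈ J, ∀ a ∈ I, ItemOk idx q (d + 1) a) →
        Spec τ (itemsOf J) (J.flatMap fun I =>
          (I.reverse.take 1).map (fun a => a.1) ++ prune d idx (I.map tl)) := by
      intro J
      induction J with
      | nil =>
        intro _ _ l₁ l₂ h _ _
        rw [itemsOf] at h
        obtain ⟨rfl, rfl⟩ := List.append_eq_nil_iff.1 h.symm
        exact ⟨by simp, by simp⟩
      | cons I J ihJ =>
        intro hG hokJ l₁ l₂ hll h1 h2
        obtain ⟨⟨I', a0, hI, hG1⟩, hG2⟩ := hG
        have hokI := hokJ I (List.mem_cons_self ..)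
        have ih1 := ihJ hG2 fun I hI => hokJ I (List.mem_cons_of_mem _ hI)
        have ih2 := ih (I.map tl) (by
          intro b hb
          obtain ⟨a, ha, rfl⟩ := List.mem_map.1 hb
          exact (hokI a ha).tl)
        have hrev : I.reverse = a0 :: I'.reverse := by
          rw [hI, List.reverse_append]
          rfl
        rw [itemsOf] at hll
        simp only [List.flatMap_cons, List.mem_append]
        rcases List.append_eq_append_iff.1 hll with ⟨m, hm1, hm2⟩ | ⟨m, hm1, hm2⟩
        · -- l₁ = itemsOf J ++ m, I.reverse = m ++ l₂
          cases m with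
          | nil =>
            rw [List.append_nil] at hm1
            rw [List.nil_append] at hm2
            have h3 := ih1 l₁ [] (by rw [hm1, List.append_nil]) h1 (by simp)
            refine ⟨fun a ha => Or.inr (h3.1 a ha), fun a ha => Or.inl (Or.inl ?_)⟩
            rw [← hm2, hrev, List.head?_cons, Option.some.injEq] at ha
            subst ha
            rw [hrev]
            simp
          | cons b m =>
            have hb : a0 = b := by
              rw [hrev, List.cons_append, List.cons.injEq] at hm2
              exact hm2.1
            subst hb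
            have hH : ∀ a ∈ l₁, Ht τ a := by
              intro a ha
              have h3 := h1 a ha
              have h4 : ItemOk idx q (d + 1) a := by
                rw [hm1] at ha
                rcases List.mem_append.1 ha with ha | ha
                · obtain ⟨I'', hI'', ha⟩ := mem_itemsOf ha
                  exact hokJ I'' (List.mem_cons_of_mem _ hI'') a ha
                · refine hokI a ?_
                  rw [← List.mem_reverse, hm2]
                  exact List.mem_append.2 (Or.inl ha)
              rw [Ft_eq τ h4.prime, Bool.and_eq_true, decide_eq_true_eq] at h3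
              exact h3.1
            have hHI : ∀ a ∈ I, Ht τ a := by
              refine hG1 (fun b hb => hH b ?_) (hH a0 ?_)
              · rw [hm1]; exact List.mem_append.2 (Or.inl hb)
              · rw [hm1]; exact List.mem_append.2 (Or.inr (List.mem_cons_self ..))
            have hFI : ∀ a ∈ I, Ft τ (tl a) = !Ft τ a := by
              intro a ha
              rw [Ft_eq τ (hokI a ha).prime, decide_eq_true (hHI a ha)]
              simp
            have hIrev : I.map tl = l₂.reverse.map tl ++ (a0 :: m).reverse.map tl := by
              rw [← List.map_append, ← List.reverse_append, ← hm2, List.reverse_reverse]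
            have h3 := ih2 _ _ hIrev (by
              intro b hb
              obtain ⟨a, ha, rfl⟩ := List.mem_map.1 hb
              have ha' := List.mem_reverse.1 ha
              rw [hFI a (by rw [← List.mem_reverse, hm2]; exact List.mem_append.2 (Or.inr ha')),
                h2 a ha']
              rfl) (by
              intro b hb
              obtain ⟨a, ha, rfl⟩ := List.mem_map.1 hb
              have ha' := List.mem_reverse.1 ha
              rw [hFI a (by rw [← List.mem_reverse, hm2]; exact List.mem_append.2 (Or.inl ha')),
                h1 a (by rw [hm1]; exact List.mem_append.2 (Or.inr ha'))]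
              rfl)
            refine ⟨fun a ha => Or.inl (Or.inr ?_), fun a ha => Or.inl (Or.inr ?_)⟩
            · refine h3.2 (tl a) ?_
              rw [List.head?_map, List.head?_reverse]
              rw [hm1, List.getLast?_append] at ha
              have h4 : (a0 :: m).getLast? = some a := by
                cases h5 : (a0 :: m).getLast? with
                | none => simp at h5
                | some c => rw [h5] at ha; simpa using ha
              rw [h4]
              rfl
            · refine h3.1 (tl a) ?_
              rw [List.getLast?_map, List.getLast?_reverse, ha]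
              rfl
        · -- itemsOf J = l₁ ++ m, l₂ = m ++ I.reverse
          have h3 := ih1 l₁ m hm1 h1 fun a ha => h2 a (by
            rw [hm2]; exact List.mem_append.2 (Or.inl ha))
          refine ⟨fun a ha => Or.inr (h3.1 a ha), fun a ha => ?_⟩
          cases m with
          | nil =>
            rw [List.nil_append] at hm2
            refine Or.inl (Or.inl ?_)
            rw [hm2, hrev, List.head?_cons, Option.some.injEq] at ha
            subst ha
            rw [hrev]
            simp
          | cons b m =>
            refine Or.inr (h3.2 a ?_)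
            rw [hm2] at ha
            simpa using ha
    have h3 := key (cut idx l) hinv.good hok
    rw [hinv.items] at h3
    exact h3

theorem prune_length (τ : ℕ → ℤ) {idx : List (List ℕ)} (hnd : idx.Nodup) (h0 : [] ∈ idx)
    {q : ℕ} : ∀ (d : ℕ) (l : List Item), (∀ a ∈ l, ItemOk idx q d a) →
      (prune d idx l).length ≤ (2 * ((q + 1) * idx.length + 1)) ^ d := by
  intro d
  induction d with
  | zero =>
    intro l _
    simp [prune]
  | succ d ih =>
    intro l hl
    obtain ⟨B, hinv⟩ := cut_inv τ hnd h0 l hl
    have hok : ∀ I ∈ cut idx l, ∀ a ∈ I, ItemOk idx q (d + 1) a := by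
      intro I hI a ha
      exact hl a (by rw [← hinv.items]; exact itemsOf_mem hI ha)
    have hcount : (cut idx l).length ≤ (q + 1) * idx.length + 1 := by
      have h1 := hinv.count
      have h2 := hinv.basis.length_le
      simp only at h1 h2
      omega
    generalize hR : (q + 1) * idx.length + 1 = R at *
    have h1 : ∀ I ∈ cut idx l, ((I.reverse.take 1).map (fun a => a.1) ++
        prune d idx (I.map tl)).length ≤ 2 * (2 * R) ^ d := by
      intro I hI
      have h2 := ih (I.map tl) (by
        intro b hb
        obtain ⟨a, ha, rfl⟩ := List.mem_map.1 hb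
        exact (hok I hI a ha).tl)
      rw [List.length_append, List.length_map, List.length_take]
      have h3 : 1 ≤ (2 * R) ^ d := Nat.one_le_pow _ _ (by omega)
      omega
    rw [prune, List.length_flatMap]
    have h2 : (List.map (fun I : List Item => ((I.reverse.take 1).map (fun a => a.1) ++
        prune d idx (I.map tl)).length) (cut idx l)).sum ≤
        (cut idx l).length * (2 * (2 * R) ^ d) := by
      have := List.sum_le_card_nsmul (List.map (fun I : List Item =>
        ((I.reverse.take 1).map (fun a => a.1) ++ prune d idx (I.map tl)).length) (cut idx l))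
        (2 * (2 * R) ^ d) (by
          intro x hx
          obtain ⟨I, hI, rfl⟩ := List.mem_map.1 hx
          exact h1 I hI)
      simpa using this
    refine h2.trans ((Nat.mul_le_mul_right _ hcount).trans ?_)
    rw [pow_succ]
    apply le_of_eq
    ring

end Pool.Agent.SparseNP
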