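import Pool.Agent.Lib.MP_69a69c_lc.Defs

/-!
# Reductions to a tally advice only
-/

namespace Pool.Agent.SparseNP

open Pool.Agent.PolyTime

/-- All polynomials of the system `Z` vanish modulo `p` at `τ`. -/
def Holds (τ : ℕ → ℤ) (p : ℕ) (Z : List (List (ℕ × List ℕ))) : Prop :=
  ∀ P ∈ Z, (p : ℤ) ∣ value τ P

open Classical in
/-- The truth values of the systems in the list `Zs`. -/
noncomputable def pattern (τ : ℕ → ℤ) (p : ℕ) (Zs : List (List (List (ℕ × List ℕ)))) :
    List Bool :=
  Zs.map fun Z => decide (Holds τ p Z)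

/-- `L` is reducible to `τ` by bounded Boolean combinations of systems of polynomial congruences of
bounded degree: a polynomial-time function maps `x` to a prime `p ≤ q(|x|)` and `D` systems (finite
lists, of any length) of polynomials of degree at most `k` in the variables `X_i`, `i ≤ q(|x|)`, and
`x ∈ L` iff the fixed Boolean function `β` is true at the `D` truth values `[system number j
vanishes modulo p at τ]`. The numbers `D`, `k`, the polynomial `q` and the function `β` depend on
`L` only. -/
def Reducible (τ : ℕ → ℤ) (L : Set (List Bool)) : Prop :=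
  ∃ (D k : ℕ) (q : Polynomial ℕ) (β : List Bool → Bool)
    (f : List Bool → ℕ × List (List (List (ℕ × List ℕ)))),
    IsPolyTime (enc : List Bool → Pool.Agent.PolyTime.D)
      (enc : ℕ × List (List (List (ℕ × List ℕ))) → Pool.Agent.PolyTime.D) f ∧
    ∀ x, (f x).1.Prime ∧ (f x).1 ≤ q.eval x.length ∧ (f x).2.length = D ∧
      (∀ Z ∈ (f x).2, ∀ P ∈ Z, ∀ t ∈ P, t.2.length ≤ k ∧ ∀ i ∈ t.2, i ≤ q.eval x.length) ∧
      (x ∈ L ↔ β (pattern τ (f x).1 (f x).2) = true)

end Pool.Agent.SparseNP
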