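import Pool.Agent.Lib.MP_69a69c_lc.Prune
import Pool.Agent.Lib.PolyTime.Arith
import Pool.Agent.Lib.PolyTime.Codes
import Pool.Agent.Lib.PolyTime.Finite

/-!
# The pruning procedure runs in polynomial time
-/

namespace Pool.Agent.SparseNP

open Pool.Agent.PolyTime

section
variable {α : Type} [Enc α]

theorem sum_lt (l : List ℕ) : l.sum < 2 ^ size (enc l) := by
  induction l with
  | nil => simp
  | cons a l ih =>
    rw [List.sum_cons, size_lcons]
    have h1 := lt_two_pow_size a
    have h2 : 2 ^ (size (enc a) + size (enc l) + 1) =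
        2 ^ size (enc a) * 2 ^ size (enc l) * 2 := by rw [pow_succ, pow_add]
    rw [h2]
    have h3 : 1 ≤ 2 ^ size (enc a) := Nat.one_le_two_pow
    have h4 : 1 ≤ 2 ^ size (enc l) := Nat.one_le_two_pow
    nlinarith

theorem ptime_sum {f : α → List ℕ} (hf : PTime f) : PTime (fun x => (f x).sum) := by
  have h : PTime (fun l : List ℕ => l.foldl (fun s a => s + a) 0) := by
    refine PTime.foldl (h := fun (_ : List ℕ) s a => s + a) PTime.id (PTime.const 0)
      ((PTime.fst' PTime.snd).add (PTime.snd' PTime.snd)) (B := fun n => 4 * n + 1)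
      (((PBd.const 4).mul PBd.id).add (PBd.const 1)) ?_
    intro a l₁ l₂ h
    have h1 : l₁.foldl (fun s a => s + a) 0 = l₁.sum := by
      rw [List.sum_eq_foldl]
    rw [h1]
    refine (size_nat_le_of_lt (sum_lt l₁)).trans ?_
    have h2 : size (enc l₁) ≤ size (enc a) := size_sublist (by
      change a = l₁ ++ l₂ at h
      rw [h]; exact List.sublist_append_left _ _)
    omega
  refine (h.comp hf).of_eq fun x => ?_
  rw [List.sum_eq_foldl]

theorem ptime_md {f g : α → ℕ} (hf : PTime f) (hg : PTime g) :
    PTime (fun x => md (f x) (g x)) := by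
  unfold md
  exact PTime.iteP (PTime.eq hg (PTime.const 0)) (PTime.const 0) (PTime.mod hf hg)

theorem md_size (a p : ℕ) : size (enc (md a p)) ≤ 4 * size (enc p) + 1 := by
  unfold md
  split
  · have := size_nat_le 0
    omega
  · rename_i h
    exact size_nat_le_of_lt ((Nat.mod_lt a (Nat.pos_of_ne_zero h)).trans (lt_two_pow_size p))

theorem ptime_coef : PTime (fun x : List (ℕ × List ℕ) × List ℕ => coef x.1 x.2) := by
  unfold coef
  refine ptime_sum (PTime.map (g := fun (_ : List (ℕ × List ℕ) × List ℕ) (t : ℕ × List ℕ) => t.1)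
    (PTime.filter (g := fun (x : List (ℕ × List ℕ) × List ℕ) (t : ℕ × List ℕ) =>
      decide (t.2 = x.2)) PTime.fst ?_) (PTime.fst' PTime.snd))
  exact PTime.eq (PTime.snd' PTime.snd) (PTime.snd' PTime.fst)

theorem ptime_dense {f : α → List (List ℕ)} {g : α → ℕ} {h : α → List (ℕ × List ℕ)}
    (hf : PTime f) (hg : PTime g) (hh : PTime h) :
    PTime (fun x => dense (f x) (g x) (h x)) := by
  unfold dense
  exact PTime.map (g := fun (x : α) (M : List ℕ) => md (coef (h x) M) (g x)) hf
    (ptime_md (ptime_coef.comp ((hh.comp PTime.fst).pair PTime.snd)) (hg.comp PTime.fst))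

theorem ptime_red {f : α → BE} {g : α → ℕ} {h : α → List ℕ} (hf : PTime f) (hg : PTime g)
    (hh : PTime h) : PTime (fun x => red (f x) (g x) (h x)) := by
  unfold red
  have hw : PTime (fun x => (f x).2.2.getD (f x).2.1 0) :=
    PTime.listGetD hf.snd'.snd' hf.snd'.fst' (PTime.const 0)
  have hv : PTime (fun x => (h x).getD (f x).2.1 0) :=
    PTime.listGetD hh hf.snd'.fst' (PTime.const 0)
  refine PTime.iteP (PTime.eq hf.fst' hg) (PTime.map (g := fun (x : α) (t : ℕ × ℕ) =>
      md (t.1 * ((f x).2.2.getD (f x).2.1 0) + (g x - (h x).getD (f x).2.1 0) * t.2) (g x))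
    (PTime.zip hh hf.snd'.snd') ?_) hh
  refine ptime_md ?_ (hg.comp PTime.fst)
  exact ((PTime.fst' PTime.snd).mul (hw.comp PTime.fst)).add
    (((hg.comp PTime.fst).sub (hv.comp PTime.fst)).mul (PTime.snd' PTime.snd))

/-- size bound for vectors -/
def vecBd (n s : ℕ) : ℕ := n * (4 * s + 2) + 1

theorem reduce_or (B : List BE) (p : ℕ) : ∀ v : List ℕ, reduce B p v = v ∨
    ((reduce B p v).length ≤ v.length ∧ ∀ e ∈ reduce B p v, size (enc e) ≤
      4 * size (enc p) + 1) := by
  induction B with
  | nil => intro v; exact Or.inl rfl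
  | cons b B ih =>
    intro v
    have h1 : red b p v = v ∨ ((red b p v).length ≤ v.length ∧
        ∀ e ∈ red b p v, size (enc e) ≤ 4 * size (enc p) + 1) := by
      unfold red
      split
      · right
        refine ⟨by simp, ?_⟩
        intro e he
        obtain ⟨t, _, rfl⟩ := List.mem_map.1 he
        exact md_size _ _
      · exact Or.inl rfl
    change reduce B p (red b p v) = v ∨ ((reduce B p (red b p v)).length ≤ v.length ∧
        ∀ e ∈ reduce B p (red b p v), size (enc e) ≤ 4 * size (enc p) + 1)
    rcases ih (red b p v) with h2 | h2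
    · rw [h2]; exact h1
    · right
      refine ⟨h2.1.trans ?_, h2.2⟩
      rcases h1 with h1 | h1
      · rw [h1]
      · exact h1.1

theorem reduce_size (B : List BE) (p : ℕ) (v : List ℕ) :
    size (enc (reduce B p v)) ≤ size (enc v) + vecBd v.length (size (enc p)) := by
  rcases reduce_or B p v with h | ⟨h1, h2⟩
  · rw [h]; omega
  · have h3 := size_list_le _ _ h2
    have h4 : (reduce B p v).length * (4 * size (enc p) + 1 + 1) ≤
        v.length * (4 * size (enc p) + 2) := Nat.mul_le_mul_right _ h1
    unfold vecBd
    omega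

theorem vecBd_mono {n n' s s' : ℕ} (hn : n ≤ n') (hs : s ≤ s') : vecBd n s ≤ vecBd n' s' := by
  unfold vecBd
  have := Nat.mul_le_mul hn (show 4 * s + 2 ≤ 4 * s' + 2 by omega)
  omega

theorem pbd_vecBd : PBd fun n => vecBd n n :=
  (PBd.id.mul (((PBd.const 4).mul PBd.id).add (PBd.const 2))).add (PBd.const 1)

theorem ptime_reduce {f : α → List BE} {g : α → ℕ} {h : α → List ℕ} (hf : PTime f)
    (hg : PTime g) (hh : PTime h) : PTime (fun x => reduce (f x) (g x) (h x)) := by
  have key : PTime (fun x : List BE × (ℕ × List ℕ) => reduce x.1 x.2.1 x.2.2) := by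
    unfold reduce
    refine PTime.foldl (h := fun (x : List BE × (ℕ × List ℕ)) v b => red b x.2.1 v) PTime.fst
      (PTime.snd' PTime.snd) ?_ (B := fun n => n + vecBd n n) (PBd.id.add pbd_vecBd) ?_
    · exact ptime_red (PTime.snd' PTime.snd) (PTime.fst' (PTime.snd' PTime.fst))
        (PTime.fst' PTime.snd)
    · intro a l₁ l₂ _
      refine (reduce_size l₁ a.2.1 a.2.2).trans ?_
      have h1 : size (enc a) = size (enc a.1) + (size (enc a.2.1) + size (enc a.2.2) + 1) + 1 := by
        rw [← size_pair, ← size_pair]
      have h2 := length_le_size a.2.2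
      have h3 : vecBd a.2.2.length (size (enc a.2.1)) ≤ vecBd (size (enc a)) (size (enc a)) :=
        vecBd_mono (by omega) (by omega)
      omega
  exact key.comp (hf.pair (hg.pair hh))

theorem ptime_pivot {f : α → List ℕ} (hf : PTime f) : PTime (fun x => pivot (f x)) := by
  unfold pivot
  refine PTime.find? (g := fun (x : α) (j : ℕ) => decide ((f x).getD j 0 ≠ 0))
    (PTime.rangeLength hf) ?_
  exact PTime.notP (PTime.eq (PTime.listGetD (hf.comp PTime.fst) PTime.snd (PTime.const 0))
    (PTime.const 0))

theorem ptime_insertP {f : α → List (List ℕ)} {g : α → ℕ} {h : α → List BE}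
    {k : α → List (ℕ × List ℕ)} (hf : PTime f) (hg : PTime g) (hh : PTime h) (hk : PTime k) :
    PTime (fun x => insertP (f x) (g x) (h x) (k x)) := by
  have hr : PTime (fun x => reduce (h x) (g x) (dense (f x) (g x) (k x))) :=
    ptime_reduce hh hg (ptime_dense hf hg hk)
  have h1 := PTime.option_cases (h := fun p : α × ℕ => h p.1 ++
    [(g p.1, (p.2, reduce (h p.1) (g p.1) (dense (f p.1) (g p.1) (k p.1))))]) (ptime_pivot hr) hh
    ((hh.comp PTime.fst).append (((hg.comp PTime.fst).pair
      (PTime.snd.pair (hr.comp PTime.fst))).cons (PTime.const [])))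
  refine h1.of_eq fun x => ?_
  unfold insertP
  cases pivot (reduce (h x) (g x) (dense (f x) (g x) (k x))) <;> rfl

/-- size of a new basis element -/
def elBd (n s : ℕ) : ℕ := s + 4 * n + 3 * vecBd n s + 10

theorem elBd_mono {n n' s s' : ℕ} (hn : n ≤ n') (hs : s ≤ s') : elBd n s ≤ elBd n' s' := by
  unfold elBd
  have := vecBd_mono hn hs
  omega

theorem pbd_elBd : PBd fun n => elBd n n :=
  (((PBd.id.add ((PBd.const 4).mul PBd.id)).add ((PBd.const 3).mul pbd_vecBd)).add
    (PBd.const 10))

theorem insertP_size (idx : List (List ℕ)) (p : ℕ) (B : List BE) (P : List (ℕ × List ℕ)) :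
    size (enc (insertP idx p B P)) ≤ size (enc B) + elBd idx.length (size (enc p)) := by
  unfold insertP
  split
  · omega
  · rename_i j hj
    have h1 := size_append B [(p, (j, reduce B p (dense idx p P)))]
    rw [size_lcons, enc_nil, size_nil, size_pair, size_pair] at h1
    have h2 := reduce_size B p (dense idx p P)
    have h3 : size (enc (dense idx p P)) ≤ vecBd idx.length (size (enc p)) := by
      have := size_list_le (dense idx p P) (4 * size (enc p) + 1) (by
        intro e he
        obtain ⟨M, _, rfl⟩ := List.mem_map.1 he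
        exact md_size _ _)
      rw [dense_length] at this
      unfold vecBd
      exact this
    rw [dense_length] at h2
    have h4 := (pivot_some hj).1
    have h5 : (reduce B p (dense idx p P)).length ≤ idx.length := by
      rcases reduce_or B p (dense idx p P) with h | h
      · rw [h, dense_length]
      · exact h.1.trans (dense_length _ _ _).le
    have h6 := size_nat_le j
    unfold elBd
    omega

theorem insertS_size (idx : List (List ℕ)) (p : ℕ) (Z : List (List (ℕ × List ℕ))) :
    ∀ B : List BE, size (enc (insertS idx p B Z)) ≤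
      size (enc B) + Z.length * elBd idx.length (size (enc p)) := by
  induction Z with
  | nil => intro B; simp [insertS]
  | cons P Z ih =>
    intro B
    rw [insertS_cons, List.length_cons, Nat.add_one_mul]
    have h1 := ih (insertP idx p B P)
    have h2 := insertP_size idx p B P
    omega

theorem ptime_insertS {f : α → List (List ℕ)} {g : α → ℕ} {h : α → List BE}
    {k : α → List (List (ℕ × List ℕ))} (hf : PTime f) (hg : PTime g) (hh : PTime h)
    (hk : PTime k) : PTime (fun x => insertS (f x) (g x) (h x) (k x)) := by
  have key : PTime (fun x : List (List ℕ) × (ℕ × (List BE × List (List (ℕ × List ℕ)))) =>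
      insertS x.1 x.2.1 x.2.2.1 x.2.2.2) := by
    unfold insertS
    refine PTime.foldl (h := fun (x : List (List ℕ) × (ℕ × (List BE × List (List (ℕ × List ℕ)))))
      B P => insertP x.1 x.2.1 B P) (PTime.snd' (PTime.snd' PTime.snd))
      (PTime.fst' (PTime.snd' PTime.snd)) ?_ (B := fun n => n + n * elBd n n)
      (PBd.id.add (PBd.id.mul pbd_elBd)) ?_
    · exact ptime_insertP (PTime.fst' PTime.fst) (PTime.fst' (PTime.snd' PTime.fst))
        (PTime.fst' PTime.snd) (PTime.snd' PTime.snd)
    · intro a l₁ l₂ h
      refine (insertS_size a.1 a.2.1 l₁ a.2.2.1).trans ?_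
      have h1 : size (enc a) = size (enc a.1) + (size (enc a.2.1) + (size (enc a.2.2.1) +
          size (enc a.2.2.2) + 1) + 1) + 1 := by
        rw [← size_pair, ← size_pair, ← size_pair]
      have h2 := length_le_size a.2.2.2
      have h3 := length_le_size a.1
      have h4 : l₁.length ≤ a.2.2.2.length := by rw [h]; simp
      have h5 : l₁.length * elBd a.1.length (size (enc a.2.1)) ≤
          size (enc a) * elBd (size (enc a)) (size (enc a)) :=
        Nat.mul_le_mul (by omega) (elBd_mono (by omega) (by omega))
      omega
  exact key.comp (hf.pair (hg.pair (hh.pair hk)))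

theorem ptime_headSys {f : α → List (List (List (ℕ × List ℕ)))} (hf : PTime f) :
    PTime (fun x => headSys (f x)) := by
  refine (PTime.getD hf.head? (PTime.const falseSys)).of_eq fun x => ?_
  unfold headSys
  cases f x <;> rfl

theorem ptime_cutStep {f : α → List (List ℕ)} {g : α → List BE × List (List Item)}
    {h : α → Item} (hf : PTime f) (hg : PTime g) (hh : PTime h) :
    PTime (fun x => cutStep (f x) (g x) (h x)) := by
  have hi : PTime (fun x => insertS (f x) (h x).2.1 (g x).1 (headSys (h x).2.2)) :=
    ptime_insertS hf hh.snd'.fst' hg.fst' (ptime_headSys hh.snd'.snd')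
  have hm := PTime.list_cases (f := fun x => (g x).2) (g := fun x => ((g x).1, [[h x]]))
    (h := fun p : α × (List Item × List (List Item)) => ((g p.1).1, (h p.1 :: p.2.1) :: p.2.2))
    hg.snd' (hg.fst'.pair ((hh.cons (PTime.const [])).cons (PTime.const [])))
    (((hg.comp PTime.fst).fst').pair (((hh.comp PTime.fst).cons (PTime.fst' PTime.snd)).cons
      (PTime.snd' PTime.snd)))
  refine (PTime.iteP (PTime.eq hi.length hg.fst'.length) hm
    (hi.pair ((hh.cons (PTime.const [])).cons hg.snd'))).of_eq fun x => ?_
  unfold cutStep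
  cases (g x).2 <;> rfl

theorem cutStep_size (idx : List (List ℕ)) (s : List BE × List (List Item)) (a : Item) :
    size (enc (cutStep idx s a)) ≤ size (enc s) + size (enc a) + 3 +
      (headSys a.2.2).length * elBd idx.length (size (enc a.2.1)) := by
  obtain ⟨B, acc⟩ := s
  have h1 := insertS_size idx a.2.1 (headSys a.2.2) B
  unfold cutStep
  simp only
  split
  · cases acc with
    | nil =>
      simp only [size_pair, size_lcons, enc_nil, size_nil]
      omega
    | cons I rest =>
      simp only [size_pair, size_lcons]
      omega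
  · simp only [size_pair, size_lcons, enc_nil, size_nil]
    omega

theorem headSys_length (Us : List (List (List (ℕ × List ℕ)))) :
    (headSys Us).length ≤ size (enc Us) := by
  unfold headSys
  cases Us with
  | nil =>
    rw [List.headD_nil]
    have := size_pos (enc ([] : List (List (List (ℕ × List ℕ)))))
    simp only [falseSys, List.length_cons, List.length_nil]
    omega
  | cons U Us =>
    rw [List.headD_cons, size_lcons]
    have := length_le_size U
    omega

theorem ptime_cut {f : α → List (List ℕ)} {g : α → List Item} (hf : PTime f) (hg : PTime g) :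
    PTime (fun x => cut (f x) (g x)) := by
  have key : PTime (fun x : List (List ℕ) × List Item =>
      x.2.foldl (fun s a => cutStep x.1 s a) ([], [])) := by
    refine PTime.foldl (h := fun (x : List (List ℕ) × List Item) s a => cutStep x.1 s a)
      PTime.snd (PTime.const ([], [])) ?_ (B := fun n => 3 + n * (n + 3 + n * elBd n n))
      ((PBd.const 3).add (PBd.id.mul ((PBd.id.add (PBd.const 3)).add (PBd.id.mul pbd_elBd)))) ?_
    · exact ptime_cutStep (PTime.fst' PTime.fst) (PTime.fst' PTime.snd) (PTime.snd' PTime.snd)
    · intro x l₁ l₂ h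
      have hx : size (enc x) = size (enc x.1) + size (enc x.2) + 1 := by rw [← size_pair]
      have h3 := length_le_size x.1
      have gen : ∀ (l : List Item) (s : List BE × List (List Item)), (∀ a ∈ l, a ∈ x.2) →
          size (enc (l.foldl (fun s a => cutStep x.1 s a) s)) ≤ size (enc s) +
            l.length * (size (enc x) + 3 + size (enc x) * elBd (size (enc x))
              (size (enc x))) := by
        intro l
        induction l with
        | nil => intro s _; simp
        | cons a l ih =>
          intro s hl
          rw [List.foldl_cons, List.length_cons, Nat.add_one_mul]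
          have h4 := ih (cutStep x.1 s a) fun b hb => hl b (List.mem_cons_of_mem _ hb)
          have h5 := cutStep_size x.1 s a
          have h6 := size_le_of_mem (hl a (List.mem_cons_self ..))
          have h7 : size (enc a) = size (enc a.1) + (size (enc a.2.1) + size (enc a.2.2) + 1)
              + 1 := by rw [← size_pair, ← size_pair]
          have h8 := headSys_length a.2.2
          have h9 : (headSys a.2.2).length * elBd x.1.length (size (enc a.2.1)) ≤
              size (enc x) * elBd (size (enc x)) (size (enc x)) :=
            Nat.mul_le_mul (by omega) (elBd_mono (by omega) (by omega))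
          omega
      refine (gen l₁ ([], []) fun a ha => by rw [h]; exact List.mem_append.2 (Or.inl ha)).trans ?_
      have h4 : l₁.length ≤ x.2.length := by rw [h]; simp
      have h5 := length_le_size x.2
      have h6 : l₁.length * (size (enc x) + 3 + size (enc x) * elBd (size (enc x))
              (size (enc x))) ≤ size (enc x) * (size (enc x) + 3 + size (enc x) *
              elBd (size (enc x)) (size (enc x))) := Nat.mul_le_mul_right _ (by omega)
      have h7 : size (enc (([], []) : List BE × List (List Item))) = 3 := by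
        rw [size_pair, enc_nil, enc_nil, size_nil]
      omega
  exact (key.comp (hf.pair hg)).snd'

theorem ptime_prune : ∀ (d : ℕ) {α : Type} [Enc α] {f : α → List (List ℕ)} {g : α → List Item},
    PTime f → PTime g → PTime (fun x => prune d (f x) (g x)) := by
  intro d
  induction d with
  | zero =>
    intro α _ f g hf hg
    exact PTime.map (g := fun (_ : α) (a : Item) => a.1) (PTime.take hg (PTime.const 1))
      (PTime.fst' PTime.snd)
  | succ d ih =>
    intro α _ f g hf hg
    refine PTime.flatMap (g := fun (x : α) (I : List Item) =>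
      (I.reverse.take 1).map (fun a => a.1) ++ prune d (f x) (I.map tl)) (ptime_cut hf hg) ?_
    refine PTime.append ?_ ?_
    · exact PTime.map (g := fun (_ : α × List Item) (a : Item) => a.1)
        (PTime.take PTime.snd.reverse (PTime.const 1)) (PTime.fst' PTime.snd)
    · refine ih (hf.comp PTime.fst) ?_
      exact PTime.map (g := fun (_ : α × List Item) (a : Item) => tl a) PTime.snd
        ((PTime.fst' PTime.snd).pair ((PTime.fst' (PTime.snd' PTime.snd)).pair
          (PTime.snd' (PTime.snd' PTime.snd)).tail))

/-! ### conversion of the systems -/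

theorem ptime_mulP {f g : α → List (ℕ × List ℕ)} (hf : PTime f) (hg : PTime g) :
    PTime (fun x => mulP (f x) (g x)) := by
  unfold mulP
  refine PTime.flatMap (g := fun (x : α) (s : ℕ × List ℕ) =>
    (g x).map fun t => (s.1 * t.1, s.2 ++ t.2)) hf ?_
  refine PTime.map (g := fun (y : α × (ℕ × List ℕ)) (t : ℕ × List ℕ) =>
    (y.2.1 * t.1, y.2.2 ++ t.2)) (hg.comp PTime.fst) ?_
  exact ((PTime.fst' (PTime.snd' PTime.fst)).mul (PTime.fst' PTime.snd)).pair
    ((PTime.snd' (PTime.snd' PTime.fst)).append (PTime.snd' PTime.snd))

theorem ptime_un {f g : α → List (List (ℕ × List ℕ))} (hf : PTime f) (hg : PTime g) :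
    PTime (fun x => un (f x) (g x)) := by
  unfold un
  refine PTime.flatMap (g := fun (x : α) (P : List (ℕ × List ℕ)) =>
    (g x).map fun Q => mulP P Q) hf ?_
  exact PTime.map (g := fun (y : α × List (ℕ × List ℕ)) (Q : List (ℕ × List ℕ)) => mulP y.2 Q)
    (hg.comp PTime.fst) (ptime_mulP (PTime.snd' PTime.fst) PTime.snd)

theorem ptime_insN : ∀ (N : ℕ) {α : Type} [Enc α] {f : α → List (List (ℕ × List ℕ))}
    {g : α → List (List (List (ℕ × List ℕ)))}, PTime f → PTime g →
    PTime (fun x => insN N (f x) (g x)) := by
  intro N
  induction N with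
  | zero => intro α _ f g hf _; exact hf.cons (PTime.const [])
  | succ N ih =>
    intro α _ f g hf hg
    refine (PTime.list_cases (h := fun p : α × (List (List (ℕ × List ℕ)) ×
      List (List (List (ℕ × List ℕ)))) => un p.2.1 (f p.1) :: insN N (p.2.1 ++ f p.1) p.2.2)
      hg (hf.cons (PTime.const [])) ?_).of_eq fun x => ?_
    · exact (ptime_un (PTime.fst' PTime.snd) (hf.comp PTime.fst)).cons
        (ih ((PTime.fst' PTime.snd).append (hf.comp PTime.fst)) (PTime.snd' PTime.snd))
    · cases h : g x <;> rfl

theorem ptime_nestN : ∀ (N : ℕ) {α : Type} [Enc α] {g : α → List (List (List (ℕ × List ℕ)))},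
    PTime g → PTime (fun x => nestN N (g x)) := by
  intro N
  induction N with
  | zero => intro α _ g _; exact PTime.const []
  | succ N ih =>
    intro α _ g hg
    refine (PTime.list_cases (h := fun p : α × (List (List (ℕ × List ℕ)) ×
      List (List (List (ℕ × List ℕ)))) => insN N p.2.1 (nestN N p.2.2))
      hg (PTime.const []) ?_).of_eq fun x => ?_
    · exact ptime_insN N (PTime.fst' PTime.snd) (ih (PTime.snd' PTime.snd))
    · cases h : g x <;> rfl

theorem ptime_expand : ∀ (σ : List Bool) {α : Type} [Enc α]
    {g : α → List (List (List (ℕ × List ℕ)))}, PTime g → PTime (fun x => expand σ (g x)) := by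
  intro σ
  induction σ with
  | nil =>
    intro α _ g hg
    refine (PTime.list_cases (h := fun _ : α × (List (List (ℕ × List ℕ)) ×
      List (List (List (ℕ × List ℕ)))) => ([] : List (List (List (ℕ × List ℕ)))))
      hg (PTime.const [[]]) (PTime.const [])).of_eq fun x => ?_
    cases h : g x <;> rfl
  | cons s σ ih =>
    intro α _ g hg
    have h1 : PTime (fun p : α × (List (List (ℕ × List ℕ)) ×
        List (List (List (ℕ × List ℕ)))) => (expand σ p.2.2).map fun Y => p.2.1 ++ Y) :=
      PTime.map (g := fun (p : α × (List (List (ℕ × List ℕ)) ×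
        List (List (List (ℕ × List ℕ))))) (Y : List (List (ℕ × List ℕ))) => p.2.1 ++ Y)
        (ih (PTime.snd' PTime.snd)) ((PTime.fst' (PTime.snd' PTime.fst)).append PTime.snd)
    cases s with
    | true =>
      refine (PTime.list_cases (h := fun p : α × (List (List (ℕ × List ℕ)) ×
        List (List (List (ℕ × List ℕ)))) => (expand σ p.2.2).map fun Y => p.2.1 ++ Y)
        hg (PTime.const []) h1).of_eq fun x => ?_
      cases h : g x <;> rfl
    | false =>
      refine (PTime.list_cases (h := fun p : α × (List (List (ℕ × List ℕ)) ×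
        List (List (List (ℕ × List ℕ)))) => expand σ p.2.2 ++
          (expand σ p.2.2).map fun Y => p.2.1 ++ Y)
        hg (PTime.const []) ((ih (PTime.snd' PTime.snd)).append h1)).of_eq fun x => ?_
      cases h : g x <;> rfl

theorem ptime_conv (β : List Bool → Bool) (D : ℕ) {g : α → List (List (List (ℕ × List ℕ)))}
    (hg : PTime g) : PTime (fun x => conv β D (g x)) :=
  ptime_nestN _ (PTime.constFlatMap (acc β D) (f := fun σ x => expand σ (g x))
    fun σ _ => ptime_expand σ hg)

theorem ptime_monos : ∀ (k : ℕ) {α : Type} [Enc α] {g : α → List ℕ}, PTime g →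
    PTime (fun x => monos k (g x)) := by
  intro k
  induction k with
  | zero => intro α _ g _; exact PTime.const [[]]
  | succ k ih =>
    intro α _ g hg
    refine PTime.cons (PTime.const []) (PTime.flatMap (g := fun (x : α) (i : ℕ) =>
      (monos k (g x)).map fun M => i :: M) hg ?_)
    exact PTime.map (g := fun (y : α × ℕ) (M : List ℕ) => y.2 :: M)
      (ih (hg.comp PTime.fst)) ((PTime.snd' PTime.fst).cons PTime.snd)

end

end Pool.Agent.SparseNP
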